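import Pool.Agent.VPF.CodI1

/-!
# Infinitary logic with three variables is as hard as the full infinitary logic

`thm_CI`: if Vaught's conjecture holds for the formulas of infinitary logic with three variables,
in languages with only unary and binary relation symbols, then it holds for the classes of models
of `T` and `φ`, `T` a first-order theory and `φ` a sentence of infinitary logic, in every countable
relational language.
-/

set_option autoImplicit false

namespace VPF.CC

open FirstOrder Set Pool.Agent.Helper6.Str Pool.Agent.Helper5.DU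
open FirstOrder.Language

variable {L : FirstOrder.Language.{0, 0}}

theorem good_iso {T : L.Theory} {M M' : Type} {S : (LC L).Structure M} {S' : (LC L).Structure M'}
    (hI : Iso S S') (hS : Good T S) : Good T S' := by
  have hne : Nonempty M := ⟨hS.zero.choose⟩
  obtain ⟨e, he⟩ := hI
  have hne' : Nonempty M' := hne.map e
  rw [← model_T1] at hS ⊢
  let _ := S
  let _ := S'
  let E : M ≃[LC L] M' :=
    { toEquiv := e
      map_fun' := fun {n} f _ => (inferInstance : IsEmpty ((LC L).Functions n)).elim f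
      map_rel' := fun {n} R v => (he n R v).symm }
  exact (StrongHomClass.elementarilyEquivalent E).theory_model_iff.1 hS

theorem sat_equiv {M M' : Type} {S : L.Structure M} {S' : L.Structure M'}
    (h : Nonempty (@FirstOrder.Language.Equiv L M M' S S')) (φ : FmI L 0) :
    Sat S φ Fin.elim0 ↔ Sat S' φ Fin.elim0 := by
  obtain ⟨E⟩ := h
  have hR : RelIso S S' E.toEquiv := fun n R v => (E.map_rel' R v).symm
  refine sat_of_BF φ _ _ (BF.of_relIso hR _ ?_)
  rintro _ ⟨i, _⟩
  exact i.elim0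

theorem Kc_iso {T : L.Theory} {φ : FmI L 0} {M M' : Type} {S : (LC L).Structure M}
    {S' : (LC L).Structure M'} (hI : Iso S S') (h : Kc T φ S) : Kc T φ S' := by
  obtain ⟨hG, h1, h2⟩ := h
  have hG' : Good (Tp T) S' := good_iso hI hG
  refine ⟨hG', ?_, ?_⟩
  · obtain ⟨e, he⟩ := hI
    intro x
    obtain ⟨n, hn⟩ := h1 (e.symm x)
    refine ⟨n, ?_⟩
    rw [relIso_U he, e.apply_symm_apply] at hn
    exact hn
  · let _ := PS hG
    have h3 : Nonempty (@FirstOrder.Language.Equiv L (Tu S 1) (Tu S' 1) (PS hG) (PS hG')) :=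
      @std_inj L (Tu S 1) (Tu S' 1) (Jk S) (Jk S') (PS hG) (PS hG')
        (((iso_std hG).trans hI).trans (iso_std hG').symm)
    exact (sat_equiv h3 φ).1 h2

theorem Kc_std {T : L.Theory} {φ : FmI L 0} (S : L.Structure ℕ) (h1 : @Theory.Model L ℕ S T)
    (h2 : Sat S φ Fin.elim0) : Kc T φ (@Std L ℕ Empty S) := by
  let _ := S
  have hG : Good (Tp T) (Std (L := L) ℕ Empty) :=
    good_std ℕ Empty (model_Tp.2 ⟨h1, inferInstance⟩)
  refine ⟨hG, ?_, ?_⟩
  · rintro (⟨n, w⟩ | j)
    · exact ⟨n, w, rfl⟩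
    · exact j.elim
  · have h3 : Nonempty (@FirstOrder.Language.Equiv L (Tu (Std (L := L) ℕ Empty) 1) ℕ
        (PS hG) S) :=
      @std_inj L (Tu (Std (L := L) ℕ Empty) 1) ℕ (Jk (Std (L := L) ℕ Empty)) Empty (PS hG) S
        (iso_std hG)
    exact (sat_equiv h3 φ).2 h2

theorem hh_sat {T : L.Theory} {φ : FmI L 0} {S : (LC L).Structure ℕ} (h : Kc T φ S) :
    Sat (hh h.choose) φ Fin.elim0 :=
  (sat_equiv (hh_equiv h.choose) φ).1 h.choose_spec.2

theorem jk_empty {T : L.Theory} {φ : FmI L 0} {N : Type} {S : (LC L).Structure N}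
    (h : Kc T φ S) : IsEmpty (Jk S) := by
  refine ⟨fun x => ?_⟩
  obtain ⟨n, hn⟩ := h.choose_spec.1 x.1
  exact x.2 n hn

theorem equiv_of_iso [∀ n, IsEmpty (L.Functions n)] {M M' : Type} {S : L.Structure M}
    {S' : L.Structure M'} (h : Iso S S') :
    Nonempty (@FirstOrder.Language.Equiv L M M' S S') := by
  obtain ⟨e, he⟩ := h
  let _ := S
  let _ := S'
  exact ⟨{ toEquiv := e
           map_fun' := fun {n} f _ => isEmptyElim f
           map_rel' := fun {n} R v => (he n R v).symm }⟩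

theorem iso_of_equiv {M M' : Type} {S : L.Structure M} {S' : L.Structure M'}
    (h : Nonempty (@FirstOrder.Language.Equiv L M M' S S')) : Iso S S' := by
  obtain ⟨E⟩ := h
  exact ⟨E.toEquiv, fun n R v => (E.map_rel' R v).symm⟩

end VPF.CC

namespace VPF

open FirstOrder Set Pool.Agent.Helper6.Str Pool.Agent.Helper5.DU
open FirstOrder.Language

theorem thm_CI
    (H : ∀ L' : FirstOrder.Language.{0, 0}, (∀ n, Countable (L'.Relations n)) →
      (∀ n, IsEmpty (L'.Functions n)) → (∀ n, n ≠ 1 → n ≠ 2 → IsEmpty (L'.Relations n)) →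
      ∀ φ : FV L' 3, CtblK (ModV φ) ∨ PerfK (ModV φ)) :
    ∀ (L : FirstOrder.Language.{0, 0}) [∀ n, IsEmpty (L.Functions n)]
      [∀ n, Countable (L.Relations n)] (T : L.Theory) (φ : FmI L 0),
      CtblK {S : L.Structure ℕ | Pool.Agent.Helper6.VC.IsMod T φ S} ∨
        PerfK {S : L.Structure ℕ | Pool.Agent.Helper6.VC.IsMod T φ S} := by
  intro L _ _ T φ
  have hR' : Countable ((n : ℕ) × L.Relations n) := inferInstance
  have hF' : Countable ((n : ℕ) × L.Functions n) := by
    have : IsEmpty ((n : ℕ) × L.Functions n) := ⟨fun x => isEmptyElim x.2⟩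
    infer_instance
  have hL : Countable L.Symbols :=
    inferInstanceAs (Countable (((n : ℕ) × L.Functions n) ⊕ ((n : ℕ) × L.Relations n)))
  obtain ⟨Φ, hΦ⟩ := CC.d3_Kc hL T φ
  have hmod : ∀ S, S ∈ ModV Φ ↔ CC.Kc T φ S := hΦ
  rcases H (CC.LC L) (fun n => CC.countable_rel hL n) (fun n => inferInstance)
    (fun n h4 h5 => CC.isEmpty_rel h4 h5) Φ with ⟨G, hG⟩ | ⟨f, hf, hinj, hcl⟩
  · left
    let dflt : L.Structure ℕ := { funMap := fun _ _ => 0, RelMap := fun _ _ => False }
    have hinf : Infinite (CC.SU ℕ Empty) :=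
      Infinite.of_injective (fun n : ℕ => (CC.mkT 1 fun _ => n : CC.SU ℕ Empty))
        fun a b hab => congrFun (CC.mkT_inj hab) 0
    obtain ⟨u⟩ := nonempty_equiv_of_countable (α := CC.SU ℕ Empty) (β := ℕ)
    let Q : L.Structure ℕ → (CC.LC L).Structure ℕ := fun S =>
      { funMap := fun {n} f _ => (inferInstance : IsEmpty ((CC.LC L).Functions n)).elim f
        RelMap := fun {m} R v => (@CC.Std L ℕ Empty S).RelMap R (u.symm ∘ v) }
    have hQ : ∀ S : L.Structure ℕ, Iso (@CC.Std L ℕ Empty S) (Q S) := by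
      intro S
      refine ⟨u, fun n R v => ?_⟩
      show _ ↔ (@CC.Std L ℕ Empty S).RelMap R (u.symm ∘ (u ∘ v))
      have h1 : u.symm ∘ (u ∘ v) = v := by
        funext k
        simp
      rw [h1]
    classical
    let gg : ℕ → L.Structure ℕ := fun n =>
      if h : ∃ S : L.Structure ℕ, Iso (Q S) (G n) then h.choose else dflt
    refine ⟨gg, fun S hS => ?_⟩
    obtain ⟨n, hn⟩ := hG (Q S) ((hmod _).2 (CC.Kc_iso (hQ S) (CC.Kc_std S hS.1 hS.2)))
    have h2 : ∃ S : L.Structure ℕ, Iso (Q S) (G n) := ⟨S, hn⟩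
    refine ⟨n, ?_⟩
    have hgg : gg n = h2.choose := dif_pos h2
    rw [hgg]
    have h3 := h2.choose_spec
    have h4 : Iso (@CC.Std L ℕ Empty S) (@CC.Std L ℕ Empty h2.choose) :=
      ((hQ S).trans (hn.trans h3.symm)).trans (hQ _).symm
    exact CC.iso_of_equiv (@CC.std_inj L ℕ ℕ Empty Empty S h2.choose h4)
  · right
    have hK : ∀ x, CC.Kc T φ (f x) := fun x => (hmod _).1 (hf x)
    have hG : ∀ x, CC.Good (CC.Tp T) (f x) := fun x => (hK x).choose
    refine ⟨fun x => CC.hh (hG x), fun x => ⟨CC.hh_model (hG x), CC.hh_sat (hK x)⟩,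
      fun x y hxy => ?_, fun n R a => CC.clopen_hh hG hcl R a⟩
    obtain ⟨E⟩ := CC.equiv_of_iso hxy
    obtain ⟨E1⟩ := CC.hh_equiv (hG x)
    obtain ⟨E2⟩ := CC.hh_equiv (hG y)
    have hx := CC.jk_empty (hK x)
    have hy := CC.jk_empty (hK y)
    refine hinj x y (Iso.trans (Iso.symm (CC.iso_std (hG x)))
      (Iso.trans ?_ (CC.iso_std (hG y))))
    refine @CC.std_iso L (CC.Tu (f x) 1) (CC.Tu (f y) 1) (CC.Jk (f x)) (CC.Jk (f y))
      (CC.PS (hG x)) (CC.PS (hG y)) ?_ (Equiv.equivOfIsEmpty _ _)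
    exact @FirstOrder.Language.Equiv.comp L (CC.Tu (f x) 1) ℕ (CC.PS (hG x)) (CC.hh (hG y))
      (CC.Tu (f y) 1) (CC.PS (hG y))
      (@FirstOrder.Language.Equiv.symm L _ _ (CC.PS (hG y)) (CC.hh (hG y)) E2)
      (@FirstOrder.Language.Equiv.comp L (CC.Tu (f x) 1) ℕ (CC.PS (hG x)) (CC.hh (hG x)) ℕ
        (CC.hh (hG y)) E E1)

end VPF
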