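import Pool.Agent.VB.B

/-!
# Vaught's conjecture by number of variables and quantifier prefix: definitions

* `FV L k`: formulas of `L_{ω₁,ω}` with the variables `x_0, ..., x_{k-1}` only (variables may be
  reused), `FV.Sat` their truth under an assignment;
* `Pre w φ`: `φ` is a prenex first-order formula with quantifier prefix `w` (`true` for `∀`,
  `false` for `∃`, outermost first) and quantifier-free matrix;
* `ModF T`: the models of a first-order theory on `ℕ`, `ModV φ` those of a formula of `FV L k`.
-/

set_option autoImplicit false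

namespace VPF

open FirstOrder Set Pool.Agent.Helper6.Str

/-- Formulas of infinitary logic with `k` variables. -/
inductive FV (L : FirstOrder.Language.{0, 0}) (k : ℕ) : Type
  | eq (i j : Fin k) : FV L k
  | rel {n : ℕ} (R : L.Relations n) (w : Fin n → Fin k) : FV L k
  | neg (φ : FV L k) : FV L k
  | conj (φ : ℕ → FV L k) : FV L k
  | ex (i : Fin k) (φ : FV L k) : FV L k

/-- Truth of a formula with `k` variables in the structure `S` under the assignment `v`. -/
def FV.Sat {L : FirstOrder.Language.{0, 0}} {k : ℕ} {M : Type} (S : L.Structure M) :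
    FV L k → (Fin k → M) → Prop
  | .eq i j, v => v i = v j
  | .rel R w, v => S.RelMap R (fun i => v (w i))
  | .neg φ, v => ¬ FV.Sat S φ v
  | .conj φ, v => ∀ m, FV.Sat S (φ m) v
  | .ex i φ, v => ∃ a : M, FV.Sat S φ (Function.update v i a)

/-- `φ` is a prenex formula with quantifier prefix `w` (`true = ∀`, `false = ∃`). -/
inductive Pre {L : FirstOrder.Language.{0, 0}} :
    {n : ℕ} → List Bool → L.BoundedFormula Empty n → Prop
  | qf {n : ℕ} {φ : L.BoundedFormula Empty n} : φ.IsQF → Pre [] φ
  | all {n : ℕ} {w : List Bool} {φ : L.BoundedFormula Empty (n + 1)} :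
      Pre w φ → Pre (true :: w) φ.all
  | ex {n : ℕ} {w : List Bool} {φ : L.BoundedFormula Empty (n + 1)} :
      Pre w φ → Pre (false :: w) φ.ex

/-- The models on `ℕ` of a first-order theory. -/
def ModF {L : FirstOrder.Language.{0, 0}} (T : L.Theory) : Set (L.Structure ℕ) :=
  {S | @FirstOrder.Language.Theory.Model L ℕ S T}

/-- The structures on `ℕ` in which `φ` is true under all assignments. -/
def ModV {L : FirstOrder.Language.{0, 0}} {k : ℕ} (φ : FV L k) : Set (L.Structure ℕ) :=
  {S | ∀ v : Fin k → ℕ, φ.Sat S v}

end VPF
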