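import Pool.Agent.VPF.CodC6

/-!
# Vaught's conjecture in general follows from low quantifier classes

`thm_C`: let `D` be a set of quantifier patterns which contains `AAE` and one of `AAA`, `AEA`.
If Vaught's conjecture holds for the theories all of whose conditions have a pattern in `D`, in
languages with only unary and binary relation symbols, then it holds for all theories.
-/

set_option autoImplicit false

namespace VPF

open FirstOrder Set Pool.Agent.Helper6.Str
open FirstOrder.Language

theorem thm_C (D : List Bool → Prop) (h1 : D [true, true, false])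
    (h2 : D [true, true, true] ∨ D [true, false, true])
    (H : ∀ L' : FirstOrder.Language.{0, 0}, (∀ n, Countable (L'.Relations n)) →
      (∀ n, IsEmpty (L'.Functions n)) → (∀ n, n ≠ 1 → n ≠ 2 → IsEmpty (L'.Relations n)) →
      ∀ T' : L'.Theory, (∀ φ ∈ T', ∃ w, D w ∧ Pre w φ) →
        CtblK (ModF T') ∨ PerfK (ModF T')) :
    ∀ (L : FirstOrder.Language.{0, 0}), Countable L.Symbols → ∀ (T : L.Theory),
      (∃ g : ℕ → L.Structure ℕ, ∀ S : L.Structure ℕ,
          @FirstOrder.Language.Theory.Model L ℕ S T →
            ∃ n : ℕ, Nonempty (@FirstOrder.Language.Equiv L ℕ ℕ S (g n))) ∨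
      (∃ f : (ℕ → Bool) → L.Structure ℕ,
          (∀ x : ℕ → Bool, @FirstOrder.Language.Theory.Model L ℕ (f x) T) ∧
          (∀ x y : ℕ → Bool,
              Nonempty (@FirstOrder.Language.Equiv L ℕ ℕ (f x) (f y)) → x = y) ∧
          (∀ (n : ℕ) (R : L.Relations n) (a : Fin n → ℕ),
              IsClopen {x : ℕ → Bool | @FirstOrder.Language.Structure.RelMap L ℕ (f x) n R a}) ∧
          (∀ (n : ℕ) (F : L.Functions n) (a : Fin n → ℕ) (b : ℕ),
              IsOpen {x : ℕ → Bool |
                @FirstOrder.Language.Structure.funMap L ℕ (f x) n F a = b})) := by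
  intro L hL T
  have key : CtblK {S : (CC.LC L).Structure ℕ | CC.Good (CC.Tp T) S} ∨
      PerfK {S : (CC.LC L).Structure ℕ | CC.Good (CC.Tp T) S} := by
    rcases h2 with h2 | h2
    · have h3 : {S : (CC.LC L).Structure ℕ | CC.Good (CC.Tp T) S} =
          ModF (CC.T1 (CC.Tp T)) := by
        ext S
        exact (CC.model_T1 S).symm
      rw [h3]
      refine H (CC.LC L) (fun n => CC.countable_rel hL n) (fun n => inferInstance)
        (fun n h4 h5 => CC.isEmpty_rel h4 h5) _ fun φ hφ => ?_
      rcases CC.pre_T1 hφ with h6 | h6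
      · exact ⟨_, h1, h6⟩
      · exact ⟨_, h2, h6⟩
    · have h3 : {S : (CC.LC L).Structure ℕ | CC.Good (CC.Tp T) S} =
          ModF (CC.T2 (CC.Tp T)) := by
        ext S
        exact (CC.model_T2 S).symm
      rw [h3]
      refine H (CC.LC L) (fun n => CC.countable_rel hL n) (fun n => inferInstance)
        (fun n h4 h5 => CC.isEmpty_rel h4 h5) _ fun φ hφ => ?_
      rcases CC.pre_T2 hφ with h6 | h6
      · exact ⟨_, h1, h6⟩
      · exact ⟨_, h2, h6⟩
  rcases key with h | h
  · exact Or.inl (CC.ctbl_transfer h)
  · exact Or.inr (CC.perf_transfer h)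

end VPF
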