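import Pool.Agent.VPF.ALL
import Pool.Agent.VPF.CodC

/-!
# Classification of the sets of quantifier prefixes: words, padding
-/

set_option autoImplicit false

namespace VPF.Cls

open FirstOrder Set Pool.Agent.Helper6.Str VPF
open FirstOrder.Language

/-- the words `∃^m ∀^k ∃^n` with `k ≤ 2` -/
def W (w : List Bool) : Prop :=
  ∃ m k n : ℕ, k ≤ 2 ∧
    w = List.replicate m false ++ List.replicate k true ++ List.replicate n false

theorem one (w : List Bool) : (∃ n, w = List.replicate n false) ∨ List.Sublist [true] w := by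
  induction w with
  | nil => exact Or.inl ⟨0, rfl⟩
  | cons b w ih =>
    cases b with
    | true => exact Or.inr (List.Sublist.cons_cons _ (List.nil_sublist _))
    | false =>
      rcases ih with ⟨n, h⟩ | h
      · exact Or.inl ⟨n + 1, by rw [h, List.replicate_succ]⟩
      · exact Or.inr (h.cons _)

theorem two (w : List Bool) : (∃ k n, k ≤ 1 ∧ w = List.replicate k true ++ List.replicate n false) ∨
    List.Sublist [true, true] w ∨ List.Sublist [false, true] w := by
  cases w with
  | nil => exact Or.inl ⟨0, 0, by omega, rfl⟩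
  | cons b w =>
    rcases one w with ⟨n, h⟩ | h
    · cases b with
      | true => exact Or.inl ⟨1, n, le_rfl, by rw [h]; rfl⟩
      | false => exact Or.inl ⟨0, n + 1, by omega, by rw [h]; rfl⟩
    · cases b with
      | true => exact Or.inr (Or.inl (h.cons_cons _))
      | false => exact Or.inr (Or.inr (h.cons_cons _))

theorem three (w : List Bool) : W w ∨ List.Sublist [true, true, true] w ∨
    List.Sublist [true, false, true] w := by
  induction w with
  | nil => exact Or.inl ⟨0, 0, 0, by omega, rfl⟩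
  | cons b w ih =>
    cases b with
    | false =>
      rcases ih with ⟨m, k, n, hk, h⟩ | h | h
      · exact Or.inl ⟨m + 1, k, n, hk, by rw [h]; rfl⟩
      · exact Or.inr (Or.inl (h.cons _))
      · exact Or.inr (Or.inr (h.cons _))
    | true =>
      rcases two w with ⟨k, n, hk, h⟩ | h | h
      · exact Or.inl ⟨0, k + 1, n, by omega, by rw [h]; rfl⟩
      · exact Or.inr (Or.inl (h.cons_cons _))
      · exact Or.inr (Or.inr (h.cons_cons _))

variable {L : FirstOrder.Language.{0, 0}}

theorem pre_castLE {n : ℕ} {w : List Bool} {φ : L.BoundedFormula Empty n} (h : Pre w φ) :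
    ∀ {m : ℕ} (hm : n ≤ m), Pre w (φ.castLE hm) := by
  induction h with
  | qf h => intro m hm; exact Pre.qf h.castLE
  | all _ ih => intro m hm; exact Pre.all (ih _)
  | ex _ ih => intro m hm; exact Pre.ex (ih _)

theorem pre_liftAt {n : ℕ} {w : List Bool} {φ : L.BoundedFormula Empty n} (h : Pre w φ)
    (k m : ℕ) : Pre w (φ.liftAt k m) := by
  induction h with
  | qf h => exact Pre.qf h.liftAt
  | all _ ih => exact Pre.all (pre_castLE ih _)
  | ex _ ih => exact Pre.ex (pre_castLE ih _)

theorem pad0 {n : ℕ} {w : List Bool} {φ : L.BoundedFormula Empty n} (h : Pre w φ) :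
    ∃ φ' : L.BoundedFormula Empty n, Pre (true :: w) φ' ∧
      ∀ (S : L.Structure ℕ) (v : Empty → ℕ) (xs : Fin n → ℕ),
        @BoundedFormula.Realize L ℕ S _ _ φ' v xs ↔ @BoundedFormula.Realize L ℕ S _ _ φ v xs := by
  refine ⟨(φ.liftAt 1 n).all, Pre.all (pre_liftAt h 1 n), fun S v xs => ?_⟩
  let _ := S
  rw [BoundedFormula.realize_all]
  constructor
  · intro h1
    have h2 := h1 0
    rw [BoundedFormula.realize_liftAt_one_self] at h2
    have h3 : (Fin.snoc xs (0 : ℕ) : Fin (n + 1) → ℕ) ∘ Fin.castSucc = xs := by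
      funext i
      simp [Fin.snoc_castSucc]
    rwa [h3] at h2
  · intro h1 a
    rw [BoundedFormula.realize_liftAt_one_self]
    have h3 : (Fin.snoc xs a : Fin (n + 1) → ℕ) ∘ Fin.castSucc = xs := by
      funext i
      simp [Fin.snoc_castSucc]
    rwa [h3]

/-- a dummy universal quantifier behind the first block of existential ones -/
theorem pad1 (m : ℕ) : ∀ {n : ℕ} {w : List Bool} {φ : L.BoundedFormula Empty n},
    Pre (List.replicate m false ++ w) φ →
    ∃ φ' : L.BoundedFormula Empty n, Pre (List.replicate m false ++ (true :: w)) φ' ∧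
      ∀ (S : L.Structure ℕ) (v : Empty → ℕ) (xs : Fin n → ℕ),
        @BoundedFormula.Realize L ℕ S _ _ φ' v xs ↔ @BoundedFormula.Realize L ℕ S _ _ φ v xs := by
  induction m with
  | zero => intro n w φ h; exact pad0 h
  | succ m ih =>
    intro n w φ h
    have h' : Pre (false :: (List.replicate m false ++ w)) φ := h
    cases h' with
    | ex h1 =>
      obtain ⟨ψ', h2, h3⟩ := ih h1
      refine ⟨ψ'.ex, Pre.ex h2, fun S v xs => ?_⟩
      let _ := S
      rw [BoundedFormula.realize_ex, BoundedFormula.realize_ex]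
      exact exists_congr fun a => h3 S v _

theorem pad {m k n : ℕ} (hk : k ≤ 2) {φ : L.Sentence}
    (h : Pre (List.replicate m false ++ List.replicate k true ++ List.replicate n false) φ) :
    ∃ φ' : L.Sentence, Pre (List.replicate m false ++ [true, true] ++ List.replicate n false) φ' ∧
      ∀ S : L.Structure ℕ, @Sentence.Realize L ℕ S φ' ↔ @Sentence.Realize L ℕ S φ := by
  have h1 : ∀ {w : List Bool} {ψ : L.Sentence}, Pre (List.replicate m false ++ w) ψ →
      ∃ φ' : L.Sentence, Pre (List.replicate m false ++ (true :: w)) φ' ∧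
        ∀ S : L.Structure ℕ, @Sentence.Realize L ℕ S φ' ↔ @Sentence.Realize L ℕ S ψ := by
    intro w ψ h2
    obtain ⟨φ', h3, h4⟩ := pad1 m h2
    exact ⟨φ', h3, fun S => h4 S _ _⟩
  rw [List.append_assoc] at h ⊢
  interval_cases k
  · obtain ⟨φ1, h2, h3⟩ := h1 h
    obtain ⟨φ2, h4, h5⟩ := h1 h2
    exact ⟨φ2, h4, fun S => (h5 S).trans (h3 S)⟩
  · obtain ⟨φ1, h2, h3⟩ := h1 h
    exact ⟨φ1, h2, h3⟩
  · exact ⟨φ, h, fun S => Iff.rfl⟩

/-- Vaught's conjecture for theories with prefixes in `W` -/
theorem pos (L : FirstOrder.Language.{0, 0}) [∀ n, IsEmpty (L.Functions n)]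
    [∀ n, Countable (L.Relations n)] (T : L.Theory) (hT : ∀ φ ∈ T, ∃ w, W w ∧ Pre w φ) :
    CtblK (ModF T) ∨ PerfK (ModF T) := by
  have h0 : ∀ φ : T, ∃ φ' : L.Sentence, (∃ m n : ℕ,
      Pre (List.replicate m false ++ [true, true] ++ List.replicate n false) φ') ∧
      ∀ S : L.Structure ℕ, @Sentence.Realize L ℕ S φ' ↔ @Sentence.Realize L ℕ S φ := by
    rintro ⟨φ, hφ⟩
    obtain ⟨w, ⟨m, k, n, hk, rfl⟩, h⟩ := hT φ hφ
    obtain ⟨φ', h1, h2⟩ := pad hk h
    exact ⟨φ', ⟨m, n, h1⟩, h2⟩
  choose F hF1 hF2 using h0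
  have h1 : ModF (range F) = ModF T := by
    ext S
    let _ := S
    show (ℕ ⊨ range F) ↔ (ℕ ⊨ T)
    rw [Theory.model_iff, Theory.model_iff]
    constructor
    · intro h φ hφ
      exact (hF2 ⟨φ, hφ⟩ S).1 (h _ (mem_range_self _))
    · rintro h _ ⟨φ, rfl⟩
      exact (hF2 φ S).2 (h _ φ.2)
  rw [← h1]
  refine all_B L (range F) ?_
  rintro _ ⟨φ, rfl⟩
  exact hF1 φ

end VPF.Cls
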