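import Pool.Agent.VPF.StA

/-!
# VPF, module AR3: a symbol of arity at least three
-/

set_option autoImplicit false

namespace VPF

open FirstOrder Set Pool.Agent.Helper6.Str Pool.Agent.Helper5.Multi Pool.Agent.Helper79.VC

/-- the tuple has at most two different values -/
private def few {m : ℕ} (v : Fin m → ℕ) : Prop := ∃ x y, ∀ i, v i = x ∨ v i = y

/-- the coding graph: cliques of sizes `2 k + 2 + z k` -/
private def cg (z : ℕ → Bool) (p q : ℕ) : Prop :=
  p ≠ q ∧ (Nat.unpair q).1 = (Nat.unpair p).1 ∧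
    (Nat.unpair p).2 < 2 * (Nat.unpair p).1 + 2 + (z (Nat.unpair p).1).toNat ∧
    (Nat.unpair q).2 < 2 * (Nat.unpair p).1 + 2 + (z (Nat.unpair p).1).toNat

/-- the structure -/
@[instance_reducible]
private def cst {L : FirstOrder.Language.{0, 0}} [∀ n, IsEmpty (L.Functions n)]
    (S : L.Structure ℕ) (z : ℕ → Bool) : L.Structure ℕ where
  funMap := fun f _ => isEmptyElim f
  RelMap := fun {m} R v => (few v ∧ S.RelMap R v) ∨
    (¬ few v ∧ ∃ i j : Fin m, i.1 = 0 ∧ j.1 = 1 ∧ cg z (v i) (v j))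

private lemma cg_set (z : ℕ → Bool) (p : ℕ)
    (h : (Nat.unpair p).2 < 2 * (Nat.unpair p).1 + 2 + (z (Nat.unpair p).1).toNat) :
    {q | cg z p q} = (((Finset.range (2 * (Nat.unpair p).1 + 2 + (z (Nat.unpair p).1).toNat)).image
      (fun i => Nat.pair (Nat.unpair p).1 i)).erase p : Finset ℕ) := by
  ext q
  simp only [cg, mem_ofPred_eq, Finset.coe_erase, Finset.coe_image, Finset.coe_range, mem_diff,
    mem_image, mem_Iio, mem_singleton_iff]
  constructor
  · rintro ⟨h1, h2, h3, h4⟩
    refine ⟨⟨(Nat.unpair q).2, h4, ?_⟩, fun hh => h1 hh.symm⟩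
    rw [← h2, Nat.pair_unpair]
  · rintro ⟨⟨i, hi, hq⟩, hne⟩
    refine ⟨fun hh => hne hh.symm, ?_, h, ?_⟩
    · rw [← hq, Nat.unpair_pair]
    · rw [← hq, Nat.unpair_pair]
      exact hi

private lemma cg_card (z : ℕ → Bool) (p : ℕ)
    (h : (Nat.unpair p).2 < 2 * (Nat.unpair p).1 + 2 + (z (Nat.unpair p).1).toNat) :
    {q | cg z p q}.ncard = 2 * (Nat.unpair p).1 + 1 + (z (Nat.unpair p).1).toNat := by
  rw [cg_set z p h, Set.ncard_coe_finset, Finset.card_erase_of_mem, Finset.card_image_of_injective,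
    Finset.card_range]
  · omega
  · intro i j hij
    have := congrArg Nat.unpair hij
    simp only [Nat.unpair_pair, Prod.mk.injEq, true_and] at this
    exact this
  · rw [Finset.mem_image]
    exact ⟨(Nat.unpair p).2, Finset.mem_range.mpr h, Nat.pair_unpair p⟩

private lemma cg_card' (z : ℕ → Bool) (p : ℕ)
    (h : ¬ (Nat.unpair p).2 < 2 * (Nat.unpair p).1 + 2 + (z (Nat.unpair p).1).toNat) :
    {q | cg z p q}.ncard = 0 := by
  have : {q | cg z p q} = ∅ := by
    ext q
    simp only [cg, mem_ofPred_eq, mem_empty_iff_false, iff_false]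
    rintro ⟨h1, h2, h3, h4⟩
    exact h h3
  rw [this, Set.ncard_empty]

/-- the digit is decoded from the degrees -/
private lemma cg_decode (z : ℕ → Bool) (k : ℕ) :
    z k = true ↔ ∃ p, {q | cg z p q}.ncard = 2 * k + 2 := by
  constructor
  · intro hz
    refine ⟨Nat.pair k 0, ?_⟩
    have h : (Nat.unpair (Nat.pair k 0)).2 < 2 * (Nat.unpair (Nat.pair k 0)).1 + 2 +
        (z (Nat.unpair (Nat.pair k 0)).1).toNat := by
      rw [Nat.unpair_pair]
      simp only
      omega
    rw [cg_card z _ h, Nat.unpair_pair]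
    simp only [hz, Bool.toNat_true]
  · rintro ⟨p, hp⟩
    by_cases h : (Nat.unpair p).2 < 2 * (Nat.unpair p).1 + 2 + (z (Nat.unpair p).1).toNat
    · rw [cg_card z p h] at hp
      cases hb : z (Nat.unpair p).1
      · rw [hb] at hp
        simp only [Bool.toNat_false] at hp
        omega
      · rw [hb] at hp
        simp only [Bool.toNat_true] at hp
        have : (Nat.unpair p).1 = k := by omega
        rw [← this]
        exact hb
    · rw [cg_card' z p h] at hp
      omega

private lemma cg_eq (z z' : ℕ → Bool) (e : ℕ ≃ ℕ) (h : ∀ p q, cg z p q ↔ cg z' (e p) (e q)) :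
    z = z' := by
  have key : ∀ (x y : ℕ → Bool) (f : ℕ ≃ ℕ), (∀ p q, cg x p q ↔ cg y (f p) (f q)) →
      ∀ k, x k = true → y k = true := by
    intro x y f hf k hk
    obtain ⟨p, hp⟩ := (cg_decode x k).mp hk
    refine (cg_decode y k).mpr ⟨f p, ?_⟩
    have : {q | cg y (f p) q} = f '' {q | cg x p q} := by
      ext q
      simp only [mem_ofPred_eq, mem_image]
      constructor
      · intro hq
        refine ⟨f.symm q, ?_, by simp⟩
        rw [hf, Equiv.apply_symm_apply]
        exact hq
      · rintro ⟨q', hq', rfl⟩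
        exact (hf p q').mp hq'
    rw [this, Set.ncard_image_of_injective _ f.injective, hp]
  funext k
  have h1 := key z z' e h k
  have h2 := key z' z e.symm (fun p q => by rw [h, e.apply_symm_apply, e.apply_symm_apply]) k
  cases hz : z k <;> cases hz' : z' k
  · rfl
  · rw [hz, hz'] at h2; exact absurd (h2 rfl) (by simp)
  · rw [hz, hz'] at h1; exact absurd (h1 rfl) (by simp)
  · rfl

private lemma cg_clopen (p q : ℕ) : IsClopen {z : ℕ → Bool | cg z p q} := by
  have : {z : ℕ → Bool | cg z p q} = (fun z : ℕ → Bool => z (Nat.unpair p).1) ⁻¹'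
      {b | p ≠ q ∧ (Nat.unpair q).1 = (Nat.unpair p).1 ∧
        (Nat.unpair p).2 < 2 * (Nat.unpair p).1 + 2 + b.toNat ∧
        (Nat.unpair q).2 < 2 * (Nat.unpair p).1 + 2 + b.toNat} := by
    ext z
    rfl
  rw [this]
  exact (isClopen_discrete _).preimage (continuous_apply _)

private lemma cst_clopen {L : FirstOrder.Language.{0, 0}} [∀ n, IsEmpty (L.Functions n)]
    (S : L.Structure ℕ) {m : ℕ} (R : L.Relations m) (a : Fin m → ℕ) :
    IsClopen {z : ℕ → Bool | (cst S z).RelMap R a} := by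
  by_cases hf : few a
  · have : {z : ℕ → Bool | (cst S z).RelMap R a} = {z | S.RelMap R a} := by
      ext z
      constructor
      · rintro (⟨_, h⟩ | ⟨h, _⟩)
        · exact h
        · exact absurd hf h
      · intro h
        exact Or.inl ⟨hf, h⟩
    rw [this]
    by_cases hS : S.RelMap R a
    · simp only [hS]; exact isClopen_univ
    · simp only [hS]; exact isClopen_empty
  · have : {z : ℕ → Bool | (cst S z).RelMap R a} =
        ⋃ i : Fin m, ⋃ j : Fin m, {z | (i.1 = 0 ∧ j.1 = 1) ∧ cg z (a i) (a j)} := by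
      ext z
      simp only [mem_ofPred_eq, mem_iUnion]
      constructor
      · rintro (⟨h, _⟩ | ⟨_, i, j, h1, h2, h3⟩)
        · exact absurd h hf
        · exact ⟨i, j, ⟨h1, h2⟩, h3⟩
      · rintro ⟨i, j, ⟨h1, h2⟩, h3⟩
        exact Or.inr ⟨hf, i, j, h1, h2, h3⟩
    rw [this]
    refine isClopen_iUnion_of_finite fun i => isClopen_iUnion_of_finite fun j => ?_
    by_cases hij : i.1 = 0 ∧ j.1 = 1
    · have : {z : ℕ → Bool | (i.1 = 0 ∧ j.1 = 1) ∧ cg z (a i) (a j)} = {z | cg z (a i) (a j)} := by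
        ext z
        exact ⟨fun h => h.2, fun h => ⟨hij, h⟩⟩
      rw [this]
      exact cg_clopen _ _
    · have : {z : ℕ → Bool | (i.1 = 0 ∧ j.1 = 1) ∧ cg z (a i) (a j)} = ∅ := by
        ext z
        simp only [mem_ofPred_eq, mem_empty_iff_false, iff_false]
        exact fun h => hij h.1
      rw [this]
      exact isClopen_empty

private lemma cst_sat {L : FirstOrder.Language.{0, 0}} [∀ n, IsEmpty (L.Functions n)]
    (S : L.Structure ℕ) (z : ℕ → Bool) (φ : FV L 2) :
    ∀ v : Fin 2 → ℕ, φ.Sat (cst S z) v ↔ φ.Sat S v := by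
  induction φ with
  | eq i j => intro v; exact Iff.rfl
  | rel R w =>
    intro v
    have hf : few (fun i => v (w i)) := by
      refine ⟨v 0, v 1, fun i => ?_⟩
      have h01 : ∀ t : Fin 2, t = 0 ∨ t = 1 := by decide
      rcases h01 (w i) with h | h
      · left; simp only [h]
      · right; simp only [h]
    constructor
    · rintro (⟨_, h⟩ | ⟨h, _⟩)
      · exact h
      · exact absurd hf h
    · intro h
      exact Or.inl ⟨hf, h⟩
  | neg φ ih =>
    intro v
    exact not_congr (ih v)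
  | conj φ ih =>
    intro v
    exact forall_congr' fun m => ih m v
  | ex i φ ih =>
    intro v
    exact exists_congr fun a => ih _

private lemma cst_cg {L : FirstOrder.Language.{0, 0}} [∀ n, IsEmpty (L.Functions n)]
    (S : L.Structure ℕ) (z : ℕ → Bool) {n : ℕ} (R0 : L.Relations n) (hn : 3 ≤ n) (v : Fin n → ℕ)
    (h01 : v ⟨0, by omega⟩ ≠ v ⟨1, by omega⟩) (h02 : v ⟨0, by omega⟩ ≠ v ⟨2, by omega⟩)
    (h12 : v ⟨1, by omega⟩ ≠ v ⟨2, by omega⟩) :
    (cst S z).RelMap R0 v ↔ cg z (v ⟨0, by omega⟩) (v ⟨1, by omega⟩) := by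
  have hf : ¬ few v := by
    rintro ⟨x, y, hxy⟩
    have a0 := hxy ⟨0, by omega⟩
    have a1 := hxy ⟨1, by omega⟩
    have a2 := hxy ⟨2, by omega⟩
    omega
  constructor
  · rintro (⟨h, _⟩ | ⟨_, i, j, h1, h2, h3⟩)
    · exact absurd h hf
    · have hi : i = ⟨0, by omega⟩ := Fin.ext h1
      have hj : j = ⟨1, by omega⟩ := Fin.ext h2
      rw [hi, hj] at h3
      exact h3
  · intro h
    exact Or.inr ⟨hf, ⟨0, by omega⟩, ⟨1, by omega⟩, rfl, rfl, h⟩

private lemma cst_iso {L : FirstOrder.Language.{0, 0}} [∀ n, IsEmpty (L.Functions n)]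
    (S : L.Structure ℕ) (z z' : ℕ → Bool) {n : ℕ} (R0 : L.Relations n) (hn : 3 ≤ n)
    (h : Iso (cst S z) (cst S z')) : z = z' := by
  obtain ⟨e, he⟩ := h
  refine cg_eq z z' e fun p q => ?_
  by_cases hpq : p = q
  · subst hpq
    exact ⟨fun h => absurd rfl h.1, fun h => absurd rfl h.1⟩
  · let t := p + q + 1
    let v : Fin n → ℕ := fun i => if i.1 = 0 then p else if i.1 = 1 then q else t
    have hv0 : v ⟨0, by omega⟩ = p := by simp [v]
    have hv1 : v ⟨1, by omega⟩ = q := by simp [v]
    have hv2 : v ⟨2, by omega⟩ = t := by simp [v]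
    have hpt : p ≠ t := by simp only [t]; omega
    have hqt : q ≠ t := by simp only [t]; omega
    have h1 := cst_cg S z R0 hn v (by rw [hv0, hv1]; exact hpq) (by rw [hv0, hv2]; exact hpt)
      (by rw [hv1, hv2]; exact hqt)
    have h2 := cst_cg S z' R0 hn (e ∘ v)
      (by simp only [Function.comp, hv0, hv1]; exact fun hh => hpq (e.injective hh))
      (by simp only [Function.comp, hv0, hv2]; exact fun hh => hpt (e.injective hh))
      (by simp only [Function.comp, hv1, hv2]; exact fun hh => hqt (e.injective hh))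
    rw [hv0, hv1] at h1
    simp only [Function.comp, hv0, hv1] at h2
    rw [← h1, ← h2]
    exact he n R0 v

/-- AR3: a symbol of arity at least three gives a perfect set of models. -/
theorem thm_AR3 : St_AR3 := by
  intro L _ _ φ n R0 hn hne
  obtain ⟨S, hS⟩ := hne
  refine ⟨fun z => cst S z, fun z v => ?_, fun z z' h => cst_iso S z z' R0 hn h,
    fun m R a => cst_clopen S R a⟩
  exact (cst_sat S z φ v).mpr (hS v)

end VPF
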