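import Pool.Agent.VPF.StG
import Pool.Agent.HERN.VQ

/-!
# VPF [AUL]: the automorphism lemma
-/

set_option autoImplicit false
set_option linter.unusedVariables false

namespace VPF

open FirstOrder Set Pool.Agent.Helper6.Str Pool.Agent.Helper5.Multi Pool.Agent.Helper79.VC
  Pool.Agent.Helper5.DU Pool.Agent.Helper97.VC Pool.Agent.Helper97.LO HERN

variable {L : FirstOrder.Language.{0, 0}} {M : Type}

/-- the first `j` pairs of variables -/
def AUL_E (j : ℕ) : Set (ℕ ⊕ ℕ) := {e | Sum.elim id id e < j}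

theorem AUL_inl {n j : ℕ} (h : n < j) : (Sum.inl n : ℕ ⊕ ℕ) ∈ AUL_E j := h

theorem AUL_inr {n j : ℕ} (h : n < j) : (Sum.inr n : ℕ ⊕ ℕ) ∈ AUL_E j := h

theorem AUL_E_mono {i j : ℕ} (h : i ≤ j) : AUL_E i ⊆ AUL_E j :=
  fun _ he => lt_of_lt_of_le he h

theorem AUL_E_fin (j : ℕ) : (AUL_E j).Finite := by
  refine (((finite_Iio j).image (Sum.inl : ℕ → ℕ ⊕ ℕ)).union
    ((finite_Iio j).image (Sum.inr : ℕ → ℕ ⊕ ℕ))).subset ?_
  rintro (n | n) h
  · exact Or.inl ⟨n, h, rfl⟩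
  · exact Or.inr ⟨n, h, rfl⟩

/-- the pairs of the values -/
def AUL_p (j : ℕ) (X : ℕ ⊕ ℕ → M) : Set (M × M) :=
  {q | ∃ n < j, q = (X (Sum.inl n), X (Sum.inr n))}

/-- Approximations of an automorphism. -/
structure AUL_St (S : L.Structure M) (δ : Ordinal.{0}) {k : ℕ} (f : Fin k → M) (A : Set M) where
  /-- number of pairs of variables -/
  j : ℕ
  /-- realisations -/
  X : Om → ℕ ⊕ ℕ → M
  iso : ∀ r, BFR S S univ univ (od r) (AUL_p j (X r))
  eqv : ∀ r r', BFR S S univ univ δ (VQ_pr (AUL_E j) (X r) (X r'))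
  hj : k < j
  fixl : ∀ r (i : Fin k), X r (Sum.inl i) = f i
  fixr : ∀ r (i : Fin k), X r (Sum.inr i) = f i
  meml : ∀ r, X r (Sum.inl k) ∈ A
  memr : ∀ r, X r (Sum.inr k) ∈ A
  ne : ∀ r, X r (Sum.inl k) ≠ X r (Sum.inr k)

variable {S : L.Structure M} {δ : Ordinal.{0}} {k : ℕ} {f : Fin k → M} {A : Set M}

/-- extension of approximations -/
structure AUL_le (s s' : AUL_St S δ f A) : Prop where
  j : s.j ≤ s'.j
  eqv : ∀ r r', BFR S S univ univ δ (VQ_pr (AUL_E s.j) (s.X r) (s'.X r'))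

theorem AUL_le.refl (s : AUL_St S δ f A) : AUL_le s s := ⟨le_rfl, s.eqv⟩

theorem AUL_le.trans {s s' s'' : AUL_St S δ f A} (h : AUL_le s s') (h' : AUL_le s' s'') :
    AUL_le s s'' := by
  refine ⟨h.j.trans h'.j, fun r r' => ?_⟩
  refine (h.eqv r r').trans (h'.eqv r' r') ?_
  rintro _ ⟨e, he, rfl⟩
  exact ⟨s'.X r' e, ⟨e, he, rfl⟩, ⟨e, AUL_E_mono h.j he, rfl⟩⟩

section

variable [∀ n, IsEmpty (L.Functions n)] [∀ n, Countable (L.Relations n)]
  {K : Set (L.Structure ℕ)}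

theorem AUL_step (hS : VSt K δ S) (s : AUL_St S δ f A) (t : Om → Om) (ht : ∀ r, r ≤ t r)
    (a b : Om → M)
    (hab : ∀ r, BFR S S univ univ (od r) (insert (a r, b r) (AUL_p s.j (s.X (t r))))) :
    ∃ (s' : AUL_St S δ f A) (φ : Om → Om), AUL_le s s' ∧ s'.j = s.j + 1 ∧
      ∀ r, s'.X r (Sum.inl s.j) = a (φ r) ∧ s'.X r (Sum.inr s.j) = b (φ r) ∧
        ∀ e ∈ AUL_E s.j, s'.X r e = s.X (t (φ r)) e := by
  classical
  let Y : Om → ℕ ⊕ ℕ → M := fun r =>
    Function.update (Function.update (s.X (t r)) (Sum.inl s.j) (a r)) (Sum.inr s.j) (b r)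
  have hYl : ∀ r, Y r (Sum.inl s.j) = a r := by
    intro r
    simp only [Y]
    rw [Function.update_of_ne (by simp), Function.update_self]
  have hYr : ∀ r, Y r (Sum.inr s.j) = b r := by
    intro r
    simp only [Y]
    rw [Function.update_self]
  have hYe : ∀ r, ∀ e ∈ AUL_E s.j, Y r e = s.X (t r) e := by
    intro r e he
    simp only [Y]
    rw [Function.update_of_ne, Function.update_of_ne]
    · rintro rfl
      exact lt_irrefl s.j he
    · rintro rfl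
      exact lt_irrefl s.j he
  obtain ⟨φ, hφ1, hφ2⟩ := VQ_hom hS (AUL_E_fin (s.j + 1)) Y
  have hkj : k < s.j := s.hj
  let s' : AUL_St S δ f A :=
    { j := s.j + 1
      X := fun r => Y (φ r)
      iso := by
        intro r
        have h1 : od r ≤ od (φ r) := by
          rcases (hφ1 r).eq_or_lt with h | h
          · rw [← h]
          · exact (od_lt_od.mpr h).le
        refine BFR.anti ?_ ((hab (φ r)).mono h1)
        rintro _ ⟨n, hn, rfl⟩
        rcases Nat.lt_succ_iff_lt_or_eq.mp hn with h | rfl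
        · refine Or.inr ⟨n, h, ?_⟩
          rw [hYe _ _ (AUL_inl h), hYe _ _ (AUL_inr h)]
        · refine Or.inl ?_
          rw [hYl, hYr]
      eqv := hφ2
      hj := hkj.trans (Nat.lt_succ_self _)
      fixl := by
        intro r i
        rw [hYe _ _ (AUL_inl (i.2.trans hkj))]
        exact s.fixl _ i
      fixr := by
        intro r i
        rw [hYe _ _ (AUL_inr (i.2.trans hkj))]
        exact s.fixr _ i
      meml := by
        intro r
        rw [hYe _ _ (AUL_inl hkj)]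
        exact s.meml _
      memr := by
        intro r
        rw [hYe _ _ (AUL_inr hkj)]
        exact s.memr _
      ne := by
        intro r
        rw [hYe _ _ (AUL_inl hkj), hYe _ _ (AUL_inr hkj)]
        exact s.ne _ }
  refine ⟨s', φ, ⟨Nat.le_succ _, fun r r' => ?_⟩, rfl, fun r => ⟨hYl _, hYr _, hYe _⟩⟩
  refine BFR.anti ?_ (s.eqv r (t (φ r')))
  rintro _ ⟨e, he, rfl⟩
  refine ⟨e, he, ?_⟩
  show (s.X r e, s.X (t (φ r')) e) = (s.X r e, Y (φ r') e)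
  rw [hYe _ _ he]

theorem AUL_next (r : Om) : ∃ t : Om, r < t := by
  obtain ⟨t, ht⟩ := VQ_bd (countable_singleton r)
  exact ⟨t, ht r (mem_singleton r)⟩

/-- Henkin variables -/
theorem AUL_hen (hS : VSt K δ S) (s0 s : AUL_St S δ f A) (h0 : AUL_le s0 s) {γ : Ordinal.{0}}
    (hγ : γ < δ) (r0 : Om) (z : M) : ∃ s' : AUL_St S δ f A, AUL_le s s' ∧ s.j < s'.j ∧
      ∃ e ∈ AUL_E s'.j, ∀ r, BFR S S univ univ γ (insert (z, s'.X r e)
        (VQ_pr (AUL_E s0.j) (s0.X r0) (s'.X r))) := by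
  choose t ht using AUL_next
  have ha : ∀ r, ∃ a, BFR S S univ univ γ (insert (z, a)
      (VQ_pr (AUL_E s0.j) (s0.X r0) (s.X (t r)))) := by
    intro r
    obtain ⟨a, -, ha⟩ := (h0.eqv r0 (t r)).forth hγ (mem_univ z)
    exact ⟨a, ha⟩
  choose a ha using ha
  have hb : ∀ r, ∃ b, BFR S S univ univ (od r) (insert (a r, b) (AUL_p s.j (s.X (t r)))) := by
    intro r
    obtain ⟨b, -, hb⟩ := (s.iso (t r)).forth (od_lt_od.mpr (ht r)) (mem_univ (a r))
    exact ⟨b, hb⟩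
  choose b hb using hb
  obtain ⟨s', φ, h1, h2, h3⟩ := AUL_step hS s t (fun r => (ht r).le) a b hb
  refine ⟨s', h1, by rw [h2]; exact Nat.lt_succ_self _, Sum.inl s.j,
    AUL_inl (by rw [h2]; exact Nat.lt_succ_self _), fun r => ?_⟩
  obtain ⟨h4, h5, h6⟩ := h3 r
  refine BFR.anti ?_ (ha (φ r))
  rintro _ (rfl | ⟨e, he, rfl⟩)
  · rw [h4]
    exact mem_insert _ _
  · refine mem_insert_of_mem _ ⟨e, he, ?_⟩
    show (s0.X r0 e, s.X (t (φ r)) e) = (s0.X r0 e, s'.X r e)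
    rw [h6 e (AUL_E_mono h0.j he)]

theorem AUL_lft (hS : VSt K δ S) (s : AUL_St S δ f A) {n : ℕ} (hn : n < s.j) :
    ∃ s' : AUL_St S δ f A, AUL_le s s' ∧ s.j < s'.j ∧
      ∃ n' < s'.j, ∀ r, s'.X r (Sum.inl n') = s'.X r (Sum.inr n) := by
  choose t ht using AUL_next
  have hb : ∀ r, ∃ b, BFR S S univ univ (od r)
      (insert (s.X (t r) (Sum.inr n), b) (AUL_p s.j (s.X (t r)))) := by
    intro r
    obtain ⟨b, -, hb⟩ := (s.iso (t r)).forth (od_lt_od.mpr (ht r))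
      (mem_univ (s.X (t r) (Sum.inr n)))
    exact ⟨b, hb⟩
  choose b hb using hb
  obtain ⟨s', φ, h1, h2, h3⟩ := AUL_step hS s t (fun r => (ht r).le)
    (fun r => s.X (t r) (Sum.inr n)) b hb
  refine ⟨s', h1, by rw [h2]; exact Nat.lt_succ_self _, s.j,
    by rw [h2]; exact Nat.lt_succ_self _, fun r => ?_⟩
  obtain ⟨h4, h5, h6⟩ := h3 r
  rw [h4, h6 _ (AUL_inr hn)]

theorem AUL_rgt (hS : VSt K δ S) (s : AUL_St S δ f A) {n : ℕ} (hn : n < s.j) :
    ∃ s' : AUL_St S δ f A, AUL_le s s' ∧ s.j < s'.j ∧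
      ∃ n' < s'.j, ∀ r, s'.X r (Sum.inr n') = s'.X r (Sum.inl n) := by
  choose t ht using AUL_next
  have hb : ∀ r, ∃ a, BFR S S univ univ (od r)
      (insert (a, s.X (t r) (Sum.inl n)) (AUL_p s.j (s.X (t r)))) := by
    intro r
    obtain ⟨b, -, hb⟩ := (s.iso (t r)).back (od_lt_od.mpr (ht r))
      (mem_univ (s.X (t r) (Sum.inl n)))
    exact ⟨b, hb⟩
  choose a ha using hb
  obtain ⟨s', φ, h1, h2, h3⟩ := AUL_step hS s t (fun r => (ht r).le)
    a (fun r => s.X (t r) (Sum.inl n)) ha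
  refine ⟨s', h1, by rw [h2]; exact Nat.lt_succ_self _, s.j,
    by rw [h2]; exact Nat.lt_succ_self _, fun r => ?_⟩
  obtain ⟨h4, h5, h6⟩ := h3 r
  rw [h5, h6 _ (AUL_inl hn)]

theorem AUL_grow (hS : VSt K δ S) (hδ : 0 < δ) (s : AUL_St S δ f A) (m : ℕ) :
    ∃ s' : AUL_St S δ f A, AUL_le s s' ∧ m < s'.j := by
  have hne : Nonempty M := by
    obtain ⟨r0, -⟩ := od_surj (Ordinal.omega_pos 1 : (0 : Ordinal.{0}) < om1)
    exact ⟨s.X r0 (Sum.inl k)⟩
  obtain ⟨r0, -⟩ := od_surj (Ordinal.omega_pos 1 : (0 : Ordinal.{0}) < om1)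
  induction m with
  | zero => exact ⟨s, AUL_le.refl s, Nat.lt_of_le_of_lt (Nat.zero_le _) s.hj⟩
  | succ m ih =>
    obtain ⟨s1, h1, h2⟩ := ih
    obtain ⟨s2, h3, h4, -⟩ := AUL_hen hS s1 s1 (AUL_le.refl s1) hδ r0 hne.some
    exact ⟨s2, h1.trans h3, Nat.lt_of_le_of_lt h2 h4⟩

/-- the first approximation -/
theorem AUL_start (hS : VSt K δ S) (hA : ¬ A.Countable) : Nonempty (AUL_St S δ f A) := by
  classical
  -- pairs of points of `A`
  have h1 : ∀ r : Om, ∃ x y : M, x ∈ A ∧ y ∈ A ∧ x ≠ y ∧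
      BFR S S univ univ (od r) (insert (x, y) (range fun i => (f i, f i))) := by
    intro r
    obtain ⟨κ, hκ⟩ := hS.code (od_lt r) (k + 1)
    have h2 : ∃ x ∈ A, ∃ y ∈ A, x ≠ y ∧ κ (Fin.snoc (α := fun _ => M) f x) =
        κ (Fin.snoc (α := fun _ => M) f y) := by
      by_contra hcon
      push Not at hcon
      refine hA ?_
      have hinj : InjOn (fun x => κ (Fin.snoc (α := fun _ => M) f x)) A := by
        intro x hx y hy hxy
        by_contra hne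
        exact hcon x hx y hy hne hxy
      exact (mapsTo_univ _ A).countable_of_injOn hinj (to_countable _)
    obtain ⟨x, hx, y, hy, hxy, h3⟩ := h2
    refine ⟨x, y, hx, hy, hxy, BFR.anti ?_ (hκ _ _ h3)⟩
    rintro _ (rfl | ⟨i, rfl⟩)
    · exact ⟨Fin.last k, by simp [Fin.snoc_last]⟩
    · exact ⟨Fin.castSucc i, by simp [Fin.snoc_castSucc]⟩
  choose x y hx hy hxy h2 using h1
  let X : Om → ℕ ⊕ ℕ → M := fun r => Sum.elim
    (fun n => if h : n < k then f ⟨n, h⟩ else x r) (fun n => if h : n < k then f ⟨n, h⟩ else y r)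
  have hXl : ∀ r (i : Fin k), X r (Sum.inl i) = f i := by
    intro r i
    simp only [X, Sum.elim_inl, dif_pos i.2]
  have hXr : ∀ r (i : Fin k), X r (Sum.inr i) = f i := by
    intro r i
    simp only [X, Sum.elim_inr, dif_pos i.2]
  have hXl' : ∀ r, X r (Sum.inl k) = x r := by
    intro r
    simp only [X, Sum.elim_inl, dif_neg (lt_irrefl k)]
  have hXr' : ∀ r, X r (Sum.inr k) = y r := by
    intro r
    simp only [X, Sum.elim_inr, dif_neg (lt_irrefl k)]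
  obtain ⟨φ, hφ1, hφ2⟩ := VQ_hom hS (AUL_E_fin (k + 1)) X
  refine ⟨⟨k + 1, fun r => X (φ r), fun r => ?_, hφ2, Nat.lt_succ_self k, fun r i => hXl _ i,
    fun r i => hXr _ i, fun r => ?_, fun r => ?_, fun r => ?_⟩⟩
  · have h3 : od r ≤ od (φ r) := by
      rcases (hφ1 r).eq_or_lt with h | h
      · rw [← h]
      · exact (od_lt_od.mpr h).le
    refine BFR.anti ?_ ((h2 (φ r)).mono h3)
    rintro _ ⟨n, hn, rfl⟩
    rcases Nat.lt_succ_iff_lt_or_eq.mp hn with h | rfl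
    · refine Or.inr ⟨⟨n, h⟩, ?_⟩
      exact Prod.ext (hXl (φ r) ⟨n, h⟩).symm (hXr (φ r) ⟨n, h⟩).symm
    · refine Or.inl ?_
      rw [hXl', hXr']
  · rw [hXl']
    exact hx _
  · rw [hXr']
    exact hy _
  · rw [hXl', hXr']
    exact hxy _

end

theorem thm_AUL (hCTY : St_CTY) (hVQS : St_VQS) : St_AUL := by
  classical
  intro L _ _ K δ M S hS k f A hA
  have hδ0 : (0 : Ordinal.{0}) < δ :=
    (Ordinal.omega0_pos.trans_le le_self_add).trans_le hS.om
  obtain ⟨r0, -⟩ := od_surj (Ordinal.omega_pos 1 : (0 : Ordinal.{0}) < om1)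
  -- codes of elements over an approximation
  have hcode : ∀ (s0 : AUL_St S δ f A) (γ : Ordinal.{0}), ∃ κ : M → ℕ, γ < δ → ∀ y y',
      κ y = κ y' → BFR S S univ univ γ (insert (y, y')
        (VQ_pr (AUL_E s0.j) (s0.X r0) (s0.X r0))) := by
    intro s0 γ
    by_cases hγ : γ < δ
    · have hfin : (s0.X r0 '' AUL_E s0.j).Finite := (AUL_E_fin _).image _
      obtain ⟨κ, hκ⟩ := countable_classes hS.scat (hγ.trans hS.lt) hS.lev hfin.toFinset
      refine ⟨κ, fun _ y y' hyy => BFR.anti (insert_subset_insert ?_) (hκ y y' hyy)⟩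
      rintro _ ⟨e, he, rfl⟩
      exact ⟨s0.X r0 e, by rw [hfin.coe_toFinset]; exact ⟨e, he, rfl⟩, rfl⟩
    · exact ⟨fun _ => 0, fun h => absurd h hγ⟩
  choose κ hκ using hcode
  -- requirements
  have hc : Countable (Iio δ) := (countable_Iio hS.lt).to_subtype
  have hne : Nonempty ((Iio δ × ℕ) ⊕ (ℕ ⊕ ℕ)) := ⟨Sum.inr (Sum.inl 0)⟩
  obtain ⟨en, hen⟩ := exists_surjective_nat ((Iio δ × ℕ) ⊕ (ℕ ⊕ ℕ))
  let T : ℕ → AUL_St S δ f A → AUL_St S δ f A → Prop := fun t s0 s' =>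
    (∀ (γ : Iio δ) (n : ℕ), en t = Sum.inl (γ, n) → ∀ y, κ s0 γ.1 y = n →
      ∃ e ∈ AUL_E s'.j, BFR S S univ univ γ.1 (insert (y, s'.X r0 e)
        (VQ_pr (AUL_E s0.j) (s0.X r0) (s'.X r0)))) ∧
    (∀ n, en t = Sum.inr (Sum.inl n) → n < s'.j ∧
      ∃ n' < s'.j, s'.X r0 (Sum.inl n') = s'.X r0 (Sum.inr n)) ∧
    (∀ n, en t = Sum.inr (Sum.inr n) → n < s'.j ∧
      ∃ n' < s'.j, s'.X r0 (Sum.inr n') = s'.X r0 (Sum.inl n))
  have hT : ∀ t s0 s, AUL_le s0 s → ∃ s', AUL_le s s' ∧ T t s0 s' := by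
    intro t s0 s h0
    rcases hent : en t with ⟨γ, n⟩ | n | n
    · by_cases hy : ∃ y, κ s0 γ.1 y = n
      · obtain ⟨y1, hy1⟩ := hy
        obtain ⟨s', h1, h2, e, he, h3⟩ := AUL_hen hS s0 s h0 γ.2 r0 y1
        refine ⟨s', h1, fun γ' n' h4 y hy => ⟨e, he, ?_⟩, fun n' h4 => ?_, fun n' h4 => ?_⟩
        · rw [hent] at h4
          cases h4
          refine (hκ s0 γ.1 γ.2 y y1 (hy.trans hy1.symm)).trans (h3 r0) ?_
          rintro _ (rfl | ⟨e, he, rfl⟩)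
          · exact ⟨y1, mem_insert _ _, mem_insert _ _⟩
          · exact ⟨_, mem_insert_of_mem _ ⟨e, he, rfl⟩, mem_insert_of_mem _ ⟨e, he, rfl⟩⟩
        · rw [hent] at h4
          cases h4
        · rw [hent] at h4
          cases h4
      · refine ⟨s, AUL_le.refl s, fun γ' n' h4 y hy' => ?_, fun n' h4 => ?_, fun n' h4 => ?_⟩
        · rw [hent] at h4
          cases h4
          exact absurd ⟨y, hy'⟩ hy
        · rw [hent] at h4
          cases h4
        · rw [hent] at h4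
          cases h4
    · obtain ⟨s1, h1, h2⟩ := AUL_grow hS hδ0 s n
      obtain ⟨s', h3, h4, n', h5, h6⟩ := AUL_lft hS s1 h2
      refine ⟨s', h1.trans h3, fun γ' n' h7 y hy' => ?_, fun n' h7 => ?_, fun n' h7 => ?_⟩
      · rw [hent] at h7
        cases h7
      · rw [hent] at h7
        cases h7
        exact ⟨h2.trans h4, _, h5, h6 r0⟩
      · rw [hent] at h7
        cases h7
    · obtain ⟨s1, h1, h2⟩ := AUL_grow hS hδ0 s n
      obtain ⟨s', h3, h4, n', h5, h6⟩ := AUL_rgt hS s1 h2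
      refine ⟨s', h1.trans h3, fun γ' n' h7 y hy' => ?_, fun n' h7 => ?_, fun n' h7 => ?_⟩
      · rw [hent] at h7
        cases h7
      · rw [hent] at h7
        cases h7
      · rw [hent] at h7
        cases h7
        exact ⟨h2.trans h4, _, h5, h6 r0⟩
  obtain ⟨start⟩ := AUL_start (f := f) hS hA
  obtain ⟨s, hs1, hs2⟩ := VQ_seq AUL_le AUL_le.refl (fun _ _ _ => AUL_le.trans) T hT start
  have hhen : ∀ j, ∀ γ < δ, ∀ y : M, ∃ i, j ≤ i ∧
      ∃ e ∈ AUL_E (s i).j, BFR S S univ univ γ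
        (insert (y, (s i).X r0 e) (VQ_pr (AUL_E (s j).j) ((s j).X r0) ((s i).X r0))) := by
    intro j γ hγ y
    obtain ⟨t, ht⟩ := hen (Sum.inl (⟨γ, hγ⟩, κ (s j) γ y))
    obtain ⟨i, hji, hi⟩ := hs2 t j
    obtain ⟨e, he, h2⟩ := hi.1 _ _ ht y rfl
    exact ⟨i, hji, e, he, h2⟩
  have hleft : ∀ n, ∃ i, n < (s i).j ∧ ∃ n' < (s i).j,
      (s i).X r0 (Sum.inl n') = (s i).X r0 (Sum.inr n) := by
    intro n
    obtain ⟨t, ht⟩ := hen (Sum.inr (Sum.inl n))
    obtain ⟨i, -, hi⟩ := hs2 t 0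
    exact ⟨i, hi.2.1 n ht⟩
  have hright : ∀ n, ∃ i, n < (s i).j ∧ ∃ n' < (s i).j,
      (s i).X r0 (Sum.inr n') = (s i).X r0 (Sum.inl n) := by
    intro n
    obtain ⟨t, ht⟩ := hen (Sum.inr (Sum.inr n))
    obtain ⟨i, -, hi⟩ := hs2 t 0
    exact ⟨i, hi.2.2 n ht⟩
  obtain ⟨T', hT'K, π, hπs, hπ⟩ := hVQS L (ℕ ⊕ ℕ) K δ M S hS (fun j => AUL_E (s j).j)
    (fun j => (s j).X r0) (fun i j hij => AUL_E_mono (hs1 i j hij).j)
    (by
      rintro (n | n)
      · obtain ⟨i, hi, -⟩ := hleft n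
        exact ⟨i, hi⟩
      · obtain ⟨i, hi, -⟩ := hleft n
        exact ⟨i, hi⟩)
    (fun i j hij => (hs1 i j hij).eqv r0 r0)
    (fun j γ hγ z => hhen j γ hγ z)
  -- equality of values
  have heq : ∀ j, ∀ v ∈ AUL_E (s j).j, ∀ w ∈ AUL_E (s j).j,
      (π v = π w ↔ (s j).X r0 v = (s j).X r0 w) := by
    intro j v hv w hw
    exact (hπ j).atEq.1 _ ⟨v, hv, rfl⟩ _ ⟨w, hw, rfl⟩
  have hiso : ∀ j n m, n < (s j).j → m < (s j).j →
      ((s j).X r0 (Sum.inl n) = (s j).X r0 (Sum.inl m) ↔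
        (s j).X r0 (Sum.inr n) = (s j).X r0 (Sum.inr m)) := by
    intro j n m hn hm
    exact ((s j).iso r0).atEq.1 _ ⟨n, hn, rfl⟩ _ ⟨m, hm, rfl⟩
  have hbig : ∀ {ι : Type} [Fintype ι] (w : ι → ℕ), ∃ j, ∀ i, w i < (s j).j := by
    intro ι _ w
    choose J hJ using fun i => hleft (w i)
    refine ⟨Finset.univ.sup J, fun i => ?_⟩
    exact lt_of_lt_of_le (hJ i).1 (hs1 _ _ (Finset.le_sup (Finset.mem_univ i))).j
  have hlr : ∀ n m, π (Sum.inl n) = π (Sum.inl m) ↔ π (Sum.inr n) = π (Sum.inr m) := by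
    intro n m
    obtain ⟨j, hj⟩ := hbig (fun i : Bool => if i then n else m)
    have hn : n < (s j).j := hj true
    have hm : m < (s j).j := hj false
    rw [heq j _ (AUL_inl hn) _ (AUL_inl hm), heq j _ (AUL_inr hn) _ (AUL_inr hm)]
    exact hiso j n m hn hm
  have hL : ∀ m : ℕ, ∃ n, π (Sum.inl n) = m := by
    intro m
    obtain ⟨v | v, rfl⟩ := hπs m
    · exact ⟨v, rfl⟩
    · obtain ⟨i, hi, n', hn', h1⟩ := hleft v
      exact ⟨n', (heq i _ (AUL_inl hn') _ (AUL_inr hi)).mpr h1⟩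
  have hR : ∀ m : ℕ, ∃ n, π (Sum.inr n) = m := by
    intro m
    obtain ⟨v | v, rfl⟩ := hπs m
    · obtain ⟨i, hi, n', hn', h1⟩ := hright v
      exact ⟨n', (heq i _ (AUL_inr hn') _ (AUL_inl hi)).mpr h1⟩
    · exact ⟨v, rfl⟩
  choose l hl using hL
  let e0 : ℕ → ℕ := fun m => π (Sum.inr (l m))
  have he0 : ∀ n, e0 (π (Sum.inl n)) = π (Sum.inr n) := fun n => (hlr _ _).mp (hl _)
  have hbij : Function.Bijective e0 := by
    constructor
    · intro m m' h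
      have h1 := (hlr _ _).mpr h
      rw [hl, hl] at h1
      exact h1
    · intro m
      obtain ⟨n, rfl⟩ := hR m
      exact ⟨π (Sum.inl n), he0 n⟩
  have hkj : ∀ j, k < (s j).j := fun j => (s j).hj
  refine ⟨T', hT'K, fun i => π (Sum.inl i), Equiv.ofBijective e0 hbij, ?_, fun i => ?_,
    π (Sum.inl k), (s 0).X r0 (Sum.inl k), (s 0).X r0 (Sum.inr k), (s 0).meml _, (s 0).memr _,
    (s 0).ne _, ?_⟩
  · intro n R v
    obtain ⟨j, hj⟩ := hbig (fun i => l (v i))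
    have h1 := (hπ j).atEq.2 n R
      (fun i => (π (Sum.inl (l (v i))), (s j).X r0 (Sum.inl (l (v i)))))
      fun i => ⟨Sum.inl (l (v i)), AUL_inl (hj i), rfl⟩
    have h2 := (hπ j).atEq.2 n R
      (fun i => (π (Sum.inr (l (v i))), (s j).X r0 (Sum.inr (l (v i)))))
      fun i => ⟨Sum.inr (l (v i)), AUL_inr (hj i), rfl⟩
    have h3 := ((s j).iso r0).atEq.2 n R
      (fun i => ((s j).X r0 (Sum.inl (l (v i))), (s j).X r0 (Sum.inr (l (v i)))))
      fun i => ⟨l (v i), hj i, rfl⟩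
    have h4 : (fun i => π (Sum.inl (l (v i)))) = v := by
      funext i
      exact hl _
    have h5 := h1.trans (h3.trans h2.symm)
    simp only [h4] at h5
    exact h5
  · show e0 (π (Sum.inl i)) = π (Sum.inl i)
    rw [he0]
    refine (heq 0 _ (AUL_inr (i.2.trans (hkj 0))) _ (AUL_inl (i.2.trans (hkj 0)))).mpr ?_
    rw [(s 0).fixl, (s 0).fixr]
  · refine BFR.anti ?_ (hπ 0)
    rintro _ (rfl | rfl | ⟨i, rfl⟩)
    · exact ⟨Sum.inl k, AUL_inl (hkj 0), rfl⟩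
    · refine ⟨Sum.inr k, AUL_inr (hkj 0), ?_⟩
      show (π (Sum.inr k), (s 0).X r0 (Sum.inr k)) = (e0 (π (Sum.inl k)), _)
      rw [he0]
    · refine ⟨Sum.inl i, AUL_inl (i.2.trans (hkj 0)), ?_⟩
      show (π (Sum.inl (i : ℕ)), (s 0).X r0 (Sum.inl (i : ℕ))) = (π (Sum.inl (i : ℕ)), f i)
      rw [(s 0).fixl]

end VPF
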