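import Pool.Agent.VPF.StB

/-!
# VPF [BFS]: the class is perfect or all relations have finitely many swap classes
-/

set_option autoImplicit false
set_option linter.unusedVariables false

namespace VPF

open FirstOrder Set Pool.Agent.Helper6.Str Pool.Agent.Helper5.Multi Pool.Agent.Helper79.VC
  Pool.Agent.Helper5.DU Pool.Agent.Helper97.VC Pool.Agent.Helper97.LO

private theorem fin_of_type {L : FirstOrder.Language.{0, 0}} {M : Type} [Nonempty M]
    (S : L.Structure M) {n : ℕ} (R : L.Relations n) {X : Type} [Finite X] (t : M → X)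
    (ht : ∀ x y, t x = t y → SwpR S R x y) : ∃ F : Set M, F.Finite ∧ ∀ x, ∃ y ∈ F, SwpR S R x y :=
  ⟨Set.range (Function.invFun t), Set.finite_range _, fun x =>
    ⟨Function.invFun t (t x), ⟨_, rfl⟩, ht _ _ (Function.invFun_eq ⟨x, rfl⟩).symm⟩⟩

private theorem swp0 {L : FirstOrder.Language.{0, 0}} {M : Type} (S : L.Structure M)
    (R : L.Relations 0) (x y : M) : SwpR S R x y := by
  intro v
  exact iff_of_eq (congrArg _ (Subsingleton.elim _ _))

open Classical in
private theorem swp1 {L : FirstOrder.Language.{0, 0}} {M : Type} (S : L.Structure M)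
    (R : L.Relations 1) (x y : M) (hxy' : S.RelMap R ![x] ↔ S.RelMap R ![y]) :
    SwpR S R x y := by
  intro v
  have hv : v = ![v 0] := by
    funext i
    fin_cases i
    rfl
  have hv' : (fun i => Equiv.swap x y (v i)) = ![Equiv.swap x y (v 0)] := by
    funext i
    fin_cases i
    rfl
  rw [hv', hv]
  by_cases hx : v 0 = x
  · rw [hx]
    have : (![x] : Fin 1 → M) 0 = x := rfl
    rw [this, Equiv.swap_apply_left]
    exact hxy'.symm
  · by_cases hy : v 0 = y
    · rw [hy]
      have : (![y] : Fin 1 → M) 0 = y := rfl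
      rw [this, Equiv.swap_apply_right]
      exact hxy'
    · have : (![v 0] : Fin 1 → M) 0 = v 0 := rfl
      rw [this, Equiv.swap_apply_of_ne_of_ne hx hy]

theorem thm_BFS (h1 : St_BQD) (h2 : St_BUL) (h3 : St_FXB) (h4 : St_FXT) : St_BFS := by
  intro L _ _ T hT
  by_cases hP : PerfK (ModF T)
  · exact Or.inl hP
  refine Or.inr fun S hS n R => ?_
  rcases Nat.lt_or_ge n 3 with hn | hn
  · interval_cases n
    · exact fin_of_type S R (fun _ : ℕ => ()) fun x y _ => swp0 S R x y
    · exact fin_of_type S R (fun x : ℕ => S.RelMap R ![x]) fun x y hxy =>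
        swp1 S R x y (Eq.to_iff hxy)
    · by_contra hno
      have hc : Countable ((n : ℕ) × (L.Relations n × (Fin n → Option ℕ))) := inferInstance
      have hne : Nonempty ((n : ℕ) × (L.Relations n × (Fin n → Option ℕ))) :=
        ⟨⟨2, R, fun _ => none⟩⟩
      obtain ⟨f, hf⟩ := exists_surjective_nat ((n : ℕ) × (L.Relations n × (Fin n → Option ℕ)))
      have hq : ∀ n : ℕ, ∃ q : Fin 4 → ℕ, (∀ i, n < q i) ∧ q 0 ≠ q 1 ∧ q 2 ≠ q 3 ∧
          (∀ j < n, (S.RelMap (f j).2.1 (fun i => ((f j).2.2 i).getD (q 0)) ↔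
            S.RelMap (f j).2.1 (fun i => ((f j).2.2 i).getD (q 2)))) ∧
          (∀ j < n, (S.RelMap (f j).2.1 (fun i => ((f j).2.2 i).getD (q 1)) ↔
            S.RelMap (f j).2.1 (fun i => ((f j).2.2 i).getD (q 3)))) ∧
          S.RelMap R ![q 0, q 1] ∧ ¬ S.RelMap R ![q 2, q 3] := by
        intro n
        obtain ⟨x, y, x', y', hx, hy, hx', hy', hxy, hxy', e1, e2, e3, e4⟩ :=
          h1 L ℕ S R hno (Set.Iic n) (f '' Set.Iio n) (Set.finite_Iic n)
            ((Set.finite_Iio n).image f)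
        refine ⟨![x, y, x', y'], ?_, hxy, hxy', fun j hj => e1 _ ⟨j, hj, rfl⟩,
          fun j hj => e2 _ ⟨j, hj, rfl⟩, e3, e4⟩
        intro i
        fin_cases i
        · exact not_le.1 hx
        · exact not_le.1 hy
        · exact not_le.1 hx'
        · exact not_le.1 hy'
      choose Q hQ1 hQ2 hQ3 hQ4 hQ5 hQ6 hQ7 using hq
      obtain ⟨P, hPc, N, D, p, c1, c2, c3, c4, c5, c6, c7⟩ := h2 L T S hT hS Q
        (fun i m => ⟨m, fun n hn => (lt_of_le_of_lt hn (hQ1 n i)).ne'⟩)
      have t1 : Pt N D ![p 0] ![p 2] := by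
        refine c5 0 2 fun k R' w => ?_
        obtain ⟨j, hj⟩ := hf ⟨k, R', w⟩
        refine ⟨j + 1, fun n hn => ?_⟩
        have := hQ4 n j hn
        rw [hj] at this
        exact this
      have t2 : Pt N D ![p 1] ![p 3] := by
        refine c5 1 3 fun k R' w => ?_
        obtain ⟨j, hj⟩ := hf ⟨k, R', w⟩
        refine ⟨j + 1, fun n hn => ?_⟩
        have := hQ5 n j hn
        rw [hj] at this
        exact this
      have t3 : ¬ Pt N D ![p 0, p 1] ![p 2, p 3] := by
        intro h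
        have h5 := h 2 R ![Sum.inr 0, Sum.inr 1]
        have e : ∀ a b : P, (fun i => Sum.elim (Subtype.val : D → P) ![a, b]
            ((![Sum.inr 0, Sum.inr 1] : Fin 2 → D ⊕ Fin 2) i)) = ![a, b] := by
          intro a b
          funext i
          fin_cases i <;> rfl
        rw [e, e] at h5
        exact c7 R 2 3 hQ7 (h5.1 (c6 R 0 1 hQ6))
      exact hP (h3 L (ModF T) P N D c1 c2 (p 0) (p 1) (p 2) (p 3) (c3 0) (c3 1) (c3 2) (c3 3)
        (c4 0 1 hQ2) (c4 2 3 hQ3) t1 t2 t3)
  · exfalso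
    obtain ⟨P, hPc, N, D, p, c1, c2, c3, -⟩ := h2 L T S hT hS (fun n _ => n)
      (fun i m => ⟨m + 1, fun n hn => by omega⟩)
    exact hP (h4 L (ModF T) P N D c1 c2 n R hn ⟨p 0, c3 0⟩)

end VPF
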