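import Pool.Agent.VPF.StA

/-!
# VPF [BIP]: two different atomic types on a pair of types of non-kings
-/

set_option autoImplicit false
set_option linter.unusedVariables false
set_option linter.unusedSectionVars false

namespace VPF

open FirstOrder Set Pool.Agent.Helper6.Str Pool.Agent.Helper5.Multi Pool.Agent.Helper79.VC

/-- the points: old points, copies of `a`, copies of `b` -/
abbrev BIPβ : Type := ℕ ⊕ (ℕ ⊕ ℕ)

/-- the bipartite graph given by `z` -/
def BIPg (z : ℕ → Bool) : ℕ → ℕ → Bool
  | _, 0 => true
  | _, 1 => false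
  | 0, _ + 2 => true
  | 1, _ + 2 => false
  | n + 2, j + 2 => !(z n && decide (j ≤ n))

private def piB (a b : ℕ) : BIPβ → ℕ
  | .inl m => m
  | .inr (.inl _) => a
  | .inr (.inr _) => b

private def rhB (a b c d a' b' : ℕ) (z : ℕ → Bool) : BIPβ → BIPβ → ℕ
  | .inl m, _ => m
  | .inr (.inl _), .inl m => if m = a then a' else a
  | .inr (.inr _), .inl m => if m = b then b' else b
  | .inr (.inl i), .inr (.inl j) => if i < j then a else a'
  | .inr (.inr i), .inr (.inr j) => if i < j then b else b'
  | .inr (.inl i), .inr (.inr j) => if BIPg z i j = true then a else c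
  | .inr (.inr j), .inr (.inl i) => if BIPg z i j = true then b else d

private theorem g_cont (i j : ℕ) : Continuous fun z : ℕ → Bool => BIPg z i j := by
  match i, j with
  | i, 0 => simp only [BIPg]; exact continuous_const
  | i, 1 => simp only [BIPg]; exact continuous_const
  | 0, _ + 2 => simp only [BIPg]; exact continuous_const
  | 1, _ + 2 => simp only [BIPg]; exact continuous_const
  | n + 2, j + 2 =>
    simp only [BIPg]
    have h : Continuous fun t : Bool => !(t && decide (j ≤ n)) := continuous_of_discreteTopology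
    exact h.comp (continuous_apply n)

private theorem rh_cont (a b c d a' b' : ℕ) (x y : BIPβ) :
    Continuous fun z : ℕ → Bool => rhB a b c d a' b' z x y := by
  match x, y with
  | .inl m, _ => simp only [rhB]; exact continuous_const
  | .inr (.inl _), .inl m => simp only [rhB]; exact continuous_const
  | .inr (.inr _), .inl m => simp only [rhB]; exact continuous_const
  | .inr (.inl i), .inr (.inl j) => simp only [rhB]; exact continuous_const
  | .inr (.inr i), .inr (.inr j) => simp only [rhB]; exact continuous_const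
  | .inr (.inl i), .inr (.inr j) =>
    simp only [rhB]
    have h : Continuous fun t : Bool => if t = true then a else c :=
      continuous_of_discreteTopology
    exact h.comp (g_cont i j)
  | .inr (.inr j), .inr (.inl i) =>
    simp only [rhB]
    have h : Continuous fun t : Bool => if t = true then b else d :=
      continuous_of_discreteTopology
    exact h.comp (g_cont i j)

private theorem gv_cont {n : ℕ} (π : BIPβ → ℕ) (ρ : (ℕ → Bool) → BIPβ → BIPβ → ℕ)
    (hρ : ∀ x y, Continuous fun z => ρ z x y) (w : Fin n → BIPβ) :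
    Continuous fun z => (gv π (ρ z) w : Fin n → ℕ) := by
  classical
  refine continuous_pi fun i => ?_
  unfold gv
  split_ifs with h1 h2
  · exact hρ _ _
  · exact continuous_const
  · exact continuous_const

/-- the decoding property -/
def BIPP {L : FirstOrder.Language.{0, 0}} (α : Atm L) (T : L.Structure BIPβ)
    (p : BIPβ × BIPβ × BIPβ × BIPβ) (n : ℕ) : Prop :=
  ∃ x, (x ≠ p.1 ∧ x ≠ p.2.1 ∧ ¬ (atm T x p.1 α ↔ atm T x p.2.1 α)) ∧
    ∃ s : Finset BIPβ, s.card = n + 1 ∧ ∀ y, y ∈ s ↔
      ((y ≠ p.2.2.1 ∧ y ≠ p.2.2.2 ∧ ¬ (atm T p.2.2.1 y α ↔ atm T p.2.2.2 y α)) ∧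
        ¬ atm T x y α)

private theorem bipp_mono {L : FirstOrder.Language.{0, 0}} (α : Atm L) {T T' : L.Structure BIPβ}
    {e : BIPβ ≃ BIPβ} (he : ∀ x y, atm T' (e x) (e y) α ↔ atm T x y α)
    (p : BIPβ × BIPβ × BIPβ × BIPβ) (n : ℕ) (h : BIPP α T p n) :
    BIPP α T' (e p.1, e p.2.1, e p.2.2.1, e p.2.2.2) n := by
  obtain ⟨x, ⟨h1, h2, h3⟩, s, hs, hy⟩ := h
  refine ⟨e x, ⟨e.injective.ne h1, e.injective.ne h2, ?_⟩, s.map e.toEmbedding, ?_, ?_⟩
  · simpa only [he] using h3
  · rw [Finset.card_map, hs]
  · intro y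
    obtain ⟨y, rfl⟩ := e.surjective y
    have h4 : e y ∈ s.map e.toEmbedding ↔ y ∈ s := by
      rw [Finset.mem_map]
      constructor
      · rintro ⟨y', hy', h⟩
        have h5 : y' = y := e.injective h
        exact h5 ▸ hy'
      · exact fun h => ⟨y, h, rfl⟩
    rw [h4, hy y]
    simp only [he, ne_eq, e.injective.eq_iff]

private theorem bipp_meas {L : FirstOrder.Language.{0, 0}} (α : Atm L)
    (N : (ℕ → Bool) → L.Structure BIPβ)
    (hN : ∀ x y, MeasurableSet {z | atm (N z) x y α})
    (p : BIPβ × BIPβ × BIPβ × BIPβ) (n : ℕ) : MeasurableSet {z | BIPP α (N z) p n} := by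
  have hiff : ∀ x y x' y', MeasurableSet {z | atm (N z) x y α ↔ atm (N z) x' y' α} := by
    intro x y x' y'
    have : {z | atm (N z) x y α ↔ atm (N z) x' y' α} =
        ({z | atm (N z) x y α} ∩ {z | atm (N z) x' y' α}) ∪
        ({z | atm (N z) x y α}ᶜ ∩ {z | atm (N z) x' y' α}ᶜ) := by
      ext z
      simp only [mem_ofPred_eq, mem_union, mem_inter_iff, mem_compl_iff]
      tauto
    rw [this]
    exact ((hN _ _).inter (hN _ _)).union ((hN _ _).compl.inter (hN _ _).compl)
  have hex : ∀ {ι : Type} [Countable ι] (P : ι → (ℕ → Bool) → Prop),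
      (∀ i, MeasurableSet {z | P i z}) → MeasurableSet {z | ∃ i, P i z} := by
    intro ι _ P hP
    have : {z | ∃ i, P i z} = ⋃ i, {z | P i z} := by
      ext z
      simp only [mem_ofPred_eq, mem_iUnion]
    rw [this]
    exact MeasurableSet.iUnion hP
  have hfa : ∀ {ι : Type} [Countable ι] (P : ι → (ℕ → Bool) → Prop),
      (∀ i, MeasurableSet {z | P i z}) → MeasurableSet {z | ∀ i, P i z} := by
    intro ι _ P hP
    have : {z | ∀ i, P i z} = ⋂ i, {z | P i z} := by
      ext z
      simp only [mem_ofPred_eq, mem_iInter]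
    rw [this]
    exact MeasurableSet.iInter hP
  unfold BIPP
  refine hex _ fun x => ?_
  refine MeasurableSet.inter ?_ ?_
  · refine (MeasurableSet.const _).inter ((MeasurableSet.const _).inter (hiff _ _ _ _).compl)
  · refine hex _ fun s => ?_
    refine (MeasurableSet.const _).inter ?_
    refine hfa _ fun y => ?_
    have h1 : MeasurableSet {z | (y ≠ p.2.2.1 ∧ y ≠ p.2.2.2 ∧
        ¬ (atm (N z) p.2.2.1 y α ↔ atm (N z) p.2.2.2 y α)) ∧ ¬ atm (N z) x y α} :=
      ((MeasurableSet.const _).inter ((MeasurableSet.const _).inter (hiff _ _ _ _).compl)).inter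
        (hN _ _).compl
    by_cases hy : y ∈ s
    · simpa only [hy, true_iff] using h1
    · have h2 : {z | y ∈ s ↔ (y ≠ p.2.2.1 ∧ y ≠ p.2.2.2 ∧
          ¬ (atm (N z) p.2.2.1 y α ↔ atm (N z) p.2.2.2 y α)) ∧ ¬ atm (N z) x y α} =
          {z | (y ≠ p.2.2.1 ∧ y ≠ p.2.2.2 ∧
          ¬ (atm (N z) p.2.2.1 y α ↔ atm (N z) p.2.2.2 y α)) ∧ ¬ atm (N z) x y α}ᶜ := by
        ext z
        simp only [mem_ofPred_eq, mem_compl_iff, hy, false_iff]
      rw [h2]
      exact h1.compl

/-- the combinatorial core of the decoding -/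
private theorem bipp_core {L : FirstOrder.Language.{0, 0}} (α : Atm L) (T : L.Structure BIPβ)
    (z : ℕ → Bool) (hAB : ∀ i j, atm T (.inr (.inl i)) (.inr (.inr j)) α ↔ BIPg z i j = true)
    (h1 : ∀ m, atm T (.inl m) (.inr (.inr 0)) α ↔ atm T (.inl m) (.inr (.inr 1)) α)
    (h2 : ∀ j, atm T (.inr (.inr (j + 2))) (.inr (.inr 0)) α ↔
      atm T (.inr (.inr (j + 2))) (.inr (.inr 1)) α)
    (h3 : ∀ m, atm T (.inr (.inl 0)) (.inl m) α ↔ atm T (.inr (.inl 1)) (.inl m) α)
    (h4 : ∀ j, atm T (.inr (.inl 0)) (.inr (.inl (j + 2))) α ↔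
      atm T (.inr (.inl 1)) (.inr (.inl (j + 2))) α) (n : ℕ) :
    z n = true ↔ BIPP α T (.inr (.inr 0), .inr (.inr 1), .inr (.inl 0), .inr (.inl 1)) n := by
  have hX : ∀ x : BIPβ, (x ≠ .inr (.inr 0) ∧ x ≠ .inr (.inr 1) ∧
      ¬ (atm T x (.inr (.inr 0)) α ↔ atm T x (.inr (.inr 1)) α)) ↔ ∃ i, x = .inr (.inl i) := by
    intro x
    match x with
    | .inl m =>
      simp only [h1 m, not_true_eq_false, and_false, false_iff, not_exists]
      intro i h
      simp at h
    | .inr (.inl i) =>
      simp [hAB, BIPg]
    | .inr (.inr 0) => simp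
    | .inr (.inr 1) => simp
    | .inr (.inr (j + 2)) =>
      simp only [h2 j, not_true_eq_false, and_false, false_iff, not_exists]
      intro i h
      simp at h
  have hY : ∀ y : BIPβ, (y ≠ .inr (.inl 0) ∧ y ≠ .inr (.inl 1) ∧
      ¬ (atm T (.inr (.inl 0)) y α ↔ atm T (.inr (.inl 1)) y α)) ↔
      ∃ j, y = .inr (.inr (j + 2)) := by
    intro y
    match y with
    | .inl m =>
      simp only [h3 m, not_true_eq_false, and_false, false_iff, not_exists]
      intro i h
      simp at h
    | .inr (.inl 0) => simp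
    | .inr (.inl 1) => simp
    | .inr (.inl (j + 2)) =>
      simp only [h4 j, not_true_eq_false, and_false, false_iff, not_exists]
      intro i h
      simp at h
    | .inr (.inr 0) => simp [hAB, BIPg]
    | .inr (.inr 1) => simp [hAB, BIPg]
    | .inr (.inr (j + 2)) => simp [hAB, BIPg]
  unfold BIPP
  simp only [hX, hY]
  let f : ℕ ↪ BIPβ := ⟨fun j => .inr (.inr (j + 2)), fun i j h => by simpa using h⟩
  have hkey : ∀ (m : ℕ) (s : Finset BIPβ), z m = true →
      (∀ y, y ∈ s ↔ ((∃ j, y = .inr (.inr (j + 2))) ∧ ¬ atm T (.inr (.inl (m + 2))) y α)) →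
      s = (Finset.range (m + 1)).map f := by
    intro m s hz hs
    ext y
    rw [hs y, Finset.mem_map]
    constructor
    · rintro ⟨⟨j, rfl⟩, h⟩
      rw [hAB] at h
      simp only [BIPg, hz, Bool.true_and, Bool.not_eq_true', decide_eq_false_iff_not,
        not_not] at h
      exact ⟨j, Finset.mem_range.mpr (Nat.lt_succ_of_le h), rfl⟩
    · rintro ⟨j, hj, rfl⟩
      refine ⟨⟨j, rfl⟩, ?_⟩
      show ¬ atm T (.inr (.inl (m + 2))) (.inr (.inr (j + 2))) α
      rw [hAB]
      have h5 : j ≤ m := Nat.le_of_lt_succ (Finset.mem_range.mp hj)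
      simp [BIPg, hz, h5]
  constructor
  · intro hz
    refine ⟨.inr (.inl (n + 2)), ⟨_, rfl⟩, (Finset.range (n + 1)).map f, by simp, ?_⟩
    intro y
    rw [Finset.mem_map]
    constructor
    · rintro ⟨j, hj, rfl⟩
      refine ⟨⟨j, rfl⟩, ?_⟩
      show ¬ atm T (.inr (.inl (n + 2))) (.inr (.inr (j + 2))) α
      rw [hAB]
      have h5 : j ≤ n := Nat.le_of_lt_succ (Finset.mem_range.mp hj)
      simp [BIPg, hz, h5]
    · rintro ⟨⟨j, rfl⟩, h⟩
      rw [hAB] at h
      simp only [BIPg, hz, Bool.true_and, Bool.not_eq_true', decide_eq_false_iff_not,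
        not_not] at h
      exact ⟨j, Finset.mem_range.mpr (Nat.lt_succ_of_le h), rfl⟩
  · rintro ⟨x, ⟨i, rfl⟩, s, hs, hy⟩
    match i with
    | 0 =>
      exfalso
      have h5 : s = ∅ := by
        rw [Finset.eq_empty_iff_forall_notMem]
        intro y hys
        obtain ⟨⟨j, rfl⟩, h⟩ := (hy y).mp hys
        rw [hAB] at h
        exact h rfl
      rw [h5] at hs
      simp at hs
    | 1 =>
      exfalso
      have h5 : (Set.range f) ⊆ (s : Set BIPβ) := by
        rintro _ ⟨j, rfl⟩
        refine (hy _).mpr ⟨⟨j, rfl⟩, ?_⟩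
        show ¬ atm T (.inr (.inl 1)) (.inr (.inr (j + 2))) α
        rw [hAB]
        simp [BIPg]
      exact (Set.infinite_range_of_injective f.injective) (s.finite_toSet.subset h5)
    | m + 2 =>
      by_cases hz : z m = true
      · have h5 := hkey m s hz hy
        rw [h5, Finset.card_map, Finset.card_range] at hs
        have h6 : m = n := by omega
        exact h6 ▸ hz
      · exfalso
        have h5 : s = ∅ := by
          rw [Finset.eq_empty_iff_forall_notMem]
          intro y hys
          obtain ⟨⟨j, rfl⟩, h⟩ := (hy y).mp hys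
          rw [hAB] at h
          simp [BIPg, hz] at h
        rw [h5] at hs
        simp at hs

private theorem bip_main (hT : St_TRU) (hP : St_PST) (hI : St_INV)
    (L : FirstOrder.Language.{0, 0}) [∀ n, IsEmpty (L.Functions n)]
    [∀ n, Countable (L.Relations n)] (F : ℕ → FV L 2) (hF : Cls F) (S : L.Structure ℕ)
    (hS : S ∈ ModV (F 0)) (a b c d a' b' : ℕ) (α : Atm L) (hab : a ≠ b) (hcd : c ≠ d)
    (haa : a ≠ a') (hbb : b ≠ b') (tc : ty S F c = ty S F a) (td : ty S F d = ty S F b)
    (ta : ty S F a' = ty S F a) (tb : ty S F b' = ty S F b) (h1 : atm S a b α)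
    (h2 : ¬ atm S c d α) : PerfK (ModV (F 0)) := by
  let π : BIPβ → ℕ := piB a b
  let ρ : (ℕ → Bool) → BIPβ → BIPβ → ℕ := rhB a b c d a' b'
  have hPSt : ∀ z, PSt S F π (ρ z) := by
    intro z
    refine ⟨?_, ?_, ?_⟩
    · intro x y _
      match x, y with
      | .inl m, _ => rfl
      | .inr (.inl _), .inl m =>
        show ty S F (if m = a then a' else a) = ty S F a
        split_ifs
        · exact ta
        · rfl
      | .inr (.inr _), .inl m =>
        show ty S F (if m = b then b' else b) = ty S F b
        split_ifs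
        · exact tb
        · rfl
      | .inr (.inl i), .inr (.inl j) =>
        show ty S F (if i < j then a else a') = ty S F a
        split_ifs
        · rfl
        · exact ta
      | .inr (.inr i), .inr (.inr j) =>
        show ty S F (if i < j then b else b') = ty S F b
        split_ifs
        · rfl
        · exact tb
      | .inr (.inl i), .inr (.inr j) =>
        show ty S F (if BIPg z i j = true then a else c) = ty S F a
        split_ifs
        · rfl
        · exact tc
      | .inr (.inr j), .inr (.inl i) =>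
        show ty S F (if BIPg z i j = true then b else d) = ty S F b
        split_ifs
        · rfl
        · exact td
    · intro x y hxy
      match x, y with
      | .inl m, .inl m' =>
        show m ≠ m'
        exact fun h => hxy (by rw [h])
      | .inl m, .inr (.inl _) =>
        show m ≠ (if m = a then a' else a)
        split_ifs with h
        · rw [h]; exact haa
        · exact h
      | .inl m, .inr (.inr _) =>
        show m ≠ (if m = b then b' else b)
        split_ifs with h
        · rw [h]; exact hbb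
        · exact h
      | .inr (.inl _), .inl m =>
        show (if m = a then a' else a) ≠ m
        split_ifs with h
        · rw [h]; exact haa.symm
        · exact fun h' => h h'.symm
      | .inr (.inr _), .inl m =>
        show (if m = b then b' else b) ≠ m
        split_ifs with h
        · rw [h]; exact hbb.symm
        · exact fun h' => h h'.symm
      | .inr (.inl i), .inr (.inl j) =>
        show (if i < j then a else a') ≠ (if j < i then a else a')
        have hij : i ≠ j := fun h => hxy (by rw [h])
        rcases lt_or_gt_of_ne hij with h | h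
        · rw [if_pos h, if_neg (by omega)]; exact haa
        · rw [if_neg (by omega), if_pos h]; exact haa.symm
      | .inr (.inr i), .inr (.inr j) =>
        show (if i < j then b else b') ≠ (if j < i then b else b')
        have hij : i ≠ j := fun h => hxy (by rw [h])
        rcases lt_or_gt_of_ne hij with h | h
        · rw [if_pos h, if_neg (by omega)]; exact hbb
        · rw [if_neg (by omega), if_pos h]; exact hbb.symm
      | .inr (.inl i), .inr (.inr j) =>
        show (if BIPg z i j = true then a else c) ≠ (if BIPg z i j = true then b else d)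
        split_ifs
        · exact hab
        · exact hcd
      | .inr (.inr j), .inr (.inl i) =>
        show (if BIPg z i j = true then b else d) ≠ (if BIPg z i j = true then a else c)
        split_ifs
        · exact hab.symm
        · exact hcd.symm
    · intro x y hy
      match x with
      | .inl m =>
        have hym : y ≠ m := hy
        exact ⟨.inl y, fun h => hym (by simpa using h), rfl, fun _ => Iff.rfl⟩
      | .inr (.inl i) =>
        refine ⟨.inl y, by simp, rfl, fun _ => ?_⟩
        have hya : y ≠ a := hy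
        show atm S a y _ ↔ atm S (if y = a then a' else a) y _
        rw [if_neg hya]
      | .inr (.inr i) =>
        refine ⟨.inl y, by simp, rfl, fun _ => ?_⟩
        have hyb : y ≠ b := hy
        show atm S b y _ ↔ atm S (if y = b then b' else b) y _
        rw [if_neg hyb]
  have hN := fun z => hP L F ℕ BIPβ S π (ρ z) (hPSt z)
  have hcl : ∀ (n : ℕ) (R : L.Relations n) (w : Fin n → BIPβ),
      IsClopen {z | (pst S π (ρ z)).RelMap R w} := by
    intro n R w
    have h3 : Continuous fun z => (gv π (ρ z) w : Fin n → ℕ) :=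
      gv_cont π ρ (fun x y => rh_cont a b c d a' b' x y) w
    exact (isClopen_discrete {v : Fin n → ℕ | S.RelMap R v}).preimage h3
  have hmod : ∀ z, ∀ S' : L.Structure ℕ, Iso (pst S π (ρ z)) S' → S' ∈ ModV (F 0) := by
    rintro z S' ⟨e, he⟩ v
    have h3 := (hT L F ℕ BIPβ S (pst S π (ρ z)) π hF (hN z).2.2).2 0 hS (e.symm ∘ v)
    have h4 := (hI L F BIPβ ℕ (pst S π (ρ z)) S' e he).1 2 (F 0) (e.symm ∘ v)
    have h5 : e ∘ (e.symm ∘ v) = v := by funext i; simp
    rw [h5] at h4
    exact h4.mpr h3
  refine perfK_of_decode (fun z => pst S π (ρ z)) hmod hcl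
    (ι := BIPβ × BIPβ × BIPβ × BIPβ)
    (fun p n => {z | BIPP α (pst S π (ρ z)) p n}) (fun p n => ?_) ?_
  · exact bipp_meas α _ (fun x y => (hcl _ _ _).2.measurableSet) p n
  · rintro z z' ⟨e, he⟩
    have hinv := (hI L F BIPβ BIPβ _ _ e he).2.2.2.2
    let p0 : BIPβ × BIPβ × BIPβ × BIPβ :=
      (.inr (.inr 0), .inr (.inr 1), .inr (.inl 0), .inr (.inl 1))
    refine ⟨(e p0.1, e p0.2.1, e p0.2.2.1, e p0.2.2.2), fun n => ?_⟩
    have hat := fun x y (hxy : x ≠ y) => (hN z).1 x y hxy α
    have hcore : z n = true ↔ BIPP α (pst S π (ρ z)) p0 n := by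
      refine bipp_core α (pst S π (ρ z)) z ?_ ?_ ?_ ?_ ?_ n
      · intro i j
        rw [hat _ _ (by simp)]
        show atm S (if BIPg z i j = true then a else c) (if BIPg z i j = true then b else d) α ↔ _
        by_cases h : BIPg z i j = true
        · simp only [h, if_true]
          exact iff_of_true h1 trivial
        · rw [if_neg h, if_neg h]
          exact iff_of_false h2 h
      · intro m
        rw [hat _ _ (by simp), hat _ _ (by simp)]
        exact Iff.rfl
      · intro j
        rw [hat _ _ (by simp), hat _ _ (by simp)]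
        show atm S (if j + 2 < 0 then b else b') (if 0 < j + 2 then b else b') α ↔
          atm S (if j + 2 < 1 then b else b') (if 1 < j + 2 then b else b') α
        rw [if_neg (show ¬ j + 2 < 0 by omega), if_pos (show 0 < j + 2 by omega),
          if_neg (show ¬ j + 2 < 1 by omega), if_pos (show 1 < j + 2 by omega)]
      · intro m
        rw [hat _ _ (by simp), hat _ _ (by simp)]
        exact Iff.rfl
      · intro j
        rw [hat _ _ (by simp), hat _ _ (by simp)]
        show atm S (if 0 < j + 2 then a else a') (if j + 2 < 0 then a else a') α ↔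
          atm S (if 1 < j + 2 then a else a') (if j + 2 < 1 then a else a') α
        rw [if_neg (show ¬ j + 2 < 0 by omega), if_pos (show 0 < j + 2 by omega),
          if_neg (show ¬ j + 2 < 1 by omega), if_pos (show 1 < j + 2 by omega)]
    rw [hcore]
    constructor
    · exact fun h => bipp_mono α (fun x y => hinv x y α) p0 n h
    · intro h
      have h3 := bipp_mono α (T := pst S π (ρ z')) (T' := pst S π (ρ z)) (e := e.symm)
        (fun x y => by
          have := hinv (e.symm x) (e.symm y) α
          simpa only [Equiv.apply_symm_apply] using this.symm)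
        (e p0.1, e p0.2.1, e p0.2.2.1, e p0.2.2.2) n h
      simpa only [Equiv.symm_apply_apply] using h3

/-- two different atomic types on a pair of types of non-kings -/
theorem thm_BIP (hT : St_TRU) (hP : St_PST) (hI : St_INV) : St_BIP := by
  intro L _ _ F hF S hS hU
  unfold Uni at hU
  push Not at hU
  obtain ⟨x, y, x', y', hxy, hxy', hx, hy, tx, tyy, α, hα⟩ := hU
  have hkg : ∀ u v, ty S F u = ty S F v → ¬ Kg S F u → ∃ w, v ≠ w ∧ ty S F w = ty S F v := by
    intro u v huv hu
    unfold Kg at hu
    push Not at hu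
    obtain ⟨w, hw, hwu⟩ := hu
    by_cases h : v = w
    · exact ⟨u, fun h' => hwu (h ▸ h'), huv⟩
    · exact ⟨w, h, hw.trans huv⟩
  obtain ⟨u1, hu1, tu1⟩ := hkg x x rfl hx
  obtain ⟨u2, hu2, tu2⟩ := hkg y y rfl hy
  obtain ⟨u3, hu3, tu3⟩ := hkg x x' tx hx
  obtain ⟨u4, hu4, tu4⟩ := hkg y y' tyy hy
  by_cases h : atm S x y α
  · have h' : ¬ atm S x' y' α := by tauto
    exact bip_main hT hP hI L F hF S hS x y x' y' u1 u2 α hxy hxy' hu1 hu2 tx.symm tyy.symm
      tu1 tu2 h h'
  · have h' : atm S x' y' α := by tauto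
    exact bip_main hT hP hI L F hF S hS x' y' x y u3 u4 α hxy' hxy hu3 hu4 tx tyy
      tu3 tu4 h' h

end VPF
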