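import Pool.Agent.VPF.StB

/-!
# VPF, module BMU: infinitely many special points
-/

set_option autoImplicit false
set_option linter.unusedSectionVars false

namespace VPF

open FirstOrder Set Pool.Agent.Helper6.Str Pool.Agent.Helper5.Multi Pool.Agent.Helper79.VC
  Pool.Agent.Helper5.DU Pool.Agent.Helper97.VC Pool.Agent.Helper97.LO

section sw

variable {L : FirstOrder.Language.{0, 0}} {M : Type} {S : L.Structure M}
  {s : ℕ → (k : ℕ) × L.Relations k}

private theorem BMU_refl (h : St_SWE) (n : ℕ) (x : M) : SwN S s n x x := fun _ _ =>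
  (h L M S _ _).1 x

private theorem BMU_symm (h : St_SWE) {n : ℕ} {x y : M} (hxy : SwN S s n x y) : SwN S s n y x :=
  fun i hi => (h L M S _ _).2.1 x y (hxy i hi)

private theorem BMU_trans (h : St_SWE) {n : ℕ} {x y z : M} (hxy : SwN S s n x y)
    (hyz : SwN S s n y z) : SwN S s n x z :=
  fun i hi => (h L M S _ _).2.2.1 x y z (hxy i hi) (hyz i hi)

private theorem BMU_mono {n m : ℕ} (hnm : n ≤ m) {x y : M} (hxy : SwN S s m x y) :
    SwN S s n x y := fun i hi => hxy i (hi.trans_le hnm)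

private theorem BMU_swN {x y : M} (hxy : Swp S x y) (n : ℕ) : SwN S s n x y :=
  fun i _ v => hxy _ (s i).2 v

private theorem BMU_srefl (h : St_SWE) (x : M) : Swp S x x := fun _ R => (h L M S _ R).1 x

private theorem BMU_ssymm (h : St_SWE) {x y : M} (hxy : Swp S x y) : Swp S y x :=
  fun _ R => (h L M S _ R).2.1 x y (hxy _ R)

private theorem BMU_strans (h : St_SWE) {x y z : M} (hxy : Swp S x y) (hyz : Swp S y z) :
    Swp S x z := fun _ R => (h L M S _ R).2.2.1 x y z (hxy _ R) (hyz _ R)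

/-- The class of a special point is infinite. -/
private theorem BMU_inf {x : M} (hx : Spc S s x) (n : ℕ) :
    {y | SwN S s n x y}.Infinite := by
  intro hfin
  have hfin' : ∀ m, n ≤ m → {y | SwN S s m x y}.Finite := fun m hm =>
    hfin.subset fun y hy => BMU_mono hm hy
  obtain ⟨m, hm⟩ : ∃ m, m ∈ {c | ∃ k, n ≤ k ∧ {y | SwN S s k x y}.ncard = c} :=
    ⟨_, n, le_rfl, rfl⟩
  obtain ⟨c, ⟨k, hk, hkc⟩, hmin⟩ := WellFounded.has_min (wellFounded_lt : WellFounded (α := ℕ) (· < ·))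
    {c | ∃ k, n ≤ k ∧ {y | SwN S s k x y}.ncard = c} ⟨m, hm⟩
  obtain ⟨k', y, hy, hy'⟩ := hx k
  have hlt : {y | SwN S s (max k k') x y}.ncard < {y | SwN S s k x y}.ncard := by
    refine Set.ncard_lt_ncard ⟨fun z hz => BMU_mono (le_max_left _ _) hz, fun hsub => ?_⟩
      (hfin' k hk)
    exact hy' (BMU_mono (le_max_right _ _) (hsub hy))
  exact hmin _ ⟨max k k', hk.trans (le_max_left _ _), rfl⟩ (hkc ▸ hlt)

/-- Special points are preserved by `Swp`. -/
private theorem BMU_spc (h : St_SWE) {x y : M} (hxy : Swp S x y) (hx : Spc S s x) :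
    Spc S s y := by
  intro n
  obtain ⟨m, z, h1, h2⟩ := hx n
  refine ⟨m, z, BMU_trans h (BMU_symm h (BMU_swN hxy n)) h1, fun h3 => h2 ?_⟩
  exact BMU_trans h (BMU_swN hxy m) h3

end sw

/-- Counting. -/
private theorem BMU_cnt {A B : Type} {X : Set A} {Y : Set B} (hXY : X.encard = Y.encard)
    (Γ : Set (A × B)) (hΓ : Γ.Finite) (hp : ∀ p ∈ Γ, ∀ q ∈ Γ, p.1 = q.1 → p.2 = q.2)
    (hm : ∀ p ∈ Γ, p.2 ∈ Y → p.1 ∈ X) (a : A) (ha : a ∈ X) (hav : ∀ p ∈ Γ, p.1 ≠ a) :
    ∃ b ∈ Y, ∀ p ∈ Γ, p.2 ≠ b := by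
  classical
  by_contra hcon
  push Not at hcon
  obtain ⟨g, hg⟩ : ∃ g : B → A, ∀ b ∈ Y, (g b, b) ∈ Γ := by
    refine ⟨fun b => if hb : ∃ p ∈ Γ, p.2 = b then hb.choose.1 else a, fun b hb => ?_⟩
    have hb' : ∃ p ∈ Γ, p.2 = b := hcon b hb
    have h1 := hb'.choose_spec
    have h2 : (hb'.choose.1, b) = hb'.choose := Prod.ext rfl h1.2.symm
    simp only [hb', dif_pos]
    rw [h2]
    exact h1.1
  have hYfin : Y.Finite := (hΓ.image Prod.snd).subset fun b hb => ⟨(g b, b), hg b hb, rfl⟩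
  have hXfin : X.Finite := by
    rw [← Set.encard_lt_top_iff, hXY]
    exact hYfin.encard_lt_top
  have h1 : Y.encard ≤ (X \ {a}).encard := by
    refine Set.encard_le_encard_of_injOn (f := g) (fun b hb => ?_) ?_
    · exact ⟨hm _ (hg b hb) hb, hav _ (hg b hb)⟩
    · intro b hb b' hb' heq
      exact hp _ (hg b hb) _ (hg b' hb') heq
  have h2 := Set.encard_sdiff_singleton_add_one ha
  have h3 : (X \ {a}).encard ≠ ⊤ := (hXfin.subset Set.sdiff_subset).encard_lt_top.ne
  rw [← hXY, ← h2] at h1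
  exact absurd h1 (not_le.mpr (ENat.lt_add_one_iff h3 |>.mpr le_rfl))

section blow

variable {L : FirstOrder.Language.{0, 0}} {M β : Type} [∀ n, IsEmpty (L.Functions n)]

/-- The structure on `β` obtained from `S` by means of `r : β → M`. -/
@[instance_reducible]
def BMU_N (S : L.Structure M) (r : β → M) : L.Structure β where
  funMap := fun {n} f => (isEmptyElim f : (Fin n → β) → β)
  RelMap := fun {n} R w => ∃ u : Fin n → M, (∀ i j, u i = u j ↔ w i = w j) ∧
    (∀ i, SwpR S R (u i) (r (w i))) ∧ S.RelMap R u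

/-- All classes have the right size. -/
def BMU_G (S : L.Structure M) (s : ℕ → (k : ℕ) × L.Relations k) (r : β → M) : Prop :=
  ∀ n a, {x | SwN S s n x a}.encard = {b | SwN S s n (r b) a}.encard

/-- An injective relation which respects the classes. -/
def BMU_P (S : L.Structure M) (s : ℕ → (k : ℕ) × L.Relations k) (r : β → M) (n : ℕ)
    (Γ : Set (M × β)) : Prop :=
  ∀ p ∈ Γ, SwN S s n p.1 (r p.2) ∧ ∀ q ∈ Γ, (p.1 = q.1 ↔ p.2 = q.2)

variable {S : L.Structure M} {s : ℕ → (k : ℕ) × L.Relations k} {r : β → M}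

private theorem BMU_rel (h : St_SWE) {k : ℕ} (R : L.Relations k) (v : Fin k → M) (w : Fin k → β)
    (hc : ∀ i, SwpR S R (v i) (r (w i))) (hp : ∀ i j, v i = v j ↔ w i = w j) :
    S.RelMap R v ↔ (BMU_N S r).RelMap R w := by
  obtain ⟨_, hsymm, htrans, hval⟩ := h L M S k R
  constructor
  · intro hv
    exact ⟨v, hp, hc, hv⟩
  · rintro ⟨u, hpu, hcu, hu⟩
    exact (hval u v (fun i => htrans _ _ _ (hcu i) (hsymm _ _ (hc i)))
      (fun i j => (hpu i j).trans (hp i j).symm)).mp hu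

private theorem BMU_relP (h : St_SWE) {n i : ℕ} (hi : i < n) {k : ℕ} {R : L.Relations k}
    (hR : s i = ⟨k, R⟩) {Γ : Set (M × β)} (hΓ : BMU_P S s r n Γ) (v : Fin k → M) (w : Fin k → β)
    (hm : ∀ j, (v j, w j) ∈ Γ) : S.RelMap R v ↔ (BMU_N S r).RelMap R w := by
  refine BMU_rel h R v w (fun j => ?_) fun j j' => (hΓ _ (hm j)).2 _ (hm j')
  have h1 := (hΓ _ (hm j)).1 i hi
  rw [hR] at h1
  exact h1

private theorem BMU_insert {n : ℕ} {Γ : Set (M × β)} (hΓ : BMU_P S s r n Γ) (a : M)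
    (b : β) (hc : SwN S s n a (r b)) (hp : ∀ q ∈ Γ, (a = q.1 ↔ b = q.2)) :
    BMU_P S s r n (insert (a, b) Γ) := by
  rintro p (rfl | hpΓ)
  · refine ⟨hc, ?_⟩
    rintro q (rfl | hq)
    · exact ⟨fun _ => rfl, fun _ => rfl⟩
    · exact hp q hq
  · refine ⟨(hΓ p hpΓ).1, ?_⟩
    rintro q (rfl | hq)
    · exact ⟨fun e => ((hp p hpΓ).mp e.symm).symm, fun e => ((hp p hpΓ).mpr e.symm).symm⟩
    · exact (hΓ p hpΓ).2 q hq

private theorem BMU_forth (h : St_SWE) (hG : BMU_G S s r) {n : ℕ} {Γ : Set (M × β)}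
    (hfin : Γ.Finite) (hΓ : BMU_P S s r n Γ) (a : M) :
    ∃ b, BMU_P S s r n (insert (a, b) Γ) := by
  by_cases ha : ∃ p ∈ Γ, p.1 = a
  · obtain ⟨p, hp, rfl⟩ := ha
    exact ⟨p.2, BMU_insert hΓ _ _ (hΓ p hp).1 fun q hq => (hΓ p hp).2 q hq⟩
  · push Not at ha
    obtain ⟨b, hb, hbn⟩ := BMU_cnt (hG n a) Γ hfin
      (fun p hp q hq => ((hΓ p hp).2 q hq).mp)
      (fun p hp hpy => BMU_trans h (hΓ p hp).1 hpy) a (BMU_refl h n a) ha
    refine ⟨b, BMU_insert hΓ _ _ (BMU_symm h hb) fun q hq => ?_⟩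
    exact ⟨fun e => absurd e.symm (ha q hq), fun e => absurd e.symm (hbn q hq)⟩

private theorem BMU_back (h : St_SWE) (hG : BMU_G S s r) {n : ℕ} {Γ : Set (M × β)}
    (hfin : Γ.Finite) (hΓ : BMU_P S s r n Γ) (b : β) :
    ∃ a, BMU_P S s r n (insert (a, b) Γ) := by
  by_cases hb : ∃ p ∈ Γ, p.2 = b
  · obtain ⟨p, hp, rfl⟩ := hb
    exact ⟨p.1, BMU_insert hΓ _ _ (hΓ p hp).1 fun q hq => (hΓ p hp).2 q hq⟩
  · push Not at hb
    obtain ⟨a, ha, han⟩ := BMU_cnt (hG n (r b)).symm (Prod.swap '' Γ) (hfin.image _)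
      (by
        rintro _ ⟨p, hp, rfl⟩ _ ⟨q, hq, rfl⟩
        exact ((hΓ p hp).2 q hq).mpr)
      (by
        rintro _ ⟨p, hp, rfl⟩ hpy
        exact BMU_trans h (BMU_symm h (hΓ p hp).1) hpy) b (BMU_refl h n (r b))
      (by
        rintro _ ⟨p, hp, rfl⟩
        exact hb p hp)
    refine ⟨a, BMU_insert hΓ _ _ ha fun q hq => ?_⟩
    exact ⟨fun e => absurd e.symm (han _ ⟨q, hq, rfl⟩), fun e => absurd e.symm (hb q hq)⟩

private theorem BMU_many (h : St_SWE) (hG : BMU_G S s r) {n : ℕ} {Γ : Set (M × β)}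
    (hfin : Γ.Finite) (hΓ : BMU_P S s r n Γ) (A : Finset M) :
    ∃ Γ' : Set (M × β), Γ ⊆ Γ' ∧ Γ'.Finite ∧ BMU_P S s r n Γ' ∧ ∀ a ∈ A, ∃ b, (a, b) ∈ Γ' := by
  classical
  induction A using Finset.induction_on with
  | empty => exact ⟨Γ, Subset.rfl, hfin, hΓ, fun a ha => absurd ha (Finset.notMem_empty a)⟩
  | insert a A _ ih =>
    obtain ⟨Γ', h1, h2, h3, h4⟩ := ih
    obtain ⟨b, hb⟩ := BMU_forth h hG h2 h3 a
    refine ⟨insert (a, b) Γ', h1.trans (subset_insert _ _), h2.insert _, hb, fun x hx => ?_⟩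
    rcases Finset.mem_insert.mp hx with rfl | hx
    · exact ⟨b, mem_insert _ _⟩
    · obtain ⟨y, hy⟩ := h4 x hx
      exact ⟨y, mem_insert_of_mem _ hy⟩

/-- The truth lemma. -/
private theorem BMU_truth (h : St_SWE) (hs : Function.Surjective s) (hG : BMU_G S s r) {j : ℕ}
    (φ : L.BoundedFormula Empty j) : ∃ n₀, ∀ n, n₀ ≤ n → ∀ (v : Fin j → M) (w : Fin j → β),
      BMU_P S s r n (range fun i => (v i, w i)) →
      (@FirstOrder.Language.BoundedFormula.Realize L M S Empty j φ default v ↔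
        @FirstOrder.Language.BoundedFormula.Realize L β (BMU_N S r) Empty j φ default w) := by
  induction φ with
  | falsum => exact ⟨0, fun n _ v w _ => Iff.rfl⟩
  | equal t₁ t₂ =>
    refine ⟨0, fun n _ v w hΓ => ?_⟩
    have h1 := (hΓ _ ⟨tv t₁, rfl⟩).2 _ ⟨tv t₂, rfl⟩
    simp only at h1
    rw [← realize_tv S t₁ v, ← realize_tv S t₂ v, ← realize_tv (BMU_N S r) t₁ w,
      ← realize_tv (BMU_N S r) t₂ w] at h1
    exact h1
  | @rel j k R ts =>
    obtain ⟨i, hi⟩ := hs ⟨k, R⟩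
    refine ⟨i + 1, fun n hn v w hΓ => ?_⟩
    have h1 := BMU_relP h (show i < n by omega) hi hΓ (fun l => v (tv (ts l)))
      (fun l => w (tv (ts l))) fun l => ⟨tv (ts l), rfl⟩
    simp only [← realize_tv S, ← realize_tv (BMU_N S r)] at h1
    exact h1
  | imp φ ψ ih1 ih2 =>
    obtain ⟨n₁, h1⟩ := ih1
    obtain ⟨n₂, h2⟩ := ih2
    refine ⟨max n₁ n₂, fun n hn v w hΓ => ?_⟩
    exact imp_congr (h1 n ((le_max_left _ _).trans hn) v w hΓ)
      (h2 n ((le_max_right _ _).trans hn) v w hΓ)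
  | all φ ih =>
    obtain ⟨n₀, h1⟩ := ih
    refine ⟨n₀, fun n hn v w hΓ => ?_⟩
    constructor
    · intro hv b
      obtain ⟨a, ha⟩ := BMU_back h hG (finite_range _) hΓ b
      rw [← range_snoc] at ha
      exact (h1 n hn _ _ ha).mp (hv a)
    · intro hw a
      obtain ⟨b, hb⟩ := BMU_forth h hG (finite_range _) hΓ a
      rw [← range_snoc] at hb
      exact (h1 n hn _ _ hb).mpr (hw b)

private theorem BMU_model (h : St_SWE) (hs : Function.Surjective s) (hG : BMU_G S s r)
    (T : L.Theory) (hT : @FirstOrder.Language.Theory.Model L M S T) :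
    @FirstOrder.Language.Theory.Model L β (BMU_N S r) T := by
  refine @FirstOrder.Language.Theory.Model.mk L _ (BMU_N S r) _ fun σ hσ => ?_
  obtain ⟨n, hn⟩ := BMU_truth h hs hG (j := 0) σ
  have h1 := hn n le_rfl default default (by
    rintro _ ⟨i, _⟩
    exact Fin.elim0 i)
  exact h1.mp (@FirstOrder.Language.Theory.realize_sentence_of_mem L M S T hT σ hσ)

private theorem BMU_swpR (h : St_SWE) (hs : Function.Surjective s) (hG : BMU_G S s r) {k : ℕ}
    (R : L.Relations k) (b b' : β) : SwpR (BMU_N S r) R b b' ↔ SwpR S R (r b) (r b') := by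
  classical
  obtain ⟨hrefl, hsymm, htrans, hval⟩ := h L M S k R
  constructor
  · intro hN
    by_cases hbb : r b = r b'
    · rw [hbb]
      exact hrefl _
    have hbb' : b ≠ b' := fun e => hbb (by rw [e])
    obtain ⟨i, hi⟩ := hs ⟨k, R⟩
    have hΓ₀ : BMU_P S s r (i + 1) {(r b, b), (r b', b')} := by
      rintro p (rfl | rfl)
      · refine ⟨BMU_refl h _ _, ?_⟩
        rintro q (rfl | rfl)
        · exact ⟨fun _ => rfl, fun _ => rfl⟩
        · exact ⟨fun e => absurd e hbb, fun e => absurd e hbb'⟩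
      · refine ⟨BMU_refl h _ _, ?_⟩
        rintro q (rfl | rfl)
        · exact ⟨fun e => absurd e.symm hbb, fun e => absurd e.symm hbb'⟩
        · exact ⟨fun _ => rfl, fun _ => rfl⟩
    intro u
    obtain ⟨Γ, h1, h2, h3, h4⟩ := BMU_many h hG (by simp) hΓ₀ (Finset.univ.image u)
    choose w hw using fun j => h4 (u j) (Finset.mem_image_of_mem u (Finset.mem_univ j))
    have hb : (r b, b) ∈ Γ := h1 (Or.inl rfl)
    have hb' : (r b', b') ∈ Γ := h1 (Or.inr rfl)
    have hsw : ∀ j, (Equiv.swap (r b) (r b') (u j), Equiv.swap b b' (w j)) ∈ Γ := by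
      intro j
      by_cases e1 : u j = r b
      · have e2 : w j = b := ((h3 _ (hw j)).2 _ hb).mp e1
        rw [e1, e2, Equiv.swap_apply_left, Equiv.swap_apply_left]
        exact hb'
      by_cases e3 : u j = r b'
      · have e2 : w j = b' := ((h3 _ (hw j)).2 _ hb').mp e3
        rw [e3, e2, Equiv.swap_apply_right, Equiv.swap_apply_right]
        exact hb
      · have e2 : w j ≠ b := fun e => e1 (((h3 _ (hw j)).2 _ hb).mpr e)
        have e4 : w j ≠ b' := fun e => e3 (((h3 _ (hw j)).2 _ hb').mpr e)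
        rw [Equiv.swap_apply_of_ne_of_ne e1 e3, Equiv.swap_apply_of_ne_of_ne e2 e4]
        exact hw j
    have k1 := BMU_relP h (Nat.lt_succ_self i) hi h3 u w hw
    have k2 := BMU_relP h (Nat.lt_succ_self i) hi h3 _ _ hsw
    have k3 := hN w
    exact k2.trans (k3.trans k1.symm)
  · intro hS w
    have hcl : ∀ x : β, SwpR S R (r (Equiv.swap b b' x)) (r x) := by
      intro x
      by_cases e1 : x = b
      · rw [e1, Equiv.swap_apply_left]
        exact hsymm _ _ hS
      by_cases e3 : x = b'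
      · rw [e3, Equiv.swap_apply_right]
        exact hS
      · rw [Equiv.swap_apply_of_ne_of_ne e1 e3]
        exact hrefl _
    constructor
    · rintro ⟨u, hpu, hcu, hu⟩
      refine ⟨u, fun i j => (hpu i j).trans (Equiv.injective _).eq_iff, fun i => ?_, hu⟩
      exact htrans _ _ _ (hcu i) (hcl (w i))
    · rintro ⟨u, hpu, hcu, hu⟩
      refine ⟨u, fun i j => (hpu i j).trans (Equiv.injective _).eq_iff.symm, fun i => ?_, hu⟩
      exact htrans _ _ _ (hcu i) (hsymm _ _ (hcl (w i)))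

private theorem BMU_swN' (h : St_SWE) (hs : Function.Surjective s) (hG : BMU_G S s r) (n : ℕ)
    (b b' : β) : SwN (BMU_N S r) s n b b' ↔ SwN S s n (r b) (r b') :=
  forall_congr' fun i => forall_congr' fun _ => BMU_swpR h hs hG (s i).2 b b'

private theorem BMU_swp' (h : St_SWE) (hs : Function.Surjective s) (hG : BMU_G S s r)
    (b b' : β) : Swp (BMU_N S r) b b' ↔ Swp S (r b) (r b') :=
  forall_congr' fun _ => forall_congr' fun R => BMU_swpR h hs hG R b b'

private theorem BMU_spc' (h : St_SWE) (hs : Function.Surjective s) (hG : BMU_G S s r)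
    (b : β) : Spc (BMU_N S r) s b ↔ Spc S s (r b) := by
  constructor
  · intro hb n
    obtain ⟨m, y, h1, h2⟩ := hb n
    exact ⟨m, r y, (BMU_swN' h hs hG n b y).mp h1, fun h3 => h2 ((BMU_swN' h hs hG m b y).mpr h3)⟩
  · intro hb n
    obtain ⟨m, y, h1, h2⟩ := hb n
    obtain ⟨y', hy'⟩ : ∃ y', SwN S s (max n m) (r y') y := by
      have h3 := hG (max n m) y
      by_contra hcon
      push Not at hcon
      have h4 : {b | SwN S s (max n m) (r b) y} = ∅ := by
        ext b
        exact ⟨fun hb => absurd hb (hcon b), fun hb => absurd hb (Set.notMem_empty b)⟩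
      rw [h4, Set.encard_empty, Set.encard_eq_zero] at h3
      have h5 : y ∈ {x | SwN S s (max n m) x y} := BMU_refl h _ y
      rw [h3] at h5
      exact h5
    refine ⟨m, y', ?_, fun h3 => h2 ?_⟩
    · rw [BMU_swN' h hs hG]
      exact BMU_trans h h1 (BMU_symm h (BMU_mono (le_max_left _ _) hy'))
    · rw [BMU_swN' h hs hG] at h3
      exact BMU_trans h h3 (BMU_mono (le_max_right _ _) hy')

end blow

section iso

variable {L : FirstOrder.Language.{0, 0}} {M N : Type} {S : L.Structure M} {S' : L.Structure N}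
  {s : ℕ → (k : ℕ) × L.Relations k}

private theorem BMU_iso_swpR {e : M ≃ N} (he : RelIso S S' e) {k : ℕ} (R : L.Relations k)
    (x y : M) : SwpR S' R (e x) (e y) ↔ SwpR S R x y := by
  classical
  have h1 : ∀ v : Fin k → M, S.RelMap R (fun i => Equiv.swap x y (v i)) ↔
      S'.RelMap R (fun i => Equiv.swap (e x) (e y) (e (v i))) := by
    intro v
    rw [he k R]
    have h2 : e ∘ (fun i => Equiv.swap x y (v i)) =
        fun i => Equiv.swap (e x) (e y) (e (v i)) :=
      funext fun i => e.injective.map_swap x y (v i)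
    rw [h2]
  constructor
  · intro h v
    exact (h1 v).trans ((h (e ∘ v)).trans (he k R v).symm)
  · intro h v'
    obtain ⟨v, rfl⟩ : ∃ v : Fin k → M, v' = e ∘ v :=
      ⟨e.symm ∘ v', by funext i; simp⟩
    exact (h1 v).symm.trans ((h v).trans (he k R v))

/-- There is a special point with a swap class of size `c`. -/
def BMU_Q {M : Type} (S : L.Structure M) (s : ℕ → (k : ℕ) × L.Relations k) (c : ℕ∞) : Prop :=
  ∃ b, Spc S s b ∧ {b' | Swp S b b'}.encard = c

private theorem BMU_iso_Q {e : M ≃ N} (he : RelIso S S' e) {c : ℕ∞} (h : BMU_Q S s c) :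
    BMU_Q S' s c := by
  obtain ⟨b, hb, hc⟩ := h
  have h1 : ∀ n x y, SwN S' s n (e x) (e y) ↔ SwN S s n x y := fun n x y =>
    forall_congr' fun i => forall_congr' fun _ => BMU_iso_swpR he _ x y
  have h2 : ∀ x y, Swp S' (e x) (e y) ↔ Swp S x y := fun x y =>
    forall_congr' fun _ => forall_congr' fun R => BMU_iso_swpR he R x y
  refine ⟨e b, fun n => ?_, ?_⟩
  · obtain ⟨m, y, k1, k2⟩ := hb n
    exact ⟨m, e y, (h1 n b y).mpr k1, fun k3 => k2 ((h1 m b y).mp k3)⟩
  · rw [← hc, ← e.injective.encard_image]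
    congr 1
    ext y
    constructor
    · intro hy
      refine ⟨e.symm y, ?_, e.apply_symm_apply y⟩
      have : Swp S' (e b) (e (e.symm y)) := by rw [e.apply_symm_apply]; exact hy
      exact (h2 _ _).mp this
    · rintro ⟨x, hx, rfl⟩
      exact (h2 _ _).mpr hx

private theorem BMU_modF [∀ n, IsEmpty (L.Functions n)] (T : L.Theory)
    (hT : @FirstOrder.Language.Theory.Model L M S T) (h : Iso S S') :
    @FirstOrder.Language.Theory.Model L N S' T := by
  refine @FirstOrder.Language.Theory.Model.mk L _ S' _ fun σ hσ => ?_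
  have h1 : @FirstOrder.Language.BoundedFormula.Realize L M S Empty 0 σ default default :=
    @FirstOrder.Language.Theory.realize_sentence_of_mem L M S T hT σ hσ
  have h2 : @FirstOrder.Language.BoundedFormula.Realize L N S' Empty 0 σ default default := by
    rw [← sat_toI] at h1 ⊢
    refine (sat_of_BF (toI σ) _ _ ?_).mp h1
    have h3 := BF.of_iso h (rk (toI σ))
    have h4 : (range fun i : Fin 0 => ((default : Fin 0 → M) i, (default : Fin 0 → N) i)) = ∅ := by
      rw [Set.range_eq_empty_iff]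
      infer_instance
    rw [h4]
    exact h3
  exact h2

end iso

section family

variable {L : FirstOrder.Language.{0, 0}}

/-- The multiplicities. -/
def BMU_m (z : ℕ → Bool) (k : ℕ) : ℕ := 2 * k + 1 + (if z k then 1 else 0)

private theorem BMU_m_inj {z z' : ℕ → Bool} {k k' : ℕ} (h : BMU_m z k = BMU_m z' k') :
    k = k' ∧ z k = z' k' := by
  unfold BMU_m at h
  cases hz : z k <;> cases hz' : z' k' <;> simp [hz, hz'] at h <;> constructor <;> first | omega | rfl

/-- The universe. -/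
abbrev BMU_B (S : L.Structure ℕ) (s : ℕ → (k : ℕ) × L.Relations k) (z : ℕ → Bool) : Type :=
  {x : ℕ // ¬ Spc S s x} ⊕ {p : ℕ × ℕ // p.2 < BMU_m z p.1}

/-- The point of `S` which a point stands for. -/
def BMU_r (S : L.Structure ℕ) (s : ℕ → (k : ℕ) × L.Relations k) (d : ℕ → ℕ) :
    {x : ℕ // ¬ Spc S s x} ⊕ (ℕ × ℕ) → ℕ := Sum.elim Subtype.val fun p => d p.1

/-- The inclusion. -/
def BMU_J (S : L.Structure ℕ) (s : ℕ → (k : ℕ) × L.Relations k) (z : ℕ → Bool) :
    BMU_B S s z → {x : ℕ // ¬ Spc S s x} ⊕ (ℕ × ℕ) := Sum.map id Subtype.val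

variable {S : L.Structure ℕ} {s : ℕ → (k : ℕ) × L.Relations k} {d : ℕ → ℕ}

private theorem BMU_J_inj (z : ℕ → Bool) : Function.Injective (BMU_J S s z) :=
  Function.injective_id.sumMap Subtype.val_injective

private theorem BMU_good (h : St_SWE) (hd : ∀ k, Spc S s (d k))
    (hds : ∀ x, Spc S s x → ∃ k, Swp S x (d k)) (z : ℕ → Bool) :
    BMU_G S s (BMU_r S s d ∘ BMU_J S s z) := by
  classical
  intro n a
  set X := {x | SwN S s n x a} with hXdef
  set Y := {b : BMU_B S s z | SwN S s n ((BMU_r S s d ∘ BMU_J S s z) b) a} with hYdef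
  have hXinf : ∀ x ∈ X, Spc S s x → X.Infinite := fun x hx hsp =>
    (BMU_inf hsp n).mono fun y hy => BMU_trans h (BMU_symm h hy) hx
  by_cases hX : X.Finite
  · have hns : ∀ x ∈ X, ¬ Spc S s x := fun x hx hsp => hXinf x hx hsp hX
    have himg : (BMU_r S s d ∘ BMU_J S s z) '' Y = X := by
      ext x
      constructor
      · rintro ⟨b, hb, rfl⟩
        exact hb
      · intro hx
        exact ⟨Sum.inl ⟨x, hns x hx⟩, hx, rfl⟩
    have hinj : Set.InjOn (BMU_r S s d ∘ BMU_J S s z) Y := by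
      rintro (b | b) hb (b' | b') hb' heq
      · exact congrArg Sum.inl (Subtype.ext heq)
      · exact absurd (hd _) (hns _ hb')
      · exact absurd (hd _) (hns _ hb)
      · exact absurd (hd _) (hns _ hb)
    rw [← himg, hinj.encard_image]
  · have hX' : X.Infinite := hX
    have hY : Y.Infinite := by
      by_cases hA : {x ∈ X | ¬ Spc S s x}.Infinite
      · have hA' : {x : {x : ℕ // ¬ Spc S s x} | x.1 ∈ X}.Infinite := by
          intro hfin
          refine hA ((hfin.image Subtype.val).subset ?_)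
          rintro x ⟨hx, hx'⟩
          exact ⟨⟨x, hx'⟩, hx, rfl⟩
        refine (hA'.image (f := (Sum.inl : _ → BMU_B S s z)) Sum.inl_injective.injOn).mono ?_
        rintro _ ⟨x, hx, rfl⟩
        exact hx
      · have hAfin : {x ∈ X | ¬ Spc S s x}.Finite := Set.not_infinite.mp hA
        have hK : {k | d k ∈ X}.Infinite := by
          intro hKfin
          set W := {x ∈ X | ¬ Spc S s x} ∪ d '' {k | d k ∈ X} with hW
          have hWfin : W.Finite := hAfin.union (hKfin.image _)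
          obtain ⟨x₀, hx₀, hx₀s⟩ : ∃ x₀ ∈ X, Spc S s x₀ := by
            by_contra hcon
            push Not at hcon
            exact hX' (hAfin.subset fun x hx => ⟨hx, hcon x hx⟩)
          have hμ : ∀ w, ∃ μ : ℕ, (∃ m, ¬ SwN S s m x₀ w) → ¬ SwN S s μ x₀ w := by
            intro w
            by_cases hw : ∃ m, ¬ SwN S s m x₀ w
            · obtain ⟨m, hm⟩ := hw
              exact ⟨m, fun _ => hm⟩
            · exact ⟨0, fun h' => absurd h' hw⟩
          choose μ hμ using hμ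
          obtain ⟨B, hB⟩ := (hWfin.image μ).bddAbove
          obtain ⟨m', y, hy, hy'⟩ := hx₀s (max n B)
          have hyX : y ∈ X :=
            BMU_trans h (BMU_symm h (BMU_mono (le_max_left _ _) hy)) hx₀
          obtain ⟨w, hwW, hyw⟩ : ∃ w ∈ W, Swp S y w := by
            by_cases hys : Spc S s y
            · obtain ⟨k, hk⟩ := hds y hys
              refine ⟨d k, Or.inr ⟨k, ?_, rfl⟩, hk⟩
              exact BMU_trans h (BMU_symm h (BMU_swN hk n)) hyX
            · exact ⟨y, Or.inl ⟨hyX, hys⟩, BMU_srefl h y⟩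
          have h1 : ¬ SwN S s m' x₀ w := fun h2 =>
            hy' (BMU_trans h h2 (BMU_symm h (BMU_swN hyw m')))
          have h3 := hμ w ⟨m', h1⟩
          have h4 : μ w ≤ max n B := (hB ⟨w, hwW, rfl⟩).trans (le_max_right _ _)
          exact h3 (BMU_mono h4 (BMU_trans h hy (BMU_swN hyw _)))
        have hpos : ∀ k, (k, 0).2 < BMU_m z (k, 0).1 := fun k => by
          show 0 < 2 * k + 1 + _
          omega
        have hinj : Function.Injective
            (fun k : ℕ => (Sum.inr ⟨(k, 0), hpos k⟩ : BMU_B S s z)) := by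
          intro k k' hkk
          have := congrArg (fun x : {p : ℕ × ℕ // p.2 < BMU_m z p.1} => x.1.1)
            (Sum.inr_injective hkk)
          exact this
        refine (hK.image hinj.injOn).mono ?_
        rintro _ ⟨k, hk, rfl⟩
        exact hk
    rw [hX'.encard_eq, hY.encard_eq]

variable [∀ n, IsEmpty (L.Functions n)]

/-- The swap classes of the special points. -/
private theorem BMU_card (h : St_SWE) (hs : Function.Surjective s) (hd : ∀ k, Spc S s (d k))
    (hdi : ∀ k l, Swp S (d k) (d l) → k = l) (z : ℕ → Bool)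
    (hG : BMU_G S s (BMU_r S s d ∘ BMU_J S s z)) (p : {p : ℕ × ℕ // p.2 < BMU_m z p.1}) :
    {b' : BMU_B S s z | Swp (BMU_N S (BMU_r S s d ∘ BMU_J S s z)) (Sum.inr p) b'}.encard =
      (BMU_m z p.1.1 : ℕ∞) := by
  have h1 : {b' : BMU_B S s z | Swp (BMU_N S (BMU_r S s d ∘ BMU_J S s z)) (Sum.inr p) b'} =
      (fun j : Fin (BMU_m z p.1.1) => (Sum.inr ⟨(p.1.1, j.1), j.2⟩ : BMU_B S s z)) '' univ := by
    ext b
    constructor
    · intro hb
      have hb' : Swp S _ _ := (BMU_swp' h hs hG _ _).mp hb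
      rcases b with m | q
      · exact absurd (BMU_spc h hb' (hd _)) m.2
      · have h2 : p.1.1 = q.1.1 := hdi _ _ hb'
        refine ⟨⟨q.1.2, by rw [h2]; exact q.2⟩, mem_univ _, ?_⟩
        exact congrArg Sum.inr (Subtype.ext (Prod.ext h2 rfl))
    · rintro ⟨j, -, rfl⟩
      exact (BMU_swp' h hs hG _ _).mpr (BMU_srefl h _)
  rw [h1, Function.Injective.encard_image]
  · rw [Set.encard_univ, ENat.card_eq_coe_fintype_card, Fintype.card_fin]
  · intro i j hij
    exact Fin.ext (congrArg (fun p => p.1.2) (Sum.inr_injective hij))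

private theorem BMU_Q_iff (h : St_SWE) (hs : Function.Surjective s) (hd : ∀ k, Spc S s (d k))
    (hdi : ∀ k l, Swp S (d k) (d l) → k = l) (z : ℕ → Bool)
    (hG : BMU_G S s (BMU_r S s d ∘ BMU_J S s z)) (c : ℕ∞) :
    BMU_Q (BMU_N S (BMU_r S s d ∘ BMU_J S s z)) s c ↔ ∃ k, c = (BMU_m z k : ℕ∞) := by
  constructor
  · rintro ⟨b, hb, hc⟩
    have hb' : Spc S s _ := (BMU_spc' h hs hG b).mp hb
    rcases b with m | p
    · exact absurd hb' m.2
    · rw [BMU_card h hs hd hdi z hG p] at hc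
      exact ⟨p.1.1, hc.symm⟩
  · rintro ⟨k, rfl⟩
    have h0 : (k, 0).2 < BMU_m z (k, 0).1 := by
      show 0 < 2 * k + 1 + _
      omega
    refine ⟨Sum.inr ⟨(k, 0), h0⟩, (BMU_spc' h hs hG _).mpr (hd _), ?_⟩
    exact BMU_card h hs hd hdi z hG ⟨(k, 0), h0⟩

/-- The enumeration of the classes of special points. -/
private theorem BMU_enum (h : St_SWE) (f : ℕ → ℕ) (hf : ∀ k, Spc S s (f k))
    (hff : ∀ k l, k ≠ l → ¬ Swp S (f k) (f l)) :
    ∃ d : ℕ → ℕ, (∀ k, Spc S s (d k)) ∧ (∀ k l, Swp S (d k) (d l) → k = l) ∧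
      ∀ x, Spc S s x → ∃ k, Swp S x (d k) := by
  classical
  let E : Setoid {x : ℕ // Spc S s x} :=
    ⟨fun x y => Swp S x.1 y.1, fun x => BMU_srefl h x.1, fun hxy => BMU_ssymm h hxy,
      fun hxy hyz => BMU_strans h hxy hyz⟩
  have hinf : Infinite (Quotient E) := by
    refine Infinite.of_injective (fun k => Quotient.mk E ⟨f k, hf k⟩) ?_
    intro k l hkl
    by_contra hne
    exact hff k l hne (Quotient.exact hkl)
  obtain ⟨i⟩ := nonempty_denumerable (Quotient E)
  let e : Quotient E ≃ ℕ := Denumerable.eqv (Quotient E)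
  refine ⟨fun k => (e.symm k).out.1, fun k => (e.symm k).out.2, fun k l hkl => ?_, fun x hx => ?_⟩
  · have h1 : Quotient.mk E (e.symm k).out = Quotient.mk E (e.symm l).out := Quotient.sound hkl
    rw [Quotient.out_eq, Quotient.out_eq] at h1
    exact e.symm.injective h1
  · refine ⟨e (Quotient.mk E ⟨x, hx⟩), ?_⟩
    have h1 : Quotient.mk E (⟨x, hx⟩ : {x : ℕ // Spc S s x}) =
        Quotient.mk E (e.symm (e (Quotient.mk E ⟨x, hx⟩))).out := by
      rw [Quotient.out_eq, Equiv.symm_apply_apply]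
    exact Quotient.exact h1

end family

/-- Infinitely many special points. -/
theorem thm_BMU (h : St_SWE) : St_BMU := by
  intro L _ _ T s S hs hST hfinsw f hf hff
  obtain ⟨d, hd, hdi, hds⟩ := BMU_enum h f hf hff
  have hG : ∀ z, BMU_G S s (BMU_r S s d ∘ BMU_J S s z) := fun z => BMU_good h hd hds z
  refine perfK_of_embed (γ := {x : ℕ // ¬ Spc S s x} ⊕ (ℕ × ℕ)) (β := fun z => BMU_B S s z)
    (BMU_N S (BMU_r S s d)) (fun z => BMU_N S (BMU_r S s d ∘ BMU_J S s z))
    (fun z => BMU_J S s z) BMU_J_inj ?_ ?_ ?_ ?_ ?_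
  · intro z n R v
    show (∃ u : Fin n → ℕ, _ ∧ _ ∧ _) ↔ ∃ u : Fin n → ℕ, _ ∧ _ ∧ _
    refine exists_congr fun u => and_congr ?_ Iff.rfl
    exact forall_congr' fun i => forall_congr' fun j => iff_congr Iff.rfl
      (BMU_J_inj z).eq_iff.symm
  · intro z
    refine Infinite.of_injective (fun k : ℕ =>
      (Sum.inr ⟨(k, 0), by show 0 < 2 * k + 1 + _; omega⟩ : BMU_B S s z)) ?_
    intro k l hkl
    exact congrArg (fun p => p.1.1) (Sum.inr_injective hkl)
  · rintro (m | ⟨k, i⟩)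
    · have : {z | (Sum.inl m : {x : ℕ // ¬ Spc S s x} ⊕ (ℕ × ℕ)) ∈ range (BMU_J S s z)} =
          univ := by
        ext x
        simp only [mem_ofPred_eq, mem_univ, iff_true]
        exact ⟨.inl m, rfl⟩
      rw [this]
      exact isClopen_univ
    · have : {z | (Sum.inr (k, i) : {x : ℕ // ¬ Spc S s x} ⊕ (ℕ × ℕ)) ∈ range (BMU_J S s z)} =
          (fun x : ℕ → Bool => x k) ⁻¹' {b | i < 2 * k + 1 + (if b then 1 else 0)} := by
        ext x
        constructor
        · rintro ⟨(m | p), hp⟩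
          · exact absurd hp (by simp [BMU_J])
          · have h1 : p.1 = (k, i) := Sum.inr_injective hp
            have h2 := p.2
            rw [h1] at h2
            exact h2
        · intro hx
          exact ⟨.inr ⟨(k, i), hx⟩, rfl⟩
      rw [this]
      exact (isClopen_discrete _).preimage (continuous_apply k)
  · intro z S' hiso
    exact BMU_modF T (BMU_model h hs (hG z) T hST) hiso
  · rintro x y ⟨e, he⟩
    funext k
    have h1 : BMU_Q (BMU_N S (BMU_r S s d ∘ BMU_J S s x)) s (BMU_m x k : ℕ∞) :=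
      (BMU_Q_iff h hs hd hdi x (hG x) _).mpr ⟨k, rfl⟩
    obtain ⟨k', hk'⟩ := (BMU_Q_iff h hs hd hdi y (hG y) _).mp (BMU_iso_Q he h1)
    obtain ⟨h2, h3⟩ := BMU_m_inj (Nat.cast_injective (R := ℕ∞) hk')
    subst h2
    exact h3

end VPF
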