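import Pool.Agent.VPF.StB

/-!
# VPF, BPX: sentences with prefix `∃^m ∀ ∀ ∃^n`
-/

set_option autoImplicit false

namespace VPF

open FirstOrder Set

variable {L : FirstOrder.Language.{0, 0}}

private theorem BPX_inv_nil {n : ℕ} {φ : L.BoundedFormula Empty n} (h : Pre [] φ) : φ.IsQF := by
  cases h with
  | qf h => exact h

private theorem BPX_inv_all {n : ℕ} {w : List Bool} {φ : L.BoundedFormula Empty n}
    (h : Pre (true :: w) φ) : ∃ ψ : L.BoundedFormula Empty (n + 1), φ = ψ.all ∧ Pre w ψ := by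
  cases h with
  | all h => exact ⟨_, rfl, h⟩

private theorem BPX_inv_ex {n : ℕ} {w : List Bool} {φ : L.BoundedFormula Empty n}
    (h : Pre (false :: w) φ) : ∃ ψ : L.BoundedFormula Empty (n + 1), φ = ψ.ex ∧ Pre w ψ := by
  cases h with
  | ex h => exact ⟨_, rfl, h⟩

private theorem BPX_exs (w : List Bool) : ∀ (n j k : ℕ) (h : j + n = k)
    (ψ : L.BoundedFormula Empty j), Pre (List.replicate n false ++ w) ψ →
    ∃ χ : L.BoundedFormula Empty k, Pre w χ ∧ ∀ (M : Type) (S : L.Structure M) (v : Fin j → M),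
      @FirstOrder.Language.BoundedFormula.Realize L M S Empty j ψ default v ↔
        ∃ z : Fin n → M, @FirstOrder.Language.BoundedFormula.Realize L M S Empty k χ default
          (Fin.append v z ∘ Fin.cast h.symm) := by
  intro n
  induction n with
  | zero =>
    intro j k h ψ hψ
    obtain rfl : j = k := by omega
    refine ⟨ψ, by simpa using hψ, fun M S v => ?_⟩
    have key : ∀ z : Fin 0 → M, Fin.append v z ∘ Fin.cast h.symm = v := by
      intro z
      rw [Fin.append_right_nil v z rfl]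
      rfl
    simp only [key]
    exact ⟨fun h => ⟨default, h⟩, fun ⟨_, h⟩ => h⟩
  | succ n ih =>
    intro j k h ψ hψ
    rw [List.replicate_succ, List.cons_append] at hψ
    obtain ⟨ψ', rfl, hψ'⟩ := BPX_inv_ex hψ
    obtain ⟨χ, hχ, hr⟩ := ih (j + 1) k (by omega) ψ' hψ'
    refine ⟨χ, hχ, fun M S v => ?_⟩
    letI := S
    rw [FirstOrder.Language.BoundedFormula.realize_ex]
    have key : ∀ (a : M) (z : Fin n → M),
        Fin.append (Fin.snoc v a : Fin (j + 1) → M) z ∘ Fin.cast (by omega : k = j + 1 + n) =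
          Fin.append v (Fin.cons a z : Fin (n + 1) → M) ∘ Fin.cast h.symm := by
      intro a z
      rw [Fin.append_left_snoc]
      rfl
    constructor
    · rintro ⟨a, ha⟩
      obtain ⟨z, hz⟩ := (hr M S _).1 ha
      refine ⟨Fin.cons a z, ?_⟩
      rw [← key a z]
      exact hz
    · rintro ⟨z, hz⟩
      refine ⟨z 0, (hr M S _).2 ⟨Fin.tail z, ?_⟩⟩
      rw [key (z 0) (Fin.tail z), Fin.cons_self_tail]
      exact hz

theorem thm_BPX : St_BPX := by
  intro L m n φ hφ
  rw [List.append_assoc] at hφ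
  obtain ⟨χ₁, hχ₁, hr₁⟩ := BPX_exs _ m 0 m (Nat.zero_add m) φ hφ
  obtain ⟨χ₂, rfl, hχ₂⟩ := BPX_inv_all hχ₁
  obtain ⟨χ₃, rfl, hχ₃⟩ := BPX_inv_all hχ₂
  have hχ₃' : Pre (List.replicate n false ++ []) χ₃ := by simpa using hχ₃
  obtain ⟨θ, hθ, hr₂⟩ := BPX_exs [] n (m + 2) (m + 2 + n) rfl χ₃ hχ₃'
  refine ⟨θ, BPX_inv_nil hθ, fun M S => ?_⟩
  letI := S
  have h0 : @FirstOrder.Language.Sentence.Realize L M S φ ↔
      @FirstOrder.Language.BoundedFormula.Realize L M S Empty 0 φ default default := by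
    rfl
  rw [h0, hr₁ M S default]
  have key0 : ∀ z : Fin m → M, Fin.append (default : Fin 0 → M) z ∘
      Fin.cast (Nat.zero_add m).symm = z := by
    intro z
    rw [Fin.append_left_nil _ _ rfl]
    rfl
  have key1 : ∀ (c : Fin m → M) (x y : M),
      (Fin.snoc (Fin.snoc c x : Fin (m + 1) → M) y : Fin (m + 1 + 1) → M) =
        Fin.append c ![x, y] := by
    intro c x y
    funext i
    refine Fin.lastCases ?_ (fun i => ?_) i
    · have : (Fin.last (m + 1)) = Fin.natAdd m (1 : Fin 2) := rfl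
      rw [Fin.snoc_last, this, Fin.append_right]
      rfl
    · rw [Fin.snoc_castSucc]
      refine Fin.lastCases ?_ (fun i => ?_) i
      · have : (Fin.castSucc (Fin.last m)) = Fin.natAdd m (0 : Fin 2) := rfl
        rw [Fin.snoc_last, this, Fin.append_right]
        rfl
      · have : (Fin.castSucc (Fin.castSucc i)) = Fin.castAdd 2 i := rfl
        rw [Fin.snoc_castSucc, this, Fin.append_left]
  refine exists_congr fun c => ?_
  rw [key0 c]
  simp only [FirstOrder.Language.BoundedFormula.realize_all]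
  refine forall_congr' fun x => forall_congr' fun y => ?_
  rw [key1 c x y]
  exact hr₂ M S _

end VPF
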