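import Pool.Agent.VPF.StB

/-!
# [BQD] Infinitely many swap classes of a binary relation
-/

set_option autoImplicit false

namespace VPF

open FirstOrder Set Pool.Agent.Helper6.Str

theorem thm_BQD : St_BQD := by
  classical
  intro L M S R hinf F Θ hF hΘ
  by_contra hcon
  obtain ⟨Rr, hRr⟩ : ∃ Rr : M → M → Prop, ∀ a b, Rr a b ↔ S.RelMap R ![a, b] :=
    ⟨fun a b => S.RelMap R ![a, b], fun _ _ => Iff.rfl⟩
  obtain ⟨tt, htt⟩ : ∃ tt : M → (Θ → Prop), ∀ x q, tt x q ↔
      S.RelMap q.1.2.1 (fun i => (q.1.2.2 i).getD x) :=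
    ⟨fun x q => S.RelMap q.1.2.1 (fun i => (q.1.2.2 i).getD x), fun _ _ => Iff.rfl⟩
  -- no bad quadruple
  have hbad : ∀ x y x' y' : M, x ∉ F → y ∉ F → x' ∉ F → y' ∉ F → x ≠ y → x' ≠ y' →
      tt x = tt x' → tt y = tt y' → Rr x y → Rr x' y' := by
    intro x y x' y' hx hy hx' hy' hxy hxy' h1 h2 h3
    by_contra h4
    refine hcon ⟨x, y, x', y', hx, hy, hx', hy', hxy, hxy', ?_, ?_, (hRr x y).1 h3,
      fun h5 => h4 ((hRr x' y').2 h5)⟩
    · intro q hq
      have h5 := congrFun h1 ⟨q, hq⟩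
      rw [← htt x ⟨q, hq⟩, ← htt x' ⟨q, hq⟩, h5]
    · intro q hq
      have h5 := congrFun h2 ⟨q, hq⟩
      rw [← htt y ⟨q, hq⟩, ← htt y' ⟨q, hq⟩, h5]
  obtain ⟨t, ht⟩ : ∃ t : M → (Θ → Prop) × (F → Prop) × (F → Prop) × Prop, ∀ x,
      t x = (tt x, (fun a : F => Rr x a.1), (fun a : F => Rr a.1 x), Rr x x) :=
    ⟨_, fun _ => rfl⟩
  have hfin1 : Finite Θ := hΘ.to_subtype
  have hfin2 : Finite F := hF.to_subtype
  -- the representatives
  obtain ⟨rep, hrep⟩ : ∃ rep : ((Θ → Prop) × (F → Prop) × (F → Prop) × Prop) → M → Prop,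
      ∀ c y, rep c y ↔ (y ∉ F ∧ t y = c) := ⟨_, fun _ _ => Iff.rfl⟩
  let G : Set M := {y | ∃ (c : (Θ → Prop) × (F → Prop) × (F → Prop) × Prop)
    (h : ∃ z, rep c z), y = h.choose}
  have hG : G.Finite := by
    have : G ⊆ ⋃ c : (Θ → Prop) × (F → Prop) × (F → Prop) × Prop,
        {y | ∃ h : ∃ z, rep c z, y = h.choose} := by
      rintro y ⟨c, h, rfl⟩
      exact mem_iUnion.2 ⟨c, h, rfl⟩
    refine (Set.finite_iUnion fun c => ?_).subset this
    refine Set.Subsingleton.finite ?_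
    rintro y ⟨h, rfl⟩ z ⟨h', rfl⟩
    rfl
  refine hinf ⟨F ∪ G, hF.union hG, fun x => ?_⟩
  by_cases hx : x ∈ F
  · refine ⟨x, Or.inl hx, fun v => ?_⟩
    simp
  have hex : ∃ z, rep (t x) z := ⟨x, (hrep _ _).2 ⟨hx, rfl⟩⟩
  obtain ⟨y, hy⟩ : ∃ y, y = hex.choose := ⟨_, rfl⟩
  have hyr : rep (t x) y := by rw [hy]; exact hex.choose_spec
  obtain ⟨hyF, hty⟩ := (hrep _ _).1 hyr
  refine ⟨y, Or.inr ⟨t x, hex, hy⟩, ?_⟩
  by_cases hxy : x = y
  · subst hxy
    intro v
    simp
  rw [ht, ht, Prod.mk.injEq, Prod.mk.injEq, Prod.mk.injEq] at hty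
  obtain ⟨e1, e2, e3, e4⟩ := hty
  have h1 : Rr x x ↔ Rr y y := by rw [e4]
  have h2 : ∀ a ∈ F, (Rr x a ↔ Rr y a) := fun a ha => by
    have := congrFun e2 ⟨a, ha⟩
    simp only at this
    rw [this]
  have h3 : ∀ a ∈ F, (Rr a x ↔ Rr a y) := fun a ha => by
    have := congrFun e3 ⟨a, ha⟩
    simp only at this
    rw [this]
  have h4 : ∀ z, z ≠ x → z ≠ y → (Rr x z ↔ Rr y z) := by
    intro z hzx hzy
    by_cases hz : z ∈ F
    · exact h2 z hz
    · exact ⟨hbad x z y z hx hz hyF hz (Ne.symm hzx) (Ne.symm hzy) e1.symm rfl,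
        hbad y z x z hyF hz hx hz (Ne.symm hzy) (Ne.symm hzx) e1 rfl⟩
  have h5 : ∀ z, z ≠ x → z ≠ y → (Rr z x ↔ Rr z y) := by
    intro z hzx hzy
    by_cases hz : z ∈ F
    · exact h3 z hz
    · exact ⟨hbad z x z y hz hx hz hyF hzx hzy rfl e1.symm,
        hbad z y z x hz hyF hz hx hzy hzx rfl e1⟩
  have h6 : Rr x y ↔ Rr y x :=
    ⟨hbad x y y x hx hyF hyF hx hxy (Ne.symm hxy) e1.symm e1,
      hbad y x x y hyF hx hx hyF (Ne.symm hxy) hxy e1 e1.symm⟩
  have key : ∀ a b, Rr (Equiv.swap x y a) (Equiv.swap x y b) ↔ Rr a b := by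
    intro a b
    by_cases hax : a = x
    · subst hax
      rw [Equiv.swap_apply_left]
      by_cases hbx : b = a
      · subst hbx
        rw [Equiv.swap_apply_left]
        exact h1.symm
      · by_cases hby : b = y
        · subst hby
          rw [Equiv.swap_apply_right]
          exact h6.symm
        · rw [Equiv.swap_apply_of_ne_of_ne hbx hby]
          exact (h4 b hbx hby).symm
    · by_cases hay : a = y
      · subst hay
        rw [Equiv.swap_apply_right]
        by_cases hbx : b = x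
        · subst hbx
          rw [Equiv.swap_apply_left]
          exact h6
        · by_cases hby : b = a
          · subst hby
            rw [Equiv.swap_apply_right]
            exact h1
          · rw [Equiv.swap_apply_of_ne_of_ne hbx hby]
            exact h4 b hbx hby
      · rw [Equiv.swap_apply_of_ne_of_ne hax hay]
        by_cases hbx : b = x
        · subst hbx
          rw [Equiv.swap_apply_left]
          exact (h5 a hax hay).symm
        · by_cases hby : b = y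
          · subst hby
            rw [Equiv.swap_apply_right]
            exact h5 a hax hay
          · rw [Equiv.swap_apply_of_ne_of_ne hbx hby]
  intro v
  have hv : v = ![v 0, v 1] := by
    ext i
    fin_cases i <;> rfl
  have hv' : (fun i => Equiv.swap x y (v i)) =
      ![Equiv.swap x y (v 0), Equiv.swap x y (v 1)] := by
    ext i
    fin_cases i <;> rfl
  rw [hv', ← hRr, key, hRr, ← hv]

end VPF
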