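import Pool.Agent.VPF.DefsF

/-!
# VPF, statements G: swap classes, automorphisms, the infinitary Gödel class

Every module proves `thm_XXX : St_XXX` in `Pool/Agent/VPF/XXX.lean` (imports: this file and Mathlib
files); statements used are taken as hypotheses, e.g. `theorem thm_SWA (h : St_NCT) ... : St_SWA`.
Tools: `Pool/Agent/VB/A.lean`, `Pool/Agent/VB/B.lean` (`BFR` and its lemmas, `Scat`,
`scat_of_not_perf`, `exists_model`, `Lev`, `NoCtblType`), `Pool/Agent/VB/C.lean` (`VSt`).
-/

set_option autoImplicit false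
set_option linter.unusedVariables false

namespace VPF

open FirstOrder Set Pool.Agent.Helper6.Str Pool.Agent.Helper5.Multi Pool.Agent.Helper79.VC
  Pool.Agent.Helper5.DU Pool.Agent.Helper97.VC Pool.Agent.Helper97.LO

/-- [NCT] (1 h; no other module) A large structure has uncountably many swap classes.

Proof. `Swp S` is an equivalence relation (`Swp x z` from `Swp x y`, `Swp y z`, for three different
points: `(x z) = (x y)(y z)(x y)`). Let `A` be a set of representatives of its classes (one point
from every class, `Quotient.out`); the points of `A` are pairwise not `Swp`. Suppose `A` is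
countable. For `a ∈ A` let `B a` be the class of `a` if it is countable, and a countable infinite
subset of it otherwise; `B := ⋃ a ∈ A, B a` is countable. We get a contradiction to `NoCtblType S`
with this `B`: let `F` be a finite subset of `B` and `c : M`. If `c ∈ B` take `d = c`. Otherwise the
class of `c` is not countable, so it contains infinitely many points of `B`; take one, `d ∉ F`. The
transposition of `c` and `d` is an automorphism of `S` (`RelIso S S (Equiv.swap c d)`) which fixes
`F` (as `c ∉ B ⊇ F`), and `BFR.of_relIso` gives `BFR S S univ univ γ (insert (c, d) ..)` for all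
`γ`. -/
def St_NCT : Prop := ∀ (L : FirstOrder.Language.{0, 0}) (M : Type) (S : L.Structure M),
  NoCtblType S → ∃ A : Set M, ¬ A.Countable ∧ ∀ x ∈ A, ∀ y ∈ A, x ≠ y → ¬ Swp S x y

/-- [CTY] (0.5 h; no other module) Countably many types of tuples in a large structure.

Proof. Scatteredness of `K` gives `ρ' : ℕ → L.Structure ℕ × (Fin n → ℕ)` for `γ`. For every `m` choose
`ρ m : Fin n → M` with `BFR S (ρ' m).1 univ univ γ (pr (ρ m) (ρ' m).2)` if there is one. Given `v`:
`Lev` at `γ + n` gives `S' ∈ K`, `BFR.forth_many` a tuple `v'` with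
`BFR S S' univ univ γ (pr v v')`, `Scat` gives `m` with `BFR S' (ρ' m).1 univ univ γ (pr v' ..)`; by
`BFR.trans` `v` itself is a possible choice for `ρ m`, so the choice exists, and
`BFR S S univ univ γ (pr v (ρ m))` by `BFR.symm`, `BFR.trans`. (If `M` is empty and `n > 0` there is
no `v`; for the existence of `ρ` use that `M` is not empty, which follows from `Lev`.) -/
def St_CTY : Prop := ∀ (L : FirstOrder.Language.{0, 0}) (K : Set (L.Structure ℕ)) (M : Type)
  (S : L.Structure M), Scat K → Lev K S → ∀ γ < om1, ∀ n : ℕ, ∃ ρ : ℕ → (Fin n → M),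
  ∀ v : Fin n → M, ∃ m, BFR S S univ univ γ (range fun i => (v i, ρ m i))

/-- [VQS] (0.3 h; no other module) Limits of finite approximations, with a surjection.

Proof. This is `HEC.thm_VQL` (`Pool/Agent/HEC/VQL.lean`), with the additional claim that `π` is
surjective: there `T` is a copy on `ℕ` of a structure on the quotient of `V` by the equality of
variables and `π` is the composition of the quotient map with a bijection. Copy the proof. -/
def St_VQS : Prop := ∀ (L : FirstOrder.Language.{0, 0}) [∀ n, IsEmpty (L.Functions n)]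
  [∀ n, Countable (L.Relations n)] (V : Type) [Countable V] (K : Set (L.Structure ℕ))
  (δ : Ordinal.{0}) (M : Type) (S : L.Structure M), VSt K δ S →
  ∀ (E : ℕ → Set V) (x : ℕ → V → M), (∀ i j, i ≤ j → E i ⊆ E j) → (∀ e, ∃ j, e ∈ E j) →
  (∀ i j, i ≤ j → BFR S S univ univ δ ((fun e => (x i e, x j e)) '' E i)) →
  (∀ j, ∀ γ < δ, ∀ z : M, ∃ i, j ≤ i ∧ ∃ e ∈ E i,
    BFR S S univ univ γ (insert (z, x i e) ((fun e => (x j e, x i e)) '' E j))) →
  ∃ T ∈ K, ∃ π : V → ℕ, Function.Surjective π ∧
    ∀ j, BFR T S univ univ δ ((fun e => (π e, x j e)) '' E j)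

/-- [AUL] (2.5 h; uses `St_CTY`, `St_VQS`) The automorphism lemma.

Proof. Variables `V := ℕ ⊕ ℕ`, `u n = inl n`, `w n = inr n`; the automorphism will map the value of
`u n` to the value of `w n`. Let `V_j = {u n, w n : n < j}` (a finite set). By recursion on `j ≥ k + 1`
choose a set `U_j` of countable ordinals which is unbounded in `om1`, values `X_j γ : V → M` for
`γ ∈ U_j`, and `x_j : V → M`, such that
(I1) `BFR S S univ univ γ {(X_j γ (u n), X_j γ (w n)) : n < j}` for `γ ∈ U_j`;
(I2) `BFR S S univ univ δ {(x_j e, X_j γ e) : e ∈ V_j}` for `γ ∈ U_j`, and `x_j = X_j γ` on `V_j` for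
some `γ ∈ U_j`;
(I3) for `γ ∈ U_j`: `X_j γ (u i) = X_j γ (w i) = f i` for `i < k`, and `X_j γ (u k)`, `X_j γ (w k)` are
different elements of `A`.
Start `j = k + 1`: for every `γ < om1` there are `x ≠ y` in `A` with
`BFR S S univ univ γ (insert (x, y) {(f i, f i)})`: by `St_CTY` for `k + 1` the tuples `(f, x)`,
`x ∈ A`, fall into countably many classes and `A` is uncountable. This gives `X γ` for all `γ`;
by `St_CTY` (level `δ`, `2 * k + 2` points) and because a countable union of bounded sets of
countable ordinals is bounded, unboundedly many `γ` have the same `δ`-class of the values on `V_j`: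
this is `U_j`, and `x_j` is one of them.
Step `j → j + 1`, for a task. For `γ ∈ U_j` let `γ' ∈ U_j` be larger than `γ` and `X' := X_j γ'`. The
task is one of: (a) `(i, β, m)` with `i ≤ j`, `β < δ`, `m : ℕ`: if there is `z : M` such that the tuple
`(x_i on V_i, z)` is in the class `m` of level `β` of `St_CTY`, choose one such `z = z(i, β, m)` once
and for all; `BFR δ` between `x_i` and `X'` on `V_i` gives `a` with
`BFR S S univ univ β (insert (z, a) {(x_i e, X' e) : e ∈ V_i})`; (b) `n < j`: `a := X' (w n)`;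
(c) `n < j`: here `b := X' (u n)` is prescribed. In (a), (b) `BFR.forth` applied to (I1) for `γ'`
gives `b` with `BFR S S univ univ γ (insert (a, b) {(X' (u n), X' (w n))})`, in (c) `BFR.back` gives
`a`. Extend `X'` by `u j ↦ a`, `w j ↦ b`. As above pass to an unbounded subset `U_{j+1}` of `U_j` with
one `δ`-class on `V_{j+1}` and let `x_{j+1}` be one of the values. Every task is treated at some
stage (countably many tasks: `δ` is countable).
Now `BFR S S univ univ δ {(x_i e, x_j e) : e ∈ V_i}` for `i ≤ j` (induction with (I2)), and the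
closure condition of `St_VQS` holds by (a): for `z : M` take `m` with `(x_j on V_j, z)` in class `m`,
the chosen `z(j, γ, m)` is equivalent to `z` over `x_j` at level `γ`. `St_VQS` gives `T ∈ K`, `π`. By (b),
(c) every value `π e` is a value `π (u n)` and a value `π (w n)`. `e (π (u n)) := π (w n)` is well
defined and injective, and an automorphism: equalities and relations between values `x_j (u n)` are
the same as between the `x_j (w n)` (`AtEq` from (I1), `x_j` is one of the `X_j γ`), and `π` respects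
equalities and relations (`AtEq` of the last claim of `St_VQS`). `c i := π (u i)`, `i < k`, and
`a := π (u k)`, `x := x_j (u k)`, `y := x_j (w k)` for `j = k + 1`. -/
def St_AUL : Prop := ∀ (L : FirstOrder.Language.{0, 0}) [∀ n, IsEmpty (L.Functions n)]
  [∀ n, Countable (L.Relations n)] (K : Set (L.Structure ℕ)) (δ : Ordinal.{0}) (M : Type)
  (S : L.Structure M), VSt K δ S → ∀ (k : ℕ) (f : Fin k → M) (A : Set M), ¬ A.Countable →
  ∃ T ∈ K, ∃ (c : Fin k → ℕ) (e : ℕ ≃ ℕ), RelIso T T e ∧ (∀ i, e (c i) = c i) ∧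
    ∃ (a : ℕ) (x y : M), x ∈ A ∧ y ∈ A ∧ x ≠ y ∧
      BFR T S univ univ δ (insert (a, x) (insert (e a, y) (range fun i => (c i, f i))))

/-- [SWA] (1 h; uses `St_NCT`, `St_AUL`) A class which is neither countable nor perfect has a member
with an automorphism which moves a point to a non-twin.

Proof. `K` is scattered (`scat_of_not_perf`); `δ' := δ + ω + ω`; `K` is closed at level `δ'`
(`BFR.mono`). `exists_model` gives `M`, `S`, `Lev K S`, `NoCtblType S`, so `VSt K δ' S`; `St_NCT`
gives `A`. `Lev` (level `δ' + k`) gives `S' ∈ K` and by hypothesis `c'` with `(S', c') ∈ W`;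
`BFR.back_many` gives `f : Fin k → M` with `BFR S S' univ univ δ' {(f i, c' i)}`. `St_AUL` gives
`T ∈ K`, `c`, `e`, `a`, `x`, `y`. By `BFR.trans` `BFR T S' univ univ δ {(c i, c' i)}`, so `(T, c) ∈ W`.
If `Swp T a (e a)`, then `Swp S x y`, a contradiction: let `R`, `v : Fin n → M`; `BFR.back_many` gives
`v' : Fin n → ℕ` with `BFR T S univ univ 0` of the pairs `(a, x)`, `(e a, y)`, `(v' i, v i)`; by `AtEq`
`v' i = a ↔ v i = x`, `v' i = e a ↔ v i = y`, so the pairs (`swap a (e a) (v' i)`,
`swap x y (v i)`) are among these pairs, and `AtEq` for both tuples gives the claim. -/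
def St_SWA : Prop := ∀ (L : FirstOrder.Language.{0, 0}) [∀ n, IsEmpty (L.Functions n)]
  [∀ n, Countable (L.Relations n)] (k : ℕ) (W : L.Structure ℕ → (Fin k → ℕ) → Prop)
  (δ : Ordinal.{0}), δ < om1 →
  MeasurableSet {c : Code L | ∃ v, W (toStr c) v} →
  (∀ (S S' : L.Structure ℕ) (v v' : Fin k → ℕ), W S v →
    BFR S S' univ univ δ (range fun i => (v i, v' i)) → W S' v') →
  ¬ PerfK {S | ∃ v, W S v} → ¬ CtblK {S : L.Structure ℕ | ∃ v, W S v} →
  ∃ (T : L.Structure ℕ) (c : Fin k → ℕ) (e : ℕ ≃ ℕ) (a : ℕ), W T c ∧ RelIso T T e ∧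
    (∀ i, e (c i) = c i) ∧ ¬ Swp T a (e a)

/-- [TWN] (0.6 h; no other module) The rigid base.

Proof. For `X : Set P` let `Φ X := X ∪ {u | ∀ v, v ∉ X → Pt N X ![u] ![v] → v = u}`, and let `D` be the
least set with `C ⊆ D`, `Φ D ⊆ D`: the intersection of all such sets. `Φ` is monotone: let
`X ⊆ X'`, `u ∈ Φ X`, `u ∉ X'`, `v ∉ X'` with `Pt N X' ![u] ![v]`; then `v ∉ X` and `Pt N X ![u] ![v]`
(parameters of `X` are parameters of `X'`), so `v = u`. Hence `Φ D ⊆ D` for the intersection. If
`u ∉ D`, then `u ∉ Φ D`, which gives the point of `Twn`. Automorphisms: let `e` fix the points of `C`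
and `X := {u | e u = u}`; `Φ X ⊆ X`: if `u ∉ X`, then `e u ∉ X` (`e` is injective) and
`Pt N X ![u] ![e u]` (apply `RelIso` to the tuple; the parameters are fixed), so `e u = u` if
`u ∈ Φ X`. So `D ⊆ X`. -/
def St_TWN : Prop := ∀ (L : FirstOrder.Language.{0, 0}) (P : Type) (N : L.Structure P)
  (C : Set P), ∃ D : Set P, C ⊆ D ∧ Twn N D ∧
    ∀ e : P ≃ P, RelIso N N e → (∀ c ∈ C, e c = c) → ∀ d ∈ D, e d = d

/-- [PTS] (0.6 h; no other module) Points of the same type over `D` are twins.

Proof. Let `v : Fin n → P` and let `t` be the transposition of `u` and `u'`. If `v` has at most two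
values (always the case: `n ≤ 2`, as there are no symbols of arity `≥ 3`). `n = 0`: `Subsingleton`.
`n = 1`: `v = ![x]`: `x ∉ {u, u'}`: clear; otherwise `Pt ![u] ![u']`. `n = 2`, `v = ![x, y]`: if
neither is in `{u, u'}`: clear. `x = y ∈ {u, u'}`: `Pt ![u] ![u']`. `{x, y} = {u, u'}`, `x ≠ y`:
`Pt N D ![u, u'] ![u', u]` by `h2` (with `u, v, u', v' := u, u', u', u`). `x ∈ {u, u'}`, `y` not: if
`y ∈ D` use `Pt ![u] ![u']` (and its symmetric form) with the parameter `y`; if `y ∉ D` use
`Pt N D ![u, y] ![u', y]` by `h2`. `y ∈ {u, u'}`, `x` not: in the same way. -/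
def St_PTS : Prop := ∀ (L : FirstOrder.Language.{0, 0}) (P : Type) (N : L.Structure P)
  (D : Set P), (∀ n, 3 ≤ n → IsEmpty (L.Relations n)) →
  (∀ u v u' v' : P, u ∉ D → v ∉ D → u' ∉ D → v' ∉ D → u ≠ v → u' ≠ v' →
    Pt N D ![u] ![u'] → Pt N D ![v] ![v'] → Pt N D ![u, v] ![u', v']) →
  ∀ u u', u ∉ D → u' ∉ D → Pt N D ![u] ![u'] → Swp N u u'

/-- Quantifier-free formulas of `L_{ω₁,ω}`. -/
inductive QFI {L : FirstOrder.Language.{0, 0}} : {n : ℕ} → FmI L n → Prop
  | eq {n : ℕ} (i j : Fin n) : QFI (.eq i j)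
  | rel {n k : ℕ} (R : L.Relations k) (w : Fin k → Fin n) : QFI (.rel R w)
  | neg {n : ℕ} {φ : FmI L n} : QFI φ → QFI (.neg φ)
  | conj {n : ℕ} {φ : ℕ → FmI L n} : (∀ k, QFI (φ k)) → QFI (.conj φ)

/-- `(S, c)` satisfies `∀ x y ∃ z, θ i (c, x, y, z)` for all `i`. -/
def WG {L : FirstOrder.Language.{0, 0}} {M : Type} {m : ℕ} {l : ℕ → ℕ}
    (θ : (i : ℕ) → FmI L (m + 2 + l i)) (S : L.Structure M) (c : Fin m → M) : Prop :=
  ∀ (i : ℕ) (x y : M), ∃ z : Fin (l i) → M,
    Sat S (θ i) (Fin.append (Fin.append c ![x, y]) z)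

/-- [WGB] (1 h; no other module) The class is Borel and closed at a countable level.

Proof. Measurable: `Sat (toStr c) φ v` is measurable by induction on the formula (there is such a
lemma for `FmI` in the team's library: grep `measurableSet_sat`), and all quantifiers range over
countable sets. Closed: let `r i` be a countable ordinal such that
`BFR S S' univ univ (r i) {(v j, v' j)}` implies `Sat S (θ i) v ↔ Sat S' (θ i) v'`: for quantifier-free
formulas `r i = 0` works (induction, `AtEq`). So `δ := ω` works: given `x'`, `y'` in `S'` take `x`, `y`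
by `BFR.back`, then `z` in `S`, and `z'` by `BFR.forth_many`. -/
def St_WGB : Prop := ∀ (L : FirstOrder.Language.{0, 0}) [∀ n, IsEmpty (L.Functions n)]
  [∀ n, Countable (L.Relations n)] (m : ℕ) (l : ℕ → ℕ) (θ : (i : ℕ) → FmI L (m + 2 + l i)),
  (∀ i, QFI (θ i)) → MeasurableSet {c : Code L | ∃ v, WG θ (toStr c) v} ∧
  ∀ (S S' : L.Structure ℕ) (v v' : Fin m → ℕ), WG θ S v →
    BFR S S' univ univ Ordinal.omega0 (range fun i => (v i, v' i)) → WG θ S' v'

/-- [WGC] (0.5 h; no other module) The class is closed under unions of copies.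

Proof. Let `Cop N D A` with `ι`; put `c' i := ι (c i)`. Given `x'`, `y'` in `A` take `h` with
`h u = x'`, `h v = y'`, and `z` in `N` for `u`, `v`; `h ∘ z` works: quantifier-free formulas are
preserved by the embedding `h` (induction on `QFI`; `h ∘ append` = append of the images, and
`h (c i) = ι (c i)` because `c i ∈ D`). -/
def St_WGC : Prop := ∀ (L : FirstOrder.Language.{0, 0}) (m : ℕ) (l : ℕ → ℕ)
  (θ : (i : ℕ) → FmI L (m + 2 + l i)), (∀ i, QFI (θ i)) → ∀ (P : Type) (N : L.Structure P)
  (c : Fin m → P) (D : Set P), range c ⊆ D → WG θ N c →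
  CopC {S : L.Structure ℕ | ∃ v, WG θ S v} N D

/-- [GMN] (0.5 h; uses `St_SWA`, `St_TWN`, `St_PTS`, `St_WGB`, `St_WGC`, `St_FXB`, `St_FXT` (file
`StF`)) Vaught's conjecture for the infinitary Gödel class.

Proof. By contradiction: neither `CtblK` nor `PerfK`. `St_SWA` with `W := WG θ`, `δ := ω` gives `T`,
`c`, `e`, `a` with `¬ Swp T a (e a)`. `St_TWN` for `C := range c` gives `D`. `e` fixes `D` pointwise. So
`a ∉ D` (`Swp T a a` is trivial), `e a ∉ D`, and `Pt T D ![a] ![e a]` because `e` is an automorphism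
fixing `D`. By `St_FXT` there are no symbols of arity `≥ 3`, by `St_FXB` the hypothesis `h2` of
`St_PTS` holds, and `St_PTS` gives `Swp T a (e a)`. -/
def St_GMN : Prop := ∀ (L : FirstOrder.Language.{0, 0}) [∀ n, IsEmpty (L.Functions n)]
  [∀ n, Countable (L.Relations n)] (m : ℕ) (l : ℕ → ℕ) (θ : (i : ℕ) → FmI L (m + 2 + l i)),
  (∀ i, QFI (θ i)) →
  CtblK {S : L.Structure ℕ | ∃ v, WG θ S v} ∨ PerfK {S : L.Structure ℕ | ∃ v, WG θ S v}

end VPF
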