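import Pool.Agent.VPF.StB
import Pool.Agent.VPF.StG

/-!
# VPF [BSL]: from the large structure to a member with infinitely many special points
-/

set_option autoImplicit false
set_option linter.unusedVariables false

namespace VPF

open FirstOrder Set Pool.Agent.Helper6.Str Pool.Agent.Helper5.Multi Pool.Agent.Helper79.VC
  Pool.Agent.Helper5.DU Pool.Agent.Helper97.VC Pool.Agent.Helper97.LO

open Classical in
/-- transfer of `SwpR` -/
private theorem BSL_swp {L : FirstOrder.Language.{0, 0}} {M N : Type} {S : L.Structure M}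
    {S' : L.Structure N} {k : ℕ} (R : L.Relations k) {p : Set (M × N)} {x x' : M} {y y' : N}
    (h : BFR S S' univ univ (k : Ordinal.{0}) p) (hx : (x, y) ∈ p) (hx' : (x', y') ∈ p)
    (hS : SwpR S R x x') : SwpR S' R y y' := by
  intro v
  have h0 : BFR S S' univ univ (0 + (k : Ordinal.{0})) p := by rwa [zero_add]
  obtain ⟨u, -, hu⟩ := BFR.back_many k h0 v fun _ => mem_univ _
  have hat := hu.atEq
  have hpx : (x, y) ∈ p ∪ range fun i => (u i, v i) := Or.inl hx
  have hpx' : (x', y') ∈ p ∪ range fun i => (u i, v i) := Or.inl hx'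
  have hpi : ∀ i, (u i, v i) ∈ p ∪ range fun i => (u i, v i) := fun i => Or.inr ⟨i, rfl⟩
  have hsw : ∀ i, (Equiv.swap x x' (u i), Equiv.swap y y' (v i)) ∈
      p ∪ range fun i => (u i, v i) := by
    intro i
    by_cases h1 : u i = x
    · have h2 : v i = y := (hat.1 (u i, v i) (hpi i) (x, y) hpx).mp h1
      rw [h1, h2, Equiv.swap_apply_left, Equiv.swap_apply_left]
      exact hpx'
    · by_cases h2 : u i = x'
      · have h3 : v i = y' := (hat.1 (u i, v i) (hpi i) (x', y') hpx').mp h2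
        rw [h2, h3, Equiv.swap_apply_right, Equiv.swap_apply_right]
        exact hpx
      · have h3 : v i ≠ y := fun h => h1 ((hat.1 (u i, v i) (hpi i) (x, y) hpx).mpr h)
        have h4 : v i ≠ y' := fun h => h2 ((hat.1 (u i, v i) (hpi i) (x', y') hpx').mpr h)
        rw [Equiv.swap_apply_of_ne_of_ne h1 h2, Equiv.swap_apply_of_ne_of_ne h3 h4]
        exact hpi i
  have e1 := hat.2 k R (fun i => (u i, v i)) hpi
  have e2 := hat.2 k R (fun i => (Equiv.swap x x' (u i), Equiv.swap y y' (v i))) hsw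
  exact e2.symm.trans ((hS u).trans e1)

/-- transfer in the other direction -/
private theorem BSL_swp' {L : FirstOrder.Language.{0, 0}} {M N : Type} {S : L.Structure M}
    {S' : L.Structure N} {k : ℕ} (R : L.Relations k) {p : Set (M × N)} {x x' : M} {y y' : N}
    (h : BFR S S' univ univ (k : Ordinal.{0}) p) (hx : (x, y) ∈ p) (hx' : (x', y') ∈ p)
    (hS : SwpR S' R y y') : SwpR S R x x' := by
  refine BSL_swp R (p := Prod.swap ⁻¹' p) h.swap ?_ ?_ hS
  · exact hx
  · exact hx'

/-- one relation has finitely many classes in the large structure -/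
private theorem BSL_fin (hSWE : St_SWE) {L : FirstOrder.Language.{0, 0}}
    {K : Set (L.Structure ℕ)} {M : Type} {S : L.Structure M} (hlev : Lev K S)
    (hF : ∀ S' ∈ K, FinSw S') : FinSw S := by
  classical
  intro k R
  by_contra hcon
  push Not at hcon
  obtain ⟨g, -, hg⟩ := exists_seq_of_forall_finset_exists (fun _ : M => True)
    (fun x y => ¬ SwpR S R x y) (fun F _ => by
      obtain ⟨x, hx⟩ := hcon (F : Set M) F.finite_toSet
      exact ⟨x, trivial, fun y hy h => hx y hy ((hSWE L M S k R).2.1 _ _ h)⟩)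
  obtain ⟨S', hS', hB⟩ := hlev _ omega_lt_om1
  obtain ⟨F, hFf, hF'⟩ := hF S' hS' k R
  have hlt : (k : Ordinal.{0}) + ((hFf.toFinset.card + 1 : ℕ) : Ordinal.{0}) ≤
      Ordinal.omega0 := by
    rw [← Nat.cast_add]
    exact (Ordinal.natCast_lt_omega0 _).le
  obtain ⟨y, -, hy⟩ := BFR.forth_many (hFf.toFinset.card + 1) (hB.mono hlt) (fun i => g i)
    fun _ => mem_univ _
  choose r hr1 hr2 using hF'
  obtain ⟨i, -, j, -, hij, hrij⟩ := Finset.exists_ne_map_eq_of_card_lt_of_maps_to
    (s := (Finset.univ : Finset (Fin (hFf.toFinset.card + 1)))) (t := hFf.toFinset)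
    (f := fun i => r (y i)) (by simp) (fun i _ => by
      rw [hFf.coe_toFinset]
      exact hr1 _)
  have hsw : SwpR S' R (y i) (y j) := by
    have h1 := hr2 (y j)
    have hrij' : r (y i) = r (y j) := hrij
    rw [← hrij'] at h1
    exact (hSWE L ℕ S' k R).2.2.1 _ _ _ (hr2 (y i)) ((hSWE L ℕ S' k R).2.1 _ _ h1)
  have hS : SwpR S R (g i) (g j) := BSL_swp' R hy (Or.inr ⟨i, rfl⟩) (Or.inr ⟨j, rfl⟩) hsw
  rcases lt_or_gt_of_ne hij with h | h
  · exact hg i j h hS
  · exact hg j i h ((hSWE L M S k R).2.1 _ _ hS)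

/-- the points which are not special lie in countably many classes -/
private theorem BSL_count (hSWE : St_SWE) {L : FirstOrder.Language.{0, 0}} {M : Type}
    {S : L.Structure M} (hF : FinSw S) (s : ℕ → (k : ℕ) × L.Relations k)
    (hs : Function.Surjective s) (A : Set M) (hA : ∀ x ∈ A, ∀ y ∈ A, x ≠ y → ¬ Swp S x y) :
    {x | x ∈ A ∧ ¬ Spc S s x}.Countable := by
  classical
  have hκ : ∀ i : ℕ, ∃ κ : M → ℕ, ∀ x x', κ x = κ x' → SwpR S (s i).2 x x' := by
    intro i
    obtain ⟨F, hFf, hF'⟩ := hF _ (s i).2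
    choose r hr1 hr2 using hF'
    obtain ⟨e, he⟩ := Set.countable_iff_exists_injOn.mp hFf.countable
    refine ⟨fun x => e (r x), fun x x' h => ?_⟩
    have h1 : r x = r x' := he (hr1 x) (hr1 x') h
    have h2 := hr2 x'
    rw [← h1] at h2
    exact (hSWE L M S _ (s i).2).2.2.1 _ _ _ (hr2 x) ((hSWE L M S _ (s i).2).2.1 _ _ h2)
  choose κ hκ using hκ
  have hn : ∀ x, ∃ n, ¬ Spc S s x → ∀ m y, SwN S s n x y → SwN S s m x y := by
    intro x
    by_cases h : Spc S s x
    · exact ⟨0, fun h' => absurd h h'⟩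
    · unfold Spc at h
      push Not at h
      obtain ⟨n, hn⟩ := h
      exact ⟨n, fun _ => hn⟩
  choose ν hν using hn
  refine MapsTo.countable_of_injOn (f := fun x => (List.range (ν x)).map (fun i => κ i x))
    (t := univ) (fun _ _ => mem_univ _) ?_ (to_countable _)
  intro x hx x' hx' hcc
  by_contra hne
  apply hA x hx.1 x' hx'.1 hne
  have hcc' : (List.range (ν x)).map (fun i => κ i x) =
    (List.range (ν x')).map (fun i => κ i x') := hcc
  have hlen : ν x = ν x' := by
    have := congrArg List.length hcc'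
    simpa using this
  have hk : ∀ i < ν x, κ i x = κ i x' := by
    intro i hi
    rw [← hlen] at hcc'
    have h1 := (List.map_inj_left (l := List.range (ν x))).mp hcc' i (List.mem_range.mpr hi)
    exact h1
  intro n R
  obtain ⟨i, hi⟩ := hs ⟨n, R⟩
  have h1 := hν x hx.2 (i + 1) x' (fun j hj => hκ j _ _ (hk j hj)) i (Nat.lt_succ_self i)
  rw [hi] at h1
  exact h1

/-- [BSL] -/
theorem thm_BSL (hNCT : St_NCT) (hSWE : St_SWE) : St_BSL := by
  classical
  intro L _ _ s K δ M S hs hV hNo hF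
  have hω : (Ordinal.omega0 : Ordinal.{0}) < δ :=
    lt_of_lt_of_le (lt_add_of_pos_right _ Ordinal.omega0_pos) hV.om
  have hFS : FinSw S := BSL_fin hSWE hV.lev hF
  obtain ⟨A, hA1, hA2⟩ := hNCT L M S hNo
  have hcount := BSL_count hSWE hFS s hs A hA2
  have hinf : {x | x ∈ A ∧ Spc S s x}.Infinite := by
    intro hfin
    apply hA1
    refine (hfin.countable.union hcount).mono ?_
    intro x hx
    by_cases h : Spc S s x
    · exact Or.inl ⟨hx, h⟩
    · exact Or.inr ⟨hx, h⟩
  let xs : ℕ → M := fun k => (hinf.natEmbedding _ k : M)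
  have hxs : ∀ k, xs k ∈ A ∧ Spc S s (xs k) := fun k => (hinf.natEmbedding _ k).2
  have hxne : ∀ k l, k ≠ l → xs k ≠ xs l := by
    intro k l hkl h
    exact hkl ((hinf.natEmbedding _).injective (Subtype.ext h))
  -- a closed countable set
  have hκ : ∀ F : Finset M, ∃ T : Set M, T.Countable ∧ ∀ c : M, ∃ c' ∈ T,
      BFR S S univ univ δ (insert (c, c') ((fun a => (a, a)) '' (F : Set M))) := by
    intro F
    obtain ⟨κ, hκ⟩ := countable_classes hV.scat hV.lt hV.lev F
    have hrep : ∀ (m : ℕ), ∃ T : Set M, T.Countable ∧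
        ((∃ c, κ c = m) → ∃ c ∈ T, κ c = m) := by
      intro m
      by_cases h : ∃ c, κ c = m
      · obtain ⟨c, hc⟩ := h
        exact ⟨{c}, countable_singleton _, fun _ => ⟨c, rfl, hc⟩⟩
      · exact ⟨∅, countable_empty, fun h' => absurd h' h⟩
    choose T hT1 hT2 using hrep
    refine ⟨⋃ m, T m, countable_iUnion hT1, fun c => ?_⟩
    obtain ⟨c', hc', hcc⟩ := hT2 (κ c) ⟨c, rfl⟩
    exact ⟨c', mem_iUnion.mpr ⟨κ c, hc'⟩, hκ c c' hcc.symm⟩
  choose T hT1 hT2 using hκ
  obtain ⟨B, hBc, hB⟩ := exists_closed (fun F => range xs ∪ T F)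
    (fun F => (countable_range xs).union (hT1 F))
  have hBx : ∀ k, xs k ∈ B := fun k => hB ∅ (by simp) (Or.inl (mem_range_self k))
  have hBd : ∀ F : Finset M, (F : Set M) ⊆ B → ∀ c : M, ∃ c' ∈ B,
      BFR S S univ univ δ (insert (c, c') ((fun a => (a, a)) '' (F : Set M))) := by
    intro F hF c
    obtain ⟨c', hc', h⟩ := hT2 F c
    exact ⟨c', hB F hF (Or.inr hc'), h⟩
  have hMi : Infinite M := infinite_of_lev hV.lev
  obtain ⟨f, hf, hfB⟩ := exists_enum hBc (fun F hF c => by
    obtain ⟨c', hc', h⟩ := hBd F hF c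
    exact ⟨c', hc', h.mono (bot_le)⟩)
  have hSB : ∀ F : Set ℕ, F.Finite →
      BFR S (pl S f) univ univ δ ((fun i => (f i, i)) '' F) := by
    intro F hFf
    have h4 : BFR S S univ B δ ((fun i => (f i, f i)) '' F) := by
      refine closed_rel hBd δ le_rfl _ (hFf.image _) ?_ (BFR.refl S univ δ ?_)
      · rintro _ ⟨i, -, rfl⟩
        rw [← hfB]
        exact mem_range_self i
      · rintro _ ⟨i, -, rfl⟩
        exact ⟨mem_univ _, rfl⟩
    rw [← hfB] at h4
    refine BFR_pl' hf h4 ?_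
    rintro _ ⟨i, hi, rfl⟩
    exact ⟨i, hi, rfl⟩
  obtain ⟨S1, hS1, h5⟩ := hV.lev δ hV.lt
  have hK : pl S f ∈ K := by
    refine hV.clos S1 hS1 _ ?_
    have h6 := hSB ∅ finite_empty
    refine BFR.trans (h5.symm (q := ∅) fun a ha => absurd ha (notMem_empty a)) h6 ?_
    exact fun a ha => absurd ha (notMem_empty a)
  have hpre : ∀ k, ∃ j, f j = xs k := by
    intro k
    have h7 : xs k ∈ range f := by
      rw [hfB]
      exact hBx k
    exact h7
  choose f' hf' using hpre
  refine ⟨pl S f, hK, f', fun k n => ?_, fun k l hkl hsw => ?_⟩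
  · obtain ⟨m, y, h1, h2⟩ := (hxs k).2 n
    have h3 : BFR S (pl S f) univ univ δ ((fun i => (f i, i)) '' {f' k}) :=
      hSB _ (finite_singleton _)
    obtain ⟨j, -, h4⟩ := h3.forth hω (mem_univ y)
    have hmem : (xs k, f' k) ∈ insert (y, j) ((fun i => (f i, i)) '' {f' k}) :=
      mem_insert_of_mem _ ⟨f' k, rfl, Prod.ext (hf' k) rfl⟩
    refine ⟨m, j, fun i hi => ?_, fun hcon => h2 fun i hi => ?_⟩
    · exact BSL_swp (s i).2 (h4.mono (Ordinal.natCast_lt_omega0 _).le) hmem (mem_insert _ _)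
        (h1 i hi)
    · exact BSL_swp' (s i).2 (h4.mono (Ordinal.natCast_lt_omega0 _).le) hmem (mem_insert _ _)
        (hcon i hi)
  · apply hA2 _ (hxs k).1 _ (hxs l).1 (hxne k l hkl)
    have h3 : BFR S (pl S f) univ univ δ ((fun i => (f i, i)) '' {f' k, f' l}) :=
      hSB _ ((finite_singleton _).insert _)
    intro n R
    refine BSL_swp' R (h3.mono ((Ordinal.natCast_lt_omega0 n).le.trans hω.le))
      ⟨f' k, mem_insert _ _, Prod.ext (hf' k) rfl⟩
      ⟨f' l, mem_insert_of_mem _ rfl, Prod.ext (hf' l) rfl⟩ (hsw n R)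

end VPF
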