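import Pool.Agent.VPF.StB
import Pool.Agent.Helper6.VC.Final

/-!
# VPF, module BTM: theories whose relations have finitely many swap classes
-/

set_option autoImplicit false
set_option linter.unusedVariables false

namespace VPF

open FirstOrder Set Pool.Agent.Helper6.Str Pool.Agent.Helper5.Multi Pool.Agent.Helper79.VC
  Pool.Agent.Helper5.DU Pool.Agent.Helper97.VC Pool.Agent.Helper97.LO

private theorem BTM_mono {L : FirstOrder.Language.{0, 0}} {K : Set (L.Structure ℕ)}
    {d d' : Ordinal.{0}} (h : ClosedLev K d) (hd : d ≤ d') : ClosedLev K d' :=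
  fun S hS S' hSS => h S hS S' (hSS.mono hd)

theorem thm_BTM (hBMU : St_BMU) (hBSL : St_BSL) : St_BTM := by
  intro L _ _ T hT
  by_cases hne : Nonempty ((k : ℕ) × L.Relations k)
  · obtain ⟨s, hs⟩ := exists_surjective_nat ((k : ℕ) × L.Relations k)
    by_cases hP : PerfK (ModF T)
    · exact Or.inr hP
    left
    by_contra hC
    have hc : Countable L.Symbols :=
      inferInstanceAs (Countable ((Σ l, L.Functions l) ⊕ (Σ l, L.Relations l)))
    obtain ⟨hK, d, hd, hcl⟩ := exists_level hc T
      (FmI.neg (FmI.ex (FmI.neg (FmI.eq (0 : Fin 1) 0)))) (K := ModF T) (fun S => by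
        constructor
        · intro h
          refine ⟨h, ?_⟩
          rintro ⟨a, ha⟩
          exact ha rfl
        · exact fun h => h.1)
    have hS := scat_of_not_perf hK hP
    obtain ⟨M, S, hlev, hNT⟩ := exists_model hK hS hd hcl hC
    have hV : VSt (ModF T) (max d (Ordinal.omega0 + Ordinal.omega0)) S :=
      ⟨hK, hS, max_lt hd (add_lt_om1 omega_lt_om1 omega_lt_om1), le_max_right _ _,
        BTM_mono hcl (le_max_left _ _), hlev⟩
    obtain ⟨T', hT', f, hf1, hf2⟩ := hBSL L s (ModF T) _ M S hs hV hNT hT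
    exact hP (hBMU L T s T' hs hT' (hT T' hT') f hf1 hf2)
  · refine Or.inl ⟨fun _ => toStr fun _ => false, fun S _ => ⟨0, Equiv.refl ℕ, ?_⟩⟩
    intro n R v
    exact absurd ⟨⟨n, R⟩⟩ hne

end VPF
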