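import Pool.Agent.VPF.StB

/-!
# A countable piece of the ultrapower (helper32)
-/

set_option autoImplicit false
set_option linter.unusedVariables false

namespace VPF

open FirstOrder Set Filter

section BUL

variable {L : FirstOrder.Language.{0, 0}}

/-- the ultrafilter -/
noncomputable abbrev BUL_U : Ultrafilter ℕ := Filter.hyperfilter ℕ

/-- germs -/
abbrev BUL_G : Type := Filter.Germ (BUL_U : Filter ℕ) ℕ

theorem BUL_ex (x : BUL_G) : ∃ f : ℕ → ℕ, (f : BUL_G) = x :=
  Filter.Germ.inductionOn x (fun f => ⟨f, rfl⟩)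

/-- a representative -/
noncomputable def BUL_rep (x : BUL_G) : ℕ → ℕ := (BUL_ex x).choose

theorem BUL_spec (x : BUL_G) : ((BUL_rep x : ℕ → ℕ) : BUL_G) = x := (BUL_ex x).choose_spec

theorem BUL_coe (f : ℕ → ℕ) : ∀ᶠ n in (BUL_U : Filter ℕ), BUL_rep (f : BUL_G) n = f n :=
  Filter.Germ.coe_eq.1 (BUL_spec (f : BUL_G))

theorem BUL_eq {x y : BUL_G} : x = y ↔ ∀ᶠ n in (BUL_U : Filter ℕ), BUL_rep x n = BUL_rep y n := by
  constructor
  · rintro rfl
    exact Eventually.of_forall fun _ => rfl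
  · intro h
    rw [← BUL_spec x, ← BUL_spec y]
    exact Filter.Germ.coe_eq.2 h

theorem BUL_ev {p : ℕ → Prop} (h : ∃ n₀, ∀ n ≥ n₀, p n) : ∀ᶠ n in (BUL_U : Filter ℕ), p n :=
  Nat.hyperfilter_le_atTop (eventually_atTop.2 h)

/-- the induced structure on a set of germs -/
@[instance_reducible]
def BUL_S [∀ n, IsEmpty (L.Functions n)] (S : L.Structure ℕ) (A : Set BUL_G) : L.Structure A where
  funMap := fun {n} f => (isEmptyElim f : (Fin n → A) → A)
  RelMap := fun {n} R x => ∀ᶠ k in (BUL_U : Filter ℕ), S.RelMap R (fun i => BUL_rep (x i) k)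

theorem BUL_term [∀ n, IsEmpty (L.Functions n)] {j : ℕ} (t : L.Term (Empty ⊕ Fin j)) :
    ∃ i, t = FirstOrder.Language.Term.var (Sum.inr i) := by
  cases t with
  | var a =>
    cases a with
    | inl e => exact e.elim
    | inr i => exact ⟨i, rfl⟩
  | func f _ => exact isEmptyElim f

theorem BUL_terms [∀ n, IsEmpty (L.Functions n)] {j n : ℕ} (ts : Fin n → L.Term (Empty ⊕ Fin j)) :
    ∃ w : Fin n → Fin j, ts = fun i => FirstOrder.Language.Term.var (Sum.inr (w i)) := by
  choose w hw using fun i => BUL_term (ts i)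
  exact ⟨w, funext hw⟩

/-- quantifier-free formulas only see the atomic facts -/
theorem BUL_tr [∀ n, IsEmpty (L.Functions n)] {M1 M2 : Type} (S1 : L.Structure M1)
    (S2 : L.Structure M2) {j : ℕ} (θ : L.BoundedFormula Empty j) (hθ : θ.IsQF) (v1 : Empty → M1)
    (v2 : Empty → M2) (x1 : Fin j → M1) (x2 : Fin j → M2) (he : ∀ i i', x1 i = x1 i' ↔ x2 i = x2 i')
    (hr : ∀ (n : ℕ) (R : L.Relations n) (w : Fin n → Fin j),
      S1.RelMap R (fun i => x1 (w i)) ↔ S2.RelMap R (fun i => x2 (w i))) :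
    @FirstOrder.Language.BoundedFormula.Realize L M1 S1 Empty j θ v1 x1 ↔
      @FirstOrder.Language.BoundedFormula.Realize L M2 S2 Empty j θ v2 x2 := by
  induction hθ with
  | falsum => exact Iff.rfl
  | of_isAtomic h =>
    cases h with
    | equal t₁ t₂ =>
      obtain ⟨i, rfl⟩ := BUL_term t₁
      obtain ⟨i', rfl⟩ := BUL_term t₂
      exact he i i'
    | rel R ts =>
      obtain ⟨w, rfl⟩ := BUL_terms ts
      exact hr _ R w
  | imp _ _ ih1 ih2 => exact imp_congr ih1 ih2

/-- Łoś for quantifier-free formulas -/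
theorem BUL_los [∀ n, IsEmpty (L.Functions n)] (S : L.Structure ℕ) (A : Set BUL_G) {j : ℕ}
    (θ : L.BoundedFormula Empty j) (hθ : θ.IsQF) (v1 : Empty → A) (v2 : Empty → ℕ) (x : Fin j → A) :
    @FirstOrder.Language.BoundedFormula.Realize L A (BUL_S S A) Empty j θ v1 x ↔
      ∀ᶠ k in (BUL_U : Filter ℕ), @FirstOrder.Language.BoundedFormula.Realize L ℕ S Empty j θ
        v2 (fun i => BUL_rep (x i) k) := by
  induction hθ with
  | falsum =>
    have h1 : ¬ ∀ᶠ k in (BUL_U : Filter ℕ), False := by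
      rw [Filter.eventually_false_iff_eq_bot]
      exact BUL_U.neBot.ne
    exact ⟨fun h => False.elim h, fun h => (h1 h).elim⟩
  | of_isAtomic h =>
    cases h with
    | equal t₁ t₂ =>
      obtain ⟨i, rfl⟩ := BUL_term t₁
      obtain ⟨i', rfl⟩ := BUL_term t₂
      exact Subtype.ext_iff.trans BUL_eq
    | rel R ts =>
      obtain ⟨w, rfl⟩ := BUL_terms ts
      exact Iff.rfl
  | imp _ _ ih1 ih2 => exact (imp_congr ih1 ih2).trans Ultrafilter.eventually_imp.symm

/-- constant germs -/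
def BUL_c (x : BUL_G) : Prop := ∃ c : ℕ, ∀ᶠ n in (BUL_U : Filter ℕ), BUL_rep x n = c

/-- one-variable atomic facts with parameters -/
abbrev BUL_F (L : FirstOrder.Language.{0, 0}) : Type :=
  (k : ℕ) × (L.Relations k × (Fin k → Option ℕ))

/-- the fact `q` at the point `a` -/
def BUL_fct (S : L.Structure ℕ) (q : BUL_F L) (a : ℕ) : Prop :=
  S.RelMap q.2.1 (fun t => (q.2.2 t).getD a)

/-- a germ with values in a finite set is constant -/
theorem BUL_fin {X : Set ℕ} (hX : X.Finite) {f : ℕ → ℕ}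
    (h : ∀ᶠ n in (BUL_U : Filter ℕ), f n ∈ X) : ∃ c, ∀ᶠ n in (BUL_U : Filter ℕ), f n = c := by
  by_contra hc0
  have hc : ∀ c, ∀ᶠ n in (BUL_U : Filter ℕ), ¬ f n = c := fun c =>
    Ultrafilter.eventually_not.2 (fun h => hc0 ⟨c, h⟩)
  have h1 : ∀ c ∈ X, ∀ᶠ n in (BUL_U : Filter ℕ), f n ≠ c := fun c _ => hc c
  have h2 := (Filter.eventually_all_finite hX).2 h1
  obtain ⟨n, hn1, hn2⟩ := (h.and h2).exists
  exact hn2 _ hn1 rfl

/-- twins -/
theorem BUL_tw [∀ n, Countable (L.Relations n)] (S : L.Structure ℕ) (u : BUL_G) (hu : ¬ BUL_c u) :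
    ∃ v, ¬ BUL_c v ∧ v ≠ u ∧ ∀ q : BUL_F L,
      (∀ᶠ k in (BUL_U : Filter ℕ), BUL_fct S q (BUL_rep u k)) ↔
        ∀ᶠ k in (BUL_U : Filter ℕ), BUL_fct S q (BUL_rep v k) := by
  classical
  let _ : Encodable (BUL_F L) := Encodable.ofCountable _
  let b : BUL_F L → Prop := fun q => ∀ᶠ k in (BUL_U : Filter ℕ), BUL_fct S q (BUL_rep u k)
  let X : ℕ → Set ℕ := fun K => {a | ∀ q : BUL_F L, Encodable.encode q < K → (BUL_fct S q a ↔ b q)}
  have hX1 : ∀ K, ∀ᶠ k in (BUL_U : Filter ℕ), BUL_rep u k ∈ X K := by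
    intro K
    have hf : {q : BUL_F L | Encodable.encode q < K}.Finite :=
      (Set.finite_lt_nat K).preimage Encodable.encode_injective.injOn
    refine (Filter.eventually_all_finite hf).2 ?_
    intro q _
    by_cases hb : b q
    · have h1 : ∀ᶠ k in (BUL_U : Filter ℕ), BUL_fct S q (BUL_rep u k) := hb
      exact h1.mono fun k hk => ⟨fun _ => hb, fun _ => hk⟩
    · have h1 : ∀ᶠ k in (BUL_U : Filter ℕ), ¬ BUL_fct S q (BUL_rep u k) :=
        Ultrafilter.eventually_not.2 hb
      exact h1.mono fun k hk => ⟨fun h => (hk h).elim, fun h => (hb h).elim⟩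
  have hX2 : ∀ K, (X K).Infinite := fun K hK => hu (BUL_fin hK (hX1 K))
  choose v hv1 hv2 using fun n => (hX2 n).exists_gt (n + BUL_rep u n)
  refine ⟨(v : BUL_G), ?_, ?_, ?_⟩
  · rintro ⟨c, hc⟩
    have h1 : ∀ᶠ n in (BUL_U : Filter ℕ), c ≤ n := BUL_ev ⟨c, fun n hn => hn⟩
    obtain ⟨n, h2, h3, h4⟩ := (h1.and (hc.and (BUL_coe v))).exists
    have := hv2 n
    omega
  · intro h
    rw [BUL_eq] at h
    obtain ⟨n, h2, h3⟩ := (h.and (BUL_coe v)).exists
    have := hv2 n
    omega
  · intro q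
    have h1 : ∀ᶠ n in (BUL_U : Filter ℕ), (BUL_fct S q (v n) ↔ b q) :=
      BUL_ev ⟨Encodable.encode q + 1, fun n hn => hv1 n q (by omega)⟩
    have h2 : ∀ᶠ n in (BUL_U : Filter ℕ), (BUL_fct S q (BUL_rep (v : BUL_G) n) ↔ b q) := by
      filter_upwards [h1, BUL_coe v] with n h3 h4
      rw [h4]
      exact h3
    rw [Filter.eventually_congr h2]
    constructor
    · intro h
      exact Eventually.of_forall fun _ => h
    · intro h
      obtain ⟨_, hn⟩ := h.exists
      exact hn

/-- equality of types over the constants -/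
theorem BUL_pt [∀ n, IsEmpty (L.Functions n)] (S : L.Structure ℕ) (A : Set BUL_G) (u v : A)
    (h : ∀ q : BUL_F L, (∀ᶠ k in (BUL_U : Filter ℕ), BUL_fct S q (BUL_rep u k)) ↔
        ∀ᶠ k in (BUL_U : Filter ℕ), BUL_fct S q (BUL_rep v k)) :
    Pt (BUL_S S A) {x : A | BUL_c x.1} ![u] ![v] := by
  classical
  intro n R w
  have hc : ∀ d : {x : A | BUL_c x.1}, ∃ c : ℕ, ∀ᶠ n in (BUL_U : Filter ℕ), BUL_rep d.1.1 n = c :=
    fun d => d.2
  choose cst hcst using hc
  let w' : Fin n → Option ℕ := fun t => Sum.elim (fun d => some (cst d)) (fun _ => none) (w t)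
  have key : ∀ u : A, (BUL_S S A).RelMap R (fun i => Sum.elim Subtype.val ![u] (w i)) ↔
      ∀ᶠ k in (BUL_U : Filter ℕ), BUL_fct S ⟨n, R, w'⟩ (BUL_rep u k) := by
    intro u
    have h1 : ∀ᶠ k in (BUL_U : Filter ℕ), ∀ t : Fin n,
        BUL_rep (Sum.elim Subtype.val ![u] (w t) : A) k = (w' t).getD (BUL_rep u k) := by
      rw [Filter.eventually_all]
      intro t
      show ∀ᶠ k in (BUL_U : Filter ℕ), BUL_rep (Sum.elim Subtype.val ![u] (w t) : A) k =
        (Sum.elim (fun d => some (cst d)) (fun _ => none) (w t) : Option ℕ).getD (BUL_rep u k)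
      cases hw : w t with
      | inl d => exact hcst d
      | inr i =>
        refine Eventually.of_forall fun k => ?_
        fin_cases i
        rfl
    refine Filter.eventually_congr (h1.mono fun k hk => ?_)
    show S.RelMap R (fun i => BUL_rep (Sum.elim Subtype.val ![u] (w i) : A) k) ↔
      S.RelMap R (fun t => (w' t).getD (BUL_rep u k))
    rw [funext hk]
  rw [key u, key v]
  exact h _

end BUL

theorem thm_BUL (hB : St_BPX) : St_BUL := by
  intro L _ _ T S hT hS Q hQ
  classical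
  have hrel : ∀ φ : T, ∃ (m n : ℕ) (θ : L.BoundedFormula Empty (m + 2 + n)) (c : Fin m → ℕ)
      (z : ℕ → ℕ → Fin n → ℕ), θ.IsQF ∧ (∀ (M : Type) (S : L.Structure M),
      @FirstOrder.Language.Sentence.Realize L M S φ ↔ ∃ c : Fin m → M, ∀ x y : M,
        ∃ z : Fin n → M, @FirstOrder.Language.BoundedFormula.Realize L M S Empty (m + 2 + n) θ
          default (Fin.append (Fin.append c ![x, y]) z)) ∧
      ∀ (v : Empty → ℕ) (x y : ℕ), @FirstOrder.Language.BoundedFormula.Realize L ℕ S Empty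
          (m + 2 + n) θ v (Fin.append (Fin.append c ![x, y]) (z x y)) := by
    rintro ⟨φ, hφ⟩
    obtain ⟨m, n, hp⟩ := hT φ hφ
    obtain ⟨θ, hq, hi⟩ := hB L m n φ hp
    have h1 : @FirstOrder.Language.Sentence.Realize L ℕ S φ :=
      (@FirstOrder.Language.Theory.Model.realize_of_mem L ℕ S T hS) φ hφ
    obtain ⟨c, hc⟩ := (hi ℕ S).1 h1
    choose z hz using hc
    refine ⟨m, n, θ, c, z, hq, hi, fun v x y => ?_⟩
    exact (BUL_tr S S θ hq _ v _ _ (fun _ _ => Iff.rfl) (fun _ _ _ => Iff.rfl)).1 (hz x y)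
  choose m n θ c z hqf hiff hz using hrel
  have htw : ∀ u : BUL_G, ∃ v : BUL_G, ¬ BUL_c u → (¬ BUL_c v ∧ v ≠ u ∧ ∀ q : BUL_F L,
      (∀ᶠ k in (BUL_U : Filter ℕ), BUL_fct S q (BUL_rep u k)) ↔
        ∀ᶠ k in (BUL_U : Filter ℕ), BUL_fct S q (BUL_rep v k)) := by
    intro u
    by_cases hu : BUL_c u
    · exact ⟨u, fun h => (h hu).elim⟩
    · obtain ⟨v, hv⟩ := BUL_tw S u hu
      exact ⟨v, fun _ => hv⟩
  choose tw htw using htw
  have hsy : Countable L.Symbols := by
    have h1 : Countable ((l : ℕ) × L.Functions l) := inferInstance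
    have h2 : Countable ((l : ℕ) × L.Relations l) := inferInstance
    exact inferInstanceAs (Countable (((l : ℕ) × L.Functions l) ⊕ ((l : ℕ) × L.Relations l)))
  have hcs : Countable L.Sentence := inferInstanceAs (Countable (L.Formula Empty))
  have hTc : Countable T := inferInstance
  -- the closure
  let cg : ℕ → BUL_G := fun c => ((fun _ => c : ℕ → ℕ) : BUL_G)
  let pg : Fin 4 → BUL_G := fun i => ((fun n => Q n i : ℕ → ℕ) : BUL_G)
  let zg : T → BUL_G → BUL_G → ℕ → BUL_G := fun φ x y i =>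
    ((fun k => if h : i < n φ then z φ (BUL_rep x k) (BUL_rep y k) ⟨i, h⟩ else 0 : ℕ → ℕ) : BUL_G)
  let cl : Finset BUL_G → Set BUL_G := fun F =>
    (range cg ∪ range pg) ∪ ((⋃ x ∈ (F : Set BUL_G), {tw x}) ∪
      ⋃ x ∈ (F : Set BUL_G), ⋃ y ∈ (F : Set BUL_G), ⋃ φ : T, range (zg φ x y))
  have hcl : ∀ F, (cl F).Countable := by
    intro F
    refine ((countable_range _).union (countable_range _)).union (Set.Countable.union ?_ ?_)
    · exact F.countable_toSet.biUnion fun x _ => countable_singleton _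
    · exact F.countable_toSet.biUnion fun x _ => F.countable_toSet.biUnion fun y _ =>
        countable_iUnion fun φ => countable_range _
  obtain ⟨A, hA, hAc⟩ := Pool.Agent.Helper97.VC.exists_closed cl hcl
  have hcg : ∀ c, cg c ∈ A := fun c => hAc ∅ (by simp) (Or.inl (Or.inl ⟨c, rfl⟩))
  have hpg : ∀ i, pg i ∈ A := fun i => hAc ∅ (by simp) (Or.inl (Or.inr ⟨i, rfl⟩))
  have htA : ∀ x ∈ A, tw x ∈ A := by
    intro x hx
    refine hAc {x} (by simpa using hx) (Or.inr (Or.inl ?_))
    simp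
  have hzA : ∀ x ∈ A, ∀ y ∈ A, ∀ φ i, zg φ x y i ∈ A := by
    intro x hx y hy φ i
    refine hAc {x, y} ?_ (Or.inr (Or.inr ?_))
    · intro a ha
      simp only [Finset.coe_insert, Finset.coe_singleton, mem_insert_iff, mem_singleton_iff] at ha
      rcases ha with rfl | rfl
      · exact hx
      · exact hy
    · simp only [mem_iUnion]
      exact ⟨x, by simp, y, by simp, φ, ⟨i, rfl⟩⟩
  have hcc : ∀ c : ℕ, BUL_c (cg c) := fun c => ⟨c, BUL_coe _⟩
  refine ⟨A, hA.to_subtype, BUL_S S A, {x : A | BUL_c x.1}, fun i => ⟨pg i, hpg i⟩, ?_, ?_, ?_,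
    ?_, ?_, ?_, ?_⟩
  · -- twins
    intro u hu
    obtain ⟨h1, h2, h3⟩ := htw u.1 hu
    exact ⟨⟨tw u.1, htA _ u.2⟩, h1, fun h => h2 (congrArg Subtype.val h),
      BUL_pt S A u ⟨tw u.1, htA _ u.2⟩ h3⟩
  · -- copies
    rintro A' ⟨ι, hι⟩
    show @FirstOrder.Language.Theory.Model L ℕ A' T
    refine @FirstOrder.Language.Theory.Model.mk L ℕ A' T ?_
    intro φ hφ
    let φ' : T := ⟨φ, hφ⟩
    refine (hiff φ' ℕ A').2 ⟨fun i => ι ⟨cg (c φ' i), hcg _⟩, ?_⟩
    intro x' y'
    obtain ⟨h, hinj, hd, ⟨u, hu⟩, ⟨v, hv⟩, hR⟩ := hι x' y'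
    let cP : Fin (m φ') → A := fun i => ⟨cg (c φ' i), hcg _⟩
    let zP : Fin (n φ') → A := fun i => ⟨zg φ' u.1 v.1 i, hzA _ u.2 _ v.2 _ _⟩
    refine ⟨fun i => h (zP i), ?_⟩
    have hN : @FirstOrder.Language.BoundedFormula.Realize L A (BUL_S S A) Empty _ (θ φ')
        (fun e => e.elim) (Fin.append (Fin.append cP ![u, v]) zP) := by
      rw [BUL_los S A _ (hqf φ') _ (fun e => e.elim)]
      have h1 : ∀ᶠ k in (BUL_U : Filter ℕ), ∀ i, BUL_rep (Fin.append (Fin.append cP ![u, v]) zP i : A) k =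
          Fin.append (Fin.append (c φ') ![BUL_rep u.1 k, BUL_rep v.1 k])
            (z φ' (BUL_rep u.1 k) (BUL_rep v.1 k)) i := by
        rw [Filter.eventually_all]
        intro i
        refine Fin.addCases (fun i => ?_) (fun i => ?_) i
        · refine Fin.addCases (fun i => ?_) (fun i => ?_) i
          · simp only [Fin.append_left]
            exact BUL_coe _
          · simp only [Fin.append_left, Fin.append_right]
            refine Eventually.of_forall fun k => ?_
            fin_cases i <;> rfl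
        · simp only [Fin.append_right]
          have h2 := BUL_coe (fun k => if h : (i : ℕ) < n φ' then
            z φ' (BUL_rep u.1 k) (BUL_rep v.1 k) ⟨i, h⟩ else 0)
          refine h2.mono fun k hk => ?_
          refine Eq.trans (b := if h : (i : ℕ) < n φ' then
            z φ' (BUL_rep u.1 k) (BUL_rep v.1 k) ⟨i, h⟩ else 0) hk ?_
          rw [dif_pos i.2]
      refine h1.mono fun k hk => ?_
      rw [funext hk]
      exact hz φ' _ _ _
    refine (BUL_tr (BUL_S S A) A' _ (hqf φ') _ _ _ _ ?_ ?_).1 hN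
    · intro i i'
      have h1 : Fin.append (Fin.append (fun i => ι ⟨cg (c φ' i), hcg _⟩) ![x', y'])
          (fun i => h (zP i)) = fun i => h (Fin.append (Fin.append cP ![u, v]) zP i) := by
        funext i
        refine Fin.addCases (fun i => ?_) (fun i => ?_) i
        · refine Fin.addCases (fun i => ?_) (fun i => ?_) i
          · simp only [Fin.append_left]
            exact (hd _ (hcc _)).symm
          · simp only [Fin.append_left, Fin.append_right]
            fin_cases i
            · exact hu.symm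
            · exact hv.symm
        · simp only [Fin.append_right]
      rw [h1]
      exact hinj.eq_iff.symm
    · intro k R w
      have h1 : Fin.append (Fin.append (fun i => ι ⟨cg (c φ' i), hcg _⟩) ![x', y'])
          (fun i => h (zP i)) = fun i => h (Fin.append (Fin.append cP ![u, v]) zP i) := by
        funext i
        refine Fin.addCases (fun i => ?_) (fun i => ?_) i
        · refine Fin.addCases (fun i => ?_) (fun i => ?_) i
          · simp only [Fin.append_left]
            exact (hd _ (hcc _)).symm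
          · simp only [Fin.append_left, Fin.append_right]
            fin_cases i
            · exact hu.symm
            · exact hv.symm
        · simp only [Fin.append_right]
      rw [h1]
      exact (hR k R _).symm
  · -- the points are not constant
    rintro i ⟨a, ha⟩
    have h1 : ∀ᶠ k in (BUL_U : Filter ℕ), Q k i ≠ a := BUL_ev (hQ i a)
    have h2 := BUL_coe (fun n => Q n i)
    obtain ⟨k, h3, h4, h5⟩ := (h1.and (ha.and h2)).exists
    exact h3 (h5.symm.trans h4)
  · -- different points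
    intro i j hij h
    have h1 : pg i = pg j := congrArg Subtype.val h
    rw [BUL_eq] at h1
    obtain ⟨k, h3, h4, h5⟩ := (h1.and ((BUL_coe (fun n => Q n i)).and
      (BUL_coe (fun n => Q n j)))).exists
    exact hij k (h4.symm.trans (h3.trans h5))
  · -- types
    intro i j h
    refine BUL_pt S A _ _ ?_
    rintro ⟨k, R, w⟩
    refine Filter.eventually_congr ?_
    filter_upwards [BUL_ev (h k R w), BUL_coe (fun n => Q n i), BUL_coe (fun n => Q n j)] with a h1 h2 h3
    show S.RelMap R (fun t => (w t).getD (BUL_rep (pg i) a)) ↔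
      S.RelMap R (fun t => (w t).getD (BUL_rep (pg j) a))
    rw [show BUL_rep (pg i) a = Q a i from h2, show BUL_rep (pg j) a = Q a j from h3]
    exact h1
  · intro R i j h
    show ∀ᶠ k in (BUL_U : Filter ℕ), S.RelMap R (fun t => BUL_rep
      ((![(⟨pg i, hpg i⟩ : A), ⟨pg j, hpg j⟩] : Fin 2 → A) t) k)
    filter_upwards [BUL_coe (fun n => Q n i), BUL_coe (fun n => Q n j)] with a h2 h3
    have h4 : (fun t => BUL_rep ((![(⟨pg i, hpg i⟩ : A), ⟨pg j, hpg j⟩] : Fin 2 → A) t).1 a) =
        ![Q a i, Q a j] := by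
      funext t
      fin_cases t
      · exact h2
      · exact h3
    rw [h4]
    exact h a
  · intro R i j h h5
    have h6 : ∀ᶠ k in (BUL_U : Filter ℕ), S.RelMap R (fun t => BUL_rep
      ((![(⟨pg i, hpg i⟩ : A), ⟨pg j, hpg j⟩] : Fin 2 → A) t) k) := h5
    obtain ⟨a, h7, h2, h3⟩ := (h6.and ((BUL_coe (fun n => Q n i)).and
      (BUL_coe (fun n => Q n j)))).exists
    have h4 : (fun t => BUL_rep ((![(⟨pg i, hpg i⟩ : A), ⟨pg j, hpg j⟩] : Fin 2 → A) t).1 a) =
        ![Q a i, Q a j] := by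
      funext t
      fin_cases t
      · exact h2
      · exact h3
    rw [h4] at h7
    exact h a h7

end VPF
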