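import Pool.Agent.VPF.StG

/-!
# VPF, module CTY: countably many types of tuples in a large structure
-/

set_option autoImplicit false

namespace VPF

open FirstOrder Set Pool.Agent.Helper6.Str Pool.Agent.Helper5.Multi Pool.Agent.Helper79.VC
  Pool.Agent.Helper5.DU Pool.Agent.Helper97.VC Pool.Agent.Helper97.LO

theorem thm_CTY : St_CTY := by
  intro L K M S hsc hlev γ hγ n
  obtain ⟨ρ', hρ'⟩ := hsc γ hγ n
  have hne : Nonempty M := by
    obtain ⟨S', _, h⟩ := hlev 1 one_lt_om1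
    obtain ⟨x, _, _⟩ := h.back (β := 0) zero_lt_one (mem_univ (0 : ℕ))
    exact ⟨x⟩
  have hex : ∀ m, ∃ r : Fin n → M, ∀ w : Fin n → M,
      BFR S (ρ' m).1 univ univ γ (range fun i => (w i, (ρ' m).2 i)) →
        BFR S (ρ' m).1 univ univ γ (range fun i => (r i, (ρ' m).2 i)) := by
    intro m
    by_cases h : ∃ w : Fin n → M, BFR S (ρ' m).1 univ univ γ (range fun i => (w i, (ρ' m).2 i))
    · obtain ⟨w, hw⟩ := h
      exact ⟨w, fun _ _ => hw⟩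
    · exact ⟨fun _ => Classical.arbitrary M, fun w hw => absurd ⟨w, hw⟩ h⟩
  choose ρ hρ using hex
  refine ⟨ρ, fun v => ?_⟩
  obtain ⟨S', hS', h⟩ := hlev (γ + n) (add_lt_om1 hγ (natCast_lt_om1 n))
  obtain ⟨v', _, hv'⟩ := BFR.forth_many n h v (fun i => mem_univ _)
  obtain ⟨m, _, hm'⟩ := hρ' S' hS' v'
  have h1 : BFR S (ρ' m).1 univ univ γ (range fun i => (v i, (ρ' m).2 i)) := by
    refine BFR.trans hv' hm' ?_
    rintro _ ⟨i, rfl⟩
    exact ⟨v' i, Or.inr ⟨i, rfl⟩, ⟨i, rfl⟩⟩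
  have h2 := hρ m v h1
  have h3 : BFR (ρ' m).1 S univ univ γ (range fun i => ((ρ' m).2 i, ρ m i)) := by
    refine BFR.symm h2 ?_
    rintro _ ⟨i, rfl⟩
    exact ⟨i, rfl⟩
  refine ⟨m, BFR.trans h1 h3 ?_⟩
  rintro _ ⟨i, rfl⟩
  exact ⟨(ρ' m).2 i, ⟨i, rfl⟩, ⟨i, rfl⟩⟩

end VPF
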