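import Pool.Agent.VPF.StF

/-!
# VPF [FXB]: two different types of pairs
-/

set_option autoImplicit false
set_option linter.unusedVariables false
set_option linter.unusedSectionVars false

namespace VPF

open FirstOrder Set Pool.Agent.Helper6.Str Pool.Agent.Helper5.Multi Pool.Agent.Helper79.VC

/-- the bipartite graph given by `z` -/
def FXBg (z : ℕ → Bool) (i j : ℕ) : Bool :=
  if i < 6 then (if j < 6 then true else decide (i % 2 = 0))
  else (if j < 6 then decide (j % 2 = 0) else !(z (i - 6) && decide (j ≤ i)))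

private theorem g_cont (i j : ℕ) : Continuous fun z : ℕ → Bool => FXBg z i j := by
  unfold FXBg
  split_ifs
  · exact continuous_const
  · exact continuous_const
  · exact continuous_const
  · have h : Continuous fun t : Bool => !(t && decide (j ≤ i)) := continuous_of_discreteTopology
    exact h.comp (continuous_apply (i - 6))

/-- the rows -/
def FXBX {β : Type} (r : β → β → Prop) (p : Fin 12 → β) (x : β) : Prop :=
  (∀ k, x ≠ p k) ∧ ¬ (r x (p 6) ↔ r x (p 7)) ∧ ¬ (r x (p 8) ↔ r x (p 9)) ∧
    ¬ (r x (p 10) ↔ r x (p 11))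

/-- the columns -/
def FXBY {β : Type} (r : β → β → Prop) (p : Fin 12 → β) (y : β) : Prop :=
  (∀ k, y ≠ p k) ∧ ¬ (r (p 0) y ↔ r (p 1) y) ∧ ¬ (r (p 2) y ↔ r (p 3) y) ∧
    ¬ (r (p 4) y ↔ r (p 5) y)

/-- the decoding property -/
def FXBP {β : Type} (r : β → β → Prop) (p : Fin 12 → β) (n : ℕ) : Prop :=
  ∃ x, FXBX r p x ∧ ∃ s : Finset β, s.card = n + 1 ∧ ∀ y, y ∈ s ↔ (FXBY r p y ∧ ¬ r x y)

private theorem fxbp_mono {β γ : Type} {r : β → β → Prop} {r' : γ → γ → Prop} (e : β ≃ γ)
    (he : ∀ x y, r' (e x) (e y) ↔ r x y) (p : Fin 12 → β) (n : ℕ) (h : FXBP r p n) :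
    FXBP r' (e ∘ p) n := by
  have hX : ∀ x, FXBX r' (e ∘ p) (e x) ↔ FXBX r p x := by
    intro x
    unfold FXBX
    simp only [Function.comp_apply, he, ne_eq, e.injective.eq_iff]
  have hY : ∀ x, FXBY r' (e ∘ p) (e x) ↔ FXBY r p x := by
    intro x
    unfold FXBY
    simp only [Function.comp_apply, he, ne_eq, e.injective.eq_iff]
  obtain ⟨x, hx, s, hs, hy⟩ := h
  refine ⟨e x, (hX x).mpr hx, s.map e.toEmbedding, by rw [Finset.card_map, hs], ?_⟩
  intro y
  obtain ⟨y, rfl⟩ := e.surjective y
  have h4 : e y ∈ s.map e.toEmbedding ↔ y ∈ s := by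
    rw [Finset.mem_map]
    constructor
    · rintro ⟨y', hy', h⟩
      have h5 : y' = y := e.injective h
      exact h5 ▸ hy'
    · exact fun h => ⟨y, h, rfl⟩
  rw [h4, hy y, hY y, he]

private theorem fxbp_meas {β : Type} [Countable β] (r : (ℕ → Bool) → β → β → Prop)
    (hr : ∀ x y, MeasurableSet {z | r z x y}) (p : Fin 12 → β) (n : ℕ) :
    MeasurableSet {z | FXBP (r z) p n} := by
  have hiff : ∀ x y x' y', MeasurableSet {z | r z x y ↔ r z x' y'} := by
    intro x y x' y'
    have : {z | r z x y ↔ r z x' y'} =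
        ({z | r z x y} ∩ {z | r z x' y'}) ∪ ({z | r z x y}ᶜ ∩ {z | r z x' y'}ᶜ) := by
      ext z
      simp only [mem_ofPred_eq, mem_union, mem_inter_iff, mem_compl_iff]
      tauto
    rw [this]
    exact ((hr _ _).inter (hr _ _)).union ((hr _ _).compl.inter (hr _ _).compl)
  have hex : ∀ {ι : Type} [Countable ι] (P : ι → (ℕ → Bool) → Prop),
      (∀ i, MeasurableSet {z | P i z}) → MeasurableSet {z | ∃ i, P i z} := by
    intro ι _ P hP
    have : {z | ∃ i, P i z} = ⋃ i, {z | P i z} := by
      ext z
      simp only [mem_ofPred_eq, mem_iUnion]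
    rw [this]
    exact MeasurableSet.iUnion hP
  have hfa : ∀ {ι : Type} [Countable ι] (P : ι → (ℕ → Bool) → Prop),
      (∀ i, MeasurableSet {z | P i z}) → MeasurableSet {z | ∀ i, P i z} := by
    intro ι _ P hP
    have : {z | ∀ i, P i z} = ⋂ i, {z | P i z} := by
      ext z
      simp only [mem_ofPred_eq, mem_iInter]
    rw [this]
    exact MeasurableSet.iInter hP
  have hX : ∀ x, MeasurableSet {z | FXBX (r z) p x} := fun x =>
    (MeasurableSet.const _).inter ((hiff _ _ _ _).compl.inter
      ((hiff _ _ _ _).compl.inter (hiff _ _ _ _).compl))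
  have hY : ∀ x, MeasurableSet {z | FXBY (r z) p x} := fun x =>
    (MeasurableSet.const _).inter ((hiff _ _ _ _).compl.inter
      ((hiff _ _ _ _).compl.inter (hiff _ _ _ _).compl))
  unfold FXBP
  refine hex _ fun x => ?_
  refine (hX x).inter ?_
  refine hex _ fun s => ?_
  refine (MeasurableSet.const _).inter ?_
  refine hfa _ fun y => ?_
  have h1 : MeasurableSet {z | FXBY (r z) p y ∧ ¬ r z x y} := (hY y).inter (hr _ _).compl
  by_cases hy : y ∈ s
  · simpa only [hy, true_iff] using h1
  · have h2 : {z | y ∈ s ↔ (FXBY (r z) p y ∧ ¬ r z x y)} =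
        {z | FXBY (r z) p y ∧ ¬ r z x y}ᶜ := by
      ext z
      simp only [mem_ofPred_eq, mem_compl_iff, hy, false_iff]
    rw [h2]
    exact h1.compl

/-- the parameters -/
def FXBp {β : Type} (A B : ℕ → β) (k : Fin 12) : β := if k.val < 6 then A k.val else B (k.val - 6)

/-- the combinatorial core of the decoding -/
private theorem fxbp_core {β : Type} (r : β → β → Prop) (z : ℕ → Bool) (A B : ℕ → β)
    (hA : Function.Injective A) (hB : Function.Injective B) (hne : ∀ i j, A i ≠ B j)
    (hAB : ∀ i j, r (A i) (B j) ↔ FXBg z i j = true)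
    (h1 : ∀ x, x ∉ range A → x ∉ range B → (r x (B 0) ↔ r x (B 1)) ∨ (r x (B 2) ↔ r x (B 3)) ∨
      (r x (B 4) ↔ r x (B 5)))
    (h2 : ∀ j, 6 ≤ j → (r (B j) (B 0) ↔ r (B j) (B 1)))
    (h3 : ∀ y, y ∉ range A → y ∉ range B → (r (A 0) y ↔ r (A 1) y) ∨ (r (A 2) y ↔ r (A 3) y) ∨
      (r (A 4) y ↔ r (A 5) y))
    (h4 : ∀ j, 6 ≤ j → (r (A 0) (A j) ↔ r (A 1) (A j))) (n : ℕ) :
    z n = true ↔ FXBP r (FXBp A B) n := by
  have hpA : ∀ i (hi : i < 6), FXBp A B ⟨i, by omega⟩ = A i := by
    intro i hi
    unfold FXBp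
    rw [if_pos hi]
  have hpB : ∀ i (hi : i < 6), FXBp A B ⟨i + 6, by omega⟩ = B i := by
    intro i hi
    unfold FXBp
    rw [if_neg (by simp)]
    simp
  have hX : ∀ x, FXBX r (FXBp A B) x ↔ ∃ i, x = A (i + 6) := by
    intro x
    constructor
    · rintro ⟨k0, k1, k2, k3⟩
      by_cases hxA : x ∈ range A
      · obtain ⟨i, rfl⟩ := hxA
        by_cases hi : i < 6
        · exact absurd (hpA i hi).symm (k0 _)
        · exact ⟨i - 6, by rw [Nat.sub_add_cancel (by omega)]⟩
      · exfalso
        by_cases hxB : x ∈ range B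
        · obtain ⟨i, rfl⟩ := hxB
          by_cases hi : i < 6
          · exact absurd (hpB i hi).symm (k0 _)
          · exact k1 (h2 i (by omega))
        · rcases h1 x hxA hxB with h | h | h
          · exact k1 h
          · exact k2 h
          · exact k3 h
    · rintro ⟨i, rfl⟩
      refine ⟨fun k => ?_, ?_, ?_, ?_⟩
      · unfold FXBp
        split_ifs with hk
        · exact fun h => by have := hA h; omega
        · exact hne _ _
      · show ¬ (r (A (i + 6)) (B 0) ↔ r (A (i + 6)) (B 1))
        rw [hAB, hAB]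
        simp [FXBg]
      · show ¬ (r (A (i + 6)) (B 2) ↔ r (A (i + 6)) (B 3))
        rw [hAB, hAB]
        simp [FXBg]
      · show ¬ (r (A (i + 6)) (B 4) ↔ r (A (i + 6)) (B 5))
        rw [hAB, hAB]
        simp [FXBg]
  have hY : ∀ x, FXBY r (FXBp A B) x ↔ ∃ i, x = B (i + 6) := by
    intro x
    constructor
    · rintro ⟨k0, k1, k2, k3⟩
      by_cases hxB : x ∈ range B
      · obtain ⟨i, rfl⟩ := hxB
        by_cases hi : i < 6
        · exact absurd (hpB i hi).symm (k0 _)
        · exact ⟨i - 6, by rw [Nat.sub_add_cancel (by omega)]⟩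
      · exfalso
        by_cases hxA : x ∈ range A
        · obtain ⟨i, rfl⟩ := hxA
          by_cases hi : i < 6
          · exact absurd (hpA i hi).symm (k0 _)
          · exact k1 (h4 i (by omega))
        · rcases h3 x hxA hxB with h | h | h
          · exact k1 h
          · exact k2 h
          · exact k3 h
    · rintro ⟨i, rfl⟩
      refine ⟨fun k => ?_, ?_, ?_, ?_⟩
      · unfold FXBp
        split_ifs with hk
        · exact (hne _ _).symm
        · exact fun h => by have := hB h; omega
      · show ¬ (r (A 0) (B (i + 6)) ↔ r (A 1) (B (i + 6)))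
        rw [hAB, hAB]
        simp [FXBg]
      · show ¬ (r (A 2) (B (i + 6)) ↔ r (A 3) (B (i + 6)))
        rw [hAB, hAB]
        simp [FXBg]
      · show ¬ (r (A 4) (B (i + 6)) ↔ r (A 5) (B (i + 6)))
        rw [hAB, hAB]
        simp [FXBg]
  have hg : ∀ m j, FXBg z (m + 6) (j + 6) = !(z m && decide (j ≤ m)) := by
    intro m j
    unfold FXBg
    rw [if_neg (by omega), if_neg (by omega), Nat.add_sub_cancel]
    congr 2
    simp
  unfold FXBP
  simp only [hX, hY]
  let f : ℕ ↪ β := ⟨fun j => B (j + 6), fun i j h => by have := hB h; omega⟩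
  constructor
  · intro hz
    refine ⟨A (n + 6), ⟨_, rfl⟩, (Finset.range (n + 1)).map f, by simp, ?_⟩
    intro y
    rw [Finset.mem_map]
    constructor
    · rintro ⟨j, hj, rfl⟩
      refine ⟨⟨j, rfl⟩, ?_⟩
      show ¬ r (A (n + 6)) (B (j + 6))
      rw [hAB, hg]
      have h5 : j ≤ n := Nat.le_of_lt_succ (Finset.mem_range.mp hj)
      simp [hz, h5]
    · rintro ⟨⟨j, rfl⟩, h⟩
      rw [hAB, hg] at h
      simp only [hz, Bool.true_and, Bool.not_eq_true', decide_eq_false_iff_not, not_not] at h
      exact ⟨j, Finset.mem_range.mpr (Nat.lt_succ_of_le h), rfl⟩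
  · rintro ⟨x, ⟨m, rfl⟩, s, hs, hy⟩
    by_cases hz : z m = true
    · have h5 : s = (Finset.range (m + 1)).map f := by
        ext y
        rw [hy y, Finset.mem_map]
        constructor
        · rintro ⟨⟨j, rfl⟩, h⟩
          rw [hAB, hg] at h
          simp only [hz, Bool.true_and, Bool.not_eq_true', decide_eq_false_iff_not, not_not] at h
          exact ⟨j, Finset.mem_range.mpr (Nat.lt_succ_of_le h), rfl⟩
        · rintro ⟨j, hj, rfl⟩
          refine ⟨⟨j, rfl⟩, ?_⟩
          show ¬ r (A (m + 6)) (B (j + 6))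
          rw [hAB, hg]
          have h5 : j ≤ m := Nat.le_of_lt_succ (Finset.mem_range.mp hj)
          simp [hz, h5]
      rw [h5, Finset.card_map, Finset.card_range] at hs
      have h6 : m = n := by omega
      exact h6 ▸ hz
    · exfalso
      have h5 : s = ∅ := by
        rw [Finset.eq_empty_iff_forall_notMem]
        intro y hys
        obtain ⟨⟨j, rfl⟩, h⟩ := (hy y).mp hys
        rw [hAB, hg] at h
        simp [hz] at h
      rw [h5] at hs
      simp at hs

/-- one of three pairs avoids two exceptions -/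
private theorem fxb_pick {J : Type} (F : ℕ → J) (hF : Function.Injective F) (i₁ i₂ : J) :
    ∃ k, (k = 0 ∨ k = 2 ∨ k = 4) ∧ F k ≠ i₁ ∧ F k ≠ i₂ ∧ F (k + 1) ≠ i₁ ∧ F (k + 1) ≠ i₂ := by
  have h : ∀ i : J, ∃ m : ℕ, ∀ k, F k = i → k = m := by
    intro i
    by_cases h : ∃ m, F m = i
    · obtain ⟨m, hm⟩ := h
      exact ⟨m, fun k hk => hF (hk.trans hm.symm)⟩
    · exact ⟨0, fun k hk => absurd ⟨k, hk⟩ h⟩
  obtain ⟨m₁, h₁⟩ := h i₁
  obtain ⟨m₂, h₂⟩ := h i₂
  have h3 : ∃ k, (k = 0 ∨ k = 2 ∨ k = 4) ∧ k ≠ m₁ ∧ k ≠ m₂ ∧ k + 1 ≠ m₁ ∧ k + 1 ≠ m₂ := by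
    by_contra hcon
    push Not at hcon
    have e0 := hcon 0 (by omega)
    have e2 := hcon 2 (by omega)
    have e4 := hcon 4 (by omega)
    omega
  obtain ⟨k, hk, k1, k2, k3, k4⟩ := h3
  exact ⟨k, hk, fun h => k1 (h₁ _ h), fun h => k2 (h₂ _ h), fun h => k3 (h₁ _ h),
    fun h => k4 (h₂ _ h)⟩

/-- transport of copies along a bijection -/
private theorem fxb_cop {L : FirstOrder.Language.{0, 0}} {P B C : Type} {N : L.Structure P}
    {D : Set P} {T : L.Structure B} {T' : L.Structure C} {e : B ≃ C} (he : RelIso T T' e)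
    (h : Cop N D T) : Cop N D T' := by
  obtain ⟨ι, hι⟩ := h
  refine ⟨fun p => e (ι p), fun a b => ?_⟩
  obtain ⟨h, h1, h2, ⟨u, h3⟩, ⟨v, h4⟩, h5⟩ := hι (e.symm a) (e.symm b)
  refine ⟨fun p => e (h p), e.injective.comp h1, fun d hd => congrArg e (h2 d hd), ⟨u, ?_⟩, ⟨v, ?_⟩,
    fun n R w => ?_⟩
  · show e (h u) = a
    rw [h3, Equiv.apply_symm_apply]
  · show e (h v) = b
    rw [h4, Equiv.apply_symm_apply]
  · rw [← h5 n R w]
    exact (he n R _).symm

/-- the pairs of base points -/
private def sgB {P : Type} (u v u' v' tu tv : P) (z : ℕ → Bool) : ℕ ⊕ ℕ → ℕ ⊕ ℕ → P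
  | .inl i, .inl j => if i < j then u else tu
  | .inr i, .inr j => if i < j then v else tv
  | .inl i, .inr j => if FXBg z i j = true then u else u'
  | .inr j, .inl i => if FXBg z i j = true then v else v'

private theorem sg_open {P : Type} (u v u' v' tu tv : P) (x y : ℕ ⊕ ℕ) (c : P) :
    IsOpen {z : ℕ → Bool | sgB u v u' v' tu tv z x y = c} := by
  match x, y with
  | .inl i, .inl j => simp only [sgB]; exact isOpen_const
  | .inr i, .inr j => simp only [sgB]; exact isOpen_const
  | .inl i, .inr j =>
    exact (isOpen_discrete {t : Bool | (if t = true then u else u') = c}).preimage (g_cont i j)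
  | .inr j, .inl i =>
    exact (isOpen_discrete {t : Bool | (if t = true then v else v') = c}).preimage (g_cont i j)

/-- the relation with parameters `c` -/
private def rrB {L : FirstOrder.Language.{0, 0}} {Q β : Type} {n : ℕ} (R : L.Relations n)
    (w : Fin n → Q ⊕ Fin 2) (T : L.Structure β) (c : Fin n → β) (x y : β) : Prop :=
  T.RelMap R (fun i => Sum.elim (fun _ => c i) ![x, y] (w i))

private theorem rrB_iso {L : FirstOrder.Language.{0, 0}} {Q β γ : Type} {n : ℕ}
    (R : L.Relations n) (w : Fin n → Q ⊕ Fin 2) {T : L.Structure β} {T' : L.Structure γ}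
    {e : β ≃ γ} (he : RelIso T T' e) (c : Fin n → β) (x y : β) :
    rrB R w T' (e ∘ c) (e x) (e y) ↔ rrB R w T c x y := by
  unfold rrB
  rw [he n R]
  have h : (fun i => Sum.elim (fun _ => (e ∘ c) i) ![e x, e y] (w i)) =
      e ∘ (fun i => Sum.elim (fun _ => c i) ![x, y] (w i)) := by
    funext i
    simp only [Function.comp_apply]
    rcases w i with d | k
    · rfl
    · fin_cases k <;> rfl
  rw [h]

private theorem fxb_main (hC : St_FXC) (L : FirstOrder.Language.{0, 0})
    [∀ n, IsEmpty (L.Functions n)] [∀ n, Countable (L.Relations n)] (K : Set (L.Structure ℕ))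
    (P : Type) [Countable P] (N : L.Structure P) (D : Set P) (hT : Twn N D) (hK : CopC K N D)
    (u v u' v' : P) (hu : u ∉ D) (hv : v ∉ D) (hu' : u' ∉ D) (hv' : v' ∉ D) (huv : u ≠ v)
    (huv' : u' ≠ v') (tu' : Pt N D ![u'] ![u]) (tv' : Pt N D ![v'] ![v]) {n : ℕ}
    (R : L.Relations n) (w : Fin n → D ⊕ Fin 2)
    (hR : N.RelMap R (fun i => Sum.elim Subtype.val ![u, v] (w i)))
    (hR' : ¬ N.RelMap R (fun i => Sum.elim Subtype.val ![u', v'] (w i))) : PerfK K := by
  classical
  obtain ⟨tu, htu, htu1, htu2⟩ := hT u hu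
  obtain ⟨tv, htv, htv1, htv2⟩ := hT v hv
  let τ : ℕ ⊕ ℕ → P := Sum.elim (fun _ => u) (fun _ => v)
  have hτ : ∀ i, τ i ∉ D := by
    intro i
    match i with
    | .inl _ => exact hu
    | .inr _ => exact hv
  obtain ⟨E, hE, b, A, ρ, hFX, hdep⟩ := hC L P (ℕ ⊕ ℕ) N D τ hT ⟨.inl 0, .inr 0, by simp⟩ hτ
  let σ : (ℕ → Bool) → ℕ ⊕ ℕ → ℕ ⊕ ℕ → P := sgB u v u' v' tu tv
  have hFD : ∀ z, FD N D τ (σ z) := by
    intro z
    refine ⟨hτ, ?_, ?_, ?_⟩
    · intro i j _
      match i, j with
      | .inl i, .inl j =>
        show (if i < j then u else tu) ∉ D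
        split_ifs
        · exact hu
        · exact htu
      | .inr i, .inr j =>
        show (if i < j then v else tv) ∉ D
        split_ifs
        · exact hv
        · exact htv
      | .inl i, .inr j =>
        show (if FXBg z i j = true then u else u') ∉ D
        split_ifs
        · exact hu
        · exact hu'
      | .inr j, .inl i =>
        show (if FXBg z i j = true then v else v') ∉ D
        split_ifs
        · exact hv
        · exact hv'
    · intro i j _
      match i, j with
      | .inl i, .inl j =>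
        show Pt N D ![if i < j then u else tu] ![u]
        split_ifs
        · exact fun _ _ _ => Iff.rfl
        · exact fun n R w => (htu2 n R w).symm
      | .inr i, .inr j =>
        show Pt N D ![if i < j then v else tv] ![v]
        split_ifs
        · exact fun _ _ _ => Iff.rfl
        · exact fun n R w => (htv2 n R w).symm
      | .inl i, .inr j =>
        show Pt N D ![if FXBg z i j = true then u else u'] ![u]
        split_ifs
        · exact fun _ _ _ => Iff.rfl
        · exact tu'
      | .inr j, .inl i =>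
        show Pt N D ![if FXBg z i j = true then v else v'] ![v]
        split_ifs
        · exact fun _ _ _ => Iff.rfl
        · exact tv'
    · intro i j hij
      match i, j with
      | .inl i, .inl j =>
        show (if i < j then u else tu) ≠ (if j < i then u else tu)
        have hij' : i ≠ j := fun h => hij (by rw [h])
        rcases lt_or_gt_of_ne hij' with h | h
        · rw [if_pos h, if_neg (by omega)]; exact htu1.symm
        · rw [if_neg (by omega), if_pos h]; exact htu1
      | .inr i, .inr j =>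
        show (if i < j then v else tv) ≠ (if j < i then v else tv)
        have hij' : i ≠ j := fun h => hij (by rw [h])
        rcases lt_or_gt_of_ne hij' with h | h
        · rw [if_pos h, if_neg (by omega)]; exact htv1.symm
        · rw [if_neg (by omega), if_pos h]; exact htv1
      | .inl i, .inr j =>
        show (if FXBg z i j = true then u else u') ≠ (if FXBg z i j = true then v else v')
        split_ifs
        · exact huv
        · exact huv'
      | .inr j, .inl i =>
        show (if FXBg z i j = true then v else v') ≠ (if FXBg z i j = true then u else u')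
        split_ifs
        · exact huv.symm
        · exact huv'.symm
  let G0 : ∀ m : ℕ, L.Relations m → (Fin m → ℕ ⊕ ℕ) → Prop := fun _ _ _ => False
  let T : (ℕ → Bool) → L.Structure (D ⊕ E) := fun z => A (σ z) G0
  have hF : ∀ z, FX N D τ (σ z) G0 (T z) b (ρ (σ z)) := fun z => hFX (σ z) G0 (hFD z)
  have hb : Function.Injective b := (hF fun _ => true).inj
  let AA : ℕ → D ⊕ E := fun i => .inr (b (.inl i))
  let BB : ℕ → D ⊕ E := fun i => .inr (b (.inr i))
  have hAA : Function.Injective AA := fun i j h => Sum.inl_injective (hb (Sum.inr_injective h))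
  have hBB : Function.Injective BB := fun i j h => Sum.inr_injective (hb (Sum.inr_injective h))
  have hneAB : ∀ i j, AA i ≠ BB j := by
    intro i j h
    have h1 := hb (Sum.inr_injective h)
    simp at h1
  have hcE : Countable (D ⊕ E) := inferInstance
  have hiE : Infinite (D ⊕ E) := Infinite.of_injective AA hAA
  have hmod : ∀ z, ∀ S : L.Structure ℕ, Iso (T z) S → S ∈ K := by
    rintro z S ⟨e, he⟩
    exact hK S (fxb_cop he (hF z).cop)
  have hcl : ∀ (m : ℕ) (R : L.Relations m) (x : Fin m → D ⊕ E),
      IsClopen {z | (T z).RelMap R x} := by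
    intro m R x
    obtain ⟨Fs, Fg, hd⟩ := hdep m R x
    have hloc : IsLocallyConstant fun z => (T z).RelMap R x := by
      rw [IsLocallyConstant.iff_exists_open]
      intro z
      refine ⟨⋂ p ∈ Fs, {z' | σ z' p.1 p.2 = σ z p.1 p.2}, ?_, ?_, ?_⟩
      · exact isOpen_biInter_finset fun p _ => sg_open u v u' v' tu tv p.1 p.2 _
      · simp only [mem_iInter, mem_ofPred_eq, implies_true]
      · intro z' hz'
        simp only [mem_iInter, mem_ofPred_eq] at hz'
        exact propext (hd _ _ _ _ hz' fun _ _ => Iff.rfl)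
    have h := hloc.isClopen_fiber True
    have h2 : {z | (T z).RelMap R x} = {z | (T z).RelMap R x = True} := by
      ext z
      simp only [mem_ofPred_eq, eq_iff_iff, iff_true]
    rw [h2]
    exact h
  let c0 : Fin n → D ⊕ E := fun i => Sum.elim Sum.inl (fun _ => AA 0) (w i)
  refine perfK_of_decode T hmod hcl (ι := (Fin 12 → D ⊕ E) × (Fin n → D ⊕ E))
    (fun p m => {z | FXBP (rrB R w (T z) p.2) p.1 m}) (fun p m => ?_) ?_
  · exact fxbp_meas _ (fun x y => (hcl _ _ _).2.measurableSet) p.1 m
  · rintro z z' ⟨e, he⟩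
    refine ⟨(e ∘ FXBp AA BB, e ∘ c0), fun m => ?_⟩
    have hcore : z m = true ↔ FXBP (rrB R w (T z) c0) (FXBp AA BB) m := by
      have hpair : ∀ e e', e ≠ e' → (rrB R w (T z) c0 (.inr e) (.inr e') ↔
          N.RelMap R (fun i => Sum.elim Subtype.val ![ρ (σ z) e e', ρ (σ z) e' e] (w i))) := by
        intro e e' hee
        rw [← (hF z).pair e e' hee n R w]
        unfold rrB
        have h : (fun i => Sum.elim (fun _ => c0 i) ![Sum.inr e, Sum.inr e'] (w i)) =
            fun i => Sum.map id ![e, e'] (w i) := by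
          funext i
          simp only [c0]
          rcases w i with d | k
          · rfl
          · fin_cases k <;> rfl
        rw [h]
      have hbase : ∀ i j, i ≠ j → (rrB R w (T z) c0 (.inr (b i)) (.inr (b j)) ↔
          N.RelMap R (fun t => Sum.elim Subtype.val ![σ z i j, σ z j i] (w t))) := by
        intro i j hij
        rw [hpair _ _ (hb.ne hij), (hF z).base i j hij, (hF z).base j i hij.symm]
      let q : ℕ ⊕ ℕ → D ⊕ Fin 1 → D ⊕ E := fun j => Sum.elim Sum.inl (fun _ => .inr (b j))
      have hone' : ∀ (j : ℕ ⊕ ℕ) (s : Fin 2 → D ⊕ Fin 1),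
          (rrB R w (T z) c0 (q j (s 0)) (q j (s 1)) ↔
            N.RelMap R (fun i => Sum.elim Subtype.val ![τ j] (Sum.elim Sum.inl s (w i)))) := by
        intro j s
        obtain ⟨j', hj'⟩ := exists_ne j
        have h1 := (hF z).pair (b j) (b j') (hb.ne hj'.symm) n R
          (fun i => Sum.elim Sum.inl (fun k => Sum.map id (fun _ => 0) (s k)) (w i))
        have h2 := (hFD z).ty j j' hj'.symm n R (fun i => Sum.elim Sum.inl s (w i))
        rw [(hF z).base j j' hj'.symm] at h1
        rw [← h2]
        have e1 : (fun i => Sum.map id ![b j, b j']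
            (Sum.elim Sum.inl (fun k => Sum.map id (fun _ => 0) (s k)) (w i)) : Fin n → D ⊕ E) =
            fun i => Sum.elim (fun _ => c0 i) ![q j (s 0), q j (s 1)] (w i) := by
          funext i
          simp only [c0]
          rcases w i with d | k
          · rfl
          · have h3 : ![q j (s 0), q j (s 1)] k = q j (s k) := by
              fin_cases k <;> rfl
            simp only [Sum.elim_inr]
            rw [h3]
            rcases s k with d | t
            · rfl
            · rfl
        have e2 : (fun i => Sum.elim Subtype.val ![σ z j j', ρ (σ z) (b j') (b j)]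
            (Sum.elim Sum.inl (fun k => Sum.map id (fun _ => 0) (s k)) (w i))) =
            fun i => Sum.elim Subtype.val ![σ z j j'] (Sum.elim Sum.inl s (w i)) := by
          funext i
          rcases w i with d | k
          · rfl
          · simp only [Sum.elim_inr]
            rcases s k with d | t
            · rfl
            · have : t = 0 := Subsingleton.elim _ _
              subst this
              rfl
        rw [e1, e2] at h1
        exact h1
      have hone : ∀ (j j' : ℕ ⊕ ℕ) (s : Fin 2 → D ⊕ Fin 1), τ j = τ j' →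
          (rrB R w (T z) c0 (q j (s 0)) (q j (s 1)) ↔
            rrB R w (T z) c0 (q j' (s 0)) (q j' (s 1))) := by
        intro j j' s hjj
        rw [hone', hone', hjj]
      have hcases : ∀ x : D ⊕ E, x ∉ range AA → x ∉ range BB →
          (∃ d, x = .inl d) ∨ ∃ e, x = .inr e ∧ e ∉ range b := by
        intro x hx1 hx2
        rcases x with d | e
        · exact Or.inl ⟨d, rfl⟩
        · refine Or.inr ⟨e, rfl, ?_⟩
          rintro ⟨i, rfl⟩
          rcases i with i | i
          · exact hx1 ⟨i, rfl⟩
          · exact hx2 ⟨i, rfl⟩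
      have hdf : ∀ e, e ∉ range b → ∀ F : ℕ → ℕ ⊕ ℕ, Function.Injective F →
          (∀ i j, τ (F i) = τ (F j)) → ∃ k, (k = 0 ∨ k = 2 ∨ k = 4) ∧
          (rrB R w (T z) c0 (.inr e) (.inr (b (F k))) ↔
            rrB R w (T z) c0 (.inr e) (.inr (b (F (k + 1))))) ∧
          (rrB R w (T z) c0 (.inr (b (F k))) (.inr e) ↔
            rrB R w (T z) c0 (.inr (b (F (k + 1)))) (.inr e)) := by
        intro e he F hFi hFτ
        obtain ⟨i₁, i₂, h⟩ := (hF z).dflt e he
        obtain ⟨k, hk, k1, k2, k3, k4⟩ := fxb_pick F hFi i₁ i₂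
        obtain ⟨h1, h2⟩ := h (F k) (F (k + 1)) k1 k2 k3 k4 (hFτ _ _)
        have hne : ∀ i, e ≠ b i := fun i h => he ⟨i, h.symm⟩
        refine ⟨k, hk, ?_, ?_⟩
        · rw [hpair _ _ (hne _), hpair _ _ (hne _), h1, h2]
        · rw [hpair _ _ (hne _).symm, hpair _ _ (hne _).symm, h1, h2]
      refine fxbp_core _ z AA BB hAA hBB hneAB ?_ ?_ ?_ ?_ ?_ m
      · intro i j
        show rrB R w (T z) c0 (.inr (b (.inl i))) (.inr (b (.inr j))) ↔ _
        rw [hbase _ _ (by simp)]
        show N.RelMap R (fun t => Sum.elim Subtype.val ![if FXBg z i j = true then u else u',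
          if FXBg z i j = true then v else v'] (w t)) ↔ _
        by_cases h : FXBg z i j = true
        · rw [if_pos h, if_pos h]
          exact iff_of_true hR h
        · rw [if_neg h, if_neg h]
          exact iff_of_false hR' h
      · intro x hx1 hx2
        rcases hcases x hx1 hx2 with ⟨d, rfl⟩ | ⟨e, rfl, he⟩
        · exact Or.inl (hone (.inr 0) (.inr 1) ![.inl d, .inr 0] rfl)
        · obtain ⟨k, hk, h1, -⟩ := hdf e he Sum.inr Sum.inr_injective fun _ _ => rfl
          rcases hk with rfl | rfl | rfl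
          · exact Or.inl h1
          · exact Or.inr (Or.inl h1)
          · exact Or.inr (Or.inr h1)
      · intro j hj
        show rrB R w (T z) c0 (.inr (b (.inr j))) (.inr (b (.inr 0))) ↔
          rrB R w (T z) c0 (.inr (b (.inr j))) (.inr (b (.inr 1)))
        rw [hbase _ _ (fun h => by have := Sum.inr_injective h; omega),
          hbase _ _ (fun h => by have := Sum.inr_injective h; omega)]
        show N.RelMap R (fun t => Sum.elim Subtype.val ![if j < 0 then v else tv,
          if 0 < j then v else tv] (w t)) ↔ N.RelMap R (fun t => Sum.elim Subtype.val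
            ![if j < 1 then v else tv, if 1 < j then v else tv] (w t))
        rw [if_neg (show ¬ j < 0 by omega), if_pos (show 0 < j by omega),
          if_neg (show ¬ j < 1 by omega), if_pos (show 1 < j by omega)]
      · intro x hx1 hx2
        rcases hcases x hx1 hx2 with ⟨d, rfl⟩ | ⟨e, rfl, he⟩
        · exact Or.inl (hone (.inl 0) (.inl 1) ![.inr 0, .inl d] rfl)
        · obtain ⟨k, hk, -, h1⟩ := hdf e he Sum.inl Sum.inl_injective fun _ _ => rfl
          rcases hk with rfl | rfl | rfl
          · exact Or.inl h1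
          · exact Or.inr (Or.inl h1)
          · exact Or.inr (Or.inr h1)
      · intro j hj
        show rrB R w (T z) c0 (.inr (b (.inl 0))) (.inr (b (.inl j))) ↔
          rrB R w (T z) c0 (.inr (b (.inl 1))) (.inr (b (.inl j)))
        rw [hbase _ _ (fun h => by have := Sum.inl_injective h; omega),
          hbase _ _ (fun h => by have := Sum.inl_injective h; omega)]
        show N.RelMap R (fun t => Sum.elim Subtype.val ![if 0 < j then u else tu,
          if j < 0 then u else tu] (w t)) ↔ N.RelMap R (fun t => Sum.elim Subtype.val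
            ![if 1 < j then u else tu, if j < 1 then u else tu] (w t))
        rw [if_neg (show ¬ j < 0 by omega), if_pos (show 0 < j by omega),
          if_neg (show ¬ j < 1 by omega), if_pos (show 1 < j by omega)]
    rw [hcore]
    constructor
    · exact fun h => fxbp_mono e (fun x y => rrB_iso R w he c0 x y) _ m h
    · intro h
      have h3 := fxbp_mono (r := rrB R w (T z') (e ∘ c0)) (r' := rrB R w (T z) c0) e.symm
        (fun x y => by
          have := rrB_iso R w he c0 (e.symm x) (e.symm y)
          simpa only [Equiv.apply_symm_apply] using this.symm) (e ∘ FXBp AA BB) m h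
      have h4 : e.symm ∘ e ∘ FXBp AA BB = FXBp AA BB := by
        funext k
        simp
      rwa [h4] at h3

/-- two different types of pairs -/
theorem thm_FXB (hC : St_FXC) : St_FXB := by
  intro L _ _ K P _ N D hT hK u v u' v' hu hv hu' hv' huv huv' tu tv hne
  unfold Pt at hne
  push Not at hne
  obtain ⟨n, R, w, hR⟩ := hne
  by_cases h : N.RelMap R (fun i => Sum.elim Subtype.val ![u, v] (w i))
  · have h' : ¬ N.RelMap R (fun i => Sum.elim Subtype.val ![u', v'] (w i)) := by tauto
    exact fxb_main hC L K P N D hT hK u v u' v' hu hv hu' hv' huv huv'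
      (fun n R w => (tu n R w).symm) (fun n R w => (tv n R w).symm) R w h h'
  · have h' : N.RelMap R (fun i => Sum.elim Subtype.val ![u', v'] (w i)) := by tauto
    exact fxb_main hC L K P N D hT hK u' v' u v hu' hv' hu hv huv' huv tu tv R w h' h

end VPF
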