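import Pool.Agent.VPF.StF

/-!
# VPF, module FXC: the free extension
-/

set_option autoImplicit false

namespace VPF

open FirstOrder Set Pool.Agent.Helper6.Str Pool.Agent.Helper5.Multi Pool.Agent.Helper79.VC

/-- Terms for the points of the free extension. -/
inductive FXC_El (P J : Type) : Type
  | base (j : J) : FXC_El P J
  | new (a b : FXC_El P J) (z : P) : FXC_El P J

variable {P J : Type}

/-- Code of a term. -/
private def FXC_code (f : P → ℕ) (g : J → ℕ) : FXC_El P J → ℕ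
  | .base j => 2 * g j
  | .new a b z => 2 * Nat.pair (FXC_code f g a) (Nat.pair (FXC_code f g b) (f z)) + 1

private theorem FXC_code_inj {f : P → ℕ} {g : J → ℕ} (hf : Function.Injective f)
    (hg : Function.Injective g) : ∀ a b : FXC_El P J, FXC_code f g a = FXC_code f g b → a = b := by
  intro a
  induction a with
  | base i =>
    intro b h
    cases b with
    | base j =>
      have : g i = g j := by
        have h' : 2 * g i = 2 * g j := h
        omega
      rw [hg this]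
    | new c d z =>
      have h' : 2 * g i = 2 * Nat.pair (FXC_code f g c) (Nat.pair (FXC_code f g d) (f z)) + 1 := h
      omega
  | new a1 a2 z ih1 ih2 =>
    intro b h
    cases b with
    | base j =>
      have h' : 2 * Nat.pair (FXC_code f g a1) (Nat.pair (FXC_code f g a2) (f z)) + 1 =
        2 * g j := h
      omega
    | new c d z' =>
      have h' : 2 * Nat.pair (FXC_code f g a1) (Nat.pair (FXC_code f g a2) (f z)) + 1 =
        2 * Nat.pair (FXC_code f g c) (Nat.pair (FXC_code f g d) (f z')) + 1 := h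
      have h2 : Nat.pair (FXC_code f g a1) (Nat.pair (FXC_code f g a2) (f z)) =
        Nat.pair (FXC_code f g c) (Nat.pair (FXC_code f g d) (f z')) := by omega
      rw [Nat.pair_eq_pair, Nat.pair_eq_pair] at h2
      rw [ih1 _ h2.1, ih2 _ h2.2.1, hf h2.2.2]

private theorem FXC_countable (P J : Type) [Countable P] [Countable J] :
    Countable (FXC_El P J) := by
  obtain ⟨f, hf⟩ := exists_injective_nat P
  obtain ⟨g, hg⟩ := exists_injective_nat J
  exact Function.Injective.countable (f := FXC_code f g) fun a b h => FXC_code_inj hf hg a b h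

/-- Size of a term. -/
private def FXC_sz : FXC_El P J → ℕ
  | .base _ => 0
  | .new a b _ => FXC_sz a + FXC_sz b + 1

private theorem FXC_sz_new (a b : FXC_El P J) (z : P) :
    FXC_sz (.new a b z) = FXC_sz a + FXC_sz b + 1 := rfl

private theorem FXC_ne1 {a b : FXC_El P J} (h : FXC_sz a < FXC_sz b) : b ≠ a := by
  rintro rfl
  exact lt_irrefl _ h

/-- The point whose type a term has. -/
private def FXC_typ (τ : J → P) : FXC_El P J → P
  | .base j => τ j
  | .new _ _ z => z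

/-- Valid terms. -/
def FXC_val (D : Set P) : FXC_El P J → Prop
  | .base _ => True
  | .new a b z => FXC_val D a ∧ FXC_val D b ∧ a ≠ b ∧ z ∉ D

/-- The new point is used. -/
private def FXC_good : FXC_El P J → P × P → Prop
  | .base _, _ => False
  | .new _ _ z, p => z ≠ p.1 ∧ z ≠ p.2

open Classical in
/-- The default pairs. -/
private noncomputable def FXC_dft (τ : J → P) (tw : P → P) (lo : FXC_El P J → FXC_El P J → Prop)
    (a b : FXC_El P J) : P :=
  if FXC_typ τ a = FXC_typ τ b ∧ ¬ lo a b then tw (FXC_typ τ a) else FXC_typ τ a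

/-- Default pairs, or `σ` for two base points. -/
private noncomputable def FXC_d0 (τ : J → P) (tw : P → P) (lo : FXC_El P J → FXC_El P J → Prop)
    (σ : J → J → P) : FXC_El P J → FXC_El P J → P
  | .base i, .base j => σ i j
  | .base i, .new c d z => FXC_dft τ tw lo (.base i) (.new c d z)
  | .new c d z, b => FXC_dft τ tw lo (.new c d z) b

open Classical in
/-- One step of the recursion for the pair assignment. -/
private noncomputable def FXC_rh (τ : J → P) (tw : P → P) (lo : FXC_El P J → FXC_El P J → Prop)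
    (σ : J → J → P) (a b : FXC_El P J) (pa pb : P × P) : P :=
  if FXC_good b pb ∧ ∃ d z, b = .new a d z then pb.1
  else if FXC_good b pb ∧ ∃ c z, b = .new c a z then pb.2
  else if FXC_good a pa ∧ ((∃ d z, a = .new b d z) ∨ ∃ c z, a = .new c b z) then FXC_typ τ a
  else if FXC_good a pa ∧ FXC_good b pb ∧ ∃ c d z z', a = .new c d z ∧ b = .new c d z' then
    FXC_typ τ a
  else FXC_d0 τ tw lo σ a b

/-- The values of the pair assignment on the two parents. -/
private noncomputable def FXC_pr (τ : J → P) (tw : P → P) (lo : FXC_El P J → FXC_El P J → Prop)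
    (σ : J → J → P) : FXC_El P J → P × P
  | .base j => (τ j, τ j)
  | .new c d _ => (FXC_rh τ tw lo σ c d (FXC_pr τ tw lo σ c) (FXC_pr τ tw lo σ d),
      FXC_rh τ tw lo σ d c (FXC_pr τ tw lo σ d) (FXC_pr τ tw lo σ c))

/-- The pair assignment. -/
private noncomputable def FXC_rho (τ : J → P) (tw : P → P) (lo : FXC_El P J → FXC_El P J → Prop)
    (σ : J → J → P) (a b : FXC_El P J) : P :=
  FXC_rh τ tw lo σ a b (FXC_pr τ tw lo σ a) (FXC_pr τ tw lo σ b)

section Rho

variable {τ : J → P} {tw : P → P} {lo : FXC_El P J → FXC_El P J → Prop} {σ : J → J → P}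

private theorem FXC_good_new (c d : FXC_El P J) (z : P) :
    FXC_good (.new c d z) (FXC_pr τ tw lo σ (.new c d z)) ↔
      z ≠ FXC_rho τ tw lo σ c d ∧ z ≠ FXC_rho τ tw lo σ d c := Iff.rfl

private theorem FXC_r1 {c d : FXC_El P J} {z : P}
    (hg : FXC_good (.new c d z) (FXC_pr τ tw lo σ (.new c d z))) :
    FXC_rho τ tw lo σ c (.new c d z) = FXC_rho τ tw lo σ c d := by
  unfold FXC_rho FXC_rh
  rw [if_pos ⟨hg, d, z, rfl⟩]
  rfl

private theorem FXC_r2 {c d : FXC_El P J} {z : P} (hcd : c ≠ d)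
    (hg : FXC_good (.new c d z) (FXC_pr τ tw lo σ (.new c d z))) :
    FXC_rho τ tw lo σ d (.new c d z) = FXC_rho τ tw lo σ d c := by
  have h1 : ¬ (FXC_good (.new c d z) (FXC_pr τ tw lo σ (.new c d z)) ∧
      ∃ d' z', FXC_El.new c d z = .new d d' z') := by
    rintro ⟨-, d', z', h⟩
    injection h with h1
    exact hcd h1
  unfold FXC_rho FXC_rh
  rw [if_neg h1, if_pos ⟨hg, c, z, rfl⟩]
  rfl

private theorem FXC_nolt1 {a b : FXC_El P J} (h : FXC_sz a ≤ FXC_sz b) :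
    ¬ ∃ d z, a = .new b d z := by
  rintro ⟨d, z, rfl⟩
  rw [FXC_sz_new] at h
  omega

private theorem FXC_nolt2 {a b : FXC_El P J} (h : FXC_sz a ≤ FXC_sz b) :
    ¬ ∃ c z, a = .new c b z := by
  rintro ⟨d, z, rfl⟩
  rw [FXC_sz_new] at h
  omega

private theorem FXC_r3 {c d : FXC_El P J} {z : P}
    (hg : FXC_good (.new c d z) (FXC_pr τ tw lo σ (.new c d z))) :
    FXC_rho τ tw lo σ (.new c d z) c = z := by
  have hs : FXC_sz c ≤ FXC_sz (.new c d z) := by
    rw [FXC_sz_new]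
    omega
  unfold FXC_rho FXC_rh
  rw [if_neg (fun h => FXC_nolt1 hs h.2), if_neg (fun h => FXC_nolt2 hs h.2),
    if_pos ⟨hg, Or.inl ⟨d, z, rfl⟩⟩]
  rfl

private theorem FXC_r4 {c d : FXC_El P J} {z : P}
    (hg : FXC_good (.new c d z) (FXC_pr τ tw lo σ (.new c d z))) :
    FXC_rho τ tw lo σ (.new c d z) d = z := by
  have hs : FXC_sz d ≤ FXC_sz (.new c d z) := by
    rw [FXC_sz_new]
    omega
  unfold FXC_rho FXC_rh
  rw [if_neg (fun h => FXC_nolt1 hs h.2), if_neg (fun h => FXC_nolt2 hs h.2),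
    if_pos ⟨hg, Or.inr ⟨c, z, rfl⟩⟩]
  rfl

private theorem FXC_r5 {c d : FXC_El P J} {z z' : P}
    (hg : FXC_good (.new c d z) (FXC_pr τ tw lo σ (.new c d z)))
    (hg' : FXC_good (.new c d z') (FXC_pr τ tw lo σ (.new c d z'))) :
    FXC_rho τ tw lo σ (.new c d z) (.new c d z') = z := by
  have hs : FXC_sz (.new c d z) ≤ FXC_sz (.new c d z') := by
    rw [FXC_sz_new, FXC_sz_new]
  have hs' : FXC_sz (.new c d z') ≤ FXC_sz (.new c d z) := by
    rw [FXC_sz_new, FXC_sz_new]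
  unfold FXC_rho FXC_rh
  rw [if_neg (fun h => FXC_nolt1 hs' h.2), if_neg (fun h => FXC_nolt2 hs' h.2),
    if_neg (fun h => h.2.elim (FXC_nolt1 hs) (FXC_nolt2 hs)),
    if_pos ⟨hg, hg', c, d, z, z', rfl, rfl⟩]
  rfl

/-- Classification of pairs. -/
private theorem FXC_cases (τ : J → P) (tw : P → P) (lo : FXC_El P J → FXC_El P J → Prop)
    (σ : J → J → P) (a b : FXC_El P J) :
    (FXC_good b (FXC_pr τ tw lo σ b) ∧ ∃ d z, b = .new a d z) ∨
    (FXC_good b (FXC_pr τ tw lo σ b) ∧ ∃ c z, b = .new c a z) ∨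
    (FXC_good a (FXC_pr τ tw lo σ a) ∧ ∃ d z, a = .new b d z) ∨
    (FXC_good a (FXC_pr τ tw lo σ a) ∧ ∃ c z, a = .new c b z) ∨
    (FXC_good a (FXC_pr τ tw lo σ a) ∧ FXC_good b (FXC_pr τ tw lo σ b) ∧
      ∃ c d z z', a = .new c d z ∧ b = .new c d z') ∨
    (FXC_rho τ tw lo σ a b = FXC_d0 τ tw lo σ a b ∧
      FXC_rho τ tw lo σ b a = FXC_d0 τ tw lo σ b a) := by
  by_cases h1 : FXC_good b (FXC_pr τ tw lo σ b) ∧ ∃ d z, b = .new a d z
  · exact Or.inl h1
  by_cases h2 : FXC_good b (FXC_pr τ tw lo σ b) ∧ ∃ c z, b = .new c a z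
  · exact Or.inr (Or.inl h2)
  by_cases h3 : FXC_good a (FXC_pr τ tw lo σ a) ∧ ∃ d z, a = .new b d z
  · exact Or.inr (Or.inr (Or.inl h3))
  by_cases h4 : FXC_good a (FXC_pr τ tw lo σ a) ∧ ∃ c z, a = .new c b z
  · exact Or.inr (Or.inr (Or.inr (Or.inl h4)))
  by_cases h5 : FXC_good a (FXC_pr τ tw lo σ a) ∧ FXC_good b (FXC_pr τ tw lo σ b) ∧
      ∃ c d z z', a = .new c d z ∧ b = .new c d z'
  · exact Or.inr (Or.inr (Or.inr (Or.inr (Or.inl h5))))
  refine Or.inr (Or.inr (Or.inr (Or.inr (Or.inr ⟨?_, ?_⟩))))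
  · unfold FXC_rho FXC_rh
    rw [if_neg h1, if_neg h2, if_neg (fun h => h.2.elim (fun h' => h3 ⟨h.1, h'⟩)
      (fun h' => h4 ⟨h.1, h'⟩)), if_neg h5]
  · unfold FXC_rho FXC_rh
    rw [if_neg h3, if_neg h4, if_neg (fun h => h.2.elim (fun h' => h1 ⟨h.1, h'⟩)
      (fun h' => h2 ⟨h.1, h'⟩)), if_neg]
    rintro ⟨hb, ha, c, d, z, z', h, h'⟩
    exact h5 ⟨ha, hb, c, d, z', z, h', h⟩

end Rho

section Main

variable {L : FirstOrder.Language.{0, 0}} {N : L.Structure P} {D : Set P}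

private theorem FXC_Pt_refl {k : ℕ} (x : Fin k → P) : Pt N D x x := fun _ _ _ => Iff.rfl

private theorem FXC_Pt_symm {k : ℕ} {x y : Fin k → P} (h : Pt N D x y) : Pt N D y x :=
  fun n R w => (h n R w).symm

private theorem FXC_Pt_trans {k : ℕ} {x y z : Fin k → P} (h : Pt N D x y) (h' : Pt N D y z) :
    Pt N D x z := fun n R w => (h n R w).trans (h' n R w)

variable {τ : J → P} {tw : P → P} {lo : FXC_El P J → FXC_El P J → Prop} {σ : J → J → P}

private theorem FXC_typ_notMem (hτ : ∀ i, τ i ∉ D) {a : FXC_El P J} (ha : FXC_val D a) :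
    FXC_typ τ a ∉ D := by
  cases a with
  | base i => exact hτ i
  | new c d z => exact ha.2.2.2

/-- Properties of the default pairs. -/
private theorem FXC_dft_spec (hτ : ∀ i, τ i ∉ D)
    (htw : ∀ u, u ∉ D → tw u ∉ D ∧ tw u ≠ u ∧ Pt N D ![u] ![tw u])
    (hlo : ∀ a b, a ≠ b → (lo a b ↔ ¬ lo b a)) {a b : FXC_El P J} (ha : FXC_val D a)
    (hb : FXC_val D b) (hab : a ≠ b) :
    FXC_dft τ tw lo a b ∉ D ∧ Pt N D ![FXC_dft τ tw lo a b] ![FXC_typ τ a] ∧
      FXC_dft τ tw lo a b ≠ FXC_dft τ tw lo b a := by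
  have hA := FXC_typ_notMem hτ ha
  have hB := FXC_typ_notMem hτ hb
  unfold FXC_dft
  by_cases h : FXC_typ τ a = FXC_typ τ b
  · by_cases hl : lo a b
    · have hl' : ¬ lo b a := (hlo a b hab).1 hl
      rw [if_neg (fun h' => h'.2 hl), if_pos ⟨h.symm, hl'⟩]
      refine ⟨hA, FXC_Pt_refl _, ?_⟩
      rw [h]
      exact (htw _ hB).2.1.symm
    · have hl' : lo b a := by
        by_contra h2
        exact hl ((hlo a b hab).2 h2)
      rw [if_pos ⟨h, hl⟩, if_neg (fun h' => h'.2 hl')]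
      refine ⟨(htw _ hA).1, FXC_Pt_symm (htw _ hA).2.2, ?_⟩
      rw [← h]
      exact (htw _ hA).2.1
  · rw [if_neg (fun h' => h h'.1), if_neg (fun h' => h h'.1.symm)]
    exact ⟨hA, FXC_Pt_refl _, h⟩

/-- (F1) -/
private theorem FXC_F1 (hτ : ∀ i, τ i ∉ D)
    (htw : ∀ u, u ∉ D → tw u ∉ D ∧ tw u ≠ u ∧ Pt N D ![u] ![tw u])
    (hlo : ∀ a b, a ≠ b → (lo a b ↔ ¬ lo b a)) (hσ : FD N D τ σ) :
    ∀ (n : ℕ) (a b : FXC_El P J), FXC_sz a + FXC_sz b ≤ n → FXC_val D a → FXC_val D b → a ≠ b →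
      FXC_rho τ tw lo σ a b ∉ D ∧ Pt N D ![FXC_rho τ tw lo σ a b] ![FXC_typ τ a] ∧
        FXC_rho τ tw lo σ a b ≠ FXC_rho τ tw lo σ b a := by
  intro n
  induction n using Nat.strong_induction_on with
  | _ n ih =>
    intro a b hn ha hb hab
    rcases FXC_cases τ tw lo σ a b with h | h | h | h | h | h
    · obtain ⟨hg, d, z, rfl⟩ := h
      rw [FXC_r1 hg, FXC_r3 hg]
      rw [FXC_sz_new] at hn
      have h' := ih (FXC_sz a + FXC_sz d) (by omega) a d le_rfl ha hb.2.1 hb.2.2.1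
      exact ⟨h'.1, h'.2.1, fun e => ((FXC_good_new _ _ _).1 hg).1 e.symm⟩
    · obtain ⟨hg, c, z, rfl⟩ := h
      rw [FXC_r2 hb.2.2.1 hg, FXC_r4 hg]
      rw [FXC_sz_new] at hn
      have h' := ih (FXC_sz a + FXC_sz c) (by omega) a c le_rfl ha hb.1 hb.2.2.1.symm
      exact ⟨h'.1, h'.2.1, fun e => ((FXC_good_new _ _ _).1 hg).2 e.symm⟩
    · obtain ⟨hg, d, z, rfl⟩ := h
      rw [FXC_r1 hg, FXC_r3 hg]
      exact ⟨ha.2.2.2, FXC_Pt_refl _, fun e => ((FXC_good_new _ _ _).1 hg).1 e⟩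
    · obtain ⟨hg, c, z, rfl⟩ := h
      rw [FXC_r2 ha.2.2.1 hg, FXC_r4 hg]
      exact ⟨ha.2.2.2, FXC_Pt_refl _, fun e => ((FXC_good_new _ _ _).1 hg).2 e⟩
    · obtain ⟨hg, hg', c, d, z, z', rfl, rfl⟩ := h
      rw [FXC_r5 hg hg', FXC_r5 hg' hg]
      exact ⟨ha.2.2.2, FXC_Pt_refl _, fun e => hab (by rw [e])⟩
    · rw [h.1, h.2]
      cases a with
      | base i =>
        cases b with
        | base j =>
          have hij : i ≠ j := fun e => hab (by rw [e])
          exact ⟨hσ.mem i j hij, hσ.ty i j hij, hσ.ne i j hij⟩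
        | new c d z => exact FXC_dft_spec hτ htw hlo ha hb hab
      | new c d z =>
        cases b with
        | base j => exact FXC_dft_spec hτ htw hlo ha hb hab
        | new c' d' z' => exact FXC_dft_spec hτ htw hlo ha hb hab


open Classical in
/-- The point of the copy `C(c, d)` with preimage `z ∉ D`. -/
private noncomputable def FXC_hE (c d : FXC_El P J) (p q z : P) : FXC_El P J :=
  if z = p then c else if z = q then d else .new c d z

/-- (F2) -/
private theorem FXC_F2 {c d : FXC_El P J} (hcd : c ≠ d)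
    {z z' : P} (hz : z ≠ z') :
    FXC_rho τ tw lo σ (FXC_hE c d (FXC_rho τ tw lo σ c d) (FXC_rho τ tw lo σ d c) z)
      (FXC_hE c d (FXC_rho τ tw lo σ c d) (FXC_rho τ tw lo σ d c) z') = z := by
  by_cases h1 : z = FXC_rho τ tw lo σ c d
  · have h1' : z' ≠ FXC_rho τ tw lo σ c d := fun e => hz (h1.trans e.symm)
    have e1 : FXC_hE c d (FXC_rho τ tw lo σ c d) (FXC_rho τ tw lo σ d c) z = c := if_pos h1
    rw [e1]
    by_cases h2 : z' = FXC_rho τ tw lo σ d c
    · have e2 : FXC_hE c d (FXC_rho τ tw lo σ c d) (FXC_rho τ tw lo σ d c) z' = d := by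
        unfold FXC_hE
        rw [if_neg h1', if_pos h2]
      rw [e2, h1]
    · have e2 : FXC_hE c d (FXC_rho τ tw lo σ c d) (FXC_rho τ tw lo σ d c) z' = .new c d z' := by
        unfold FXC_hE
        rw [if_neg h1', if_neg h2]
      rw [e2, FXC_r1 ((FXC_good_new _ _ _).2 ⟨h1', h2⟩), h1]
  · by_cases h2 : z = FXC_rho τ tw lo σ d c
    · have e1 : FXC_hE c d (FXC_rho τ tw lo σ c d) (FXC_rho τ tw lo σ d c) z = d := by
        unfold FXC_hE
        rw [if_neg h1, if_pos h2]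
      rw [e1]
      have h2' : z' ≠ FXC_rho τ tw lo σ d c := fun e => hz (h2.trans e.symm)
      by_cases h3 : z' = FXC_rho τ tw lo σ c d
      · have e2 : FXC_hE c d (FXC_rho τ tw lo σ c d) (FXC_rho τ tw lo σ d c) z' = c := if_pos h3
        rw [e2, h2]
      · have e2 : FXC_hE c d (FXC_rho τ tw lo σ c d) (FXC_rho τ tw lo σ d c) z' =
            .new c d z' := by
          unfold FXC_hE
          rw [if_neg h3, if_neg h2']
        rw [e2, FXC_r2 hcd ((FXC_good_new _ _ _).2 ⟨h3, h2'⟩), h2]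
    · have hg : FXC_good (.new c d z) (FXC_pr τ tw lo σ (.new c d z)) :=
        (FXC_good_new _ _ _).2 ⟨h1, h2⟩
      have e1 : FXC_hE c d (FXC_rho τ tw lo σ c d) (FXC_rho τ tw lo σ d c) z = .new c d z := by
        unfold FXC_hE
        rw [if_neg h1, if_neg h2]
      rw [e1]
      by_cases h3 : z' = FXC_rho τ tw lo σ c d
      · have e2 : FXC_hE c d (FXC_rho τ tw lo σ c d) (FXC_rho τ tw lo σ d c) z' = c := if_pos h3
        rw [e2, FXC_r3 hg]
      · by_cases h4 : z' = FXC_rho τ tw lo σ d c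
        · have e2 : FXC_hE c d (FXC_rho τ tw lo σ c d) (FXC_rho τ tw lo σ d c) z' = d := by
            unfold FXC_hE
            rw [if_neg h3, if_pos h4]
          rw [e2, FXC_r4 hg]
        · have e2 : FXC_hE c d (FXC_rho τ tw lo σ c d) (FXC_rho τ tw lo σ d c) z' =
              .new c d z' := by
            unfold FXC_hE
            rw [if_neg h3, if_neg h4]
          rw [e2, FXC_r5 hg ((FXC_good_new _ _ _).2 ⟨h3, h4⟩)]

private theorem FXC_hE_inj {c d : FXC_El P J} (hcd : c ≠ d) {z z' : P}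
    (h : FXC_hE c d (FXC_rho τ tw lo σ c d) (FXC_rho τ tw lo σ d c) z =
      FXC_hE c d (FXC_rho τ tw lo σ c d) (FXC_rho τ tw lo σ d c) z') : z = z' := by
  by_contra hz
  have h1 := FXC_F2 (τ := τ) (tw := tw) (lo := lo) (σ := σ) hcd hz
  have h2 := FXC_F2 (τ := τ) (tw := tw) (lo := lo) (σ := σ) hcd (Ne.symm hz)
  rw [h] at h1 h2
  exact hz (h1.symm.trans h2)

/-- `x` is the image of `z` in the copy `D ∪ C(c, d)`. -/
private def FXC_cpy (D : Set P) (c d : FXC_El P J) (p q z : P) :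
    D ⊕ {e : FXC_El P J // FXC_val D e} → Prop
  | .inl u => z = u
  | .inr e => z ∉ D ∧ e.1 = FXC_hE c d p q z

private theorem FXC_cpy_fun {c d : FXC_El P J} {p q z : P}
    {x x' : D ⊕ {e : FXC_El P J // FXC_val D e}} (h : FXC_cpy D c d p q z x)
    (h' : FXC_cpy D c d p q z x') : x = x' := by
  rcases x with u | e
  · rcases x' with u' | e'
    · have h1 : z = u := h
      have h2 : z = u' := h'
      rw [Subtype.ext (h1.symm.trans h2)]
    · have h1 : z = u := h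
      exact absurd (h1 ▸ u.2) h'.1
  · rcases x' with u' | e'
    · have h2 : z = u' := h'
      exact absurd (h2 ▸ u'.2) h.1
    · rw [Subtype.ext (h.2.trans h'.2.symm)]

private theorem FXC_cpy_inj {c d : FXC_El P J} (hcd : c ≠ d) {z z' : P}
    {x : D ⊕ {e : FXC_El P J // FXC_val D e}}
    (h : FXC_cpy D c d (FXC_rho τ tw lo σ c d) (FXC_rho τ tw lo σ d c) z x)
    (h' : FXC_cpy D c d (FXC_rho τ tw lo σ c d) (FXC_rho τ tw lo σ d c) z' x) : z = z' := by
  rcases x with u | e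
  · have h1 : z = u := h
    have h2 : z' = u := h'
    rw [h1, h2]
  · exact FXC_hE_inj hcd (h.2.symm.trans h'.2)

private theorem FXC_cpy_D {c d : FXC_El P J} {p q z : P}
    {x : D ⊕ {e : FXC_El P J // FXC_val D e}} (h : FXC_cpy D c d p q z x) (hz : z ∈ D) :
    x = Sum.inl ⟨z, hz⟩ := by
  rcases x with u | e
  · have h1 : z = u := h
    rw [Sum.inl.injEq]
    exact Subtype.ext h1.symm
  · exact absurd hz h.1

/-- Points of a copy. -/
private theorem FXC_cpy_mem {c d : FXC_El P J} {p q z : P} {e : {e : FXC_El P J // FXC_val D e}}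
    (h : FXC_cpy D c d p q z (Sum.inr e)) : e.1 = c ∨ e.1 = d ∨ e.1 = .new c d z := by
  have h2 := h.2
  unfold FXC_hE at h2
  split_ifs at h2
  · exact Or.inl h2
  · exact Or.inr (Or.inl h2)
  · exact Or.inr (Or.inr h2)

private theorem FXC_cpy_c {c : {e : FXC_El P J // FXC_val D e}} {d : FXC_El P J} {p q : P}
    (hp : p ∉ D) : FXC_cpy D c.1 d p q p (Sum.inr c) :=
  ⟨hp, (if_pos rfl).symm⟩

private theorem FXC_cpy_d {c : FXC_El P J} {d : {e : FXC_El P J // FXC_val D e}} {p q : P}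
    (hq : q ∉ D) (hpq : p ≠ q) : FXC_cpy D c d.1 p q q (Sum.inr d) := by
  refine ⟨hq, ?_⟩
  unfold FXC_hE
  rw [if_neg hpq.symm, if_pos rfl]

/-- The preimage does not depend on the copy. -/
private theorem FXC_indep (hτ : ∀ i, τ i ∉ D)
    (htw : ∀ u, u ∉ D → tw u ∉ D ∧ tw u ≠ u ∧ Pt N D ![u] ![tw u])
    (hlo : ∀ a b, a ≠ b → (lo a b ↔ ¬ lo b a)) (hσ : FD N D τ σ)
    {c d c' d' : FXC_El P J} (hc : FXC_val D c) (hd : FXC_val D d) (hc' : FXC_val D c')
    (hd' : FXC_val D d') (hcd : c ≠ d) (hcd' : c' ≠ d') {n : ℕ} (R : L.Relations n)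
    {x : Fin n → D ⊕ {e : FXC_El P J // FXC_val D e}} {y y' : Fin n → P}
    (hy : ∀ t, FXC_cpy D c d (FXC_rho τ tw lo σ c d) (FXC_rho τ tw lo σ d c) (y t) (x t))
    (hy' : ∀ t, FXC_cpy D c' d' (FXC_rho τ tw lo σ c' d') (FXC_rho τ tw lo σ d' c') (y' t)
      (x t)) : N.RelMap R y ↔ N.RelMap R y' := by
  -- the preimage in one copy, if two points occur
  have key : ∀ {c d : FXC_El P J}, c ≠ d → ∀ {y : Fin n → P},
      (∀ t, FXC_cpy D c d (FXC_rho τ tw lo σ c d) (FXC_rho τ tw lo σ d c) (y t) (x t)) →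
      ∀ t s e e', x t = Sum.inr e → x s = Sum.inr e' → e ≠ e' →
      y t = FXC_rho τ tw lo σ e.1 e'.1 := by
    intro c d hcd y hy t s e e' ht hs hne
    have h1 := hy t
    have h2 := hy s
    rw [ht] at h1
    rw [hs] at h2
    rw [h1.2, h2.2]
    refine (FXC_F2 hcd ?_).symm
    intro hyy
    apply hne
    apply Subtype.ext
    rw [h1.2, h2.2, hyy]
  -- one copy: the type of a preimage
  have typ : ∀ {c d : FXC_El P J}, FXC_val D c → FXC_val D d → c ≠ d → ∀ {z : P} {e},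
      FXC_cpy D c d (FXC_rho τ tw lo σ c d) (FXC_rho τ tw lo σ d c) z (Sum.inr e) →
      Pt N D ![z] ![FXC_typ τ e.1] := by
    intro c d hc hd hcd z e h
    have h2 := h.2
    unfold FXC_hE at h2
    split_ifs at h2 with h3 h4
    · rw [h2, h3]
      exact (FXC_F1 hτ htw hlo hσ _ c d le_rfl hc hd hcd).2.1
    · rw [h2, h4]
      exact (FXC_F1 hτ htw hlo hσ _ d c le_rfl hd hc hcd.symm).2.1
    · rw [h2]
      exact FXC_Pt_refl _
  by_cases hh : ∃ t₁ t₂ e₁ e₂, x t₁ = Sum.inr e₁ ∧ x t₂ = Sum.inr e₂ ∧ e₁ ≠ e₂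
  · obtain ⟨t₁, t₂, e₁, e₂, h1, h2, hne⟩ := hh
    have hyy : y = y' := by
      funext t
      rcases hx : x t with u | e
      · have h3 := hy t
        have h4 := hy' t
        rw [hx] at h3 h4
        exact (show y t = u from h3).trans (show y' t = u from h4).symm
      · by_cases he : e = e₁
        · subst he
          rw [key hcd hy t t₂ e e₂ hx h2 hne, key hcd' hy' t t₂ e e₂ hx h2 hne]
        · rw [key hcd hy t t₁ e e₁ hx h1 he, key hcd' hy' t t₁ e e₁ hx h1 he]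
    rw [hyy]
  · by_cases h0 : ∃ t₀ e₀, x t₀ = Sum.inr e₀
    · obtain ⟨t₀, e₀, h0⟩ := h0
      have hall : ∀ t e, x t = Sum.inr e → e = e₀ := by
        intro t e ht
        by_contra hne
        exact hh ⟨t, t₀, e, e₀, ht, h0, hne⟩
      have hP : Pt N D ![y t₀] ![y' t₀] := by
        have h3 := hy t₀
        have h4 := hy' t₀
        rw [h0] at h3 h4
        exact FXC_Pt_trans (typ hc hd hcd h3) (FXC_Pt_symm (typ hc' hd' hcd' h4))
      have hw := hP n R (fun t => Sum.elim (fun u => Sum.inl u) (fun _ => Sum.inr 0) (x t))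
      have e1 : (fun i => Sum.elim Subtype.val ![y t₀]
          (Sum.elim (fun u => Sum.inl u) (fun _ => Sum.inr 0) (x i) : D ⊕ Fin 1)) = y := by
        funext t
        have h3 := hy t
        rcases hx : x t with u | e
        · rw [hx] at h3
          exact (show y t = u from h3).symm
        · have he := hall t e hx
          subst he
          have h4 := hy t₀
          rw [hx] at h3
          rw [h0] at h4
          exact FXC_cpy_inj hcd h4 h3
      have e2 : (fun i => Sum.elim Subtype.val ![y' t₀]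
          (Sum.elim (fun u => Sum.inl u) (fun _ => Sum.inr 0) (x i) : D ⊕ Fin 1)) = y' := by
        funext t
        have h3 := hy' t
        rcases hx : x t with u | e
        · rw [hx] at h3
          exact (show y' t = u from h3).symm
        · have he := hall t e hx
          subst he
          have h4 := hy' t₀
          rw [hx] at h3
          rw [h0] at h4
          exact FXC_cpy_inj hcd' h4 h3
      rw [e1, e2] at hw
      exact hw
    · have hyy : y = y' := by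
        funext t
        rcases hx : x t with u | e
        · have h3 := hy t
          have h4 := hy' t
          rw [hx] at h3 h4
          exact (show y t = u from h3).trans (show y' t = u from h4).symm
        · exact absurd ⟨t, e, hx⟩ h0
      rw [hyy]


/-- `a` is a parent of `b`. -/
private def FXC_par (a b : FXC_El P J) : Prop := (∃ d z, b = .new a d z) ∨ ∃ c z, b = .new c a z

/-- The points from which a copy containing `x` is chosen. -/
private def FXC_S (e₀ e₁ : {e : FXC_El P J // FXC_val D e}) {n : ℕ}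
    (x : Fin n → D ⊕ {e : FXC_El P J // FXC_val D e}) : Set {e : FXC_El P J // FXC_val D e} :=
  {e | e = e₀ ∨ e = e₁ ∨ ∃ t e', x t = Sum.inr e' ∧ (e = e' ∨ FXC_par e.1 e'.1)}

private theorem FXC_S_finite (e₀ e₁ : {e : FXC_El P J // FXC_val D e}) {n : ℕ}
    (x : Fin n → D ⊕ {e : FXC_El P J // FXC_val D e}) : (FXC_S e₀ e₁ x).Finite := by
  have h : FXC_S e₀ e₁ x ⊆ {e₀} ∪ ({e₁} ∪ ⋃ t, {e | ∃ e', x t = Sum.inr e' ∧
      (e = e' ∨ FXC_par e.1 e'.1)}) := by
    rintro e (h | h | ⟨t, h⟩)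
    · exact Or.inl h
    · exact Or.inr (Or.inl h)
    · exact Or.inr (Or.inr (mem_iUnion.2 ⟨t, h⟩))
  refine Set.Finite.subset (Set.Finite.union (finite_singleton _)
    (Set.Finite.union (finite_singleton _) (finite_iUnion fun t => ?_))) h
  rcases hx : x t with u | e'
  · refine Set.Finite.subset finite_empty ?_
    rintro e ⟨e', h, -⟩
    exact absurd h (by simp)
  · rcases e' with ⟨e', he'⟩
    cases e' with
    | base j =>
      refine Set.Finite.subset (finite_singleton ⟨.base j, he'⟩) ?_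
      rintro e ⟨e', h, h2⟩
      rw [Sum.inr.injEq] at h
      subst h
      rcases h2 with h2 | h2 | h2
      · exact h2
      · obtain ⟨d, z, h3⟩ := h2
        exact absurd h3 (by simp)
      · obtain ⟨d, z, h3⟩ := h2
        exact absurd h3 (by simp)
    | new c d z =>
      refine Set.Finite.subset ((finite_singleton ⟨.new c d z, he'⟩).union
        ((finite_singleton ⟨c, he'.1⟩).union (finite_singleton ⟨d, he'.2.1⟩))) ?_
      rintro e ⟨e', h, h2⟩
      rw [Sum.inr.injEq] at h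
      subst h
      rcases h2 with h2 | h2 | h2
      · exact Or.inl h2
      · obtain ⟨d', z', h3⟩ := h2
        injection h3 with h4 h5 h6
        exact Or.inr (Or.inl (Subtype.ext h4.symm))
      · obtain ⟨d', z', h3⟩ := h2
        injection h3 with h4 h5 h6
        exact Or.inr (Or.inr (Subtype.ext h5.symm))

/-- The preimage in the copy `C(c, d)` if only `c`, `d` occur. -/
private theorem FXC_two {c d : {e : FXC_El P J // FXC_val D e}} {p q : P}
    (hp : p ∉ D) (hq : q ∉ D) (hpq : p ≠ q) {n : ℕ}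
    {x : Fin n → D ⊕ {e : FXC_El P J // FXC_val D e}}
    (hx : ∀ t, (∃ u, x t = Sum.inl u) ∨ x t = Sum.inr c ∨ x t = Sum.inr d) :
    ∃ y : Fin n → P, ∀ t, FXC_cpy D c.1 d.1 p q (y t) (x t) := by
  have h : ∀ t, ∃ z, FXC_cpy D c.1 d.1 p q z (x t) := by
    intro t
    rcases hx t with ⟨u, h⟩ | h | h
    · rw [h]
      exact ⟨u, rfl⟩
    · rw [h]
      exact ⟨p, FXC_cpy_c hp⟩
    · rw [h]
      exact ⟨q, FXC_cpy_d hq hpq⟩
  choose y hy using h
  exact ⟨y, hy⟩

/-- If the tuple lies in a copy, then in a copy with base points in `S`. -/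
private theorem FXC_S_copy (hτ : ∀ i, τ i ∉ D)
    (htw : ∀ u, u ∉ D → tw u ∉ D ∧ tw u ≠ u ∧ Pt N D ![u] ![tw u])
    (hlo : ∀ a b, a ≠ b → (lo a b ↔ ¬ lo b a)) (hσ : FD N D τ σ)
    {e₀ e₁ : {e : FXC_El P J // FXC_val D e}} (he : e₀ ≠ e₁)
    {c d : {e : FXC_El P J // FXC_val D e}} (hcd : c ≠ d) {n : ℕ}
    {x : Fin n → D ⊕ {e : FXC_El P J // FXC_val D e}} {y : Fin n → P}
    (hy : ∀ t, FXC_cpy D c.1 d.1 (FXC_rho τ tw lo σ c.1 d.1) (FXC_rho τ tw lo σ d.1 c.1) (y t)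
      (x t)) :
    ∃ c' ∈ FXC_S e₀ e₁ x, ∃ d' ∈ FXC_S e₀ e₁ x, c' ≠ d' ∧ ∃ y' : Fin n → P,
      ∀ t, FXC_cpy D c'.1 d'.1 (FXC_rho τ tw lo σ c'.1 d'.1) (FXC_rho τ tw lo σ d'.1 c'.1)
        (y' t) (x t) := by
  have two : ∀ c' d' : {e : FXC_El P J // FXC_val D e}, c' ≠ d' →
      (∀ t, (∃ u, x t = Sum.inl u) ∨ x t = Sum.inr c' ∨ x t = Sum.inr d') →
      ∃ y' : Fin n → P, ∀ t, FXC_cpy D c'.1 d'.1 (FXC_rho τ tw lo σ c'.1 d'.1)
        (FXC_rho τ tw lo σ d'.1 c'.1) (y' t) (x t) := by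
    intro c' d' hne hx
    have hv : c'.1 ≠ d'.1 := fun h => hne (Subtype.ext h)
    have h1 := FXC_F1 hτ htw hlo hσ _ c'.1 d'.1 le_rfl c'.2 d'.2 hv
    have h2 := FXC_F1 hτ htw hlo hσ _ d'.1 c'.1 le_rfl d'.2 c'.2 hv.symm
    exact FXC_two h1.1 h2.1 h1.2.2 hx
  by_cases hnew : ∃ t e z, x t = Sum.inr e ∧ e.1 = .new c.1 d.1 z
  · obtain ⟨t, e, z, h1, h2⟩ := hnew
    exact ⟨c, Or.inr (Or.inr ⟨t, e, h1, Or.inr (Or.inl ⟨_, _, h2⟩)⟩), d,
      Or.inr (Or.inr ⟨t, e, h1, Or.inr (Or.inr ⟨_, _, h2⟩)⟩), hcd, y, hy⟩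
  have hx : ∀ t, (∃ u, x t = Sum.inl u) ∨ x t = Sum.inr c ∨ x t = Sum.inr d := by
    intro t
    rcases h : x t with u | e
    · exact Or.inl ⟨u, rfl⟩
    · have h1 := hy t
      rw [h] at h1
      rcases FXC_cpy_mem h1 with h2 | h2 | h2
      · exact Or.inr (Or.inl (by rw [Subtype.ext h2]))
      · exact Or.inr (Or.inr (by rw [Subtype.ext h2]))
      · exact absurd ⟨t, e, _, h, h2⟩ hnew
  -- another element of `S`
  have oth : ∀ c' : {e : FXC_El P J // FXC_val D e}, ∃ d' ∈ FXC_S e₀ e₁ x, c' ≠ d' := by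
    intro c'
    by_cases h : c' = e₀
    · exact ⟨e₁, Or.inr (Or.inl rfl), fun h' => he (h.symm.trans h')⟩
    · exact ⟨e₀, Or.inl rfl, h⟩
  by_cases hc : ∃ t, x t = Sum.inr c
  · obtain ⟨t, ht⟩ := hc
    have hcS : c ∈ FXC_S e₀ e₁ x := Or.inr (Or.inr ⟨t, c, ht, Or.inl rfl⟩)
    by_cases hd : ∃ t, x t = Sum.inr d
    · obtain ⟨s, hs⟩ := hd
      exact ⟨c, hcS, d, Or.inr (Or.inr ⟨s, d, hs, Or.inl rfl⟩), hcd, two c d hcd hx⟩
    · obtain ⟨d', hd', hne⟩ := oth c
      refine ⟨c, hcS, d', hd', hne, two c d' hne fun t => ?_⟩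
      rcases hx t with h | h | h
      · exact Or.inl h
      · exact Or.inr (Or.inl h)
      · exact absurd ⟨t, h⟩ hd
  · by_cases hd : ∃ t, x t = Sum.inr d
    · obtain ⟨t, ht⟩ := hd
      obtain ⟨d', hd', hne⟩ := oth d
      refine ⟨d, Or.inr (Or.inr ⟨t, d, ht, Or.inl rfl⟩), d', hd', hne, two d d' hne fun t => ?_⟩
      rcases hx t with h | h | h
      · exact Or.inl h
      · exact absurd ⟨t, h⟩ hc
      · exact Or.inr (Or.inl h)
    · refine ⟨e₀, Or.inl rfl, e₁, Or.inr (Or.inl rfl), he, two e₀ e₁ he fun t => ?_⟩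
      rcases hx t with h | h | h
      · exact Or.inl h
      · exact absurd ⟨t, h⟩ hc
      · exact absurd ⟨t, h⟩ hd

/-- The free extension. -/
@[instance_reducible]
private noncomputable def FXC_A [∀ n, IsEmpty (L.Functions n)] (N : L.Structure P)
    (τ : J → P) (tw : P → P) (lo : FXC_El P J → FXC_El P J → Prop)
    (e₀ e₁ : {e : FXC_El P J // FXC_val D e}) (σ : J → J → P)
    (G : ∀ n : ℕ, L.Relations n → (Fin n → J) → Prop) :
    L.Structure (D ⊕ {e : FXC_El P J // FXC_val D e}) where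
  funMap := fun {n} f => (isEmptyElim f : (Fin n → D ⊕ {e : FXC_El P J // FXC_val D e}) →
    D ⊕ {e : FXC_El P J // FXC_val D e})
  RelMap := fun {n} R x =>
    (∃ c ∈ FXC_S e₀ e₁ x, ∃ d ∈ FXC_S e₀ e₁ x, c ≠ d ∧ ∃ y : Fin n → P,
      (∀ t, FXC_cpy D c.1 d.1 (FXC_rho τ tw lo σ c.1 d.1) (FXC_rho τ tw lo σ d.1 c.1) (y t)
        (x t)) ∧ N.RelMap R y) ∨
    ((¬ ∃ c ∈ FXC_S e₀ e₁ x, ∃ d ∈ FXC_S e₀ e₁ x, c ≠ d ∧ ∃ y : Fin n → P,
      ∀ t, FXC_cpy D c.1 d.1 (FXC_rho τ tw lo σ c.1 d.1) (FXC_rho τ tw lo σ d.1 c.1) (y t)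
        (x t)) ∧
      ∃ w : Fin n → J, (∀ t, x t = Sum.inr ⟨.base (w t), trivial⟩) ∧ G n R w)

/-- The relations in a copy. -/
private theorem FXC_A_copy [∀ n, IsEmpty (L.Functions n)] (hτ : ∀ i, τ i ∉ D)
    (htw : ∀ u, u ∉ D → tw u ∉ D ∧ tw u ≠ u ∧ Pt N D ![u] ![tw u])
    (hlo : ∀ a b, a ≠ b → (lo a b ↔ ¬ lo b a)) (hσ : FD N D τ σ)
    (G : ∀ n : ℕ, L.Relations n → (Fin n → J) → Prop)
    {e₀ e₁ : {e : FXC_El P J // FXC_val D e}} (he : e₀ ≠ e₁)
    {c d : {e : FXC_El P J // FXC_val D e}} (hcd : c ≠ d) {n : ℕ} (R : L.Relations n)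
    {x : Fin n → D ⊕ {e : FXC_El P J // FXC_val D e}} {y : Fin n → P}
    (hy : ∀ t, FXC_cpy D c.1 d.1 (FXC_rho τ tw lo σ c.1 d.1) (FXC_rho τ tw lo σ d.1 c.1) (y t)
      (x t)) :
    (FXC_A N τ tw lo e₀ e₁ σ G).RelMap R x ↔ N.RelMap R y := by
  have hne : ∀ {c d : {e : FXC_El P J // FXC_val D e}}, c ≠ d → c.1 ≠ d.1 :=
    fun h h' => h (Subtype.ext h')
  obtain ⟨c', hc', d', hd', hcd', y', hy'⟩ := FXC_S_copy hτ htw hlo hσ he hcd hy
  constructor
  · rintro (⟨c₂, -, d₂, -, h2, y₂, hy₂, hR⟩ | ⟨h, -⟩)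
    · exact (FXC_indep hτ htw hlo hσ c₂.2 d₂.2 c.2 d.2 (hne h2) (hne hcd) R hy₂ hy).1 hR
    · exact absurd ⟨c', hc', d', hd', hcd', y', hy'⟩ h
  · intro hR
    exact Or.inl ⟨c', hc', d', hd', hcd', y', hy',
      (FXC_indep hτ htw hlo hσ c.2 d.2 c'.2 d'.2 (hne hcd) (hne hcd') R hy hy').1 hR⟩

/-- Relations of a tuple which is in no copy. -/
private theorem FXC_A_free [∀ n, IsEmpty (L.Functions n)] 
    (G : ∀ n : ℕ, L.Relations n → (Fin n → J) → Prop)
    {e₀ e₁ : {e : FXC_El P J // FXC_val D e}} {n : ℕ} (R : L.Relations n)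
    {x : Fin n → D ⊕ {e : FXC_El P J // FXC_val D e}}
    (h : ¬ ∃ c d : {e : FXC_El P J // FXC_val D e}, c ≠ d ∧ ∃ y : Fin n → P, ∀ t,
      FXC_cpy D c.1 d.1 (FXC_rho τ tw lo σ c.1 d.1) (FXC_rho τ tw lo σ d.1 c.1) (y t) (x t)) :
    (FXC_A N τ tw lo e₀ e₁ σ G).RelMap R x ↔
      ∃ w : Fin n → J, (∀ t, x t = Sum.inr ⟨.base (w t), trivial⟩) ∧ G n R w := by
  constructor
  · rintro (⟨c, -, d, -, h1, y, h2, -⟩ | ⟨-, h1⟩)
    · exact absurd ⟨c, d, h1, y, h2⟩ h
    · exact h1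
  · intro h1
    refine Or.inr ⟨?_, h1⟩
    rintro ⟨c, -, d, -, h2, y, h3⟩
    exact h ⟨c, d, h2, y, h3⟩


private theorem FXC_base_base (τ : J → P) (tw : P → P) (lo : FXC_El P J → FXC_El P J → Prop)
    (σ : J → J → P) (i j : J) : FXC_rho τ tw lo σ (.base i) (.base j) = σ i j := by
  rcases FXC_cases τ tw lo σ (.base i) (.base j) with h | h | h | h | h | h
  · obtain ⟨-, d, z, h⟩ := h
    exact absurd h (by simp)
  · obtain ⟨-, d, z, h⟩ := h
    exact absurd h (by simp)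
  · obtain ⟨-, d, z, h⟩ := h
    exact absurd h (by simp)
  · obtain ⟨-, d, z, h⟩ := h
    exact absurd h (by simp)
  · obtain ⟨-, -, c, d, z, z', h, -⟩ := h
    exact absurd h (by simp)
  · exact h.1

private theorem FXC_base_new (τ : J → P) (tw : P → P) (lo : FXC_El P J → FXC_El P J → Prop)
    (σ : J → J → P) {i : J} {c d : FXC_El P J} {z : P} (hc : c ≠ .base i) (hd : d ≠ .base i) :
    FXC_rho τ tw lo σ (.base i) (.new c d z) = FXC_dft τ tw lo (.base i) (.new c d z) ∧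
    FXC_rho τ tw lo σ (.new c d z) (.base i) = FXC_dft τ tw lo (.new c d z) (.base i) := by
  rcases FXC_cases τ tw lo σ (.base i) (.new c d z) with h | h | h | h | h | h
  · obtain ⟨-, d', z', h⟩ := h
    injection h with h1
    exact absurd h1 hc
  · obtain ⟨-, d', z', h⟩ := h
    injection h with h1 h2
    exact absurd h2 hd
  · obtain ⟨-, d', z', h⟩ := h
    exact absurd h (by simp)
  · obtain ⟨-, d', z', h⟩ := h
    exact absurd h (by simp)
  · obtain ⟨-, -, c, d, z, z', h, -⟩ := h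
    exact absurd h (by simp)
  · exact ⟨h.1, h.2⟩

private theorem FXC_exc (i₀ : J) (c : FXC_El P J) : ∃ i₁ : J, ∀ i, i ≠ i₁ → c ≠ .base i := by
  cases c with
  | base k =>
    refine ⟨k, fun i hi h => ?_⟩
    injection h with h1
    exact hi h1.symm
  | new a b z => exact ⟨i₀, fun i _ => by simp⟩

private theorem FXC_three {A B C c d : FXC_El P J} (hA : A = c ∨ A = d) (hB : B = c ∨ B = d)
    (hC : C = c ∨ C = d) (h1 : A ≠ B) (h2 : A ≠ C) (h3 : B ≠ C) : False := by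
  rcases hA with rfl | rfl <;> rcases hB with rfl | rfl <;> rcases hC with rfl | rfl <;> tauto

/-- A base point in a copy is one of the two defining points. -/
private theorem FXC_mem_base {c d : FXC_El P J} {p q z : P} {j : J}
    (h : FXC_cpy D c d p q z (Sum.inr ⟨.base j, trivial⟩)) :
    FXC_El.base j = c ∨ FXC_El.base j = d := by
  rcases FXC_cpy_mem h with h1 | h1 | h1
  · exact Or.inl h1
  · exact Or.inr h1
  · exact absurd (show FXC_El.base j = .new c d z from h1) (by simp)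

private theorem FXC_total {c d : {e : FXC_El P J // FXC_val D e}} (hcd : c ≠ d) (p q : P) :
    ∀ z, ∃ x, FXC_cpy D c.1 d.1 p q z x := by
  intro z
  by_cases hz : z ∈ D
  · exact ⟨Sum.inl ⟨z, hz⟩, rfl⟩
  · have hv : FXC_val D (FXC_hE c.1 d.1 p q z) := by
      unfold FXC_hE
      split_ifs
      · exact c.2
      · exact d.2
      · exact ⟨c.2, d.2, fun h => hcd (Subtype.ext h), hz⟩
    exact ⟨Sum.inr ⟨_, hv⟩, hz, rfl⟩

private theorem FXC_pts {e₀ e₁ : {e : FXC_El P J // FXC_val D e}} (he : e₀ ≠ e₁)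
    (a b : D ⊕ {e : FXC_El P J // FXC_val D e}) :
    ∃ c d : {e : FXC_El P J // FXC_val D e}, c ≠ d ∧
      ((∃ u, a = Sum.inl u) ∨ a = Sum.inr c ∨ a = Sum.inr d) ∧
      ((∃ u, b = Sum.inl u) ∨ b = Sum.inr c ∨ b = Sum.inr d) := by
  have oth : ∀ c' : {e : FXC_El P J // FXC_val D e}, ∃ d', c' ≠ d' := by
    intro c'
    by_cases h : c' = e₀
    · exact ⟨e₁, fun h' => he (h.symm.trans h')⟩
    · exact ⟨e₀, h⟩
  rcases a with u | e
  · rcases b with v | e'
    · exact ⟨e₀, e₁, he, Or.inl ⟨u, rfl⟩, Or.inl ⟨v, rfl⟩⟩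
    · obtain ⟨d', hd'⟩ := oth e'
      exact ⟨e', d', hd', Or.inl ⟨u, rfl⟩, Or.inr (Or.inl rfl)⟩
  · rcases b with v | e'
    · obtain ⟨d', hd'⟩ := oth e
      exact ⟨e, d', hd', Or.inr (Or.inl rfl), Or.inl ⟨v, rfl⟩⟩
    · by_cases h : e = e'
      · subst h
        obtain ⟨d', hd'⟩ := oth e
        exact ⟨e, d', hd', Or.inr (Or.inl rfl), Or.inr (Or.inl rfl)⟩
      · exact ⟨e, e', h, Or.inr (Or.inl rfl), Or.inr (Or.inr rfl)⟩

private theorem FXC_FX [∀ n, IsEmpty (L.Functions n)] (hτ : ∀ i, τ i ∉ D)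
    (htw : ∀ u, u ∉ D → tw u ∉ D ∧ tw u ≠ u ∧ Pt N D ![u] ![tw u])
    (hlo : ∀ a b, a ≠ b → (lo a b ↔ ¬ lo b a)) (hlo2 : ∀ i c d z, lo (.base i) (.new c d z))
    (hσ : FD N D τ σ) (G : ∀ n : ℕ, L.Relations n → (Fin n → J) → Prop)
    {e₀ e₁ : {e : FXC_El P J // FXC_val D e}} (he : e₀ ≠ e₁) (i₀ : J) :
    FX N D τ σ G (FXC_A N τ tw lo e₀ e₁ σ G) (fun i => ⟨.base i, trivial⟩)
      (fun a b => FXC_rho τ tw lo σ a.1 b.1) where
  cop := by
    classical
    refine ⟨fun z => if hz : z ∈ D then Sum.inl ⟨z, hz⟩ else Sum.inr e₀, fun a b => ?_⟩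
    obtain ⟨c, d, hcd, ha, hb⟩ := FXC_pts he a b
    have hne : c.1 ≠ d.1 := fun h => hcd (Subtype.ext h)
    have f1 := FXC_F1 hτ htw hlo hσ _ c.1 d.1 le_rfl c.2 d.2 hne
    have f2 := FXC_F1 hτ htw hlo hσ _ d.1 c.1 le_rfl d.2 c.2 hne.symm
    choose h hh using FXC_total hcd (FXC_rho τ tw lo σ c.1 d.1) (FXC_rho τ tw lo σ d.1 c.1)
    have hs : ∀ a : D ⊕ {e : FXC_El P J // FXC_val D e},
        ((∃ u, a = Sum.inl u) ∨ a = Sum.inr c ∨ a = Sum.inr d) → ∃ u, h u = a := by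
      rintro a (⟨u, rfl⟩ | rfl | rfl)
      · exact ⟨u.1, FXC_cpy_fun (hh u.1) rfl⟩
      · exact ⟨_, FXC_cpy_fun (hh _) (FXC_cpy_c f1.1)⟩
      · exact ⟨_, FXC_cpy_fun (hh _) (FXC_cpy_d f2.1 f1.2.2)⟩
    refine ⟨h, ?_, ?_, hs a ha, hs b hb, ?_⟩
    · intro z z' hz
      have h1 := hh z
      rw [hz] at h1
      exact FXC_cpy_inj hne h1 (hh z')
    · intro z hz
      rw [FXC_cpy_D (hh z) hz]
      beta_reduce
      rw [dif_pos hz]
    · intro n R w
      exact FXC_A_copy hτ htw hlo hσ G he hcd R fun t => hh (w t)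
  inj := by
    intro i j h
    have h1 := congrArg Subtype.val h
    exact FXC_El.base.inj h1
  pair := by
    intro e e' hee n R w
    have hne : e.1 ≠ e'.1 := fun h => hee (Subtype.ext h)
    have f1 := FXC_F1 hτ htw hlo hσ _ e.1 e'.1 le_rfl e.2 e'.2 hne
    have f2 := FXC_F1 hτ htw hlo hσ _ e'.1 e.1 le_rfl e'.2 e.2 hne.symm
    refine FXC_A_copy hτ htw hlo hσ G he hee R fun t => ?_
    rcases w t with u | k
    · rfl
    · rcases (show k = 0 ∨ k = 1 by omega) with rfl | rfl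
      · exact FXC_cpy_c f1.1
      · exact FXC_cpy_d f2.1 f1.2.2
  base := fun i j _ => FXC_base_base τ tw lo σ i j
  dflt := by
    rintro ⟨e, hv⟩ hr
    cases e with
    | base k => exact absurd ⟨k, rfl⟩ hr
    | new c d z =>
      obtain ⟨i₁, h1⟩ := FXC_exc i₀ c
      obtain ⟨i₂, h2⟩ := FXC_exc i₀ d
      refine ⟨i₁, i₂, fun i j hi1 hi2 hj1 hj2 hij => ?_⟩
      have hi := FXC_base_new τ tw lo σ (z := z) (h1 i hi1) (h2 i hi2)
      have hj := FXC_base_new τ tw lo σ (z := z) (h1 j hj1) (h2 j hj2)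
      have nlo : ∀ k : J, ¬ lo (.new c d z) (.base k) := by
        intro k h
        exact (hlo _ _ (by simp)).1 h (hlo2 k c d z)
      refine ⟨?_, ?_⟩
      · refine hi.2.trans (Eq.trans ?_ hj.2.symm)
        unfold FXC_dft
        by_cases h3 : z = τ i
        · exact (if_pos ⟨h3, nlo i⟩).trans (if_pos ⟨h3.trans hij, nlo j⟩).symm
        · exact (if_neg (fun h4 => h3 h4.1)).trans
            (if_neg (fun h4 => h3 (h4.1.trans hij.symm))).symm
      · refine hi.1.trans (Eq.trans ?_ hj.1.symm)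
        unfold FXC_dft
        rw [if_neg (fun h => h.2 (hlo2 i c d z)), if_neg (fun h => h.2 (hlo2 j c d z))]
        exact hij
  free := by
    rintro n R w ⟨s, t, u, hst, hsu, htu⟩
    have hb : ∀ {k l : J}, k ≠ l → (FXC_El.base k : FXC_El P J) ≠ .base l :=
      fun h h' => h (FXC_El.base.inj h')
    refine (FXC_A_free G R ?_).trans ⟨?_, fun h => ⟨w, fun _ => rfl, h⟩⟩
    · rintro ⟨c, d, -, y, hy⟩
      exact FXC_three (FXC_mem_base (hy s)) (FXC_mem_base (hy t)) (FXC_mem_base (hy u))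
        (hb hst) (hb hsu) (hb htu)
    · rintro ⟨w', hw', hG⟩
      have hww : w = w' := by
        funext k
        have h1 := Sum.inr.inj (hw' k)
        exact FXC_El.base.inj (congrArg Subtype.val h1)
      rw [hww]
      exact hG
  free' := by
    rintro ⟨e, hv⟩ hr
    cases e with
    | base k => exact absurd ⟨k, rfl⟩ hr
    | new c d z =>
      obtain ⟨i₁, h1⟩ := FXC_exc i₀ c
      obtain ⟨i₂, h2⟩ := FXC_exc i₀ d
      refine ⟨i₁, i₂, fun i j hij n1 n2 n R x hx he' hbi hbj hR => ?_⟩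
      obtain ⟨te, hte⟩ := he'
      obtain ⟨ti, hti⟩ := hbi
      obtain ⟨tj, htj⟩ := hbj
      have hfree := (FXC_A_free (N := N) (D := D) (τ := τ) (tw := tw) (lo := lo) (σ := σ) G
        (e₀ := e₀) (e₁ := e₁) R (x := x) ?_).1 hR
      · obtain ⟨w, hw, -⟩ := hfree
        have h3 := (hte.symm.trans (hw te))
        have h4 := congrArg Subtype.val (Sum.inr.inj h3)
        exact absurd (show FXC_El.new c d z = .base (w te) from h4) (by simp)
      · rintro ⟨c', d', hcd', y, hy⟩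
        have hyi := hy ti
        have hyj := hy tj
        have hye := hy te
        rw [hti] at hyi
        rw [htj] at hyj
        rw [hte] at hye
        have hi := FXC_mem_base hyi
        have hj := FXC_mem_base hyj
        have hb : ∀ {k l : J}, k ≠ l → (FXC_El.base k : FXC_El P J) ≠ .base l :=
          fun h h' => h (FXC_El.base.inj h')
        have hbase : ∀ {k : J}, (FXC_El.new c d z : FXC_El P J) ≠ .base k := by
          intro k
          simp
        have key : (c'.1 = .base i ∧ d'.1 = .base j) ∨ (c'.1 = .base j ∧ d'.1 = .base i) := by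
          rcases hi with hi | hi <;> rcases hj with hj | hj
          · exact absurd (hi.trans hj.symm) (hb hij)
          · exact Or.inl ⟨hi.symm, hj.symm⟩
          · exact Or.inr ⟨hj.symm, hi.symm⟩
          · exact absurd (hi.trans hj.symm) (hb hij)
        rcases FXC_cpy_mem hye with h3 | h3 | h3
        · rcases key with ⟨k1, k2⟩ | ⟨k1, k2⟩
          · exact hbase (h3.trans k1)
          · exact hbase (h3.trans k1)
        · rcases key with ⟨k1, k2⟩ | ⟨k1, k2⟩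
          · exact hbase (h3.trans k2)
          · exact hbase (h3.trans k2)
        · injection h3 with h4 h5 h6
          rcases key with ⟨k1, k2⟩ | ⟨k1, k2⟩
          · apply n1
            constructor
            · by_contra hc
              exact h1 i hc (h4.trans k1)
            · by_contra hc
              exact h2 j hc (h5.trans k2)
          · apply n2
            constructor
            · by_contra hc
              exact h2 i hc (h5.trans k2)
            · by_contra hc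
              exact h1 j hc (h4.trans k1)

end Main

/-! ### Dependence on `σ`, `G` -/

private theorem FXC_dep_d0 (τ : J → P) (tw : P → P) (lo : FXC_El P J → FXC_El P J → Prop)
    (a b : FXC_El P J) : ∃ F : Finset (J × J), ∀ σ σ' : J → J → P,
      (∀ p ∈ F, σ p.1 p.2 = σ' p.1 p.2) → FXC_d0 τ tw lo σ a b = FXC_d0 τ tw lo σ' a b := by
  cases a with
  | base i =>
    cases b with
    | base j => exact ⟨{(i, j)}, fun σ σ' h => h (i, j) (Finset.mem_singleton_self _)⟩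
    | new c d z => exact ⟨∅, fun σ σ' _ => rfl⟩
  | new c d z => exact ⟨∅, fun σ σ' _ => rfl⟩

private theorem FXC_dep_rh (τ : J → P) (tw : P → P) (lo : FXC_El P J → FXC_El P J → Prop)
    (a b : FXC_El P J) : ∃ F : Finset (J × J), ∀ σ σ' : J → J → P,
      (∀ p ∈ F, σ p.1 p.2 = σ' p.1 p.2) → ∀ pa pb,
      FXC_rh τ tw lo σ a b pa pb = FXC_rh τ tw lo σ' a b pa pb := by
  obtain ⟨F, hF⟩ := FXC_dep_d0 τ tw lo a b
  refine ⟨F, fun σ σ' h pa pb => ?_⟩
  unfold FXC_rh
  rw [hF σ σ' h]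

open Classical in
private theorem FXC_dep_pr (τ : J → P) (tw : P → P) (lo : FXC_El P J → FXC_El P J → Prop)
    (a : FXC_El P J) : ∃ F : Finset (J × J), ∀ σ σ' : J → J → P,
      (∀ p ∈ F, σ p.1 p.2 = σ' p.1 p.2) → FXC_pr τ tw lo σ a = FXC_pr τ tw lo σ' a := by
  induction a with
  | base i => exact ⟨∅, fun σ σ' _ => rfl⟩
  | new c d z ihc ihd =>
    obtain ⟨F1, h1⟩ := ihc
    obtain ⟨F2, h2⟩ := ihd
    obtain ⟨F3, h3⟩ := FXC_dep_rh τ tw lo c d
    obtain ⟨F4, h4⟩ := FXC_dep_rh τ tw lo d c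
    refine ⟨(F1 ∪ F2) ∪ (F3 ∪ F4), fun σ σ' h => ?_⟩
    have e1 := h1 σ σ' fun p hp => h p (Finset.mem_union_left _ (Finset.mem_union_left _ hp))
    have e2 := h2 σ σ' fun p hp => h p (Finset.mem_union_left _ (Finset.mem_union_right _ hp))
    have e3 := h3 σ σ' fun p hp => h p (Finset.mem_union_right _ (Finset.mem_union_left _ hp))
    have e4 := h4 σ σ' fun p hp => h p (Finset.mem_union_right _ (Finset.mem_union_right _ hp))
    unfold FXC_pr
    rw [e1, e2, e3, e4]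

open Classical in
private theorem FXC_dep_rho (τ : J → P) (tw : P → P) (lo : FXC_El P J → FXC_El P J → Prop)
    (a b : FXC_El P J) : ∃ F : Finset (J × J), ∀ σ σ' : J → J → P,
      (∀ p ∈ F, σ p.1 p.2 = σ' p.1 p.2) → FXC_rho τ tw lo σ a b = FXC_rho τ tw lo σ' a b := by
  obtain ⟨F1, h1⟩ := FXC_dep_pr τ tw lo a
  obtain ⟨F2, h2⟩ := FXC_dep_pr τ tw lo b
  obtain ⟨F3, h3⟩ := FXC_dep_rh τ tw lo a b
  refine ⟨F1 ∪ (F2 ∪ F3), fun σ σ' h => ?_⟩
  unfold FXC_rho
  rw [h1 σ σ' fun p hp => h p (Finset.mem_union_left _ hp),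
    h2 σ σ' fun p hp => h p (Finset.mem_union_right _ (Finset.mem_union_left _ hp)),
    h3 σ σ' fun p hp => h p (Finset.mem_union_right _ (Finset.mem_union_right _ hp))]

private theorem FXC_A_mono {L : FirstOrder.Language.{0, 0}} [∀ n, IsEmpty (L.Functions n)]
    {N : L.Structure P} {D : Set P} {τ : J → P} {tw : P → P}
    {lo : FXC_El P J → FXC_El P J → Prop} {e₀ e₁ : {e : FXC_El P J // FXC_val D e}}
    {σ σ' : J → J → P} {G G' : ∀ n : ℕ, L.Relations n → (Fin n → J) → Prop} {n : ℕ}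
    {R : L.Relations n} {x : Fin n → D ⊕ {e : FXC_El P J // FXC_val D e}}
    (hρ : ∀ c ∈ FXC_S e₀ e₁ x, ∀ d ∈ FXC_S e₀ e₁ x,
      FXC_rho τ tw lo σ c.1 d.1 = FXC_rho τ tw lo σ' c.1 d.1)
    (hG : ∀ w : Fin n → J, (∀ t, x t = Sum.inr ⟨.base (w t), trivial⟩) → G n R w → G' n R w)
    (h : (FXC_A N τ tw lo e₀ e₁ σ G).RelMap R x) :
    (FXC_A N τ tw lo e₀ e₁ σ' G').RelMap R x := by
  rcases h with ⟨c, hc, d, hd, hcd, y, hy, hR⟩ | ⟨h1, w, hw, hR⟩
  · refine Or.inl ⟨c, hc, d, hd, hcd, y, ?_, hR⟩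
    rw [← hρ c hc d hd, ← hρ d hd c hc]
    exact hy
  · refine Or.inr ⟨?_, w, hw, hG w hw hR⟩
    rintro ⟨c, hc, d, hd, hcd, y, hy⟩
    apply h1
    refine ⟨c, hc, d, hd, hcd, y, ?_⟩
    rw [hρ c hc d hd, hρ d hd c hc]
    exact hy

open Classical in
private theorem FXC_FDep {L : FirstOrder.Language.{0, 0}} [∀ n, IsEmpty (L.Functions n)]
    (N : L.Structure P) (D : Set P) (τ : J → P) (tw : P → P)
    (lo : FXC_El P J → FXC_El P J → Prop) (e₀ e₁ : {e : FXC_El P J // FXC_val D e}) :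
    FDep (L := L) (D := D) (J := J) (E := {e : FXC_El P J // FXC_val D e})
      (fun σ G => FXC_A N τ tw lo e₀ e₁ σ G) := by
  intro n R x
  choose F hF using FXC_dep_rho τ tw lo
  have hS := FXC_S_finite e₀ e₁ x
  obtain ⟨Fg, hFg⟩ : ∃ Fg : Finset ((m : ℕ) × (L.Relations m × (Fin m → J))),
      ∀ w : Fin n → J, (∀ t, x t = Sum.inr ⟨.base (w t), trivial⟩) → ⟨n, (R, w)⟩ ∈ Fg := by
    by_cases h : ∃ w : Fin n → J, ∀ t, x t = Sum.inr ⟨.base (w t), trivial⟩
    · obtain ⟨w, hw⟩ := h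
      refine ⟨{⟨n, (R, w)⟩}, fun w' hw' => ?_⟩
      have hww : w' = w := by
        funext k
        have h1 := Sum.inr.inj ((hw' k).symm.trans (hw k))
        exact FXC_El.base.inj (congrArg Subtype.val h1)
      rw [hww]
      exact Finset.mem_singleton_self _
    · exact ⟨∅, fun w hw => absurd ⟨w, hw⟩ h⟩
  refine ⟨hS.toFinset.biUnion fun c => hS.toFinset.biUnion fun d => F c.1 d.1, Fg,
    fun σ σ' G G' hσ hG => ?_⟩
  have hρ : ∀ c ∈ FXC_S e₀ e₁ x, ∀ d ∈ FXC_S e₀ e₁ x,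
      FXC_rho τ tw lo σ c.1 d.1 = FXC_rho τ tw lo σ' c.1 d.1 := by
    intro c hc d hd
    refine hF c.1 d.1 σ σ' fun p hp => hσ p ?_
    refine Finset.mem_biUnion.2 ⟨c, hS.mem_toFinset.2 hc, ?_⟩
    exact Finset.mem_biUnion.2 ⟨d, hS.mem_toFinset.2 hd, hp⟩
  constructor
  · exact FXC_A_mono hρ fun w hw => (hG _ (hFg w hw)).1
  · exact FXC_A_mono (fun c hc d hd => (hρ c hc d hd).symm) fun w hw => (hG _ (hFg w hw)).2

theorem thm_FXC : St_FXC := by
  intro L _ P J _ _ N D τ hT hJ hτ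
  classical
  obtain ⟨i₀, j₀, hij⟩ := hJ
  -- the twins
  have htw : ∃ tw : P → P, ∀ u, u ∉ D → tw u ∉ D ∧ tw u ≠ u ∧ Pt N D ![u] ![tw u] := by
    have h : ∀ u, ∃ v, u ∉ D → v ∉ D ∧ v ≠ u ∧ Pt N D ![u] ![v] := by
      intro u
      by_cases hu : u ∈ D
      · exact ⟨u, fun h => absurd hu h⟩
      · obtain ⟨v, hv⟩ := hT u hu
        exact ⟨v, fun _ => hv⟩
    choose tw htw using h
    exact ⟨tw, htw⟩
  obtain ⟨tw, htw⟩ := htw
  -- the order
  have hlo : ∃ lo : FXC_El P J → FXC_El P J → Prop, (∀ a b, a ≠ b → (lo a b ↔ ¬ lo b a)) ∧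
      ∀ i c d z, lo (.base i) (.new c d z) := by
    let isb : FXC_El P J → Prop := fun a => ∃ i, a = .base i
    refine ⟨fun a b => (isb a ∧ ¬ isb b) ∨ ((isb a ↔ isb b) ∧ WellOrderingRel a b), ?_, ?_⟩
    · intro a b hab
      have h1 : WellOrderingRel a b ∨ WellOrderingRel b a := by
        rcases trichotomous_of (WellOrderingRel (α := FXC_El P J)) a b with h | h | h
        · exact Or.inl h
        · exact absurd h hab
        · exact Or.inr h
      have h2 : ¬ (WellOrderingRel a b ∧ WellOrderingRel b a) := by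
        rintro ⟨h, h'⟩
        exact asymm_of WellOrderingRel h h'
      tauto
    · intro i c d z
      refine Or.inl ⟨⟨i, rfl⟩, ?_⟩
      rintro ⟨j, h⟩
      exact absurd h (by simp)
  obtain ⟨lo, hlo1, hlo2⟩ := hlo
  have he : (⟨.base i₀, trivial⟩ : {e : FXC_El P J // FXC_val D e}) ≠ ⟨.base j₀, trivial⟩ := by
    intro h
    exact hij (FXC_El.base.inj (congrArg Subtype.val h))
  have := FXC_countable P J
  refine ⟨{e : FXC_El P J // FXC_val D e}, inferInstance, fun i => ⟨.base i, trivial⟩,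
    fun σ G => FXC_A N τ tw lo ⟨.base i₀, trivial⟩ ⟨.base j₀, trivial⟩ σ G,
    fun σ a b => FXC_rho τ tw lo σ a.1 b.1, fun σ G hσ => ?_, ?_⟩
  · exact FXC_FX hτ htw hlo1 hlo2 hσ G he i₀
  · exact FXC_FDep N D τ tw lo _ _

end VPF
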