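import Pool.Agent.VPF.StF

/-!
# VPF [FXT]: a symbol of arity at least three (helper46)
-/

set_option autoImplicit false
set_option linter.unusedVariables false
set_option linter.unusedSectionVars false

namespace VPF

open FirstOrder Set Pool.Agent.Helper6.Str Pool.Agent.Helper5.Multi Pool.Agent.Helper79.VC

/-- the ternary relation on the base points given by `z` -/
def FXTg (z : ℕ → Bool) (i j k : ℕ) : Bool :=
  if k = 8 then (if 9 ≤ i ∧ 9 ≤ j then !(z (i - 9) && decide (i < j ∧ j ≤ 2 * i - 8)) else false)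
  else decide (9 ≤ i ∧ ((j = 0 ∧ k = 1) ∨ (j = 4 ∧ k = 5)))

private theorem g_cont (i j k : ℕ) : Continuous fun z : ℕ → Bool => FXTg z i j k := by
  unfold FXTg
  split_ifs
  · have h : Continuous fun t : Bool => !(t && decide (i < j ∧ j ≤ 2 * i - 8)) :=
      continuous_of_discreteTopology
    exact h.comp (continuous_apply (i - 9))
  · exact continuous_const
  · exact continuous_const

/-- the points of the base which are no parameters -/
def FXTX {β : Type} (r : β → β → β → Prop) (p : Fin 9 → β) (x : β) : Prop :=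
  (∀ k, x ≠ p k) ∧ ¬ (r x (p 0) (p 1) ↔ r x (p 2) (p 3)) ∧
    ¬ (r x (p 4) (p 5) ↔ r x (p 6) (p 7))

/-- the decoding property -/
def FXTP {β : Type} (r : β → β → β → Prop) (p : Fin 9 → β) (n : ℕ) : Prop :=
  ∃ x, FXTX r p x ∧ ∃ s : Finset β, s.card = n + 1 ∧
    ∀ y, y ∈ s ↔ (FXTX r p y ∧ y ≠ x ∧ ¬ r x y (p 8))

private theorem fxtp_mono {β γ : Type} {r : β → β → β → Prop} {r' : γ → γ → γ → Prop} (e : β ≃ γ)
    (he : ∀ x y t, r' (e x) (e y) (e t) ↔ r x y t) (p : Fin 9 → β) (n : ℕ) (h : FXTP r p n) :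
    FXTP r' (e ∘ p) n := by
  have hX : ∀ x, FXTX r' (e ∘ p) (e x) ↔ FXTX r p x := by
    intro x
    unfold FXTX
    simp only [Function.comp_apply, he, ne_eq, e.injective.eq_iff]
  obtain ⟨x, hx, s, hs, hy⟩ := h
  refine ⟨e x, (hX x).mpr hx, s.map e.toEmbedding, by rw [Finset.card_map, hs], ?_⟩
  intro y
  obtain ⟨y, rfl⟩ := e.surjective y
  have h4 : e y ∈ s.map e.toEmbedding ↔ y ∈ s := by
    rw [Finset.mem_map]
    constructor
    · rintro ⟨y', hy', h⟩
      have h5 : y' = y := e.injective h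
      exact h5 ▸ hy'
    · exact fun h => ⟨y, h, rfl⟩
  rw [h4, hy y, hX y, Function.comp_apply, he, ne_eq, ne_eq, e.injective.eq_iff]

private theorem fxtp_meas {β : Type} [Countable β] (r : (ℕ → Bool) → β → β → β → Prop)
    (hr : ∀ x y t, MeasurableSet {z | r z x y t}) (p : Fin 9 → β) (n : ℕ) :
    MeasurableSet {z | FXTP (r z) p n} := by
  have hiff : ∀ x y t x' y' t', MeasurableSet {z | r z x y t ↔ r z x' y' t'} := by
    intro x y t x' y' t'
    have : {z | r z x y t ↔ r z x' y' t'} =
        ({z | r z x y t} ∩ {z | r z x' y' t'}) ∪ ({z | r z x y t}ᶜ ∩ {z | r z x' y' t'}ᶜ) := by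
      ext z
      simp only [mem_ofPred_eq, mem_union, mem_inter_iff, mem_compl_iff]
      tauto
    rw [this]
    exact ((hr _ _ _).inter (hr _ _ _)).union ((hr _ _ _).compl.inter (hr _ _ _).compl)
  have hex : ∀ {ι : Type} [Countable ι] (P : ι → (ℕ → Bool) → Prop),
      (∀ i, MeasurableSet {z | P i z}) → MeasurableSet {z | ∃ i, P i z} := by
    intro ι _ P hP
    have : {z | ∃ i, P i z} = ⋃ i, {z | P i z} := by
      ext z
      simp only [mem_ofPred_eq, mem_iUnion]
    rw [this]
    exact MeasurableSet.iUnion hP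
  have hfa : ∀ {ι : Type} [Countable ι] (P : ι → (ℕ → Bool) → Prop),
      (∀ i, MeasurableSet {z | P i z}) → MeasurableSet {z | ∀ i, P i z} := by
    intro ι _ P hP
    have : {z | ∀ i, P i z} = ⋂ i, {z | P i z} := by
      ext z
      simp only [mem_ofPred_eq, mem_iInter]
    rw [this]
    exact MeasurableSet.iInter hP
  have hX : ∀ x, MeasurableSet {z | FXTX (r z) p x} := fun x =>
    (MeasurableSet.const _).inter ((hiff _ _ _ _ _ _).compl.inter (hiff _ _ _ _ _ _).compl)
  unfold FXTP
  refine hex _ fun x => ?_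
  refine (hX x).inter ?_
  refine hex _ fun s => ?_
  refine (MeasurableSet.const _).inter ?_
  refine hfa _ fun y => ?_
  have h1 : MeasurableSet {z | FXTX (r z) p y ∧ y ≠ x ∧ ¬ r z x y (p 8)} :=
    (hX y).inter ((MeasurableSet.const _).inter (hr _ _ _).compl)
  by_cases hy : y ∈ s
  · simpa only [hy, true_iff] using h1
  · have h2 : {z | y ∈ s ↔ (FXTX (r z) p y ∧ y ≠ x ∧ ¬ r z x y (p 8))} =
        {z | FXTX (r z) p y ∧ y ≠ x ∧ ¬ r z x y (p 8)}ᶜ := by
      ext z
      simp only [mem_ofPred_eq, mem_compl_iff, hy, false_iff]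
    rw [h2]
    exact h1.compl

/-- the combinatorial core of the decoding -/
private theorem fxtp_core {β : Type} (r : β → β → β → Prop) (z : ℕ → Bool) (A : ℕ → β)
    (hA : Function.Injective A)
    (hAB : ∀ i j k, i ≠ j → i ≠ k → j ≠ k → (r (A i) (A j) (A k) ↔ FXTg z i j k = true))
    (h1 : ∀ x, x ∉ range A → (r x (A 0) (A 1) ↔ r x (A 2) (A 3)) ∨
      (r x (A 4) (A 5) ↔ r x (A 6) (A 7))) (n : ℕ) :
    z n = true ↔ FXTP r (fun k : Fin 9 => A k.val) n := by
  have hX : ∀ x, FXTX r (fun k : Fin 9 => A k.val) x ↔ ∃ i, x = A (i + 9) := by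
    intro x
    constructor
    · rintro ⟨k0, k1, k2⟩
      by_cases hxA : x ∈ range A
      · obtain ⟨i, rfl⟩ := hxA
        by_cases hi : i < 9
        · exact absurd rfl (k0 ⟨i, hi⟩)
        · exact ⟨i - 9, by rw [Nat.sub_add_cancel (by omega)]⟩
      · exfalso
        rcases h1 x hxA with h | h
        · exact k1 h
        · exact k2 h
    · rintro ⟨i, rfl⟩
      refine ⟨fun k h => ?_, ?_, ?_⟩
      · have := hA h
        have := k.isLt
        omega
      · show ¬ (r (A (i + 9)) (A 0) (A 1) ↔ r (A (i + 9)) (A 2) (A 3))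
        rw [hAB _ _ _ (by omega) (by omega) (by omega), hAB _ _ _ (by omega) (by omega) (by omega)]
        simp [FXTg]
      · show ¬ (r (A (i + 9)) (A 4) (A 5) ↔ r (A (i + 9)) (A 6) (A 7))
        rw [hAB _ _ _ (by omega) (by omega) (by omega), hAB _ _ _ (by omega) (by omega) (by omega)]
        simp [FXTg]
  have hg : ∀ m j, FXTg z (m + 9) (j + 9) 8 = !(z m && decide (m < j ∧ j ≤ 2 * m + 1)) := by
    intro m j
    unfold FXTg
    rw [if_pos rfl, if_pos ⟨by omega, by omega⟩, Nat.add_sub_cancel]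
    have h : (m + 9 < j + 9 ∧ j + 9 ≤ 2 * (m + 9) - 8) ↔ (m < j ∧ j ≤ 2 * m + 1) := by omega
    simp only [h]
  unfold FXTP
  simp only [hX]
  let f : ℕ ↪ β := ⟨fun j => A (j + 9), fun i j h => by have := hA h; omega⟩
  have key : ∀ m, z m = true → ∀ y, y ∈ (Finset.Ioc m (2 * m + 1)).map f ↔
      ((∃ i, y = A (i + 9)) ∧ y ≠ A (m + 9) ∧ ¬ r (A (m + 9)) y (A 8)) := by
    intro m hz y
    rw [Finset.mem_map]
    constructor
    · rintro ⟨j, hj, rfl⟩
      rw [Finset.mem_Ioc] at hj
      have hne : m + 9 ≠ j + 9 := by omega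
      refine ⟨⟨j, rfl⟩, fun h => hne (hA h).symm, ?_⟩
      show ¬ r (A (m + 9)) (A (j + 9)) (A 8)
      rw [hAB _ _ _ hne (by omega) (by omega), hg]
      simp [hz, hj]
    · rintro ⟨⟨j, rfl⟩, hne, h⟩
      have hne' : m + 9 ≠ j + 9 := fun h => hne (by rw [h])
      rw [hAB _ _ _ hne' (by omega) (by omega), hg] at h
      simp only [hz, Bool.true_and, Bool.not_eq_true', decide_eq_false_iff_not, not_not] at h
      exact ⟨j, Finset.mem_Ioc.2 h, rfl⟩
  have hcard : ∀ m, ((Finset.Ioc m (2 * m + 1)).map f).card = m + 1 := by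
    intro m
    rw [Finset.card_map, Nat.card_Ioc]
    omega
  constructor
  · intro hz
    exact ⟨A (n + 9), ⟨_, rfl⟩, (Finset.Ioc n (2 * n + 1)).map f, hcard n, key n hz⟩
  · rintro ⟨x, ⟨m, rfl⟩, s, hs, hy⟩
    replace hy : ∀ y, y ∈ s ↔ ((∃ i, y = A (i + 9)) ∧ y ≠ A (m + 9) ∧ ¬ r (A (m + 9)) y (A 8)) := hy
    by_cases hz : z m = true
    · have h5 : s = (Finset.Ioc m (2 * m + 1)).map f := by
        ext y
        rw [hy y, key m hz y]
      rw [h5, hcard] at hs
      have h6 : m = n := by omega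
      exact h6 ▸ hz
    · exfalso
      have h5 : s = ∅ := by
        rw [Finset.eq_empty_iff_forall_notMem]
        intro y hys
        obtain ⟨⟨j, rfl⟩, hne, h⟩ := (hy y).mp hys
        have hne' : m + 9 ≠ j + 9 := fun h => hne (by rw [h])
        rw [hAB _ _ _ hne' (by omega) (by omega), hg] at h
        simp [hz] at h
      rw [h5] at hs
      simp at hs

/-- transport of copies along a bijection -/
private theorem fxt_cop {L : FirstOrder.Language.{0, 0}} {P B C : Type} {N : L.Structure P}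
    {D : Set P} {T : L.Structure B} {T' : L.Structure C} {e : B ≃ C} (he : RelIso T T' e)
    (h : Cop N D T) : Cop N D T' := by
  obtain ⟨ι, hι⟩ := h
  refine ⟨fun p => e (ι p), fun a b => ?_⟩
  obtain ⟨h, h1, h2, ⟨u, h3⟩, ⟨v, h4⟩, h5⟩ := hι (e.symm a) (e.symm b)
  refine ⟨fun p => e (h p), e.injective.comp h1, fun d hd => congrArg e (h2 d hd), ⟨u, ?_⟩, ⟨v, ?_⟩,
    fun n R w => ?_⟩
  · show e (h u) = a
    rw [h3, Equiv.apply_symm_apply]
  · show e (h v) = b
    rw [h4, Equiv.apply_symm_apply]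
  · rw [← h5 n R w]
    exact (he n R _).symm

/-- the tuple `(x, y, t, ..., t)` -/
private def tri {β : Type} {n : ℕ} (x y t : β) (i : Fin n) : β :=
  if i.val = 0 then x else if i.val = 1 then y else t

private theorem tri_comp {β γ : Type} {n : ℕ} (f : β → γ) (x y t : β) (i : Fin n) :
    f (tri x y t i) = tri (f x) (f y) (f t) i := by
  unfold tri
  split_ifs <;> rfl

private theorem rrT_iso {L : FirstOrder.Language.{0, 0}} {β γ : Type} {n : ℕ}
    (R : L.Relations n) {T : L.Structure β} {T' : L.Structure γ}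
    {e : β ≃ γ} (he : RelIso T T' e) (x y t : β) :
    T'.RelMap R (tri (e x) (e y) (e t)) ↔ T.RelMap R (tri x y t) := by
  rw [he n R]
  have h : tri (e x) (e y) (e t) = e ∘ (tri x y t : Fin n → β) := by
    funext i
    exact (tri_comp e x y t i).symm
  rw [h]

/-- the relations between three base points -/
private def GT {L : FirstOrder.Language.{0, 0}} {n : ℕ} (R0 : L.Relations n) (z : ℕ → Bool)
    (m : ℕ) (R : L.Relations m) (w : Fin m → ℕ) : Prop :=
  ∃ hm : 3 ≤ m, (⟨m, R⟩ : (k : ℕ) × L.Relations k) = ⟨n, R0⟩ ∧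
    FXTg z (w ⟨0, by omega⟩) (w ⟨1, by omega⟩) (w ⟨2, by omega⟩) = true

private theorem GT_open {L : FirstOrder.Language.{0, 0}} {n : ℕ} (R0 : L.Relations n)
    (z : ℕ → Bool) (m : ℕ) (R : L.Relations m) (w : Fin m → ℕ) :
    IsOpen {z' : ℕ → Bool | GT R0 z' m R w ↔ GT R0 z m R w} := by
  by_cases hm : 3 ≤ m
  · have h1 : ∀ z' : ℕ → Bool, FXTg z' (w ⟨0, by omega⟩) (w ⟨1, by omega⟩) (w ⟨2, by omega⟩) =
        FXTg z (w ⟨0, by omega⟩) (w ⟨1, by omega⟩) (w ⟨2, by omega⟩) →
        (GT R0 z' m R w ↔ GT R0 z m R w) := by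
      intro z' h
      unfold GT
      constructor
      · rintro ⟨a, b, c⟩
        exact ⟨a, b, h ▸ c⟩
      · rintro ⟨a, b, c⟩
        exact ⟨a, b, h.symm ▸ c⟩
    rw [isOpen_iff_mem_nhds]
    intro z1 hz1
    have h2 : IsOpen {z' : ℕ → Bool | FXTg z' (w ⟨0, by omega⟩) (w ⟨1, by omega⟩) (w ⟨2, by omega⟩) =
        FXTg z1 (w ⟨0, by omega⟩) (w ⟨1, by omega⟩) (w ⟨2, by omega⟩)} :=
      (isOpen_discrete {FXTg z1 (w ⟨0, by omega⟩) (w ⟨1, by omega⟩) (w ⟨2, by omega⟩)}).preimage
        (g_cont _ _ _)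
    refine Filter.mem_of_superset (h2.mem_nhds rfl) fun z' hz' => ?_
    have h3 : GT R0 z' m R w ↔ GT R0 z1 m R w := by
      unfold GT
      constructor
      · rintro ⟨a, b, c⟩
        exact ⟨a, b, by rw [← c]; exact hz'.symm⟩
      · rintro ⟨a, b, c⟩
        exact ⟨a, b, by rw [← c]; exact hz'⟩
    exact h3.trans hz1
  · have h1 : {z' : ℕ → Bool | GT R0 z' m R w ↔ GT R0 z m R w} = univ := by
      rw [eq_univ_iff_forall]
      intro z'
      exact ⟨fun h => absurd h.1 hm, fun h => absurd h.1 hm⟩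
    rw [h1]
    exact isOpen_univ

/-- a symbol of arity at least three -/
theorem thm_FXT (hC : St_FXC) : St_FXT := by
  classical
  intro L _ _ K P _ N D hT hK n R0 hn ⟨u, hu⟩
  obtain ⟨tu, htu, htu1, htu2⟩ := hT u hu
  obtain ⟨E, hE, b, A, ρ, hFX, hdep⟩ := hC L P ℕ N D (fun _ => u) hT ⟨0, 1, by simp⟩ fun _ => hu
  let σ : ℕ → ℕ → P := fun i j => if i < j then u else tu
  have hFD : FD N D (fun _ : ℕ => u) σ := by
    refine ⟨fun _ => hu, fun i j _ => ?_, fun i j _ => ?_, fun i j hij => ?_⟩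
    · show (if i < j then u else tu) ∉ D
      split_ifs
      · exact hu
      · exact htu
    · show Pt N D ![if i < j then u else tu] ![u]
      split_ifs
      · exact fun _ _ _ => Iff.rfl
      · exact fun n R w => (htu2 n R w).symm
    · show (if i < j then u else tu) ≠ (if j < i then u else tu)
      rcases lt_or_gt_of_ne hij with h | h
      · rw [if_pos h, if_neg (by omega)]; exact htu1.symm
      · rw [if_neg (by omega), if_pos h]; exact htu1
  let T : (ℕ → Bool) → L.Structure (D ⊕ E) := fun z => A σ (GT R0 z)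
  have hF : ∀ z, FX N D (fun _ : ℕ => u) σ (GT R0 z) (T z) b (ρ σ) := fun z => hFX σ (GT R0 z) hFD
  have hb : Function.Injective b := (hF fun _ => true).inj
  let AA : ℕ → D ⊕ E := fun i => .inr (b i)
  have hAA : Function.Injective AA := fun i j h => hb (Sum.inr_injective h)
  have hcE : Countable (D ⊕ E) := inferInstance
  have hiE : Infinite (D ⊕ E) := Infinite.of_injective AA hAA
  have hmod : ∀ z, ∀ S : L.Structure ℕ, Iso (T z) S → S ∈ K := by
    rintro z S ⟨e, he⟩
    exact hK S (fxt_cop he (hF z).cop)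
  have hcl : ∀ (m : ℕ) (R : L.Relations m) (x : Fin m → D ⊕ E),
      IsClopen {z | (T z).RelMap R x} := by
    intro m R x
    obtain ⟨Fs, Fg, hd⟩ := hdep m R x
    have hloc : IsLocallyConstant fun z => (T z).RelMap R x := by
      rw [IsLocallyConstant.iff_exists_open]
      intro z
      refine ⟨⋂ q ∈ Fg, {z' | GT R0 z' q.1 q.2.1 q.2.2 ↔ GT R0 z q.1 q.2.1 q.2.2}, ?_, ?_, ?_⟩
      · exact isOpen_biInter_finset fun q _ => GT_open R0 z q.1 q.2.1 q.2.2
      · simp only [mem_iInter, mem_ofPred_eq, implies_true]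
      · intro z' hz'
        simp only [mem_iInter, mem_ofPred_eq] at hz'
        exact propext (hd _ _ _ _ (fun _ _ => rfl) hz')
    have h := hloc.isClopen_fiber True
    have h2 : {z | (T z).RelMap R x} = {z | (T z).RelMap R x = True} := by
      ext z
      simp only [mem_ofPred_eq, eq_iff_iff, iff_true]
    rw [h2]
    exact h
  refine perfK_of_decode T hmod hcl (ι := Fin 9 → D ⊕ E)
    (fun p m => {z | FXTP (fun x y t => (T z).RelMap R0 (tri x y t)) p m}) (fun p m => ?_) ?_
  · exact fxtp_meas _ (fun x y t => (hcl _ _ _).2.measurableSet) p m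
  · rintro z z' ⟨e, he⟩
    refine ⟨e ∘ fun k : Fin 9 => AA k.val, fun m => ?_⟩
    have hcore : z m = true ↔ FXTP (fun x y t => (T z).RelMap R0 (tri x y t))
        (fun k : Fin 9 => AA k.val) m := by
      refine fxtp_core _ z AA hAA ?_ ?_ m
      · intro i j k hij hik hjk
        have h := (hF z).free n R0 (tri i j k) ⟨⟨0, by omega⟩, ⟨1, by omega⟩, ⟨2, by omega⟩, hij,
          hik, hjk⟩
        have e1 : (fun t : Fin n => (Sum.inr (b (tri i j k t)) : D ⊕ E)) =
            tri (AA i) (AA j) (AA k) := by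
          funext t
          exact tri_comp AA i j k t
        rw [e1] at h
        rw [h]
        unfold GT
        constructor
        · rintro ⟨_, _, h⟩
          exact h
        · exact fun h => ⟨hn, rfl, h⟩
      · intro x hx
        rcases x with d | e
        · left
          have h : ∀ i j, i < j → ((T z).RelMap R0 (tri (Sum.inl d) (AA i) (AA j)) ↔
              N.RelMap R0 (fun t => Sum.elim Subtype.val ![u, tu]
                (tri (Sum.inl d) (Sum.inr 0) (Sum.inr 1) t))) := by
            intro i j hij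
            have h1 := (hF z).pair (b i) (b j) (hb.ne hij.ne) n R0
              (tri (Sum.inl d) (Sum.inr 0) (Sum.inr 1))
            rw [(hF z).base i j hij.ne, (hF z).base j i hij.ne'] at h1
            have e1 : (fun t : Fin n => (Sum.map id ![b i, b j]
                (tri (Sum.inl d) (Sum.inr 0) (Sum.inr 1) t) : D ⊕ E)) =
                tri (Sum.inl d) (AA i) (AA j) := by
              funext t
              exact tri_comp (Sum.map id ![b i, b j]) (Sum.inl d) (Sum.inr 0) (Sum.inr 1) t
            rw [e1] at h1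
            rw [h1]
            show N.RelMap R0 (fun t => Sum.elim Subtype.val ![if i < j then u else tu,
              if j < i then u else tu] (tri (Sum.inl d) (Sum.inr 0) (Sum.inr 1) t)) ↔ _
            rw [if_pos hij, if_neg (by omega)]
          exact (h 0 1 (by omega)).trans (h 2 3 (by omega)).symm
        · have he : e ∉ range b := by
            rintro ⟨i, rfl⟩
            exact hx ⟨i, rfl⟩
          obtain ⟨i₁, i₂, h⟩ := (hF z).free' e he
          have h' : ∀ i j, i ≠ j → ¬ (i = i₁ ∧ j = i₂) → ¬ (i = i₂ ∧ j = i₁) →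
              ¬ (T z).RelMap R0 (tri (Sum.inr e) (AA i) (AA j)) := by
            intro i j hij k1 k2
            refine h i j hij k1 k2 n R0 _ (fun t => ?_) ⟨⟨0, by omega⟩, rfl⟩
              ⟨⟨1, by omega⟩, rfl⟩ ⟨⟨2, by omega⟩, rfl⟩
            unfold tri
            split_ifs
            · exact Or.inr (Or.inl rfl)
            · exact Or.inr (Or.inr (Or.inl rfl))
            · exact Or.inr (Or.inr (Or.inr rfl))
          by_cases hc : (0 = i₁ ∧ 1 = i₂) ∨ (0 = i₂ ∧ 1 = i₁) ∨ (2 = i₁ ∧ 3 = i₂) ∨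
              (2 = i₂ ∧ 3 = i₁)
          · right
            exact iff_of_false (h' 4 5 (by omega) (by omega) (by omega))
              (h' 6 7 (by omega) (by omega) (by omega))
          · left
            exact iff_of_false (h' 0 1 (by omega) (by omega) (by omega))
              (h' 2 3 (by omega) (by omega) (by omega))
    rw [hcore]
    constructor
    · exact fun h => fxtp_mono e (fun x y t => rrT_iso R0 he x y t) _ m h
    · intro h
      have h3 := fxtp_mono (r := fun x y t => (T z').RelMap R0 (tri x y t))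
        (r' := fun x y t => (T z).RelMap R0 (tri x y t)) e.symm
        (fun x y t => by
          have := rrT_iso R0 he (e.symm x) (e.symm y) (e.symm t)
          simpa only [Equiv.apply_symm_apply] using this.symm) (e ∘ fun k : Fin 9 => AA k.val) m h
      have h4 : e.symm ∘ e ∘ (fun k : Fin 9 => AA k.val) = fun k : Fin 9 => AA k.val := by
        funext k
        simp
      rwa [h4] at h3

end VPF
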