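import Pool.Agent.VPF.StF
import Pool.Agent.VPF.StG

/-!
# VPF: the infinitary Gödel class
-/

set_option autoImplicit false

namespace VPF

open FirstOrder Set Pool.Agent.Helper6.Str Pool.Agent.Helper5.Multi Pool.Agent.Helper79.VC
  Pool.Agent.Helper5.DU Pool.Agent.Helper97.VC Pool.Agent.Helper97.LO

/-- A point is in the same swap class as itself. -/
private theorem GMN_swp_self {L : FirstOrder.Language.{0, 0}} {M : Type} (S : L.Structure M)
    (x : M) : Swp S x x := by
  intro n R v
  simp only [Equiv.swap_self, Equiv.refl_apply]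

/-- An automorphism which fixes `D` keeps the types over `D`. -/
private theorem GMN_pt {L : FirstOrder.Language.{0, 0}} {M : Type} {T : L.Structure M} {D : Set M}
    {e : M ≃ M} (he : RelIso T T e) (hD : ∀ d ∈ D, e d = d) (a : M) : Pt T D ![a] ![e a] := by
  intro n R w
  rw [he n R]
  have h : (e ∘ fun i => Sum.elim Subtype.val ![a] (w i)) =
      fun i => Sum.elim Subtype.val ![e a] (w i) := by
    funext i
    simp only [Function.comp]
    cases hw : w i with
    | inl d => simpa using hD d.1 d.2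
    | inr j => simp [Matrix.cons_val_fin_one]
  rw [h]

theorem thm_GMN (hSWA : St_SWA) (hTWN : St_TWN) (hPTS : St_PTS) (hWGB : St_WGB) (hWGC : St_WGC)
    (hFXB : St_FXB) (hFXT : St_FXT) : St_GMN := by
  intro L _ _ m l θ hq
  by_contra hcon
  rw [not_or] at hcon
  obtain ⟨hC, hP⟩ := hcon
  obtain ⟨hmeas, hclos⟩ := hWGB L m l θ hq
  obtain ⟨T, c, e, a, hW, he, hfix, hsw⟩ := hSWA L m (WG θ) Ordinal.omega0 omega_lt_om1 hmeas hclos
    hP hC
  obtain ⟨D, hCD, htw, hrig⟩ := hTWN L ℕ T (range c)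
  have hed : ∀ d ∈ D, e d = d := by
    apply hrig e he
    rintro _ ⟨i, rfl⟩
    exact hfix i
  have haD : a ∉ D := by
    intro ha
    apply hsw
    rw [hed a ha]
    exact GMN_swp_self T a
  have heaD : e a ∉ D := by
    intro ha
    have h1 : e (e a) = e a := hed _ ha
    have h2 : e a = a := e.injective h1
    rw [h2] at ha
    exact haD ha
  have hcop : CopC {S : L.Structure ℕ | ∃ v, WG θ S v} T D := hWGC L m l θ hq ℕ T c D hCD hW
  have h3 : ∀ n, 3 ≤ n → IsEmpty (L.Relations n) := by
    intro n hn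
    exact ⟨fun R0 => hP (hFXT L _ ℕ T D htw hcop n R0 hn ⟨a, haD⟩)⟩
  refine hsw (hPTS L ℕ T D h3 ?_ a (e a) haD heaD (GMN_pt he hed a))
  intro u v u' v' hu hv hu' hv' huv huv' p1 p2
  by_contra hne
  exact hP (hFXB L _ ℕ T D htw hcop u v u' v' hu hv hu' hv' huv huv' p1 p2 hne)

end VPF
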