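import Pool.Agent.VPF.StA

/-!
# VPF: isomorphisms preserve truth and types (helper46)
-/

set_option autoImplicit false
set_option linter.unusedVariables false

namespace VPF

open FirstOrder Set Pool.Agent.Helper6.Str Pool.Agent.Helper5.Multi Pool.Agent.Helper79.VC

private theorem INV_upd {k : ℕ} {M N : Type} (e : M ≃ N) (v : Fin k → M) (i : Fin k) (a : M) :
    Function.update (e ∘ v) i (e a) = e ∘ Function.update v i a := by
  funext j
  by_cases h : j = i
  · subst h
    simp
  · simp [Function.update_of_ne h]

private theorem INV_sat {L : FirstOrder.Language.{0, 0}} {M N : Type} {S : L.Structure M}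
    {S' : L.Structure N} {e : M ≃ N} (he : RelIso S S' e) {k : ℕ} (φ : FV L k) :
    ∀ v : Fin k → M, φ.Sat S' (e ∘ v) ↔ φ.Sat S v := by
  induction φ with
  | eq i j =>
    intro v
    exact e.injective.eq_iff
  | rel R w =>
    intro v
    exact (he _ R fun i => v (w i)).symm
  | neg φ ih =>
    intro v
    exact not_congr (ih v)
  | conj φ ih =>
    intro v
    exact forall_congr' fun m => ih m v
  | ex i φ ih =>
    intro v
    constructor
    · rintro ⟨a, ha⟩
      refine ⟨e.symm a, (ih _).1 ?_⟩
      rw [← INV_upd, Equiv.apply_symm_apply]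
      exact ha
    · rintro ⟨a, ha⟩
      refine ⟨e a, ?_⟩
      rw [INV_upd]
      exact (ih _).2 ha

/-- [INV] -/
theorem thm_INV : St_INV := by
  intro L F M N S S' e he
  have h1 : ∀ (k : ℕ) (φ : FV L k) (v : Fin k → M), φ.Sat S' (e ∘ v) ↔ φ.Sat S v :=
    fun k φ v => INV_sat he φ v
  have h5 : ∀ x y a, atm S' (e x) (e y) a ↔ atm S x y a := by
    intro x y a
    have h := he _ a.2.1 (fun i => if a.2.2 i = 0 then x else y)
    unfold atm
    rw [h]
    have e1 : (fun i => if a.2.2 i = 0 then e x else e y) =
        fun i => e (if a.2.2 i = 0 then x else y) := by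
      funext i
      split_ifs <;> rfl
    rw [e1]
    rfl
  have h2 : ∀ x, ty S' F (e x) = ty S F x := by
    intro x
    funext i
    apply propext
    cases i with
    | inl p => exact h1 2 (FV.ex p.2 (F p.1)) (fun _ => x)
    | inr a => exact h5 x x a
  have h3 : ∀ x, Kg S' F (e x) ↔ Kg S F x := by
    intro x
    constructor
    · intro h y hy
      exact e.injective (h (e y) (by rw [h2, h2, hy]))
    · intro h y hy
      have h' := h (e.symm y) (by rw [← h2, Equiv.apply_symm_apply, hy, h2])
      rw [← h', Equiv.apply_symm_apply]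
  refine ⟨h1, h2, h3, fun x y => ?_, h5⟩
  unfold EE
  rw [h3, h3, h2, h2]
  have h6 : (∀ z, Kg S' F z → ∀ a, atm S' (e x) z a ↔ atm S' (e y) z a) ↔
      ∀ z, Kg S F z → ∀ a, atm S x z a ↔ atm S y z a := by
    constructor
    · intro h z hz a
      rw [← h5, ← h5]
      exact h (e z) ((h3 z).2 hz) a
    · intro h z hz a
      obtain ⟨w, rfl⟩ := e.surjective z
      rw [h5, h5]
      exact h w ((h3 w).1 hz) a
  rw [h6]

end VPF
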