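import Pool.Agent.VPF.StA

/-!
# VPF, module MEA: truth of infinitary formulas is a Borel property of the code
-/

set_option autoImplicit false

namespace VPF

open FirstOrder Set Pool.Agent.Helper6.Str Pool.Agent.Helper5.Multi Pool.Agent.Helper79.VC

/-- Truth of a formula under a fixed assignment is a Borel property of the structure. -/
private theorem MEA_sat {L : FirstOrder.Language.{0, 0}} [∀ n, IsEmpty (L.Functions n)]
    [∀ n, Countable (L.Relations n)] {k : ℕ} (φ : FV L k) :
    ∀ v : Fin k → ℕ, MeasurableSet {c : Code L | φ.Sat (toStr c) v} := by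
  induction φ with
  | eq i j => intro v; exact MeasurableSet.const _
  | rel R w => intro v; exact measurableSet_relMap R _
  | neg φ ih => intro v; exact (ih v).compl
  | conj φ ih =>
    intro v
    have h : {c : Code L | (FV.conj φ).Sat (toStr c) v} =
        ⋂ m, {c : Code L | (φ m).Sat (toStr c) v} := by
      ext c
      simp only [mem_iInter, mem_ofPred_eq]
      exact Iff.rfl
    rw [h]
    exact MeasurableSet.iInter fun m => ih m v
  | ex i φ ih =>
    intro v
    have h : {c : Code L | (FV.ex i φ).Sat (toStr c) v} =
        ⋃ a, {c : Code L | φ.Sat (toStr c) (Function.update v i a)} := by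
      ext c
      simp only [mem_iUnion, mem_ofPred_eq]
      exact Iff.rfl
    rw [h]
    exact MeasurableSet.iUnion fun a => ih _

theorem thm_MEA : St_MEA := by
  intro L _ _ F
  have hatm : ∀ (x y : ℕ) a, MeasurableSet {c : Code L | atm (toStr c) x y a} :=
    fun x y a => measurableSet_relMap a.2.1 _
  have hty : ∀ (x : ℕ) i, MeasurableSet {c : Code L | ty (toStr c) F x i} := by
    intro x i
    rcases i with p | a
    · exact MEA_sat (FV.ex p.2 (F p.1)) (fun _ => x)
    · exact hatm x x a
  have hiff : ∀ {p q : Code L → Prop}, MeasurableSet {c | p c} → MeasurableSet {c | q c} →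
      MeasurableSet {c | p c ↔ q c} := by
    intro p q hp hq
    have h : {c | p c ↔ q c} = ({c | p c} ∩ {c | q c}) ∪ ({c | p c}ᶜ ∩ {c | q c}ᶜ) := by
      ext c
      simp only [mem_ofPred_eq, mem_union, mem_inter_iff, mem_compl_iff]
      tauto
    rw [h]
    exact (hp.inter hq).union (hp.compl.inter hq.compl)
  have htyeq : ∀ x y : ℕ, MeasurableSet {c : Code L | ty (toStr c) F x = ty (toStr c) F y} := by
    intro x y
    have h : {c : Code L | ty (toStr c) F x = ty (toStr c) F y} =
        ⋂ i, {c : Code L | ty (toStr c) F x i ↔ ty (toStr c) F y i} := by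
      ext c
      simp only [mem_iInter, mem_ofPred_eq]
      constructor
      · intro h i
        rw [h]
      · intro h
        funext i
        exact propext (h i)
    rw [h]
    exact MeasurableSet.iInter fun i => hiff (hty x i) (hty y i)
  have hKg : ∀ x : ℕ, MeasurableSet {c : Code L | Kg (toStr c) F x} := by
    intro x
    have h : {c : Code L | Kg (toStr c) F x} =
        ⋂ y, ({c : Code L | ty (toStr c) F y = ty (toStr c) F x}ᶜ ∪ {_c : Code L | y = x}) := by
      ext c
      simp only [mem_iInter, mem_ofPred_eq, mem_union, mem_compl_iff, Kg]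
      exact forall_congr' fun y => by tauto
    rw [h]
    exact MeasurableSet.iInter fun y => (htyeq y x).compl.union (MeasurableSet.const _)
  refine ⟨fun k φ v => MEA_sat φ v, hty, htyeq, hKg, ?_, hatm⟩
  intro x y
  have h : {c : Code L | EE (toStr c) F x y} =
      {c : Code L | Kg (toStr c) F x}ᶜ ∩ ({c : Code L | Kg (toStr c) F y}ᶜ ∩
        ({c : Code L | ty (toStr c) F x = ty (toStr c) F y} ∩
          ⋂ z, ({c : Code L | Kg (toStr c) F z}ᶜ ∪
            ⋂ a, {c : Code L | atm (toStr c) x z a ↔ atm (toStr c) y z a}))) := by
    ext c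
    simp only [mem_iInter, mem_ofPred_eq, mem_inter_iff, mem_union, mem_compl_iff, EE]
    refine and_congr Iff.rfl (and_congr Iff.rfl (and_congr Iff.rfl ?_))
    exact forall_congr' fun z => by tauto
  rw [h]
  exact (hKg x).compl.inter ((hKg y).compl.inter ((htyeq x y).inter
    (MeasurableSet.iInter fun z => (hKg z).compl.union
      (MeasurableSet.iInter fun a => hiff (hatm x z a) (hatm y z a)))))

end VPF
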