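import Pool.Agent.VPF.StA

/-!
# VPF, module MUL: infinitely many types over the kings
-/

set_option autoImplicit false

namespace VPF

open FirstOrder Set Pool.Agent.Helper6.Str Pool.Agent.Helper5.Multi Pool.Agent.Helper79.VC

variable {L : FirstOrder.Language.{0, 0}}

/-- class sizes -/
private def MUL_mm (x : ℕ → Bool) (k : ℕ) : ℕ := 2 * k + 2 + (if x k then 1 else 0)

private abbrev MUL_G (S : L.Structure ℕ) (F : ℕ → FV L 2) : Type :=
  {m : ℕ // Kg S F m} ⊕ (ℕ × ℕ)

private abbrev MUL_B (S : L.Structure ℕ) (F : ℕ → FV L 2) (x : ℕ → Bool) : Type :=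
  {m : ℕ // Kg S F m} ⊕ {p : ℕ × ℕ // p.2 < MUL_mm x p.1}

private def MUL_J (S : L.Structure ℕ) (F : ℕ → FV L 2) (x : ℕ → Bool) :
    MUL_B S F x → MUL_G S F := Sum.map id Subtype.val

private def MUL_pi (S : L.Structure ℕ) (F : ℕ → FV L 2) (d : ℕ → ℕ) : MUL_G S F → ℕ
  | .inl m => m.1
  | .inr p => d p.1

private def MUL_rho (S : L.Structure ℕ) (F : ℕ → FV L 2) (d d' : ℕ → ℕ) :
    MUL_G S F → MUL_G S F → ℕ
  | .inl m, _ => m.1
  | .inr p, .inl _ => d p.1
  | .inr p, .inr q => if p.1 = q.1 ∧ q.2 < p.2 then d' p.1 else d p.1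

private theorem MUL_J_inj (S : L.Structure ℕ) (F : ℕ → FV L 2) (x : ℕ → Bool) :
    Function.Injective (MUL_J S F x) :=
  Function.Injective.sumMap Function.injective_id Subtype.val_injective

private theorem MUL_gv {N N' M : Type} (J : N → N') (hJ : Function.Injective J) (π : N' → M)
    (ρ : N' → N' → M) {n : ℕ} (v : Fin n → N) (i : Fin n) :
    gv (fun a => π (J a)) (fun a b => ρ (J a) (J b)) v i = gv π ρ (J ∘ v) i := by
  have h1 : Two (J ∘ v) ↔ Two v := by
    unfold Two
    simp only [Function.comp_apply, ne_eq, hJ.eq_iff]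
  have h2 : (fun j => v j ≠ v i) = (fun j => (J ∘ v) j ≠ (J ∘ v) i) := by
    funext j
    simp only [Function.comp_apply, ne_eq, hJ.eq_iff]
  have h3 : ∀ (p q : Fin n → Prop) (_ : p = q) (hp : ∃ j, p j) (hq : ∃ j, q j),
      hp.choose = hq.choose := by
    rintro p _ rfl _ _
    rfl
  have h4 : (∃ j, v j ≠ v i) ↔ ∃ j, (J ∘ v) j ≠ (J ∘ v) i :=
    exists_congr fun j => by rw [congrFun h2 j]
  unfold gv
  by_cases ht : Two v
  · rw [if_pos ht, if_pos (h1.2 ht)]
    by_cases he : ∃ j, v j ≠ v i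
    · rw [dif_pos he, dif_pos (h4.1 he), h3 _ _ h2 he (h4.1 he)]
      rfl
    · rw [dif_neg he, dif_neg (fun h => he (h4.2 h))]
      rfl
  · rw [if_neg ht, if_neg (fun h => ht (h1.1 h))]
    rfl

private theorem MUL_swap {M : Type} (S : L.Structure M) (x y : M) (a : Atm L) :
    atm S x y a ↔ atm S y x ⟨a.1, (a.2.1, fun i => Fin.rev (a.2.2 i))⟩ := by
  unfold atm
  have : (fun i => if a.2.2 i = 0 then x else y) =
      fun i => if Fin.rev (a.2.2 i) = 0 then y else x := by
    funext i
    obtain ⟨b, hb⟩ : ∃ b : Fin 2, b = a.2.2 i := ⟨_, rfl⟩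
    rw [← hb]
    fin_cases b
    · rfl
    · rfl
  rw [this]

private theorem MUL_EE_symm {M : Type} {S : L.Structure M} {F : ℕ → FV L 2} {x y : M}
    (h : EE S F x y) : EE S F y x :=
  ⟨h.2.1, h.1, h.2.2.1.symm, fun z hz a => (h.2.2.2 z hz a).symm⟩

private theorem MUL_EE_trans {M : Type} {S : L.Structure M} {F : ℕ → FV L 2} {x y z : M}
    (h : EE S F x y) (h' : EE S F y z) : EE S F x z :=
  ⟨h.1, h'.2.1, h.2.2.1.trans h'.2.2.1, fun w hw a => (h.2.2.2 w hw a).trans (h'.2.2.2 w hw a)⟩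

private theorem MUL_EE_refl {M : Type} {S : L.Structure M} {F : ℕ → FV L 2} {x : M}
    (h : ¬ Kg S F x) : EE S F x x := ⟨h, h, rfl, fun _ _ _ => Iff.rfl⟩

/-- representatives of all classes -/
private theorem MUL_reps (S : L.Structure ℕ) (F : ℕ → FV L 2) (f : ℕ → ℕ)
    (h1 : ∀ k, ¬ Kg S F (f k)) (h2 : ∀ k l, k ≠ l → ¬ EE S F (f k) (f l)) :
    ∃ d : ℕ → ℕ, (∀ k, ¬ Kg S F (d k)) ∧ (∀ k l, k ≠ l → ¬ EE S F (d k) (d l)) ∧
      ∀ y, ¬ Kg S F y → ∃ k, EE S F (d k) y := by
  classical
  obtain ⟨R, hR⟩ : ∃ R : ℕ → Prop, R = fun y => ¬ Kg S F y ∧ ∀ z < y, ¬ EE S F z y := ⟨_, rfl⟩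
  have hR' : ∀ y, R y ↔ (¬ Kg S F y ∧ ∀ z < y, ¬ EE S F z y) := by
    intro y
    rw [hR]
  have hleast : ∀ y, ¬ Kg S F y → ∃ z, R z ∧ EE S F z y := by
    intro y hy
    have hex : ∃ z, EE S F z y := ⟨y, MUL_EE_refl hy⟩
    refine ⟨Nat.find hex, ?_, Nat.find_spec hex⟩
    rw [hR']
    refine ⟨(Nat.find_spec hex).1, fun z hz h => ?_⟩
    exact Nat.find_min hex hz (MUL_EE_trans h (Nat.find_spec hex))
  have hinf : ({y | R y}).Infinite := by
    choose g hg1 hg2 using fun k => hleast (f k) (h1 k)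
    have hginj : Function.Injective g := by
      intro k l hkl
      by_contra hne
      apply h2 k l hne
      exact MUL_EE_trans (MUL_EE_symm (hg2 k)) (by rw [hkl]; exact hg2 l)
    refine (Set.infinite_range_of_injective hginj).mono ?_
    rintro _ ⟨k, rfl⟩
    exact hg1 k
  refine ⟨Nat.nth R, ?_, ?_, ?_⟩
  · intro k
    exact ((hR' _).1 (Nat.nth_mem_of_infinite hinf k)).1
  · intro k l hkl h
    have hne : Nat.nth R k ≠ Nat.nth R l := fun h' => hkl (Nat.nth_injective hinf h')
    rcases lt_or_gt_of_ne hne with h3 | h3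
    · exact ((hR' _).1 (Nat.nth_mem_of_infinite hinf l)).2 _ h3 h
    · exact ((hR' _).1 (Nat.nth_mem_of_infinite hinf k)).2 _ h3 (MUL_EE_symm h)
  · intro y hy
    obtain ⟨z, hz1, hz2⟩ := hleast y hy
    have : z ∈ Set.range (Nat.nth R) := by
      rw [Nat.range_nth_of_infinite hinf]
      exact hz1
    obtain ⟨k, hk⟩ := this
    exact ⟨k, by rw [hk]; exact hz2⟩

theorem thm_MUL (hTRU : St_TRU) (hPST : St_PST) (hINV : St_INV) : St_MUL := by
  classical
  intro L _ _ F hF S hS hUni ⟨f, hf1, hf2⟩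
  obtain ⟨d, hd1, hd2, hd3⟩ := MUL_reps S F f hf1 hf2
  have hd' : ∀ k, ∃ y, ty S F y = ty S F (d k) ∧ y ≠ d k := by
    intro k
    have h := hd1 k
    unfold Kg at h
    push Not at h
    exact h
  choose d' hd'1 hd'2 using hd'
  have hdinj : ∀ k l, k ≠ l → d k ≠ d l := by
    intro k l hkl h
    exact hd2 k l hkl (by rw [h]; exact MUL_EE_refl (hd1 l))
  have hswap : ∀ {x y x' y' : ℕ}, (∀ a, atm S x y a ↔ atm S x' y' a) →
      ∀ a, atm S y x a ↔ atm S y' x' a := by
    intro x y x' y' h a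
    rw [MUL_swap S y x a, MUL_swap S y' x' a]
    exact h _
  have hmm : ∀ x k, 2 ≤ MUL_mm x k := by
    intro x k
    unfold MUL_mm
    omega
  -- the structures
  obtain ⟨Pi0, hPi⟩ : ∃ Pi0 : MUL_G S F → ℕ, Pi0 = MUL_pi S F d := ⟨_, rfl⟩
  obtain ⟨P, hP⟩ : ∃ P : MUL_G S F → MUL_G S F → ℕ, P = MUL_rho S F d d' := ⟨_, rfl⟩
  have hPSt : ∀ x, PSt S F (fun a => Pi0 (MUL_J S F x a))
      (fun a b => P (MUL_J S F x a) (MUL_J S F x b)) := by
    intro x
    subst hPi hP
    constructor
    · rintro (m | p) (m' | q) hne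
      · rfl
      · rfl
      · rfl
      · show ty S F (if p.1.1 = q.1.1 ∧ q.1.2 < p.1.2 then d' p.1.1 else d p.1.1) =
          ty S F (d p.1.1)
        split_ifs
        · exact hd'1 _
        · rfl
    · rintro (m | p) (m' | q) hne
      · intro h
        exact hne (congrArg Sum.inl (Subtype.ext h))
      · intro h
        have h' : m.1 = d q.1.1 := h
        exact hd1 _ (h' ▸ m.2)
      · intro h
        have h' : d p.1.1 = m'.1 := h
        exact hd1 p.1.1 (by rw [h']; exact m'.2)
      · show (if p.1.1 = q.1.1 ∧ q.1.2 < p.1.2 then d' p.1.1 else d p.1.1) ≠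
          (if q.1.1 = p.1.1 ∧ p.1.2 < q.1.2 then d' q.1.1 else d q.1.1)
        by_cases hk : p.1.1 = q.1.1
        · have hj : p.1.2 ≠ q.1.2 := by
            intro h
            exact hne (congrArg Sum.inr (Subtype.ext (Prod.ext hk h)))
          rcases lt_or_gt_of_ne hj with h3 | h3
          · rw [if_neg (by omega), if_pos ⟨hk.symm, h3⟩, hk]
            exact (hd'2 _).symm
          · rw [if_pos ⟨hk, h3⟩, if_neg (by omega), hk]
            exact hd'2 _
        · rw [if_neg (by omega), if_neg (by omega)]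
          exact hdinj _ _ hk
    · intro a y hy
      by_cases hyk : Kg S F y
      · refine ⟨.inl ⟨y, hyk⟩, ?_, rfl, ?_⟩
        · rintro rfl
          exact hy rfl
        · rcases a with m | p
          · intro _
            exact Iff.rfl
          · intro _
            exact Iff.rfl
      · obtain ⟨l, hl⟩ := hd3 y hyk
        obtain ⟨j, hj, hja⟩ : ∃ j, ∃ hj : j < MUL_mm x l,
            (Sum.inr ⟨(l, j), hj⟩ : MUL_B S F x) ≠ a := by
          have h2 := hmm x l
          have h00 : 0 < MUL_mm x l := by omega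
          by_cases h0 : (Sum.inr ⟨(l, 0), h00⟩ : MUL_B S F x) = a
          · refine ⟨1, by omega, ?_⟩
            rw [← h0]
            intro h
            have := congrArg (fun p => p.1.2) (Sum.inr.inj h)
            simp at this
          · exact ⟨0, h00, h0⟩
        refine ⟨.inr ⟨(l, j), hj⟩, hja, hl.2.2.1, ?_⟩
        rcases a with m | p
        · intro b
          exact (hswap (fun b => hl.2.2.2 m.1 m.2 b) b).symm
        · have hne1 : d p.1.1 ≠ y := fun h => hy h.symm
          show ∀ b, atm S (d p.1.1) y b ↔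
            atm S (if p.1.1 = l ∧ j < p.1.2 then d' p.1.1 else d p.1.1)
              (if l = p.1.1 ∧ p.1.2 < j then d' l else d l) b
          have hne2 : (if p.1.1 = l ∧ j < p.1.2 then d' p.1.1 else d p.1.1) ≠
              (if l = p.1.1 ∧ p.1.2 < j then d' l else d l) := by
            by_cases hk : p.1.1 = l
            · have hj' : p.1.2 ≠ j := by
                intro h
                apply hja
                exact congrArg Sum.inr (Subtype.ext (Prod.ext hk.symm h.symm))
              rcases lt_or_gt_of_ne hj' with h3 | h3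
              · rw [if_neg (by omega), if_pos ⟨hk.symm, h3⟩, hk]
                exact (hd'2 _).symm
              · rw [if_pos ⟨hk, h3⟩, if_neg (by omega), hk]
                exact hd'2 _
            · rw [if_neg (by omega), if_neg (by omega)]
              exact hdinj _ _ hk
          refine hUni _ _ _ _ hne1 hne2 (hd1 _) hyk ?_ ?_
          · split_ifs
            · exact (hd'1 _).symm
            · rfl
          · rw [← hl.2.2.1]
            split_ifs
            · exact (hd'1 _).symm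
            · rfl
  obtain ⟨N, hN⟩ : ∃ N : ∀ x, L.Structure (MUL_B S F x), N = fun x =>
      pst S (fun a => Pi0 (MUL_J S F x a)) (fun a b => P (MUL_J S F x a) (MUL_J S F x b)) :=
    ⟨_, rfl⟩
  have hN1 : ∀ x a b, a ≠ b → ∀ c, atm (N x) a b c ↔
      atm S (P (MUL_J S F x a) (MUL_J S F x b)) (P (MUL_J S F x b) (MUL_J S F x a)) c := by
    intro x a b hab c
    rw [hN]
    exact (hPST L F _ _ S _ _ (hPSt x)).1 a b hab c
  have hMat : ∀ x, Mat S (N x) F (fun a => Pi0 (MUL_J S F x a)) := by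
    intro x
    rw [hN]
    exact (hPST L F _ _ S _ _ (hPSt x)).2.2
  have hty : ∀ x a, ty (N x) F a = ty S F (Pi0 (MUL_J S F x a)) := fun x =>
    (hTRU L F _ _ S (N x) _ hF (hMat x)).1
  have hmodel : ∀ x (v : Fin 2 → MUL_B S F x), (F 0).Sat (N x) v := fun x =>
    (hTRU L F _ _ S (N x) _ hF (hMat x)).2 0 hS
  have hnk : ∀ x (p : {p : ℕ × ℕ // p.2 < MUL_mm x p.1}), ¬ Kg (N x) F (.inr p) := by
    intro x p h
    obtain ⟨j, hj, hjp⟩ : ∃ j, ∃ hj : j < MUL_mm x p.1.1, j ≠ p.1.2 := by
      have h2 := hmm x p.1.1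
      by_cases h0 : p.1.2 = 0
      · exact ⟨1, by omega, by omega⟩
      · exact ⟨0, by omega, fun h => h0 h.symm⟩
    have h3 := h (.inr ⟨(p.1.1, j), hj⟩) (by rw [hty, hty, hPi]; rfl)
    apply hjp
    exact congrArg (fun p => p.1.2) (Sum.inr.inj h3)
  have hkg : ∀ x (m : {m : ℕ // Kg S F m}), Kg (N x) F (.inl m) := by
    intro x m b hb
    rw [hty, hty, hPi] at hb
    rcases b with m' | p
    · exact congrArg Sum.inl (Subtype.ext (m.2 m'.1 hb))
    · exfalso
      have h := m.2 (d p.1.1) hb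
      exact hd1 p.1.1 (by rw [h]; exact m.2)
  have hEE : ∀ x (p q : {p : ℕ × ℕ // p.2 < MUL_mm x p.1}),
      EE (N x) F (.inr p) (.inr q) ↔ p.1.1 = q.1.1 := by
    intro x p q
    have hat : ∀ (r : {p : ℕ × ℕ // p.2 < MUL_mm x p.1}) (m : {m : ℕ // Kg S F m}) c,
        atm (N x) (.inr r) (.inl m) c ↔ atm S (d r.1.1) m.1 c := by
      intro r m c
      rw [hN1 x _ _ (by simp) c, hP]
      exact Iff.rfl
    constructor
    · intro h
      by_contra hne
      apply hd2 _ _ hne
      refine ⟨hd1 _, hd1 _, ?_, ?_⟩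
      · have h1 := h.2.2.1
        rw [hty, hty, hPi] at h1
        exact h1
      · intro z hz c
        have h1 := h.2.2.2 (.inl ⟨z, hz⟩) (hkg x _) c
        rw [hat, hat] at h1
        exact h1
    · intro hpq
      refine ⟨hnk x p, hnk x q, ?_, ?_⟩
      · rw [hty, hty, hPi]
        show ty S F (d p.1.1) = ty S F (d q.1.1)
        rw [hpq]
      · rintro (m | r) hz c
        · rw [hat, hat, hpq]
        · exact absurd hz (hnk x r)
  have hcard : ∀ x (p : {p : ℕ × ℕ // p.2 < MUL_mm x p.1}),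
      {b | EE (N x) F b (.inr p)}.ncard = MUL_mm x p.1.1 := by
    intro x p
    have h1 : {b | EE (N x) F b (.inr p)} = (fun j : Fin (MUL_mm x p.1.1) =>
        (Sum.inr ⟨(p.1.1, j.1), j.2⟩ : MUL_B S F x)) '' univ := by
      ext b
      constructor
      · intro hb
        rcases b with m | q
        · exact absurd (hkg x m) hb.1
        · have h2 := (hEE x q p).1 hb
          refine ⟨⟨q.1.2, by rw [← h2]; exact q.2⟩, mem_univ _, ?_⟩
          exact congrArg Sum.inr (Subtype.ext (Prod.ext h2.symm rfl))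
      · rintro ⟨j, -, rfl⟩
        exact (hEE x _ _).2 rfl
    rw [h1, Set.ncard_image_of_injective, Set.ncard_univ, Nat.card_eq_fintype_card,
      Fintype.card_fin]
    intro i j hij
    exact Fin.ext (congrArg (fun p => p.1.2) (Sum.inr.inj hij))
  refine perfK_of_embed (γ := MUL_G S F) (β := fun x => MUL_B S F x) (pst S Pi0 P) N
    (MUL_J S F) (MUL_J_inj S F) ?_ ?_ ?_ ?_ ?_
  · intro x n R v
    rw [hN]
    show S.RelMap R _ ↔ S.RelMap R _
    have : gv (fun a => Pi0 (MUL_J S F x a)) (fun a b => P (MUL_J S F x a) (MUL_J S F x b)) v =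
        gv Pi0 P (MUL_J S F x ∘ v) := funext fun i => MUL_gv _ (MUL_J_inj S F x) Pi0 P v i
    rw [this]
  · intro x
    refine Infinite.of_injective (fun k : ℕ =>
      (Sum.inr ⟨(k, 0), by have := hmm x k; show 0 < MUL_mm x k; omega⟩ : MUL_B S F x)) ?_
    intro k l hkl
    exact congrArg (fun p => p.1.1) (Sum.inr.inj hkl)
  · rintro (m | ⟨k, i⟩)
    · have : {x | (Sum.inl m : MUL_G S F) ∈ range (MUL_J S F x)} = univ := by
        ext x
        simp only [mem_ofPred_eq, mem_univ, iff_true]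
        exact ⟨.inl m, rfl⟩
      rw [this]
      exact isClopen_univ
    · have : {x | (Sum.inr (k, i) : MUL_G S F) ∈ range (MUL_J S F x)} =
          (fun x : ℕ → Bool => x k) ⁻¹' {b | i < 2 * k + 2 + (if b then 1 else 0)} := by
        ext x
        constructor
        · rintro ⟨(m | p), hp⟩
          · exact absurd hp (by simp [MUL_J])
          · have h1 : p.1 = (k, i) := Sum.inr.inj hp
            have h2 := p.2
            rw [h1] at h2
            exact h2
        · intro hx
          exact ⟨.inr ⟨(k, i), hx⟩, rfl⟩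
      rw [this]
      exact (isClopen_discrete _).preimage (continuous_apply k)
  · rintro x S' ⟨e, he⟩
    intro v
    have h1 := (hINV L F _ _ (N x) S' e he).1 2 (F 0) (e.symm ∘ v)
    have h2 : e ∘ (e.symm ∘ v) = v := by
      funext i
      simp
    rw [h2] at h1
    exact h1.2 (hmodel x _)
  · rintro x y ⟨e, he⟩
    funext k
    have hinv := hINV L F _ _ (N x) (N y) e he
    have h0 : 0 < MUL_mm x k := by have := hmm x k; omega
    obtain ⟨p, hp⟩ : ∃ p : {p : ℕ × ℕ // p.2 < MUL_mm x p.1}, p = ⟨(k, 0), h0⟩ := ⟨_, rfl⟩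
    have h1 : ¬ Kg (N y) F (e (.inr p)) := by
      rw [hinv.2.2.1]
      exact hnk x p
    obtain ⟨q, hq⟩ : ∃ q, e (.inr p) = .inr q := by
      rcases hep : e (.inr p) with m | q
      · rw [hep] at h1
        exact absurd (hkg y m) h1
      · exact ⟨q, rfl⟩
    have h2 : {b | EE (N y) F b (.inr q)} = e '' {b | EE (N x) F b (.inr p)} := by
      ext b
      constructor
      · intro hb
        refine ⟨e.symm b, ?_, by simp⟩
        have h3 := hinv.2.2.2.1 (e.symm b) (.inr p)
        rw [Equiv.apply_symm_apply, hq] at h3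
        exact h3.1 hb
      · rintro ⟨c, hc, rfl⟩
        have h3 := hinv.2.2.2.1 c (.inr p)
        rw [hq] at h3
        exact h3.2 hc
    have h3 := hcard y q
    rw [h2, Set.ncard_image_of_injective _ e.injective, hcard x p, hp] at h3
    have h4 : MUL_mm x k = MUL_mm y q.1.1 := h3
    unfold MUL_mm at h4
    have h5 : k = q.1.1 := by
      revert h4
      split_ifs <;> intro h4 <;> omega
    rw [← h5] at h4
    cases hx : x k <;> cases hy : y k
    · rfl
    · rw [hx, hy] at h4
      simp at h4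
    · rw [hx, hy] at h4
      simp at h4
    · rfl

end VPF
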