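import Pool.Agent.VPF.StA

/-!
# VPF: structures from prescribed pairs (`St_PST`)
-/

set_option autoImplicit false

namespace VPF

open FirstOrder Set Pool.Agent.Helper6.Str Pool.Agent.Helper5.Multi Pool.Agent.Helper79.VC

variable {M N : Type}

private theorem PST_gv_const (π : N → M) (ρ : N → N → M) {n : ℕ} (v : Fin n → N)
    (h : ∀ i j, v i = v j) (i : Fin n) : gv π ρ v i = π (v i) := by
  have h1 : ¬ Two v := by
    rintro ⟨a, b, hab, -⟩
    exact hab (h a b)
  unfold gv
  rw [if_neg h1]

private theorem PST_gv_two (π : N → M) (ρ : N → N → M) {n : ℕ} (w : Fin n → Fin 2) (x y : N)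
    (hxy : x ≠ y) (h0 : ∃ i, w i = 0) (h1 : ∃ j, w j ≠ 0) (i : Fin n) :
    gv π ρ (fun i => if w i = 0 then x else y) i = if w i = 0 then ρ x y else ρ y x := by
  obtain ⟨i0, hi0⟩ := h0
  obtain ⟨j0, hj0⟩ := h1
  have hv0 : ∀ k, w k = 0 → (fun i => if w i = 0 then x else y) k = x := fun k hk => if_pos hk
  have hv1 : ∀ k, w k ≠ 0 → (fun i => if w i = 0 then x else y) k = y := fun k hk => if_neg hk
  have hT : Two (fun i => if w i = 0 then x else y) := by
    refine ⟨i0, j0, ?_, fun k => ?_⟩
    · rw [hv0 i0 hi0, hv1 j0 hj0]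
      exact hxy
    · by_cases hk : w k = 0
      · left
        rw [hv0 k hk, hv0 i0 hi0]
      · right
        rw [hv1 k hk, hv1 j0 hj0]
  have hex : ∃ j, (fun i => if w i = 0 then x else y) j ≠ (fun i => if w i = 0 then x else y) i := by
    by_cases hi : w i = 0
    · exact ⟨j0, by rw [hv0 i hi, hv1 j0 hj0]; exact hxy.symm⟩
    · exact ⟨i0, by rw [hv1 i hi, hv0 i0 hi0]; exact hxy⟩
  unfold gv
  rw [if_pos hT, dif_pos hex]
  have hc := hex.choose_spec
  generalize hex.choose = c at hc ⊢
  by_cases hi : w i = 0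
  · rw [hv0 i hi] at hc ⊢
    have h2 : w c ≠ 0 := fun h => hc (hv0 _ h)
    rw [hv1 _ h2, if_pos hi]
  · rw [hv1 i hi] at hc ⊢
    have h2 : w c = 0 := by
      by_contra h
      exact hc (hv1 _ h)
    rw [hv0 _ h2, if_neg hi]

theorem thm_PST : St_PST := by
  intro L _ F M N S π ρ hP
  have key : ∀ x y, x ≠ y → ∀ a, atm (pst S π ρ) x y a ↔ atm S (ρ x y) (ρ y x) a := by
    rintro x y hxy ⟨n, R, w⟩
    change S.RelMap R (gv π ρ (fun i => if w i = 0 then x else y)) ↔
      S.RelMap R (fun i => if w i = 0 then ρ x y else ρ y x)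
    by_cases h0 : ∃ i, w i = 0
    · by_cases h1 : ∃ j, w j ≠ 0
      · have e : gv π ρ (fun i => if w i = 0 then x else y) =
            fun i => if w i = 0 then ρ x y else ρ y x :=
          funext fun i => PST_gv_two π ρ w x y hxy h0 h1 i
        rw [e]
      · push Not at h1
        have e : gv π ρ (fun i => if w i = 0 then x else y) = fun _ => π x := by
          funext i
          rw [PST_gv_const π ρ _ (fun i j => by simp only [h1]) i]
          simp only [h1, if_true]
        have e2 : (fun i => if w i = 0 then ρ x y else ρ y x) = fun _ : Fin n => ρ x y := by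
          funext i
          simp only [h1, if_true]
        rw [e, e2]
        have h2 := congrFun (hP.ty_eq x y hxy) (Sum.inr ⟨n, R, fun _ => 0⟩)
        have h3 : S.RelMap R (fun _ : Fin n => ρ x y) = S.RelMap R (fun _ : Fin n => π x) := by
          simpa [ty, atm] using h2
        rw [h3]
    · push Not at h0
      have e : gv π ρ (fun i => if w i = 0 then x else y) = fun _ => π y := by
        funext i
        rw [PST_gv_const π ρ _ (fun i j => by simp only [h0, if_false]) i]
        simp only [h0, if_false]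
      have e2 : (fun i => if w i = 0 then ρ x y else ρ y x) = fun _ : Fin n => ρ y x := by
        funext i
        simp only [h0, if_false]
      rw [e, e2]
      have h2 := congrFun (hP.ty_eq y x hxy.symm) (Sum.inr ⟨n, R, fun _ => 0⟩)
      have h3 : S.RelMap R (fun _ : Fin n => ρ y x) = S.RelMap R (fun _ : Fin n => π y) := by
        simpa [ty, atm] using h2
      rw [h3]
  have key2 : ∀ x a, atm (pst S π ρ) x x a ↔ atm S (π x) (π x) a := by
    rintro x ⟨n, R, w⟩
    change S.RelMap R (gv π ρ (fun i => if w i = 0 then x else x)) ↔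
      S.RelMap R (fun i => if w i = 0 then π x else π x)
    have e : gv π ρ (fun i => if w i = 0 then x else x) = fun i => if w i = 0 then π x else π x := by
      funext i
      rw [PST_gv_const π ρ _ (fun i j => by simp only [ite_self]) i]
      simp only [ite_self]
    rw [e]
  refine ⟨key, key2, ?_, ?_⟩
  · intro x' y'
    by_cases h : x' = y'
    · subst h
      exact ⟨π x', π x', rfl, rfl, ⟨fun _ => rfl, fun _ => rfl⟩, fun a => (key2 x' a).symm⟩
    · exact ⟨ρ x' y', ρ y' x', hP.ty_eq x' y' h, hP.ty_eq y' x' (Ne.symm h),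
        ⟨fun h2 => absurd h2 (hP.ne x' y' h), fun h2 => absurd h2 h⟩, fun a => (key x' y' h a).symm⟩
  · intro x' y
    by_cases h : y = π x'
    · subst h
      exact ⟨x', rfl, ⟨fun _ => rfl, fun _ => rfl⟩, fun a => (key2 x' a).symm⟩
    · obtain ⟨y', h1, h2, h3⟩ := hP.ext x' y h
      exact ⟨y', h2, ⟨fun h4 => absurd h4.symm h, fun h4 => absurd h4.symm h1⟩,
        fun a => (h3 a).trans (key x' y' (Ne.symm h1) a).symm⟩

end VPF
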