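import Pool.Agent.VPF.StG

/-!
# Points of the same type over `D` are twins
-/

set_option autoImplicit false

namespace VPF

open FirstOrder Set Pool.Agent.Helper6.Str Pool.Agent.Helper5.Multi Pool.Agent.Helper79.VC

section

variable {L : FirstOrder.Language.{0, 0}} {P : Type} {N : L.Structure P} {D : Set P}

private theorem PTS_refl {k : ℕ} (x : Fin k → P) : Pt N D x x := fun _ _ _ => Iff.rfl

private theorem PTS_symm {k : ℕ} {x x' : Fin k → P} (h : Pt N D x x') : Pt N D x' x :=
  fun n R w => (h n R w).symm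

private theorem PTS_use {k n : ℕ} {x x' : Fin k → P} (h : Pt N D x x') (R : L.Relations n)
    (v v' : Fin n → P)
    (hv : ∀ i, (v i ∈ D ∧ v' i = v i) ∨ ∃ j, v i = x j ∧ v' i = x' j) :
    N.RelMap R v' ↔ N.RelMap R v := by
  have hw : ∀ i, ∃ w : D ⊕ Fin k, Sum.elim Subtype.val x w = v i ∧
      Sum.elim Subtype.val x' w = v' i := by
    intro i
    rcases hv i with ⟨h1, h2⟩ | ⟨j, h1, h2⟩
    · exact ⟨Sum.inl ⟨v i, h1⟩, rfl, h2.symm⟩
    · exact ⟨Sum.inr j, h1.symm, h2.symm⟩
  choose w hw1 hw2 using hw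
  have h3 := h n R w
  have e1 : (fun i => Sum.elim Subtype.val x (w i)) = v := funext hw1
  have e2 : (fun i => Sum.elim Subtype.val x' (w i)) = v' := funext hw2
  rw [e1, e2] at h3
  exact h3.symm

end

theorem thm_PTS : St_PTS := by
  classical
  intro L P N D h3 h2 u u' hu hu' hP n R v
  have hD : ∀ d ∈ D, Equiv.swap u u' d = d := by
    intro d hd
    refine Equiv.swap_apply_of_ne_of_ne ?_ ?_
    · rintro rfl
      exact hu hd
    · rintro rfl
      exact hu' hd
  have hT : ∀ p, p ∉ D → Equiv.swap u u' p ∉ D ∧ Pt N D ![p] ![Equiv.swap u u' p] := by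
    intro p hp
    by_cases h : p = u
    · subst h
      rw [Equiv.swap_apply_left]
      exact ⟨hu', hP⟩
    · by_cases h' : p = u'
      · subst h'
        rw [Equiv.swap_apply_right]
        exact ⟨hu, PTS_symm hP⟩
      · rw [Equiv.swap_apply_of_ne_of_ne h h']
        exact ⟨hp, PTS_refl _⟩
  generalize Equiv.swap u u' = t at hD hT
  have h1 : ∀ p, p ∉ D → (∀ i, v i ∈ D ∨ v i = p) →
      (N.RelMap R (fun i => t (v i)) ↔ N.RelMap R v) := by
    intro p hp hv
    refine PTS_use (hT p hp).2 R v _ fun i => ?_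
    rcases hv i with h | h
    · exact Or.inl ⟨h, hD _ h⟩
    · exact Or.inr ⟨0, h, congrArg t h⟩
  have h4 : ∀ p q, p ∉ D → q ∉ D → (∀ i, v i ∈ D ∨ v i = p ∨ v i = q) →
      (N.RelMap R (fun i => t (v i)) ↔ N.RelMap R v) := by
    intro p q hp hq hv
    by_cases hpq : p = q
    · subst hpq
      exact h1 p hp fun i => (hv i).imp id fun h => h.elim id id
    · refine PTS_use (h2 p q (t p) (t q) hp hq (hT p hp).1 (hT q hq).1 hpq
        (fun h => hpq (t.injective h)) (hT p hp).2 (hT q hq).2) R v _ fun i => ?_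
      rcases hv i with h | h | h
      · exact Or.inl ⟨h, hD _ h⟩
      · exact Or.inr ⟨0, h, congrArg t h⟩
      · exact Or.inr ⟨1, h, congrArg t h⟩
  have h0 : (∀ i, v i ∈ D) → (N.RelMap R (fun i => t (v i)) ↔ N.RelMap R v) := by
    intro hv
    exact h1 u hu fun i => Or.inl (hv i)
  match n, R, v, h0, h1, h4 with
  | 0, R, v, h0, h1, h4 => exact h0 fun i => i.elim0
  | 1, R, v, h0, h1, h4 =>
    by_cases h : v 0 ∈ D
    · refine h0 fun i => ?_
      rw [Subsingleton.elim i 0]
      exact h
    · refine h1 (v 0) h fun i => ?_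
      rw [Subsingleton.elim i 0]
      exact Or.inr rfl
  | 2, R, v, h0, h1, h4 =>
    by_cases ha : v 0 ∈ D
    · by_cases hb : v 1 ∈ D
      · refine h0 fun i => ?_
        fin_cases i
        · exact ha
        · exact hb
      · refine h1 (v 1) hb fun i => ?_
        fin_cases i
        · exact Or.inl ha
        · exact Or.inr rfl
    · by_cases hb : v 1 ∈ D
      · refine h1 (v 0) ha fun i => ?_
        fin_cases i
        · exact Or.inr rfl
        · exact Or.inl hb
      · refine h4 (v 0) (v 1) ha hb fun i => ?_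
        fin_cases i
        · exact Or.inr (Or.inl rfl)
        · exact Or.inr (Or.inr rfl)
  | (m + 3), R, v, h0, h1, h4 => exact ((h3 (m + 3) (by omega)).false R).elim

end VPF
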