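import Pool.Agent.VPF.StA

/-!
# VPF SUB: every formula is in a countable set closed under subformulas
-/

set_option autoImplicit false

namespace VPF

open FirstOrder Set

variable {L : FirstOrder.Language.{0, 0}} {k : ℕ}

/-- Put a formula in front of a closed sequence which contains its immediate subformulas. -/
private theorem SUB_front (F : ℕ → FV L k) (hF : Cls F) (φ : FV L k)
    (h : ∀ ψ, Sub1 ψ φ → ∃ m, F m = ψ) : ∃ G : ℕ → FV L k, Cls G ∧ G 0 = φ := by
  refine ⟨fun m => Nat.casesOn m φ F, ?_, rfl⟩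
  intro m ψ hs
  cases m with
  | zero =>
    obtain ⟨m', hm'⟩ := h ψ hs
    exact ⟨m' + 1, hm'⟩
  | succ m =>
    obtain ⟨m', hm'⟩ := hF m ψ hs
    exact ⟨m' + 1, hm'⟩

theorem thm_SUB : St_SUB := by
  intro L k φ
  induction φ with
  | eq i j =>
    refine ⟨fun _ => .eq i j, ?_, rfl⟩
    intro m ψ hs
    cases hs
  | rel R w =>
    refine ⟨fun _ => .rel R w, ?_, rfl⟩
    intro m ψ hs
    cases hs
  | neg φ ih =>
    obtain ⟨F, hF, h0⟩ := ih
    refine SUB_front F hF _ ?_
    intro ψ hs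
    cases hs
    exact ⟨0, h0⟩
  | ex i φ ih =>
    obtain ⟨F, hF, h0⟩ := ih
    refine SUB_front F hF _ ?_
    intro ψ hs
    cases hs
    exact ⟨0, h0⟩
  | conj φ ih =>
    choose F hF h0 using ih
    refine SUB_front (fun n => F n.unpair.1 n.unpair.2) ?_ _ ?_
    · intro m ψ hs
      obtain ⟨m', hm'⟩ := hF _ _ _ hs
      exact ⟨Nat.pair m.unpair.1 m', by simpa using hm'⟩
    · intro ψ hs
      cases hs with
      | conj _ m => exact ⟨Nat.pair m 0, by simpa using h0 m⟩

end VPF
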