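import Pool.Agent.VPF.StG

/-!
# Module SWA: a class which is neither countable nor perfect has a member with an automorphism
which moves a point to a non-twin
-/

set_option autoImplicit false

namespace VPF

open FirstOrder Set Pool.Agent.Helper6.Str Pool.Agent.Helper5.Multi Pool.Agent.Helper79.VC
  Pool.Agent.Helper5.DU Pool.Agent.Helper97.VC Pool.Agent.Helper97.LO

open Classical in
private theorem SWA_swp {L : FirstOrder.Language.{0, 0}} {M N : Type} {T : L.Structure N}
    {S : L.Structure M} {a a' : N} {x y : M} {p : Set (N × M)}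
    (h : BFR T S univ univ Ordinal.omega0 (insert (a, x) (insert (a', y) p)))
    (hT : Swp T a a') : Swp S x y := by
  intro n R v
  have h0 : BFR T S univ univ (0 + (n : Ordinal.{0})) (insert (a, x) (insert (a', y) p)) :=
    h.mono (by rw [zero_add]; exact (Ordinal.natCast_lt_omega0 n).le)
  obtain ⟨v', -, h1⟩ := BFR.back_many n h0 v fun i => mem_univ _
  have hAt := h1.atEq
  set Γ := insert (a, x) (insert (a', y) p) ∪ range fun i => (v' i, v i) with hΓ
  have hx : (a, x) ∈ Γ := Or.inl (mem_insert _ _)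
  have hy : (a', y) ∈ Γ := Or.inl (mem_insert_of_mem _ (mem_insert _ _))
  have hv : ∀ i, (v' i, v i) ∈ Γ := fun i => Or.inr ⟨i, rfl⟩
  have e1 : ∀ i, v' i = a ↔ v i = x := fun i => hAt.1 _ (hv i) _ hx
  have e2 : ∀ i, v' i = a' ↔ v i = y := fun i => hAt.1 _ (hv i) _ hy
  have hsw : ∀ i, (Equiv.swap a a' (v' i), Equiv.swap x y (v i)) ∈ Γ := by
    intro i
    by_cases c1 : v i = x
    · rw [(e1 i).2 c1, c1, Equiv.swap_apply_left, Equiv.swap_apply_left]
      exact hy
    · by_cases c2 : v i = y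
      · rw [(e2 i).2 c2, c2, Equiv.swap_apply_right, Equiv.swap_apply_right]
        exact hx
      · rw [Equiv.swap_apply_of_ne_of_ne (fun h => c1 ((e1 i).1 h)) (fun h => c2 ((e2 i).1 h)),
          Equiv.swap_apply_of_ne_of_ne c1 c2]
        exact hv i
  have r1 := hAt.2 n R (fun i => (v' i, v i)) hv
  have r2 := hAt.2 n R (fun i => (Equiv.swap a a' (v' i), Equiv.swap x y (v i))) hsw
  exact r2.symm.trans ((hT n R v').trans r1)

theorem thm_SWA (hNCT : St_NCT) (hAUL : St_AUL) : St_SWA := by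
  intro L _ _ k W δ hδ hW hcl hP hC
  set K : Set (L.Structure ℕ) := {S | ∃ v, W S v} with hK
  have hS : Scat K := scat_of_not_perf hW hP
  set δ' : Ordinal.{0} := δ + Ordinal.omega0 + Ordinal.omega0 with hδ'
  have hδ'1 : δ' < om1 := add_lt_om1 (add_lt_om1 hδ omega_lt_om1) omega_lt_om1
  have hle : ∀ n : ℕ, δ + (n : Ordinal.{0}) ≤ δ' := by
    intro n
    refine le_trans ?_ (le_add_of_nonneg_right zero_le)
    exact add_le_add_right (Ordinal.natCast_lt_omega0 n).le δ
  have hle0 : δ ≤ δ' := by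
    have := hle 0
    simpa using this
  have hcl' : ClosedLev K δ' := by
    rintro S ⟨v, hv⟩ S' hSS
    obtain ⟨v', -, h1⟩ := BFR.forth_many k (hSS.mono (hle k)) v fun i => mem_univ _
    exact ⟨v', hcl S S' v v' hv (h1.anti subset_union_right)⟩
  obtain ⟨M, S, hlev, hNT⟩ := exists_model hW hS hδ'1 hcl' hC
  have hom : Ordinal.omega0 + Ordinal.omega0 ≤ δ' := by
    rw [hδ', add_assoc]
    exact le_add_of_nonneg_left zero_le
  have hV : VSt K δ' S := ⟨hW, hS, hδ'1, hom, hcl', hlev⟩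
  obtain ⟨A, hA, hAS⟩ := hNCT L M S hNT
  obtain ⟨S', ⟨c', hc'⟩, hSS⟩ := hlev (δ' + k) (add_lt_om1 hδ'1 (natCast_lt_om1 k))
  obtain ⟨f, -, hf⟩ := BFR.back_many k hSS c' fun i => mem_univ _
  obtain ⟨T, -, c, e, he, hec, a, x, y, hx, hy, hxy, hB⟩ := hAUL L K δ' M S hV k f A hA
  have hTS : BFR T S' univ univ δ' (range fun i => (c i, c' i)) := by
    refine BFR.trans hB hf ?_
    rintro _ ⟨i, rfl⟩
    exact ⟨f i, mem_insert_of_mem _ (mem_insert_of_mem _ ⟨i, rfl⟩), Or.inr ⟨i, rfl⟩⟩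
  have hWT : W T c := by
    refine hcl S' T c' c hc' ((hTS.symm ?_).mono hle0)
    rintro _ ⟨i, rfl⟩
    exact ⟨i, rfl⟩
  refine ⟨T, c, e, a, hWT, he, hec, fun hsw => ?_⟩
  refine hAS x hx y hy hxy (SWA_swp (hB.mono ?_) hsw)
  exact le_trans (le_add_of_nonneg_left zero_le) hom

end VPF
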