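import Pool.Agent.VPF.StB

/-!
# VPF: [SWE] swap classes of one relation
-/

set_option autoImplicit false

namespace VPF

open FirstOrder Set

section

variable {L : FirstOrder.Language.{0, 0}} {M : Type} (S : L.Structure M) {k : ℕ}
  (R : L.Relations k)

theorem SWE_refl (x : M) : SwpR S R x x := by
  classical
  intro v
  rw [Equiv.swap_self]
  rfl

variable {S R}

theorem SWE_symm {x y : M} (h : SwpR S R x y) : SwpR S R y x := by
  classical
  intro v
  rw [Equiv.swap_comm]
  exact h v

theorem SWE_trans {x y z : M} (h1 : SwpR S R x y) (h2 : SwpR S R y z) : SwpR S R x z := by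
  classical
  by_cases hxy : x = y
  · rw [hxy]; exact h2
  by_cases hxz : x = z
  · rw [← hxz]; exact SWE_refl S R x
  intro v
  have e : ∀ a : M, Equiv.swap x z a = Equiv.swap y z (Equiv.swap x y (Equiv.swap y z a)) := by
    intro a
    have h3 := Equiv.swap_mul_swap_mul_swap hxy hxz
    rw [Equiv.swap_comm x z, ← h3]
    rfl
  have e2 : (fun i => Equiv.swap x z (v i)) =
      fun i => Equiv.swap y z (Equiv.swap x y (Equiv.swap y z (v i))) := funext fun i => e (v i)
  have h3 := h2 (fun i => Equiv.swap x y (Equiv.swap y z (v i)))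
  have h4 := h1 (fun i => Equiv.swap y z (v i))
  have h5 := h2 v
  have h6 := h3.trans (h4.trans h5)
  rw [← e2] at h6
  exact h6

theorem SWE_val (m : ℕ) : ∀ v w : Fin k → M,
    (∃ F : Finset (Fin k), F.card ≤ m ∧ ∀ i, i ∉ F → v i = w i) →
    (∀ i, SwpR S R (v i) (w i)) → (∀ i j, v i = v j ↔ w i = w j) →
    (S.RelMap R v ↔ S.RelMap R w) := by
  classical
  induction m with
  | zero =>
    rintro v w ⟨F, hF, hv⟩ _ _
    have hF0 : F = ∅ := Finset.card_eq_zero.1 (Nat.le_zero.1 hF)
    have e : v = w := funext fun i => hv i (by rw [hF0]; exact Finset.notMem_empty i)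
    rw [e]
  | succ m ih =>
    rintro v w ⟨F, hF, hv⟩ hsw heq
    by_cases hall : ∀ i, v i = w i
    · rw [funext hall]
    push Not at hall
    obtain ⟨i, hi⟩ := hall
    have hiF : i ∈ F := by
      by_contra h
      exact hi (hv i h)
    have h1 : S.RelMap R (fun j => Equiv.swap (v i) (w i) (v j)) ↔ S.RelMap R v := hsw i v
    rw [← h1]
    refine ih _ w ⟨F.erase i, ?_, ?_⟩ ?_ ?_
    · rw [Finset.card_erase_of_mem hiF]
      omega
    · intro j hj
      by_cases hji : j = i
      · rw [hji, Equiv.swap_apply_left]
      · have hjF : j ∉ F := fun h => hj (Finset.mem_erase.2 ⟨hji, h⟩)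
        have hvw := hv j hjF
        have n1 : v j ≠ v i := by
          intro h
          have h2 := (heq j i).1 h
          exact hi (h.symm.trans (hvw.trans h2))
        have n2 : v j ≠ w i := by
          intro h
          have h2 : w j = w i := hvw.symm.trans h
          exact n1 ((heq j i).2 h2)
        rw [Equiv.swap_apply_of_ne_of_ne n1 n2]
        exact hvw
    · intro j
      by_cases h1 : v j = v i
      · rw [h1, Equiv.swap_apply_left, ← (heq j i).1 h1]
        exact SWE_refl S R _
      · by_cases h2 : v j = w i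
        · rw [h2, Equiv.swap_apply_right]
          have h3 := hsw j
          rw [h2] at h3
          exact SWE_trans (hsw i) h3
        · rw [Equiv.swap_apply_of_ne_of_ne h1 h2]
          exact hsw j
    · intro a b
      rw [(Equiv.swap (v i) (w i)).injective.eq_iff]
      exact heq a b

end

theorem thm_SWE : St_SWE := by
  intro L M S k R
  refine ⟨SWE_refl S R, fun x y h => SWE_symm h, fun x y z h1 h2 => SWE_trans h1 h2, ?_⟩
  intro v w h1 h2
  exact SWE_val k v w ⟨Finset.univ, by simp, fun i hi => absurd (Finset.mem_univ i) hi⟩ h1 h2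

end VPF
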