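import Pool.Agent.VPF.StA

/-!
# VPF, module TAI: the isomorphism of tame structures
-/

set_option autoImplicit false

namespace VPF

open FirstOrder Set Pool.Agent.Helper6.Str Pool.Agent.Helper5.Multi Pool.Agent.Helper79.VC

variable {L : FirstOrder.Language.{0, 0}} {M N : Type}

/-- The atomic formula with the variables exchanged. -/
private def TAI_sw (a : Atm L) : Atm L := ⟨a.1, (a.2.1, fun i => Fin.rev (a.2.2 i))⟩

private theorem TAI_sw_atm (S : L.Structure M) (x y : M) (a : Atm L) :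
    atm S x y (TAI_sw a) ↔ atm S y x a := by
  obtain ⟨n, R, w⟩ := a
  have h : (fun i : Fin n => if Fin.rev (w i) = 0 then x else y) =
      fun i => if w i = 0 then y else x := by
    funext i
    have h2 : w i = 0 ∨ w i = 1 := by omega
    rcases h2 with h2 | h2
    · rw [h2]; rfl
    · rw [h2]; rfl
  show S.RelMap R (fun i : Fin n => if Fin.rev (w i) = 0 then x else y) ↔
    S.RelMap R (fun i : Fin n => if w i = 0 then y else x)
  rw [h]

private theorem TAI_tuple {n : ℕ} (hn : n ≤ 2) (u : Fin n → ℕ) :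
    ∃ (x y : ℕ) (w : Fin n → Fin 2), u = fun i => if w i = 0 then x else y := by
  have h3 : n = 0 ∨ n = 1 ∨ n = 2 := by omega
  rcases h3 with rfl | rfl | rfl
  · exact ⟨0, 0, fun _ => 0, funext fun i => Fin.elim0 i⟩
  · refine ⟨u 0, u 0, fun _ => 0, funext fun i => ?_⟩
    have : i = 0 := Subsingleton.elim _ _
    subst this
    rfl
  · refine ⟨u 0, u 1, id, funext fun i => ?_⟩
    have h2 : i = 0 ∨ i = 1 := by omega
    rcases h2 with h2 | h2
    · subst h2; rfl
    · subst h2; rfl

private theorem TAI_relIso (S S' : L.Structure ℕ) (e : ℕ ≃ ℕ)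
    (har : ∀ n, 3 ≤ n → IsEmpty (L.Relations n))
    (h : ∀ x y a, atm S x y a ↔ atm S' (e x) (e y) a) : RelIso S S' e := by
  intro n R u
  have hn : n ≤ 2 := by
    by_contra hcon
    exact (har n (by omega)).false R
  obtain ⟨x, y, w, rfl⟩ := TAI_tuple hn u
  have h1 := h x y ⟨n, R, w⟩
  have h2 : (e ∘ fun i : Fin n => if w i = 0 then x else y) =
      fun i => if w i = 0 then e x else e y := by
    funext i
    show e (if w i = 0 then x else y) = _
    split_ifs <;> rfl
  rw [h2]
  exact h1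

open Classical in
/-- The colour of a point. -/
private noncomputable def TAI_c (S : L.Structure ℕ) (F : ℕ → FV L 2) {r : ℕ} (v : Fin r → ℕ)
    (hcov : ∀ x, Kg S F x ∨ ∃ i, EE S F x (v i)) (x : ℕ) :
    ((ℕ × Fin 2) ⊕ Atm L → Prop) ⊕ Fin r :=
  if h : Kg S F x then .inl (ty S F x) else .inr ((hcov x).resolve_left h).choose

private theorem TAI_c_inl (S : L.Structure ℕ) (F : ℕ → FV L 2) {r : ℕ} (v : Fin r → ℕ)
    (hcov : ∀ x, Kg S F x ∨ ∃ i, EE S F x (v i)) (x : ℕ) (q : (ℕ × Fin 2) ⊕ Atm L → Prop) :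
    TAI_c S F v hcov x = .inl q ↔ Kg S F x ∧ ty S F x = q := by
  by_cases h : Kg S F x
  · simp [TAI_c, h]
  · simp [TAI_c, h]

private theorem TAI_EE_symm {S : L.Structure ℕ} {F : ℕ → FV L 2} {x y : ℕ} (h : EE S F x y) :
    EE S F y x := ⟨h.2.1, h.1, h.2.2.1.symm, fun z hz a => (h.2.2.2 z hz a).symm⟩

private theorem TAI_EE_trans {S : L.Structure ℕ} {F : ℕ → FV L 2} {x y z : ℕ} (h : EE S F x y)
    (h' : EE S F y z) : EE S F x z :=
  ⟨h.1, h'.2.1, h.2.2.1.trans h'.2.2.1, fun w hw a => (h.2.2.2 w hw a).trans (h'.2.2.2 w hw a)⟩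

private theorem TAI_c_inr (S : L.Structure ℕ) (F : ℕ → FV L 2) {r : ℕ} (v : Fin r → ℕ)
    (hne : ∀ i j, i ≠ j → ¬ EE S F (v i) (v j))
    (hcov : ∀ x, Kg S F x ∨ ∃ i, EE S F x (v i)) (x : ℕ) (i : Fin r) :
    TAI_c S F v hcov x = .inr i ↔ EE S F x (v i) := by
  by_cases h : Kg S F x
  · have h1 : TAI_c S F v hcov x = .inl (ty S F x) := by simp [TAI_c, h]
    rw [h1]
    constructor
    · intro h2; exact absurd h2 (by simp)
    · intro h2; exact absurd h h2.1
  · have h1 : TAI_c S F v hcov x = .inr ((hcov x).resolve_left h).choose := by simp [TAI_c, h]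
    have h3 := ((hcov x).resolve_left h).choose_spec
    rw [h1]
    constructor
    · intro h2
      rw [Sum.inr.inj h2] at h3
      exact h3
    · intro h2
      by_contra hcon
      have h4 : ((hcov x).resolve_left h).choose ≠ i := fun h5 => hcon (by rw [h5])
      exact hne _ _ h4 (TAI_EE_trans (TAI_EE_symm h3) h2)

private theorem TAI_encard {a b : ℕ∞} (h : ∀ n : ℕ, (n : ℕ∞) ≤ a ↔ (n : ℕ∞) ≤ b) : a = b := by
  apply le_antisymm
  · exact ENat.forall_natCast_le_iff_le.mp fun n hn => (h n).mp hn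
  · exact ENat.forall_natCast_le_iff_le.mp fun n hn => (h n).mpr hn

theorem thm_TAI : St_TAI := by
  intro L _ F p S S' r v v' har hU hU' hp hp' hv hne hcov hv' hne' hcov' h1 h2 h3 h4 h5 h6
  obtain ⟨e, he⟩ := exists_equiv_of_fibres (TAI_c S F v hcov) (TAI_c S' F v' hcov') (by
    rintro (q | i)
    · have e1 : {x | TAI_c S F v hcov x = .inl q} = {x | Kg S F x ∧ ty S F x = q} := by
        ext x; exact TAI_c_inl S F v hcov x q
      have e2 : {x | TAI_c S' F v' hcov' x = .inl q} = {x | Kg S' F x ∧ ty S' F x = q} := by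
        ext x; exact TAI_c_inl S' F v' hcov' x q
      rw [e1, e2]
      by_cases hx : ∃ x, Kg S F x ∧ ty S F x = q
      · obtain ⟨x, hx1, hx2⟩ := hx
        obtain ⟨m, hm⟩ := hp x
        obtain ⟨x', hx1', hx2'⟩ := (h1 m).mp ⟨x, hx1, hm⟩
        have e3 : {x | Kg S F x ∧ ty S F x = q} = {x} := by
          ext y
          constructor
          · rintro ⟨hy1, hy2⟩
            exact hx1 y (hy2.trans hx2.symm)
          · rintro rfl
            exact ⟨hx1, hx2⟩
        have e4 : {x | Kg S' F x ∧ ty S' F x = q} = {x'} := by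
          ext y
          constructor
          · rintro ⟨hy1, hy2⟩
            exact hx1' y (by rw [hy2, ← hx2, hm, hx2'])
          · rintro rfl
            exact ⟨hx1', by rw [hx2', ← hm, hx2]⟩
        rw [e3, e4, Set.encard_singleton, Set.encard_singleton]
      · have e3 : {x | Kg S F x ∧ ty S F x = q} = ∅ := by
          ext y
          constructor
          · intro hy; exact absurd ⟨y, hy⟩ hx
          · intro hy; exact absurd hy (Set.notMem_empty y)
        have e4 : {x | Kg S' F x ∧ ty S' F x = q} = ∅ := by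
          ext y
          constructor
          · rintro ⟨hy1, hy2⟩
            exfalso
            obtain ⟨m, hm⟩ := hp' y
            obtain ⟨x, hx1, hx2⟩ := (h1 m).mpr ⟨y, hy1, hm⟩
            exact hx ⟨x, hx1, by rw [hx2, ← hm, hy2]⟩
          · intro hy; exact absurd hy (Set.notMem_empty y)
        rw [e3, e4]
    · have e1 : {x | TAI_c S F v hcov x = .inr i} = {x | EE S F x (v i)} := by
        ext x; exact TAI_c_inr S F v hne hcov x i
      have e2 : {x | TAI_c S' F v' hcov' x = .inr i} = {x | EE S' F x (v' i)} := by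
        ext x; exact TAI_c_inr S' F v' hne' hcov' x i
      rw [e1, e2]
      exact TAI_encard (h5 i))
  refine ⟨e, TAI_relIso S S' e har ?_⟩
  -- kings and classes
  have hK : ∀ x, Kg S F x → Kg S' F (e x) ∧ ty S' F (e x) = ty S F x := by
    intro x hx
    have := (TAI_c_inl S F v hcov x (ty S F x)).mpr ⟨hx, rfl⟩
    rw [← he x] at this
    exact (TAI_c_inl S' F v' hcov' (e x) _).mp this
  have hC : ∀ x i, EE S F x (v i) → EE S' F (e x) (v' i) := by
    intro x i hx
    have := (TAI_c_inr S F v hne hcov x i).mpr hx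
    rw [← he x] at this
    exact (TAI_c_inr S' F v' hne' hcov' (e x) i).mp this
  have hty : ∀ x, ty S' F (e x) = ty S F x := by
    intro x
    rcases hcov x with hx | ⟨i, hi⟩
    · exact (hK x hx).2
    · obtain ⟨m, hm⟩ := hp (v i)
      rw [(hC x i hi).2.2.1, hi.2.2.1, hm]
      exact (h4 m i).mp hm
  -- two kings
  have hKK : ∀ x y a, Kg S F x → Kg S F y → (atm S x y a ↔ atm S' (e x) (e y) a) := by
    intro x y a hx hy
    obtain ⟨m, hm⟩ := hp x
    obtain ⟨m', hm'⟩ := hp y
    constructor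
    · intro h
      obtain ⟨x', y', k1, k2, k3, k4, k5⟩ := (h2 m m' a).mp ⟨x, y, hx, hy, hm, hm', h⟩
      have i1 : e x = x' := k1 (e x) (by rw [hty x, hm, k3])
      have i2 : e y = y' := k2 (e y) (by rw [hty y, hm', k4])
      rw [i1, i2]; exact k5
    · intro h
      obtain ⟨x', y', k1, k2, k3, k4, k5⟩ := (h2 m m' a).mpr ⟨e x, e y, (hK x hx).1, (hK y hy).1,
        (hty x).trans hm, (hty y).trans hm', h⟩
      have i1 : x = x' := k1 x (by rw [hm, k3])
      have i2 : y = y' := k2 y (by rw [hm', k4])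
      rw [i1, i2]; exact k5
  -- a king and a point of a class
  have hKv : ∀ y i a, Kg S F y → (atm S y (v i) a ↔ atm S' (e y) (v' i) a) := by
    intro y i a hy
    obtain ⟨m, hm⟩ := hp y
    constructor
    · intro h
      obtain ⟨y', k1, k2, k3⟩ := (h3 m i a).mp ⟨y, hy, hm, h⟩
      have i1 : e y = y' := k1 (e y) (by rw [hty y, hm, k2])
      rw [i1]; exact k3
    · intro h
      obtain ⟨y', k1, k2, k3⟩ := (h3 m i a).mpr ⟨e y, (hK y hy).1, (hty y).trans hm, h⟩
      have i1 : y = y' := k1 y (by rw [hm, k2])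
      rw [i1]; exact k3
  have hCK : ∀ x y i a, EE S F x (v i) → Kg S F y → (atm S x y a ↔ atm S' (e x) (e y) a) := by
    intro x y i a hx hy
    rw [hx.2.2.2 y hy a, (hC x i hx).2.2.2 (e y) (hK y hy).1 a, ← TAI_sw_atm S y (v i) a,
      ← TAI_sw_atm S' (e y) (v' i) a]
    exact hKv y i _ hy
  have hCC : ∀ x y i j a, x ≠ y → EE S F x (v i) → EE S F y (v j) →
      (atm S x y a ↔ atm S' (e x) (e y) a) := by
    intro x y i j a hxy hx hy
    have hx' := hC x i hx
    have hy' := hC y j hy
    have hxy' : e x ≠ e y := fun h => hxy (e.injective h)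
    constructor
    · intro h
      obtain ⟨x', y', k1, k2, k3, k4⟩ := (h6 i j a).mp ⟨x, y, hxy, hx, hy, h⟩
      exact (hU' x' y' (e x) (e y) k1 hxy' k2.1 k3.1 (k2.2.2.1.trans hx'.2.2.1.symm)
        (k3.2.2.1.trans hy'.2.2.1.symm) a).mp k4
    · intro h
      obtain ⟨x', y', k1, k2, k3, k4⟩ := (h6 i j a).mpr ⟨e x, e y, hxy', hx', hy', h⟩
      exact (hU x' y' x y k1 hxy k2.1 k3.1 (k2.2.2.1.trans hx.2.2.1.symm)
        (k3.2.2.1.trans hy.2.2.1.symm) a).mp k4
  intro x y a
  by_cases hxy : x = y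
  · subst hxy
    have := congrFun (hty x) (.inr a)
    have h7 : atm S' (e x) (e x) a = atm S x x a := this
    rw [h7]
  · rcases hcov x with hx | ⟨i, hi⟩
    · rcases hcov y with hy | ⟨j, hj⟩
      · exact hKK x y a hx hy
      · rw [← TAI_sw_atm S y x a, ← TAI_sw_atm S' (e y) (e x) a]
        exact hCK y x j _ hj hx
    · rcases hcov y with hy | ⟨j, hj⟩
      · exact hCK x y i a hi hy
      · exact hCC x y i j a hxy hi hj

end VPF
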