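import Pool.Agent.VPF.StA

/-!
# VPF, module TAM: tame classes
-/

set_option autoImplicit false
set_option linter.unusedVariables false

namespace VPF

open FirstOrder Set Pool.Agent.Helper6.Str Pool.Agent.Helper5.Multi Pool.Agent.Helper79.VC
open Pool.Agent.Helper5.DU

variable {L : FirstOrder.Language.{0, 0}}

/-- indices of the invariants -/
private abbrev TAM_Ix (L : FirstOrder.Language.{0, 0}) (r : ℕ) : Type :=
  Fin r ⊕ (Fin r × Fin r) ⊕ Unit ⊕ ℕ ⊕ (ℕ × ℕ × Atm L) ⊕ (ℕ × Fin r × Atm L) ⊕ (ℕ × Fin r) ⊕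
    (Fin r × ℕ) ⊕ (Fin r × Fin r × Atm L)

/-- the invariants -/
private def TAM_A (F : ℕ → FV L 2) (p : ℕ → ((ℕ × Fin 2) ⊕ Atm L → Prop)) (r : ℕ) :
    TAM_Ix L r → L.Structure ℕ → (Fin r → ℕ) → Prop
  | .inl i, S, v => ¬ Kg S F (v i)
  | .inr (.inl q), S, v => EE S F (v q.1) (v q.2)
  | .inr (.inr (.inl _)), S, v => ∀ x, Kg S F x ∨ ∃ i, EE S F x (v i)
  | .inr (.inr (.inr (.inl m))), S, _ => ∃ x, Kg S F x ∧ ty S F x = p m
  | .inr (.inr (.inr (.inr (.inl q)))), S, _ =>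
    ∃ x y, Kg S F x ∧ Kg S F y ∧ ty S F x = p q.1 ∧ ty S F y = p q.2.1 ∧ atm S x y q.2.2
  | .inr (.inr (.inr (.inr (.inr (.inl q))))), S, v =>
    ∃ x, Kg S F x ∧ ty S F x = p q.1 ∧ atm S x (v q.2.1) q.2.2
  | .inr (.inr (.inr (.inr (.inr (.inr (.inl q)))))), S, v => ty S F (v q.2) = p q.1
  | .inr (.inr (.inr (.inr (.inr (.inr (.inr (.inl q))))))), S, v =>
    (q.2 : ℕ∞) ≤ {x | EE S F x (v q.1)}.encard
  | .inr (.inr (.inr (.inr (.inr (.inr (.inr (.inr q))))))), S, v =>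
    ∃ x y, x ≠ y ∧ EE S F x (v q.1) ∧ EE S F y (v q.2.1) ∧ atm S x y q.2.2

private theorem TAM_encard {A : Set ℕ} {n : ℕ} :
    (n : ℕ∞) ≤ A.encard ↔ ∃ s : Finset ℕ, s.card = n ∧ ∀ x ∈ s, x ∈ A := by
  constructor
  · intro h
    obtain ⟨t, ht, hc⟩ := Set.exists_subset_encard_eq h
    have hfin : t.Finite := by
      rw [← Set.encard_lt_top_iff, hc]
      exact ENat.natCast_lt_top n
    refine ⟨hfin.toFinset, ?_, fun x hx => ht ?_⟩
    · have := hfin.encard_eq_coe_toFinset_card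
      rw [hc] at this
      exact (Nat.cast_injective this).symm
    · simpa using hx
  · rintro ⟨s, hs, hA⟩
    have h1 : (↑s : Set ℕ) ⊆ A := fun x hx => hA x hx
    have h2 := Set.encard_le_encard h1
    rw [Set.encard_coe_eq_coe_finsetCard, hs] at h2
    exact h2

private theorem TAM_measEx {ι : Type} [Countable ι] {X : Type*} [MeasurableSpace X]
    {P : ι → X → Prop} (h : ∀ i, MeasurableSet {c | P i c}) : MeasurableSet {c | ∃ i, P i c} := by
  have : {c | ∃ i, P i c} = ⋃ i, {c | P i c} := by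
    ext c
    simp only [mem_ofPred_eq, mem_iUnion]
  rw [this]
  exact MeasurableSet.iUnion h

private theorem TAM_measAll {ι : Type} [Countable ι] {X : Type*} [MeasurableSpace X]
    {P : ι → X → Prop} (h : ∀ i, MeasurableSet {c | P i c}) : MeasurableSet {c | ∀ i, P i c} := by
  have : {c | ∀ i, P i c} = ⋂ i, {c | P i c} := by
    ext c
    simp only [mem_ofPred_eq, mem_iInter]
  rw [this]
  exact MeasurableSet.iInter h

private theorem TAM_measAnd {X : Type*} [MeasurableSpace X] {P Q : X → Prop}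
    (h : MeasurableSet {c | P c}) (h' : MeasurableSet {c | Q c}) :
    MeasurableSet {c | P c ∧ Q c} := h.inter h'

private theorem TAM_measOr {X : Type*} [MeasurableSpace X] {P Q : X → Prop}
    (h : MeasurableSet {c | P c}) (h' : MeasurableSet {c | Q c}) :
    MeasurableSet {c | P c ∨ Q c} := h.union h'

private theorem TAM_measImp {X : Type*} [MeasurableSpace X] {P : Prop} {Q : X → Prop}
    (h' : MeasurableSet {c | Q c}) : MeasurableSet {c | P → Q c} := by
  by_cases hP : P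
  · simp only [hP, true_implies]
    exact h'
  · simp only [hP, false_implies]
    exact MeasurableSet.const True

private theorem TAM_measIff {X : Type*} [MeasurableSpace X] {P : Prop} {Q : X → Prop}
    (h' : MeasurableSet {c | Q c}) : MeasurableSet {c | Q c ↔ P} := by
  by_cases hP : P
  · simp only [hP, iff_true]
    exact h'
  · simp only [hP, iff_false]
    exact h'.compl

private theorem TAM_meas (hMEA : St_MEA) [∀ n, IsEmpty (L.Functions n)]
    [∀ n, Countable (L.Relations n)] (F : ℕ → FV L 2) (p : ℕ → ((ℕ × Fin 2) ⊕ Atm L → Prop))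
    (r : ℕ) (k : TAM_Ix L r) (v : Fin r → ℕ) :
    MeasurableSet {c : Code L | TAM_A F p r k (toStr c) v} := by
  obtain ⟨-, hty, -, hKg, hEE, hatm⟩ := hMEA L F
  have htp : ∀ (x m : ℕ), MeasurableSet {c : Code L | ty (toStr c) F x = p m} := by
    intro x m
    have : {c : Code L | ty (toStr c) F x = p m} =
        {c : Code L | ∀ i, (ty (toStr c) F x i ↔ p m i)} := by
      ext c
      simp only [mem_ofPred_eq]
      constructor
      · intro h i
        rw [h]
      · intro h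
        funext i
        exact propext (h i)
    rw [this]
    exact TAM_measAll fun i => TAM_measIff (hty x i)
  rcases k with i | q | u | m | q | q | q | q | q
  · exact (hKg (v i)).compl
  · exact hEE _ _
  · exact TAM_measAll fun x => TAM_measOr (hKg x) (TAM_measEx fun i => hEE _ _)
  · exact TAM_measEx fun x => TAM_measAnd (hKg x) (htp x m)
  · exact TAM_measEx fun x => TAM_measEx fun y => TAM_measAnd (hKg x) (TAM_measAnd (hKg y)
      (TAM_measAnd (htp x _) (TAM_measAnd (htp y _) (hatm x y _))))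
  · exact TAM_measEx fun x => TAM_measAnd (hKg x) (TAM_measAnd (htp x _) (hatm x _ _))
  · exact htp _ _
  · have : {c : Code L | TAM_A F p r
        (.inr (.inr (.inr (.inr (.inr (.inr (.inr (.inl q)))))))) (toStr c) v} =
        {c : Code L | ∃ s : Finset ℕ, s.card = q.2 ∧ ∀ x : ℕ, x ∈ s → EE (toStr c) F x (v q.1)} := by
      ext c
      simp only [mem_ofPred_eq]
      exact TAM_encard
    rw [this]
    exact TAM_measEx fun s => TAM_measAnd (MeasurableSet.const _)
      (TAM_measAll fun x => TAM_measImp (hEE _ _))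
  · exact TAM_measEx fun x => TAM_measEx fun y => TAM_measAnd (MeasurableSet.const _)
      (TAM_measAnd (hEE _ _) (TAM_measAnd (hEE _ _) (hatm _ _ _)))

private theorem TAM_inv (hINV : St_INV) (F : ℕ → FV L 2)
    (p : ℕ → ((ℕ × Fin 2) ⊕ Atm L → Prop)) (r : ℕ) (k : TAM_Ix L r) (S S' : L.Structure ℕ)
    (e : ℕ ≃ ℕ) (v : Fin r → ℕ) (he : RelIso S S' e) (h : TAM_A F p r k S v) :
    TAM_A F p r k S' (e ∘ v) := by
  obtain ⟨-, hty, hKg, hEE, hatm⟩ := hINV L F ℕ ℕ S S' e he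
  rcases k with i | q | u | m | q | q | q | q | q
  · exact fun h' => h ((hKg _).1 h')
  · exact (hEE _ _).2 h
  · intro x
    have hx : e (e.symm x) = x := e.apply_symm_apply x
    rcases h (e.symm x) with h' | ⟨i, h'⟩
    · left
      rw [← hx]
      exact (hKg _).2 h'
    · right
      refine ⟨i, ?_⟩
      rw [← hx]
      exact (hEE _ _).2 h'
  · obtain ⟨x, h1, h2⟩ := h
    exact ⟨e x, (hKg x).2 h1, (hty x).trans h2⟩
  · obtain ⟨x, y, h1, h2, h3, h4, h5⟩ := h
    exact ⟨e x, e y, (hKg x).2 h1, (hKg y).2 h2, (hty x).trans h3, (hty y).trans h4,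
      (hatm _ _ _).2 h5⟩
  · obtain ⟨x, h1, h2, h3⟩ := h
    exact ⟨e x, (hKg x).2 h1, (hty x).trans h2, (hatm _ _ _).2 h3⟩
  · exact (hty _).trans h
  · have h' : (q.2 : ℕ∞) ≤ {x | EE S F x (v q.1)}.encard := h
    have h1 : e '' {x | EE S F x (v q.1)} = {x | EE S' F x (e (v q.1))} := by
      ext x
      constructor
      · rintro ⟨y, hy, rfl⟩
        exact (hEE _ _).2 hy
      · intro hx
        refine ⟨e.symm x, ?_, e.apply_symm_apply x⟩
        have hx' : EE S' F x (e (v q.1)) := hx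
        rw [← e.apply_symm_apply x] at hx'
        exact (hEE _ _).1 hx'
    show (q.2 : ℕ∞) ≤ {x | EE S' F x (e (v q.1))}.encard
    rw [← h1, e.injective.encard_image]
    exact h'
  · obtain ⟨x, y, h1, h2, h3, h4⟩ := h
    exact ⟨e x, e y, fun h => h1 (e.injective h), (hEE _ _).2 h2, (hEE _ _).2 h3,
      (hatm _ _ _).2 h4⟩

private theorem TAM_symm {S : L.Structure ℕ} {F : ℕ → FV L 2} {x y : ℕ} (h : EE S F x y) :
    EE S F y x := ⟨h.2.1, h.1, h.2.2.1.symm, fun z hz a => (h.2.2.2 z hz a).symm⟩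

private theorem TAM_trans {S : L.Structure ℕ} {F : ℕ → FV L 2} {x y z : ℕ} (h : EE S F x y)
    (h' : EE S F y z) : EE S F x z :=
  ⟨h.1, h'.2.1, h.2.2.1.trans h'.2.2.1, fun w hw a => (h.2.2.2 w hw a).trans (h'.2.2.2 w hw a)⟩

/-- Finitely many classes. -/
private theorem TAM_fin (S : L.Structure ℕ) (F : ℕ → FV L 2)
    (h2 : ¬ ∃ f : ℕ → ℕ, (∀ k, ¬ Kg S F (f k)) ∧ ∀ k l, k ≠ l → ¬ EE S F (f k) (f l)) :
    ∃ (r : ℕ) (v : Fin r → ℕ), (∀ i, ¬ Kg S F (v i)) ∧ (∀ i j, i ≠ j → ¬ EE S F (v i) (v j)) ∧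
      ∀ x, Kg S F x ∨ ∃ i, EE S F x (v i) := by
  classical
  let st : Setoid {x : ℕ // ¬ Kg S F x} :=
    { r := fun x y => EE S F x.1 y.1
      iseqv := ⟨fun x => ⟨x.2, x.2, rfl, fun _ _ _ => Iff.rfl⟩, fun h => TAM_symm h,
        fun h h' => TAM_trans h h'⟩ }
  have hne : ∀ q q' : Quotient st, q ≠ q' → ¬ EE S F q.out.1 q'.out.1 := by
    intro q q' hq h
    apply hq
    have h3 : (⟦q.out⟧ : Quotient st) = ⟦q'.out⟧ := Quotient.sound h
    rwa [Quotient.out_eq, Quotient.out_eq] at h3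
  have hfin : Finite (Quotient st) := by
    by_contra hcon
    have hinf : Infinite (Quotient st) := not_finite_iff_infinite.1 hcon
    apply h2
    refine ⟨fun k => (Infinite.natEmbedding (Quotient st) k).out.1, fun k => ?_, fun k l hkl => ?_⟩
    · exact (Infinite.natEmbedding (Quotient st) k).out.2
    · exact hne _ _ fun h => hkl ((Infinite.natEmbedding (Quotient st)).injective h)
  obtain ⟨r, ⟨e⟩⟩ := Finite.exists_equiv_fin (Quotient st)
  refine ⟨r, fun i => (e.symm i).out.1, fun i => (e.symm i).out.2, fun i j hij => ?_, fun x => ?_⟩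
  · exact hne _ _ fun h => hij (e.symm.injective h)
  · by_cases hx : Kg S F x
    · exact Or.inl hx
    · right
      refine ⟨e ⟦⟨x, hx⟩⟧, ?_⟩
      show EE S F x (e.symm (e ⟦⟨x, hx⟩⟧)).out.1
      rw [e.symm_apply_apply]
      have h3 : (⟦(⟦⟨x, hx⟩⟧ : Quotient st).out⟧ : Quotient st) = ⟦⟨x, hx⟩⟧ := Quotient.out_eq _
      have h4 : EE S F (⟦⟨x, hx⟩⟧ : Quotient st).out.1 x := Quotient.exact h3
      exact TAM_symm h4

/-- **[TAM]** Tame classes. -/
theorem thm_TAM (hMEA : St_MEA) (hINV : St_INV) (hTAI : St_TAI) : St_TAM := by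
  intro L _ _ F har h1 h2
  by_cases hP : PerfK (ModV (F 0))
  · exact Or.inr hP
  · left
    have hK : MeasurableSet {c : Code L | toStr c ∈ ModV (F 0)} :=
      TAM_measAll fun v : Fin 2 → ℕ => (hMEA L F).1 2 (F 0) v
    obtain ⟨ρ, hρ⟩ := ctbl_of_props hK hP (n := 1) (ι := (ℕ × Fin 2) ⊕ Atm L)
      (fun k S v => ty S F (v 0) k) (fun k v => (hMEA L F).2.1 (v 0) k)
      (fun k S S' e v he h => by
        have h3 := (hINV L F ℕ ℕ S S' e he).2.1 (v 0)
        show ty S' F (e (v 0)) k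
        rw [h3]
        exact h)
    obtain ⟨p, hp⟩ : ∃ p : ℕ → ((ℕ × Fin 2) ⊕ Atm L → Prop), ∀ S ∈ ModV (F 0), ∀ x,
        ∃ m, ty S F x = p m := by
      refine ⟨fun m => ty (ρ m).1 F ((ρ m).2 0), fun S hS x => ?_⟩
      obtain ⟨m, -, hm⟩ := hρ S hS (fun _ => x)
      exact ⟨m, funext fun k => propext (hm k)⟩
    have h3 : ∀ r : ℕ, ∃ σ : ℕ → L.Structure ℕ × (Fin r → ℕ), ∀ S ∈ ModV (F 0), ∀ v, ∃ m,
        (σ m).1 ∈ ModV (F 0) ∧ ∀ k, (TAM_A F p r k S v ↔ TAM_A F p r k (σ m).1 (σ m).2) :=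
      fun r => ctbl_of_props hK hP (n := r) (ι := TAM_Ix L r) (TAM_A F p r)
        (fun k v => TAM_meas hMEA F p r k v)
        (fun k S S' e v he h => TAM_inv hINV F p r k S S' e v he h)
    choose σ hσ using h3
    refine ⟨fun n => (σ (Nat.unpair n).1 (Nat.unpair n).2).1, fun S hS => ?_⟩
    obtain ⟨r, v, hv1, hv2, hv3⟩ := TAM_fin S F (h2 S hS)
    obtain ⟨m, hm, hk⟩ := hσ r S hS v
    refine ⟨Nat.pair r m, ?_⟩
    have h4 : (σ (Nat.unpair (Nat.pair r m)).1 (Nat.unpair (Nat.pair r m)).2).1 = (σ r m).1 := by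
      rw [Nat.unpair_pair]
    show Iso S (σ (Nat.unpair (Nat.pair r m)).1 (Nat.unpair (Nat.pair r m)).2).1
    rw [h4]
    refine hTAI L F p S (σ r m).1 r v (σ r m).2 har (h1 S hS) (h1 _ hm) (hp S hS) (hp _ hm)
      hv1 hv2 hv3 ?_ ?_ ?_ ?_ ?_ ?_ ?_ ?_ ?_
    · intro i
      exact (hk (.inl i)).1 (hv1 i)
    · intro i j hij h
      exact hv2 i j hij ((hk (.inr (.inl (i, j)))).2 h)
    · exact (hk (.inr (.inr (.inl ())))).1 hv3
    · intro m'
      exact hk (.inr (.inr (.inr (.inl m'))))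
    · intro m' m'' a
      exact hk (.inr (.inr (.inr (.inr (.inl (m', m'', a))))))
    · intro m' i a
      exact hk (.inr (.inr (.inr (.inr (.inr (.inl (m', i, a)))))))
    · intro m' i
      exact hk (.inr (.inr (.inr (.inr (.inr (.inr (.inl (m', i))))))))
    · intro i n
      exact hk (.inr (.inr (.inr (.inr (.inr (.inr (.inr (.inl (i, n)))))))))
    · intro i j a
      exact hk (.inr (.inr (.inr (.inr (.inr (.inr (.inr (.inr (i, j, a)))))))))

end VPF
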