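import Pool.Agent.VPF.StA

/-!
# VPF [TRU]: the truth lemma for matching structures
-/

set_option autoImplicit false
set_option linter.unusedVariables false

namespace VPF

open FirstOrder Set

/-- The atomic formula with the two variables exchanged. -/
private def TRU_sw {L : FirstOrder.Language.{0, 0}} (a : Atm L) : Atm L :=
  ⟨a.1, a.2.1, fun i => if a.2.2 i = 0 then 1 else 0⟩

private theorem TRU_sw_atm {L : FirstOrder.Language.{0, 0}} {M : Type} (S : L.Structure M)
    (x y : M) (a : Atm L) : atm S x y (TRU_sw a) ↔ atm S y x a := by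
  obtain ⟨n, R, w⟩ := a
  have h : (fun i => if (if w i = 0 then (1 : Fin 2) else 0) = 0 then x else y) =
      fun i => if w i = 0 then y else x := by
    funext i
    by_cases hi : w i = 0
    · simp [hi]
    · simp [hi]
  show S.RelMap R _ ↔ S.RelMap R _
  exact iff_of_eq (congrArg (S.RelMap R) h)

private theorem TRU_sw_all {L : FirstOrder.Language.{0, 0}} {M N : Type} {S : L.Structure M}
    {S' : L.Structure N} {x y : M} {x' y' : N} (h : ∀ a, atm S x y a ↔ atm S' x' y' a) (a : Atm L) :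
    atm S y x a ↔ atm S' y' x' a :=
  (TRU_sw_atm S x y a).symm.trans ((h (TRU_sw a)).trans (TRU_sw_atm S' x' y' a))

/-- The claim of the truth lemma for the formula `ψ`. -/
private def TRU_Cl {L : FirstOrder.Language.{0, 0}} (F : ℕ → FV L 2) {M N : Type}
    (S : L.Structure M) (S' : L.Structure N) (π : N → M) (ψ : FV L 2) : Prop :=
  ∀ (v : Fin 2 → M) (v' : Fin 2 → N), ty S F (v 0) = ty S F (π (v' 0)) →
    ty S F (v 1) = ty S F (π (v' 1)) → (v 0 = v 1 ↔ v' 0 = v' 1) →
    (∀ a, atm S (v 0) (v 1) a ↔ atm S' (v' 0) (v' 1) a) → (ψ.Sat S v ↔ ψ.Sat S' v')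

private theorem TRU_upd1 {M : Type} (v : Fin 2 → M) (a : M) :
    Function.update v 1 a = ![v 0, a] := by
  funext j
  fin_cases j <;> simp [Function.update]

private theorem TRU_upd0 {M : Type} (v : Fin 2 → M) (a : M) :
    Function.update v 0 a = ![a, v 1] := by
  funext j
  fin_cases j <;> simp [Function.update]

section

variable {L : FirstOrder.Language.{0, 0}} {F : ℕ → FV L 2} {M N : Type} {S : L.Structure M}
  {S' : L.Structure N} {π : N → M}

private theorem TRU_ex1 (hM : Mat S S' F π) (m : ℕ) (hc : TRU_Cl F S S' π (F m)) (v : Fin 2 → M)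
    (v' : Fin 2 → N) (h : ty S F (v 0) = ty S F (π (v' 0))) :
    (FV.ex 1 (F m)).Sat S v ↔ (FV.ex 1 (F m)).Sat S' v' := by
  constructor
  · rintro ⟨a, ha⟩
    have h1 : ty S F (v 0) (Sum.inl (m, 1)) := by
      refine ⟨a, ?_⟩
      rw [TRU_upd1] at ha ⊢
      exact ha
    rw [h] at h1
    obtain ⟨b, hb⟩ := h1
    rw [TRU_upd1] at hb
    obtain ⟨b', h2, h3, h4⟩ := hM.ext (v' 0) b
    refine ⟨b', ?_⟩
    rw [TRU_upd1]
    exact (hc ![π (v' 0), b] ![v' 0, b'] rfl h2.symm h3 h4).1 hb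
  · rintro ⟨b', hb⟩
    rw [TRU_upd1] at hb
    obtain ⟨x, y, h1, h2, h3, h4⟩ := hM.sub (v' 0) b'
    have h5 : (F m).Sat S ![x, y] := (hc ![x, y] ![v' 0, b'] h1 h2 h3 h4).2 hb
    have h6 : ty S F x (Sum.inl (m, 1)) := by
      refine ⟨y, ?_⟩
      rw [TRU_upd1]
      exact h5
    rw [h1, ← h] at h6
    obtain ⟨a, ha⟩ := h6
    refine ⟨a, ?_⟩
    rw [TRU_upd1] at ha ⊢
    exact ha

private theorem TRU_ex0 (hM : Mat S S' F π) (m : ℕ) (hc : TRU_Cl F S S' π (F m)) (v : Fin 2 → M)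
    (v' : Fin 2 → N) (h : ty S F (v 1) = ty S F (π (v' 1))) :
    (FV.ex 0 (F m)).Sat S v ↔ (FV.ex 0 (F m)).Sat S' v' := by
  constructor
  · rintro ⟨a, ha⟩
    have h1 : ty S F (v 1) (Sum.inl (m, 0)) := by
      refine ⟨a, ?_⟩
      rw [TRU_upd0] at ha ⊢
      exact ha
    rw [h] at h1
    obtain ⟨b, hb⟩ := h1
    rw [TRU_upd0] at hb
    obtain ⟨b', h2, h3, h4⟩ := hM.ext (v' 1) b
    refine ⟨b', ?_⟩
    rw [TRU_upd0]
    exact (hc ![b, π (v' 1)] ![b', v' 1] h2.symm rfl
      (eq_comm.trans (h3.trans eq_comm)) (TRU_sw_all h4)).1 hb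
  · rintro ⟨b', hb⟩
    rw [TRU_upd0] at hb
    obtain ⟨x, y, h1, h2, h3, h4⟩ := hM.sub (v' 1) b'
    have h5 : (F m).Sat S ![y, x] := (hc ![y, x] ![b', v' 1] h2 h1
      (eq_comm.trans (h3.trans eq_comm)) (TRU_sw_all h4)).2 hb
    have h6 : ty S F x (Sum.inl (m, 0)) := by
      refine ⟨y, ?_⟩
      rw [TRU_upd0]
      exact h5
    rw [h1, ← h] at h6
    obtain ⟨a, ha⟩ := h6
    refine ⟨a, ?_⟩
    rw [TRU_upd0] at ha ⊢
    exact ha

private theorem TRU_claim (hF : Cls F) (hM : Mat S S' F π) (ψ : FV L 2) :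
    ∀ m, F m = ψ → TRU_Cl F S S' π ψ := by
  induction ψ with
  | eq i j =>
    intro m _ v v' _ _ h _
    show v i = v j ↔ v' i = v' j
    fin_cases i <;> fin_cases j
    · simp
    · exact h
    · exact eq_comm.trans (h.trans eq_comm)
    · simp
  | rel R w =>
    intro m _ v v' _ _ _ h
    have h1 : (fun i => v (w i)) = fun i => if w i = 0 then v 0 else v 1 := by
      funext i
      by_cases hi : w i = 0
      · simp [hi]
      · have : w i = 1 := by omega
        simp [this]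
    have h2 : (fun i => v' (w i)) = fun i => if w i = 0 then v' 0 else v' 1 := by
      funext i
      by_cases hi : w i = 0
      · simp [hi]
      · have : w i = 1 := by omega
        simp [this]
    show S.RelMap R (fun i => v (w i)) ↔ S'.RelMap R (fun i => v' (w i))
    rw [h1, h2]
    exact h ⟨_, R, w⟩
  | neg φ ih =>
    intro m hm v v' h0 h1 h2 h3
    obtain ⟨m', hm'⟩ := hF m φ (hm ▸ Sub1.neg φ)
    exact not_congr (ih m' hm' v v' h0 h1 h2 h3)
  | conj φ ih =>
    intro m hm v v' h0 h1 h2 h3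
    refine forall_congr' fun l => ?_
    obtain ⟨m', hm'⟩ := hF m (φ l) (hm ▸ Sub1.conj φ l)
    exact ih l m' hm' v v' h0 h1 h2 h3
  | ex i φ ih =>
    intro m hm v v' h0 h1 h2 h3
    obtain ⟨m', hm'⟩ := hF m φ (hm ▸ Sub1.ex i φ)
    have hc := ih m' hm'
    rw [← hm'] at hc ⊢
    fin_cases i
    · exact TRU_ex0 hM m' hc v v' h1
    · exact TRU_ex1 hM m' hc v v' h0

end

theorem thm_TRU : St_TRU := by
  intro L F M N S S' π hF hM
  have hcl : ∀ m, TRU_Cl F S S' π (F m) := fun m => TRU_claim hF hM (F m) m rfl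
  refine ⟨?_, ?_⟩
  · intro x'
    funext i
    apply propext
    rcases i with ⟨m, i⟩ | a
    · fin_cases i
      · exact (TRU_ex0 hM m (hcl m) (fun _ => π x') (fun _ => x') rfl).symm
      · exact (TRU_ex1 hM m (hcl m) (fun _ => π x') (fun _ => x') rfl).symm
    · obtain ⟨x, y, h1, h2, h3, h4⟩ := hM.sub x' x'
      have hxy : x = y := h3.2 rfl
      subst hxy
      show atm S' x' x' a ↔ ty S F (π x') (Sum.inr a)
      rw [← h1]
      exact (h4 a).symm
  · intro m hm v'
    obtain ⟨x, y, h1, h2, h3, h4⟩ := hM.sub (v' 0) (v' 1)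
    exact (hcl m ![x, y] v' h1 h2 h3 h4).1 (hm _)

end VPF
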