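import Pool.Agent.VPF.StG

/-!
# VPF, module TWN: the rigid base
-/

set_option autoImplicit false

namespace VPF

open FirstOrder Set Pool.Agent.Helper6.Str Pool.Agent.Helper5.Multi Pool.Agent.Helper79.VC
  Pool.Agent.Helper5.DU Pool.Agent.Helper97.VC Pool.Agent.Helper97.LO

variable {L : FirstOrder.Language.{0, 0}} {P : Type}

/-- The points which are added to `X` in one step. -/
private def TWN_Phi (N : L.Structure P) (X : Set P) : Set P :=
  {u | ∀ v, v ∉ X → Pt N X ![u] ![v] → v = u}

/-- Fewer parameters. -/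
private theorem TWN_pt_mono {N : L.Structure P} {X X' : Set P} (h : X ⊆ X') {k : ℕ}
    {x x' : Fin k → P} (hp : Pt N X' x x') : Pt N X x x' := by
  intro n R w
  have h1 := hp n R (fun i => Sum.map (Set.inclusion h) id (w i))
  have e1 : ∀ y : Fin k → P, (fun i => Sum.elim (Subtype.val : X' → P) y
      (Sum.map (Set.inclusion h) id (w i))) = fun i => Sum.elim (Subtype.val : X → P) y (w i) := by
    intro y
    funext i
    cases w i with
    | inl a => rfl
    | inr a => rfl
  rw [e1, e1] at h1
  exact h1

/-- An automorphism fixing `X` pointwise preserves types over `X`. -/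
private theorem TWN_pt_iso {N : L.Structure P} {X : Set P} {e : P ≃ P} (he : RelIso N N e)
    (hX : ∀ x ∈ X, e x = x) (u : P) : Pt N X ![u] ![e u] := by
  intro n R w
  have h1 := he n R (fun i => Sum.elim (Subtype.val : X → P) ![u] (w i))
  have e1 : (fun i => Sum.elim (Subtype.val : X → P) ![e u] (w i)) =
      fun i => e (Sum.elim (Subtype.val : X → P) ![u] (w i)) := by
    funext i
    cases hw : w i with
    | inl a => exact (hX a.1 a.2).symm
    | inr a =>
      have ha : a = 0 := Subsingleton.elim _ _
      subst ha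
      rfl
  rw [e1]
  exact h1

theorem thm_TWN : St_TWN := by
  intro L P N C
  let fam : Set (Set P) := {X | C ⊆ X ∧ TWN_Phi N X ⊆ X}
  refine ⟨⋂₀ fam, ?_, ?_, ?_⟩
  · intro c hc X hX
    exact hX.1 hc
  · intro u hu
    have hcl : TWN_Phi N (⋂₀ fam) ⊆ ⋂₀ fam := by
      intro z hz X hX
      by_contra hzX
      apply hzX
      apply hX.2
      intro v hv hp
      refine hz v (fun hv2 => hv (hv2 X hX)) (TWN_pt_mono ?_ hp)
      exact Set.sInter_subset_of_mem hX
    have hu2 : u ∉ TWN_Phi N (⋂₀ fam) := fun h => hu (hcl h)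
    have hu3 : ∃ v, v ∉ ⋂₀ fam ∧ Pt N (⋂₀ fam) ![u] ![v] ∧ v ≠ u := by
      by_contra hcon
      apply hu2
      intro v hv hp
      by_contra hne
      exact hcon ⟨v, hv, hp, hne⟩
    obtain ⟨v, hv, hp, hne⟩ := hu3
    exact ⟨v, hv, hne, hp⟩
  · intro e he hC d hd
    have hX : {u | e u = u} ∈ fam := by
      refine ⟨fun c hc => hC c hc, ?_⟩
      intro u hu
      by_contra hne
      have h1 : e u ∉ {u | e u = u} := by
        intro h
        apply hne
        exact e.injective h
      exact hne (hu (e u) h1 (TWN_pt_iso he (fun x hx => hx) u))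
    have h2 : d ∈ {u | e u = u} := Set.mem_sInter.mp hd {u | e u = u} hX
    exact h2

end VPF
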