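import Pool.Agent.VPF.StG

/-!
# VPF, module WGC: the class of models of the Gödel class is closed under unions of copies
-/

set_option autoImplicit false

namespace VPF

open FirstOrder Set Pool.Agent.Helper6.Str Pool.Agent.Helper5.Multi Pool.Agent.Helper79.VC
  Pool.Agent.Helper5.DU Pool.Agent.Helper97.VC Pool.Agent.Helper97.LO

/-- Quantifier-free formulas are preserved and reflected by embeddings. -/
private theorem WGC_qf {L : FirstOrder.Language.{0, 0}} {P B : Type} {N : L.Structure P}
    {A : L.Structure B} {h : P → B} (hi : Function.Injective h)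
    (hr : ∀ (n : ℕ) (R : L.Relations n) (w : Fin n → P),
      A.RelMap R (fun i => h (w i)) ↔ N.RelMap R w) {n : ℕ} {φ : FmI L n} (hφ : QFI φ)
    (v : Fin n → P) : Sat A φ (fun i => h (v i)) ↔ Sat N φ v := by
  induction hφ with
  | eq i j => exact hi.eq_iff
  | rel R w => exact hr _ R fun i => v (w i)
  | neg _ ih => exact not_congr ih
  | conj _ ih => exact forall_congr' fun k => ih k

theorem thm_WGC : St_WGC := by
  intro L m l θ hθ P N c D hc hN A hA
  obtain ⟨ι, hι⟩ := hA
  refine ⟨fun i => ι (c i), fun i x' y' => ?_⟩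
  obtain ⟨h, hi, hd, ⟨u, rfl⟩, ⟨v, rfl⟩, hr⟩ := hι x' y'
  obtain ⟨z, hz⟩ := hN i u v
  refine ⟨fun j => h (z j), ?_⟩
  have h1 : Fin.append (Fin.append (fun j => ι (c j)) ![h u, h v]) (fun j => h (z j)) =
      fun j => h (Fin.append (Fin.append c ![u, v]) z j) := by
    funext j
    refine Fin.addCases (fun j => ?_) (fun j => ?_) j
    · rw [Fin.append_left, Fin.append_left]
      refine Fin.addCases (fun j => ?_) (fun j => ?_) j
      · rw [Fin.append_left, Fin.append_left]
        exact (hd _ (hc ⟨j, rfl⟩)).symm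
      · rw [Fin.append_right, Fin.append_right]
        fin_cases j <;> rfl
    · rw [Fin.append_right, Fin.append_right]
  rw [h1]
  exact (WGC_qf hi hr (hθ i) _).mpr hz

end VPF
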