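import Pool.Agent.VPF.MNA
import Pool.Agent.VPF.SUB
import Pool.Agent.VPF.BIP
import Pool.Agent.VPF.TRU
import Pool.Agent.VPF.PST
import Pool.Agent.VPF.INV
import Pool.Agent.VPF.MUL
import Pool.Agent.VPF.MEA
import Pool.Agent.VPF.TAI
import Pool.Agent.VPF.TAM
import Pool.Agent.VPF.AR3
import Pool.Agent.VPF.BFS
import Pool.Agent.VPF.BTM
import Pool.Agent.VPF.BSL
import Pool.Agent.VPF.BPX
import Pool.Agent.VPF.BQD
import Pool.Agent.VPF.BUL
import Pool.Agent.VPF.SWE
import Pool.Agent.VPF.NCT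
import Pool.Agent.VPF.CTY
import Pool.Agent.VPF.VQS
import Pool.Agent.VPF.AUL
import Pool.Agent.VPF.SWA
import Pool.Agent.VPF.TWN
import Pool.Agent.VPF.PTS
import Pool.Agent.VPF.WGC
import Pool.Agent.VPF.GMN
import Pool.Agent.VPF.FXB
import Pool.Agent.VPF.FXC
import Pool.Agent.VPF.FXT
import Pool.Agent.VPF.BMU
import Pool.Agent.VPF.CodC
import Pool.Agent.VPF.CodI

/-!
# Vaught's conjecture by number of variables and quantifier prefix: everything together
-/

set_option autoImplicit false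

namespace VPF

open FirstOrder Set Pool.Agent.Helper6.Str Pool.Agent.Helper5.DU

/-- Part A. -/
theorem all_MNA : St_MNA :=
  thm_MNA thm_SUB (thm_BIP thm_TRU thm_PST thm_INV) (thm_MUL thm_TRU thm_PST thm_INV)
    (thm_TAM thm_MEA thm_INV thm_TAI) thm_AR3

/-- Part B. -/
theorem all_BFS : St_BFS := thm_BFS thm_BQD (thm_BUL thm_BPX) (thm_FXB thm_FXC) (thm_FXT thm_FXC)

theorem all_BTM : St_BTM := thm_BTM (thm_BMU thm_SWE) (thm_BSL thm_NCT thm_SWE)

/-- First-order theories with axioms of the form `∃*∀∀∃*`. -/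
theorem all_B (L : FirstOrder.Language.{0, 0}) [∀ n, IsEmpty (L.Functions n)]
    [∀ n, Countable (L.Relations n)] (T : L.Theory)
    (hT : ∀ φ ∈ T, ∃ m n, Pre (List.replicate m false ++ [true, true] ++
      List.replicate n false) φ) : CtblK (ModF T) ∨ PerfK (ModF T) := by
  rcases all_BFS L T hT with h | h
  · exact Or.inr h
  · exact all_BTM L T h

/-- Part G, from the module `WGB`. -/
theorem all_GMN (hWGB : St_WGB) : St_GMN :=
  thm_GMN (thm_SWA thm_NCT (thm_AUL thm_CTY thm_VQS)) thm_TWN thm_PTS hWGB thm_WGC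
    (thm_FXB thm_FXC) (thm_FXT thm_FXC)

end VPF
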