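import Pool.Agent.VPF.CIS

/-!
# VPF, module CDC: decoding the models of the coding theory
-/

set_option autoImplicit false
set_option linter.unusedVariables false

namespace VPF

open FirstOrder FirstOrder.Language Set Pool.Agent.Helper6.Str

namespace CDC

open CMD CIS

variable {L : FirstOrder.Language.{0, 0}} [∀ n, IsEmpty (L.Functions n)] {T : L.Theory}
  {N : Type} {S' : (LC L).Structure N}

/-- The point `x` codes the tuple `t`. -/
def IsCod (S' : (LC L).Structure N) {n : ℕ} (t : Fin n → {x : N // SU S' 1 x}) (x : N) : Prop :=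
  SU S' n x ∧ ∀ i, SS S' (ct i) x (t i)

theorem comp_ct {k n : ℕ} (f : Fin k → Fin n) (i : Fin k) : f ∘ ct i = ct (f i) := rfl

/-- Every point of arity `n` codes a tuple. -/
theorem exists_tuple (D : Dec T S') {n : ℕ} {x : N} (hx : SU S' n x) :
    ∃ t : Fin n → {x : N // SU S' 1 x}, IsCod S' t x := by
  choose z hz using fun i : Fin n => D.tot (ct i) x hx
  exact ⟨fun i => ⟨z i, (D.sub _ _ _ (hz i)).2⟩, hx, hz⟩

theorem tuple_unique (D : Dec T S') {n : ℕ} {t t' : Fin n → {x : N // SU S' 1 x}} {x : N}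
    (h : IsCod S' t x) (h' : IsCod S' t' x) : t = t' := by
  funext i
  exact Subtype.ext (D.fn _ _ _ _ (h.2 i) (h'.2 i))

/-- The subtuple coded by `y` when `Sub f x y`. -/
theorem sub_cod (D : Dec T S') {k n : ℕ} {f : Fin k → Fin n}
    {t : Fin n → {x : N // SU S' 1 x}} {x y : N} (h : IsCod S' t x) (hf : SS S' f x y) :
    IsCod S' (t ∘ f) y := by
  refine ⟨(D.sub _ _ _ hf).2, fun i => ?_⟩
  obtain ⟨z, hz⟩ := D.tot (ct i) y (D.sub _ _ _ hf).2
  have h1 := D.comp f (ct i) x y z hf hz
  rw [comp_ct] at h1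
  have h2 := D.fn _ _ _ _ (h.2 (f i)) h1
  show SS S' (ct i) y (t (f i))
  rw [h2]
  exact hz

theorem cod_unique (D : Dec T S') : ∀ {n : ℕ} {t : Fin n → {x : N // SU S' 1 x}} {x y : N},
    IsCod S' t x → IsCod S' t y → x = y := by
  intro n
  induction n with
  | zero =>
    intro t x y hx hy
    exact D.uni0 x y hx.1 hy.1
  | succ n ih =>
    intro t x y hx hy
    refine D.exte n x y hx.1 hy.1 (fun z hz => ?_) fun z hz => ?_
    · obtain ⟨z', hz'⟩ := D.tot (Fin.castSucc : Fin n → Fin (n + 1)) y hy.1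
      rw [ih (sub_cod D hx hz) (sub_cod D hy hz')]
      exact hz'
    · rw [← D.fn _ _ _ _ (hx.2 (Fin.last n)) hz]
      exact hy.2 (Fin.last n)

theorem exists_cod (D : Dec T S') : ∀ {n : ℕ} (t : Fin n → {x : N // SU S' 1 x}),
    ∃ x, IsCod S' t x := by
  intro n
  induction n with
  | zero =>
    intro t
    obtain ⟨x, hx⟩ := D.ex0
    exact ⟨x, hx, fun i => i.elim0⟩
  | succ n ih =>
    intro t
    obtain ⟨x, hx⟩ := ih (t ∘ Fin.castSucc)
    obtain ⟨y, hy, hy'⟩ := D.cons n x (t (Fin.last n)) hx.1 (t (Fin.last n)).2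
    refine ⟨y, (D.sub _ _ _ hy).1, fun i => ?_⟩
    refine Fin.lastCases ?_ (fun i => ?_) i
    · exact hy'
    · exact D.comp _ (ct i) y x _ hy (hx.2 i)

theorem sub_of_cod (D : Dec T S') {k n : ℕ} {f : Fin k → Fin n}
    {t : Fin n → {x : N // SU S' 1 x}} {x y : N} (h : IsCod S' t x) (h' : IsCod S' (t ∘ f) y) :
    SS S' f x y := by
  obtain ⟨z, hz⟩ := D.tot f x h.1
  rwa [cod_unique D h' (sub_cod D h hz)]

theorem relMap_iff (D : Dec T S') {n : ℕ} (r : L.Relations n)
    (v : Fin n → {x : N // SU S' 1 x}) {x : N} (h : IsCod S' v x) :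
    (dec S').RelMap r v ↔ SP S' (atom r) x := by
  constructor
  · rintro ⟨y, h1, h2, h3⟩
    rwa [cod_unique D h ⟨h1, h2⟩]
  · intro h3
    exact ⟨x, h.1, h.2, h3⟩

/-- The truth lemma. -/
theorem truth (D : Dec T S') {n : ℕ} (φ : L.BoundedFormula Empty n) :
    ∀ (t : Fin n → {x : N // SU S' 1 x}) (x : N), IsCod S' t x →
      (@BoundedFormula.Realize L _ (dec S') Empty n φ default t ↔ SP S' φ x) := by
  induction φ with
  | falsum =>
    intro t x hx
    exact ⟨fun h => h.elim, fun h => D.fls _ x h⟩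
  | equal t₁ t₂ =>
    intro t x hx
    have h1 : @BoundedFormula.Realize L _ (dec S') Empty _ (BoundedFormula.equal t₁ t₂) default t ↔
        t (vr t₁) = t (vr t₂) := by
      show @Term.realize L _ (dec S') _ (Sum.elim default t) t₁ =
        @Term.realize L _ (dec S') _ (Sum.elim default t) t₂ ↔ _
      rw [vr_realize, vr_realize]
    rw [h1, D.eq t₁ t₂ x _ (hx.2 (vr t₁))]
    constructor
    · intro h
      rw [h]
      exact hx.2 _
    · intro h
      exact Subtype.ext (D.fn _ _ _ _ h (hx.2 _))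
  | rel r ts =>
    intro t x hx
    obtain ⟨y, hy⟩ := D.tot (fun i => vr (ts i)) x hx.1
    have h1 : @BoundedFormula.Realize L _ (dec S') Empty _ (BoundedFormula.rel r ts) default t ↔
        (dec S').RelMap r (t ∘ fun i => vr (ts i)) := by
      show (dec S').RelMap r (fun i => @Term.realize L _ (dec S') _ (Sum.elim default t) (ts i)) ↔ _
      have : (fun i => @Term.realize L _ (dec S') _ (Sum.elim default t) (ts i)) =
          t ∘ fun i => vr (ts i) := by
        funext i
        rw [vr_realize]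
        rfl
      rw [this]
    rw [h1, D.rel r ts x y hy]
    exact relMap_iff D r _ (sub_cod D hx hy)
  | imp φ ψ ih1 ih2 =>
    intro t x hx
    rw [D.imp φ ψ x hx.1, ← ih1 t x hx, ← ih2 t x hx]
    rfl
  | @all n φ ih =>
    intro t x hx
    rw [D.all φ x hx.1]
    constructor
    · intro h y hy
      obtain ⟨s, hs⟩ := exists_tuple D (D.sub _ _ _ hy).1
      rw [← ih s y hs]
      have h1 := tuple_unique D hx (sub_cod D hs hy)
      have h2 := h (s (Fin.last n))
      have h3 : (Fin.snoc t (s (Fin.last n)) : Fin (n + 1) → {x : N // SU S' 1 x}) = s := by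
        rw [h1]
        funext i
        refine Fin.lastCases ?_ (fun i => ?_) i <;> simp
      rwa [h3] at h2
    · intro h a
      obtain ⟨y, hy⟩ := exists_cod D (Fin.snoc t a : Fin (n + 1) → {x : N // SU S' 1 x})
      rw [ih _ y hy]
      apply h
      refine sub_of_cod D hy ?_
      have h3 : (Fin.snoc t a : Fin (n + 1) → {x : N // SU S' 1 x}) ∘ Fin.castSucc = t := by
        funext i
        simp
      rwa [h3]

end CDC

open CMD CIS CDC in
theorem thm_CDC : St_CDC := by
  intro L _ T N S' D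
  obtain ⟨x₀, hx₀⟩ := D.ex0
  have h0 : IsCod S' (default : Fin 0 → {x : N // SU S' 1 x}) x₀ := ⟨hx₀, fun i => i.elim0⟩
  have hmod : ∀ σ ∈ T ∪ L.infiniteTheory, @Sentence.Realize L _ (dec S') σ := by
    intro σ hσ
    exact (truth D σ default x₀ h0).mpr (D.thy σ hσ x₀ hx₀)
  refine ⟨?_, ?_, ?_, ?_⟩
  · rw [← @model_infiniteTheory_iff L _ (dec S')]
    exact @Theory.Model.mk L _ (dec S') _ fun σ hσ => hmod σ (Or.inr hσ)
  · exact @Theory.Model.mk L _ (dec S') _ fun σ hσ => hmod σ (Or.inl hσ)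
  · choose c hc using fun (n : ℕ) (t : Fin n → {x : N // SU S' 1 x}) => exists_cod D t
    let E : (((n : ℕ) × (Fin n → {x : N // SU S' 1 x})) ⊕ Junk S') → N :=
      Sum.elim (fun p => c p.1 p.2) Subtype.val
    have hinj : Function.Injective E := by
      rintro (⟨m, s⟩ | j) (⟨n, t⟩ | j') h
      · have h1 : c m s = c n t := h
        have h2 : m = n := D.disj m n (c m s) (hc m s).1 (h1 ▸ (hc n t).1)
        subst h2
        have h3 : s = t := tuple_unique D (hc m s) (h1 ▸ hc m t)
        rw [h3]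
      · have h1 : c m s = j' := h
        exact absurd (hc m s).1 (h1 ▸ j'.2 m)
      · have h1 : (j : N) = c n t := h
        exact absurd (hc n t).1 (h1 ▸ j.2 n)
      · have h1 : (j : N) = j' := h
        rw [Subtype.ext h1]
    have hsurj : Function.Surjective E := by
      intro x
      by_cases hx : ∃ n, SU S' n x
      · obtain ⟨n, hn⟩ := hx
        obtain ⟨t, ht⟩ := exists_tuple D hn
        exact ⟨Sum.inl ⟨n, t⟩, cod_unique D (hc n t) ht⟩
      · push Not at hx
        exact ⟨Sum.inr ⟨x, hx⟩, rfl⟩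
    let e := Equiv.ofBijective E ⟨hinj, hsurj⟩
    have hee : ∀ x, e x = E x := fun x => rfl
    have hUc : ∀ (n : ℕ) x, SU S' n (E x) → ∃ t, x = Sum.inl ⟨n, t⟩ := by
      intro n x hx
      obtain ⟨t, ht⟩ := exists_tuple D hx
      exact ⟨t, hinj (cod_unique D ht (hc n t))⟩
    have hiso : RelIso (CodJ (dec S') (Junk S')) S' e := by
      apply relIso_of
      · intro n x
        rw [hee, su]
        constructor
        · rintro ⟨t, rfl⟩
          exact (hc n t).1
        · exact hUc n x
      · intro n φ x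
        rw [hee, sp]
        constructor
        · rintro ⟨t, rfl, h⟩
          exact (truth D φ t (c n t) (hc n t)).mp h
        · intro h
          obtain ⟨t, rfl⟩ := hUc n x (D.dom φ _ h)
          exact ⟨t, rfl, (truth D φ t (c n t) (hc n t)).mpr h⟩
      · intro k n f x y
        rw [hee, hee, ss]
        constructor
        · rintro ⟨t, rfl, rfl⟩
          exact sub_of_cod D (hc n t) (hc k (t ∘ f))
        · intro h
          obtain ⟨t, rfl⟩ := hUc n x (D.sub _ _ _ h).1
          refine ⟨t, rfl, hinj ?_⟩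
          exact D.fn _ _ _ _ h (sub_of_cod D (hc n t) (hc k (t ∘ f)))
    exact ⟨e.symm, hiso.symm⟩
  · intro n r v
    constructor
    · rintro ⟨y, h1, h2, h3⟩ z hz1 hz2
      rwa [cod_unique D ⟨hz1, hz2⟩ ⟨h1, h2⟩]
    · intro h
      obtain ⟨x, hx⟩ := exists_cod D v
      exact ⟨x, hx.1, hx.2, h x hx.1 hx.2⟩

end VPF
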