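import Pool.Agent.VPF.CMD

/-!
# VPF, module CIS: isomorphisms of coding structures
-/

set_option autoImplicit false
set_option linter.unusedVariables false

namespace VPF

open FirstOrder FirstOrder.Language Set Pool.Agent.Helper6.Str

namespace CIS

open CMD

variable {L : FirstOrder.Language.{0, 0}} {M M' : Type}

/-- Truth is preserved by isomorphisms. -/
theorem realize_iso [∀ n, IsEmpty (L.Functions n)] (S : L.Structure M) (S' : L.Structure M')
    (e : M ≃ M') (h : RelIso S S' e) {n : ℕ} (φ : L.BoundedFormula Empty n) (t : Fin n → M) :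
    @BoundedFormula.Realize L M' S' Empty n φ default (e ∘ t) ↔
      @BoundedFormula.Realize L M S Empty n φ default t := by
  let g : @FirstOrder.Language.Equiv L M M' S S' :=
    @FirstOrder.Language.Equiv.mk L M M' S S' e (fun f => isEmptyElim f)
      fun R v => (h _ R v).symm
  have h1 := @StrongHomClass.realize_boundedFormula L M M' S S' Empty n
    (@FirstOrder.Language.Equiv L M M' S S')
    (@FirstOrder.Language.Equiv.instEquivLike L M M' S S')
    (@FirstOrder.Language.Equiv.instStrongHomClass L M M' S S') g φ default t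
  rw [← h1]
  have h2 : (g ∘ (default : Empty → M)) = (default : Empty → M') := Subsingleton.elim _ _
  rw [h2]
  rfl

theorem iso_SU {N N' : Type} {S : (LC L).Structure N} {S' : (LC L).Structure N'} {e : N ≃ N'}
    (h : RelIso S S' e) {n : ℕ} {x : N} : SU S n x ↔ SU S' n (e x) := by
  have := h 1 (RelC.U n : RelC L 1) ![x]
  have h2 : e ∘ ![x] = ![e x] := by
    funext i
    fin_cases i
    rfl
  rw [h2] at this
  exact this

theorem iso_SP {N N' : Type} {S : (LC L).Structure N} {S' : (LC L).Structure N'} {e : N ≃ N'}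
    (h : RelIso S S' e) {n : ℕ} {φ : L.BoundedFormula Empty n} {x : N} :
    SP S φ x ↔ SP S' φ (e x) := by
  have := h 1 (RelC.P φ : RelC L 1) ![x]
  have h2 : e ∘ ![x] = ![e x] := by
    funext i
    fin_cases i
    rfl
  rw [h2] at this
  exact this

theorem iso_SS {N N' : Type} {S : (LC L).Structure N} {S' : (LC L).Structure N'} {e : N ≃ N'}
    (h : RelIso S S' e) {k n : ℕ} {f : Fin k → Fin n} {x y : N} :
    SS S f x y ↔ SS S' f (e x) (e y) := by
  have := h 2 (RelC.Sub f : RelC L 2) ![x, y]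
  have h2 : e ∘ ![x, y] = ![e x, e y] := by
    funext i
    fin_cases i <;> rfl
  rw [h2] at this
  exact this

/-- A bijection which preserves the three kinds of relations is an isomorphism. -/
theorem relIso_of {N N' : Type} {S : (LC L).Structure N} {S' : (LC L).Structure N'} (e : N ≃ N')
    (hU : ∀ n x, SU S n x ↔ SU S' n (e x))
    (hP : ∀ (n : ℕ) (φ : L.BoundedFormula Empty n) x, SP S φ x ↔ SP S' φ (e x))
    (hS : ∀ (k n : ℕ) (f : Fin k → Fin n) x y, SS S f x y ↔ SS S' f (e x) (e y)) :
    RelIso S S' e := by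
  intro n (R : RelC L n) v
  cases R with
  | U n =>
    have h1 : v = ![v 0] := by
      funext i
      fin_cases i
      rfl
    have h2 : e ∘ v = ![e (v 0)] := by
      funext i
      fin_cases i
      rfl
    rw [h2, h1]
    exact hU n (v 0)
  | P φ =>
    have h1 : v = ![v 0] := by
      funext i
      fin_cases i
      rfl
    have h2 : e ∘ v = ![e (v 0)] := by
      funext i
      fin_cases i
      rfl
    rw [h2, h1]
    exact hP _ φ (v 0)
  | Sub f =>
    have h1 : v = ![v 0, v 1] := by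
      funext i
      fin_cases i <;> rfl
    have h2 : e ∘ v = ![e (v 0), e (v 1)] := by
      funext i
      fin_cases i <;> rfl
    rw [h2, h1]
    exact hS _ _ f (v 0) (v 1)

end CIS

open CMD CIS in
theorem thm_CIS : St_CIS := by
  intro L _ M M' J J' S S'
  constructor
  · rintro ⟨e, he⟩
    have hU : ∀ (n : ℕ) (t : Fin n → M), ∃ t' : Fin n → M', e (Sum.inl ⟨n, t⟩) = Sum.inl ⟨n, t'⟩ :=
      fun n t => (su S' J').mp ((iso_SU he).mp ⟨t, rfl⟩)
    have hU' : ∀ (n : ℕ) (t : Fin n → M'), ∃ t' : Fin n → M,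
        e.symm (Sum.inl ⟨n, t⟩) = Sum.inl ⟨n, t'⟩ :=
      fun n t => (su S J).mp ((iso_SU he.symm).mp ⟨t, rfl⟩)
    choose u hu using hU
    let h : M → M' := fun a => u 1 (fun _ => a) 0
    have h1 : ∀ a : M, e (Sum.inl ⟨1, fun _ => a⟩) = Sum.inl ⟨1, fun _ => h a⟩ := by
      intro a
      rw [hu 1 (fun _ => a)]
      have : u 1 (fun _ => a) = fun _ => h a := by
        funext i
        rw [Subsingleton.elim i 0]
      rw [this]
    have h2 : ∀ (n : ℕ) (t : Fin n → M), e (Sum.inl ⟨n, t⟩) = Sum.inl ⟨n, h ∘ t⟩ := by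
      intro n t
      rw [hu n t]
      have : u n t = h ∘ t := by
        funext i
        have h3 : SS (CodJ S J) (ct i) (Sum.inl ⟨n, t⟩) (Sum.inl ⟨1, fun _ => t i⟩) :=
          ⟨t, rfl, rfl⟩
        rw [iso_SS he, h1, hu n t, ss'] at h3
        exact (congrFun (inl_inj J' h3) 0).symm
      rw [this]
    have hinj : Function.Injective h := by
      intro a b hab
      have h3 : e (Sum.inl ⟨1, fun _ => a⟩) = e (Sum.inl ⟨1, fun _ => b⟩) := by
        rw [h1, h1, hab]
      exact congrFun (inl_inj J (e.injective h3)) 0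
    have hsurj : Function.Surjective h := by
      intro b
      obtain ⟨t', ht'⟩ := hU' 1 (fun _ => b)
      refine ⟨t' 0, ?_⟩
      have h3 : t' = fun _ => t' 0 := by
        funext i
        rw [Subsingleton.elim i 0]
      have h4 : e (Sum.inl ⟨1, t'⟩) = Sum.inl ⟨1, fun _ => b⟩ := by
        rw [← ht', e.apply_symm_apply]
      rw [h3, h1] at h4
      exact congrFun (inl_inj J' h4) 0
    refine ⟨Equiv.ofBijective h ⟨hinj, hsurj⟩, fun n r t => ?_⟩
    have h3 : SP (CodJ S J) (atom r) (Sum.inl ⟨n, t⟩) ↔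
        SP (CodJ S' J') (atom r) (Sum.inl ⟨n, h ∘ t⟩) := by
      rw [iso_SP he, h2]
    rw [sp', sp'] at h3
    exact h3
  · rintro ⟨e, he⟩ ⟨j⟩
    let E : (((n : ℕ) × (Fin n → M)) ⊕ J) ≃ (((n : ℕ) × (Fin n → M')) ⊕ J') :=
      Equiv.sumCongr (Equiv.sigmaCongrRight fun n => Equiv.arrowCongr (Equiv.refl _) e) j
    have hE : ∀ (n : ℕ) (t : Fin n → M), E (Sum.inl ⟨n, t⟩) = Sum.inl ⟨n, e ∘ t⟩ :=
      fun n t => rfl
    have hsu : ∀ (n : ℕ) x (t' : Fin n → M'), E x = Sum.inl ⟨n, t'⟩ →
        ∃ t, x = Sum.inl ⟨n, t⟩ ∧ t' = e ∘ t := by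
      intro n x t' hx
      refine ⟨e.symm ∘ t', ?_, ?_⟩
      · apply E.injective
        rw [hx, hE]
        have : e ∘ (e.symm ∘ t') = t' := by
          funext i
          simp
        rw [this]
      · funext i
        simp
    refine ⟨E, relIso_of E ?_ ?_ ?_⟩
    · intro n x
      rw [su, su]
      constructor
      · rintro ⟨t, rfl⟩
        exact ⟨_, hE n t⟩
      · rintro ⟨t', ht'⟩
        obtain ⟨t, h1, _⟩ := hsu n x t' ht'
        exact ⟨t, h1⟩
    · intro n φ x
      rw [sp, sp]
      constructor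
      · rintro ⟨t, rfl, h⟩
        exact ⟨_, hE n t, (realize_iso S S' e he φ t).mpr h⟩
      · rintro ⟨t', ht', h⟩
        obtain ⟨t, h1, rfl⟩ := hsu n x t' ht'
        exact ⟨t, h1, (realize_iso S S' e he φ t).mp h⟩
    · intro k n f x y
      rw [ss, ss]
      constructor
      · rintro ⟨t, rfl, rfl⟩
        exact ⟨_, hE n t, hE k _⟩
      · rintro ⟨t', ht', hy⟩
        obtain ⟨t, h1, rfl⟩ := hsu n x t' ht'
        refine ⟨t, h1, ?_⟩
        apply E.injective
        rw [hy, hE]
        rfl

end VPF
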