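import Pool.Agent.VPF.StC

/-!
# VPF, module CMD: the coding structure satisfies the coding theory
-/

set_option autoImplicit false
set_option linter.unusedVariables false

namespace VPF

open FirstOrder FirstOrder.Language Set Pool.Agent.Helper6.Str

namespace CMD

variable {L : FirstOrder.Language.{0, 0}} {M : Type} (S : L.Structure M) (J : Type)

theorem su {n : ℕ} {x : ((n : ℕ) × (Fin n → M)) ⊕ J} :
    SU (CodJ S J) n x ↔ ∃ t : Fin n → M, x = Sum.inl ⟨n, t⟩ := Iff.rfl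

theorem sp {n : ℕ} {φ : L.BoundedFormula Empty n} {x : ((n : ℕ) × (Fin n → M)) ⊕ J} :
    SP (CodJ S J) φ x ↔ ∃ t : Fin n → M, x = Sum.inl ⟨n, t⟩ ∧
      @BoundedFormula.Realize L M S Empty n φ default t := Iff.rfl

theorem ss {k n : ℕ} {f : Fin k → Fin n} {x y : ((n : ℕ) × (Fin n → M)) ⊕ J} :
    SS (CodJ S J) f x y ↔ ∃ t : Fin n → M, x = Sum.inl ⟨n, t⟩ ∧ y = Sum.inl ⟨k, t ∘ f⟩ := Iff.rfl

theorem inl_inj {n : ℕ} {t t' : Fin n → M}
    (h : (Sum.inl ⟨n, t⟩ : ((n : ℕ) × (Fin n → M)) ⊕ J) = Sum.inl ⟨n, t'⟩) : t = t' :=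
  eq_of_heq (Sigma.mk.inj (Sum.inl.inj h)).2

theorem inl_arity {m n : ℕ} {t : Fin m → M} {t' : Fin n → M}
    (h : (Sum.inl ⟨m, t⟩ : ((n : ℕ) × (Fin n → M)) ⊕ J) = Sum.inl ⟨n, t'⟩) : m = n :=
  (Sigma.mk.inj (Sum.inl.inj h)).1

theorem sp' {n : ℕ} {φ : L.BoundedFormula Empty n} {t : Fin n → M} :
    SP (CodJ S J) φ (Sum.inl ⟨n, t⟩) ↔ @BoundedFormula.Realize L M S Empty n φ default t := by
  rw [sp]
  constructor
  · rintro ⟨t', h, h'⟩
    rwa [inl_inj J h]
  · exact fun h => ⟨t, rfl, h⟩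

theorem ss' {k n : ℕ} {f : Fin k → Fin n} {t : Fin n → M} {y : ((n : ℕ) × (Fin n → M)) ⊕ J} :
    SS (CodJ S J) f (Sum.inl ⟨n, t⟩) y ↔ y = Sum.inl ⟨k, t ∘ f⟩ := by
  rw [ss]
  constructor
  · rintro ⟨t', h, h'⟩
    rwa [inl_inj J h]
  · exact fun h => ⟨t, rfl, h⟩

theorem vr_realize [∀ n, IsEmpty (L.Functions n)] {n : ℕ} (t : L.Term (Empty ⊕ Fin n))
    (xs : Fin n → M) : @Term.realize L M S _ (Sum.elim default xs) t = xs (vr t) := by
  cases t with
  | var i =>
    cases i with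
    | inl e => exact e.elim
    | inr i => rfl
  | func f _ => exact isEmptyElim f

end CMD

open CMD in
theorem thm_CMD : St_CMD := by
  intro L _ T M _ S J hT
  refine
  { disj := ?_
    sub := ?_
    tot := ?_
    fn := ?_
    comp := ?_
    ident := ?_
    exte := ?_
    uni0 := ?_
    ex0 := ?_
    cons := ?_
    dom := ?_
    fls := ?_
    eq := ?_
    rel := ?_
    imp := ?_
    all := ?_
    thy := ?_ }
  · rintro m n x ⟨t, rfl⟩ ⟨t', h⟩
    exact inl_arity J h
  · rintro k n f x y ⟨t, rfl, rfl⟩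
    exact ⟨⟨t, rfl⟩, ⟨_, rfl⟩⟩
  · rintro k n f x ⟨t, rfl⟩
    exact ⟨_, t, rfl, rfl⟩
  · rintro k n f x y z ⟨t, rfl, rfl⟩ h
    rw [ss'] at h
    exact h.symm
  · rintro l k n f g x y z ⟨t, rfl, rfl⟩ h
    rw [ss'] at h
    exact ⟨t, rfl, h⟩
  · rintro n x ⟨t, rfl⟩
    exact ⟨t, rfl, rfl⟩
  · rintro n x y ⟨t, rfl⟩ ⟨t', rfl⟩ h1 h2
    have h3 := h1 _ ⟨t, rfl, rfl⟩
    have h4 := h2 _ ⟨t, rfl, rfl⟩
    rw [ss'] at h3 h4
    have h5 := inl_inj J h3
    have h6 := inl_inj J h4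
    have : t = t' := by
      funext i
      refine Fin.lastCases ?_ (fun i => ?_) i
      · exact congrFun h6 0
      · exact congrFun h5 i
    rw [this]
  · rintro x y ⟨t, rfl⟩ ⟨t', rfl⟩
    rw [Subsingleton.elim t t']
  · exact ⟨_, default, rfl⟩
  · rintro n x s ⟨t, rfl⟩ ⟨t', rfl⟩
    refine ⟨Sum.inl ⟨n + 1, Fin.snoc t (t' 0)⟩, ?_, ?_⟩
    · rw [ss']
      have : (Fin.snoc t (t' 0) : Fin (n + 1) → M) ∘ Fin.castSucc = t := by
        funext i
        simp
      rw [this]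
    · rw [ss']
      have : (Fin.snoc t (t' 0) : Fin (n + 1) → M) ∘ ct (Fin.last n) = t' := by
        funext i
        rw [Subsingleton.elim i 0]
        simp [ct]
      rw [this]
  · rintro n φ x ⟨t, rfl, _⟩
    exact ⟨t, rfl⟩
  · rintro n x ⟨t, rfl, h⟩
    exact h
  · rintro n t₁ t₂ x y ⟨t, rfl, rfl⟩
    rw [sp', ss']
    constructor
    · intro h
      have h1 : t (vr t₁) = t (vr t₂) := by
        have : @Term.realize L M S _ (Sum.elim default t) t₁ =
          @Term.realize L M S _ (Sum.elim default t) t₂ := h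
        rwa [vr_realize, vr_realize] at this
      have h2 : t ∘ ct (vr t₁) = t ∘ ct (vr t₂) := by
        funext i
        exact h1
      rw [h2]
    · intro h
      have h1 := congrFun (inl_inj J h) 0
      show @Term.realize L M S _ (Sum.elim default t) t₁ =
          @Term.realize L M S _ (Sum.elim default t) t₂
      rw [vr_realize, vr_realize]
      exact h1
  · rintro n k r ts x y ⟨t, rfl, rfl⟩
    rw [sp', sp']
    show S.RelMap r (fun i => @Term.realize L M S _ (Sum.elim default t) (ts i)) ↔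
      S.RelMap r (fun i => @Term.realize L M S _ _ _)
    have : (fun i => @Term.realize L M S _ (Sum.elim default t) (ts i)) =
        t ∘ fun i => vr (ts i) := by
      funext i
      rw [vr_realize]
      rfl
    rw [this]
    rfl
  · rintro n φ ψ x ⟨t, rfl⟩
    rw [sp', sp', sp']
    rfl
  · rintro n φ x ⟨t, rfl⟩
    rw [sp']
    constructor
    · rintro h y ⟨t', rfl, h'⟩
      rw [sp']
      have h1 := h (t' (Fin.last n))
      rw [inl_inj J h'] at h1
      have h2 : (Fin.snoc (t' ∘ Fin.castSucc) (t' (Fin.last n)) : Fin (n + 1) → M) = t' := by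
        funext i
        refine Fin.lastCases ?_ (fun i => ?_) i <;> simp
      rwa [h2] at h1
    · intro h a
      have h1 := h (Sum.inl ⟨n + 1, Fin.snoc t a⟩)
      rw [ss', sp'] at h1
      apply h1
      have : (Fin.snoc t a : Fin (n + 1) → M) ∘ Fin.castSucc = t := by
        funext i
        simp
      rw [this]
  · rintro σ hσ x ⟨t, rfl⟩
    rw [sp', Subsingleton.elim t default]
    rcases hσ with hσ | hσ
    · exact @Theory.realize_sentence_of_mem L M S T hT σ hσ
    · exact @Theory.realize_sentence_of_mem L M S L.infiniteTheory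
        (@model_infiniteTheory L M S _) σ hσ

end VPF
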