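import Pool.Agent.VPF.StC

/-!
# VPF, module CPR: prefixes of the coding axioms, countability of the coding language
-/

set_option autoImplicit false
set_option linter.unusedVariables false

namespace VPF

open FirstOrder FirstOrder.Language Set Pool.Agent.Helper6.Str

namespace CPR

variable {L : FirstOrder.Language.{0, 0}}

theorem qfU (n : ℕ) (i : Fin 3) : (aU (L := L) n i).IsQF :=
  (BoundedFormula.IsAtomic.rel _ _).isQF

theorem qfP {n : ℕ} (φ : L.BoundedFormula Empty n) (i : Fin 3) : (aP φ i).IsQF :=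
  (BoundedFormula.IsAtomic.rel _ _).isQF

theorem qfS {k n : ℕ} (f : Fin k → Fin n) (i j : Fin 3) : (aS (L := L) f i j).IsQF :=
  (BoundedFormula.IsAtomic.rel _ _).isQF

theorem qfE (i j : Fin 3) : (aE (L := L) i j).IsQF :=
  (BoundedFormula.IsAtomic.equal _ _).isQF

theorem qf_inf {L : FirstOrder.Language.{0, 0}} {n : ℕ} {φ ψ : L.BoundedFormula Empty n}
    (h : φ.IsQF) (h' : ψ.IsQF) : (φ ⊓ ψ).IsQF := (h.imp h'.not).not

theorem qf_sup {L : FirstOrder.Language.{0, 0}} {n : ℕ} {φ ψ : L.BoundedFormula Empty n}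
    (h : φ.IsQF) (h' : ψ.IsQF) : (φ ⊔ ψ).IsQF := h.not.imp h'

theorem qf_iff {L : FirstOrder.Language.{0, 0}} {n : ℕ} {φ ψ : L.BoundedFormula Empty n}
    (h : φ.IsQF) (h' : ψ.IsQF) : (φ.iff ψ).IsQF := qf_inf (h.imp h') (h'.imp h)

theorem qf_ax [∀ n, IsEmpty (L.Functions n)] {T : L.Theory}
    {θ : (LC L).BoundedFormula Empty 3} (h : AxE T θ) : θ.IsQF := by
  cases h with
  | disj m n _ => exact (qfU _ _).imp (qfU _ _).not
  | sub f => exact (qfS _ _ _).imp (qf_inf (qfU _ _) (qfU _ _))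
  | tot f => exact (qfU _ _).imp (qfS _ _ _)
  | comp f g => exact (qfS _ _ _).imp (qf_inf (qfS _ _ _) (qfS _ _ _))
  | ident n => exact (qfU _ _).imp (qfS _ _ _)
  | exte n => exact (qf_inf (qfU _ _) (qfU _ _)).imp ((qfE _ _).not.imp
      (qf_sup ((qfS _ _ _).imp (qfS _ _ _)).not ((qfS _ _ _).imp (qfS _ _ _)).not))
  | uni0 => exact (qf_inf (qfU _ _) (qfU _ _)).imp (qfE _ _)
  | ex0 => exact qfU _ _
  | cons n => exact (qf_inf (qfU _ _) (qfU _ _)).imp (qf_inf (qfS _ _ _) (qfS _ _ _))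
  | dom φ => exact (qfP _ _).imp (qfU _ _)
  | fls n => exact (qfP _ _).not
  | eq t₁ t₂ => exact (qfS _ _ _).imp (qf_iff (qfP _ _) (qfS _ _ _))
  | rel r ts => exact (qfS _ _ _).imp (qf_iff (qfP _ _) (qfP _ _))
  | imp φ ψ => exact (qfU _ _).imp (qf_iff (qfP _ _) ((qfP _ _).imp (qfP _ _)))
  | all1 φ => exact (qfS _ _ _).imp ((qfP _ _).imp (qfP _ _))
  | all2 φ => exact (qf_inf (qfU _ _) (qfP _ _).not).imp (qf_inf (qfS _ _ _) (qfP _ _).not)
  | thy σ _ => exact (qfU _ _).imp (qfP _ _)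

end CPR

open CPR in
theorem thm_CPR : St_CPR := by
  intro L _ T
  refine ⟨?_, ?_, ?_, ?_, ?_⟩
  · rintro σ (⟨θ, hθ, rfl⟩ | ⟨_, k, n, f, rfl⟩ | ⟨hb, _⟩)
    · exact Or.inl (Pre.all (Pre.all (Pre.ex (Pre.qf (qf_ax hθ)))))
    · exact Or.inr (Pre.all (Pre.all (Pre.all (Pre.qf
        ((qfS _ _ _).imp ((qfS _ _ _).imp (qfE _ _)))))))
    · exact absurd hb (by decide)
  · rintro σ (⟨θ, hθ, rfl⟩ | ⟨hb, _⟩ | ⟨_, k, n, f, rfl⟩)
    · exact Or.inl (Pre.all (Pre.all (Pre.ex (Pre.qf (qf_ax hθ)))))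
    · exact absurd hb (by decide)
    · exact Or.inr (Pre.all (Pre.ex (Pre.all (Pre.qf ((qfS _ _ _).imp (qfE _ _))))))
  · intro n hn
    refine ⟨fun (R : RelC L n) => ?_⟩
    cases R <;> omega
  · refine ⟨fun (R : RelC L 0) => ?_⟩
    cases R
  · intro hc n
    have hB : ∀ m, Countable (L.BoundedFormula Empty m) := by
      intro m
      have h1 : Countable ((Σ n, L.BoundedFormula Empty n)) := by
        rw [← Cardinal.mk_le_aleph0_iff]
        refine (BoundedFormula.card_le (L := L) (α := Empty)).trans ?_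
        have h2 : L.card ≤ Cardinal.aleph0 := by
          have h3 : Countable L.Symbols := by
            have h4 : Countable (Σ l, L.Functions l) := inferInstance
            have h5 : Countable (Σ l, L.Relations l) := inferInstance
            exact inferInstanceAs (Countable ((Σ l, L.Functions l) ⊕ Σ l, L.Relations l))
          exact Cardinal.mk_le_aleph0_iff.mpr h3
        simp [h2]
      exact Function.Injective.countable
        (f := fun φ : L.BoundedFormula Empty m => (⟨m, φ⟩ : Σ n, L.BoundedFormula Empty n))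
        fun a b hab => by simpa using hab
    let g : ℕ ⊕ (Σ m, L.BoundedFormula Empty m) ⊕ (Σ k m : ℕ, Fin k → Fin m) →
        (Σ n, RelC L n)
      | Sum.inl n => ⟨1, RelC.U n⟩
      | Sum.inr (Sum.inl ⟨m, φ⟩) => ⟨1, RelC.P φ⟩
      | Sum.inr (Sum.inr ⟨k, m, f⟩) => ⟨2, RelC.Sub f⟩
    have hg : Function.Surjective g := by
      rintro ⟨n, R⟩
      cases R with
      | U n => exact ⟨Sum.inl n, rfl⟩
      | P φ => exact ⟨Sum.inr (Sum.inl ⟨_, φ⟩), rfl⟩
      | Sub f => exact ⟨Sum.inr (Sum.inr ⟨_, _, f⟩), rfl⟩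
    have hS : Countable (Σ n, RelC L n) := hg.countable
    exact Function.Injective.countable
      (f := fun R : (LC L).Relations n => (⟨n, R⟩ : Σ n, RelC L n))
      fun a b hab => eq_of_heq (Sigma.mk.inj hab).2

end VPF
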