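import Pool.Agent.VPF.StC

/-!
# VPF, module CSM: the semantic form of the coding theory
-/

set_option autoImplicit false
set_option linter.unusedVariables false

namespace VPF

open FirstOrder FirstOrder.Language Set Pool.Agent.Helper6.Str

namespace CSM

variable {L : FirstOrder.Language.{0, 0}} {N : Type} (S' : (LC L).Structure N)

/-- Truth of a formula with three variables. -/
def R3 (θ : (LC L).BoundedFormula Empty 3) (a b c : N) : Prop :=
  @BoundedFormula.Realize (LC L) N S' Empty 3 θ default ![a, b, c]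

theorem r_imp (φ ψ : (LC L).BoundedFormula Empty 3) (a b c : N) :
    R3 S' (φ.imp ψ) a b c ↔ (R3 S' φ a b c → R3 S' ψ a b c) := Iff.rfl

theorem r_not (φ : (LC L).BoundedFormula Empty 3) (a b c : N) :
    R3 S' φ.not a b c ↔ ¬ R3 S' φ a b c := Iff.rfl

theorem r_inf (φ ψ : (LC L).BoundedFormula Empty 3) (a b c : N) :
    R3 S' (φ ⊓ ψ) a b c ↔ (R3 S' φ a b c ∧ R3 S' ψ a b c) :=
  let _ := S'; BoundedFormula.realize_inf

theorem r_sup (φ ψ : (LC L).BoundedFormula Empty 3) (a b c : N) :
    R3 S' (φ ⊔ ψ) a b c ↔ (R3 S' φ a b c ∨ R3 S' ψ a b c) :=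
  let _ := S'; BoundedFormula.realize_sup

theorem r_iff (φ ψ : (LC L).BoundedFormula Empty 3) (a b c : N) :
    R3 S' (φ.iff ψ) a b c ↔ (R3 S' φ a b c ↔ R3 S' ψ a b c) :=
  let _ := S'; BoundedFormula.realize_iff

theorem r_U (n : ℕ) (i : Fin 3) (a b c : N) :
    R3 S' (aU n i) a b c ↔ SU S' n (![a, b, c] i) :=
  let _ := S'; BoundedFormula.realize_rel₁

theorem r_P {n : ℕ} (φ : L.BoundedFormula Empty n) (i : Fin 3) (a b c : N) :
    R3 S' (aP φ i) a b c ↔ SP S' φ (![a, b, c] i) :=
  let _ := S'; BoundedFormula.realize_rel₁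

theorem r_S {k n : ℕ} (f : Fin k → Fin n) (i j : Fin 3) (a b c : N) :
    R3 S' (aS f i j) a b c ↔ SS S' f (![a, b, c] i) (![a, b, c] j) :=
  let _ := S'; BoundedFormula.realize_rel₂

theorem r_E (i j : Fin 3) (a b c : N) :
    R3 S' (aE i j) a b c ↔ ![a, b, c] i = ![a, b, c] j := Iff.rfl

theorem snoc3 (a b c : N) :
    (Fin.snoc (Fin.snoc (Fin.snoc (default : Fin 0 → N) a : Fin 1 → N) b : Fin 2 → N) c :
      Fin 3 → N) = ![a, b, c] := by
  funext i
  fin_cases i <;> rfl

theorem r_aae (θ : (LC L).BoundedFormula Empty 3) :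
    @Sentence.Realize (LC L) N S' θ.ex.all.all ↔ ∀ a b, ∃ c, R3 S' θ a b c := by
  let _ := S'
  show (∀ a b, (θ.ex).Realize _ _) ↔ _
  refine forall_congr' fun a => forall_congr' fun b => ?_
  rw [BoundedFormula.realize_ex]
  refine exists_congr fun c => ?_
  unfold R3
  rw [← snoc3]

theorem r_aaa (θ : (LC L).BoundedFormula Empty 3) :
    @Sentence.Realize (LC L) N S' θ.all.all.all ↔ ∀ a b c, R3 S' θ a b c := by
  let _ := S'
  show (∀ a b c, θ.Realize _ _) ↔ _
  refine forall_congr' fun a => forall_congr' fun b => forall_congr' fun c => ?_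
  unfold R3
  rw [← snoc3]

theorem r_aea (θ : (LC L).BoundedFormula Empty 3) :
    @Sentence.Realize (LC L) N S' θ.all.ex.all ↔ ∀ a, ∃ b, ∀ c, R3 S' θ a b c := by
  let _ := S'
  show (∀ a, (θ.all.ex).Realize _ _) ↔ _
  refine forall_congr' fun a => ?_
  rw [BoundedFormula.realize_ex]
  refine exists_congr fun b => ?_
  show (∀ c, θ.Realize _ _) ↔ _
  refine forall_congr' fun c => ?_
  unfold R3
  rw [← snoc3]

theorem model_iff (b : Bool) [∀ n, IsEmpty (L.Functions n)] (T : L.Theory) :
    @FirstOrder.Language.Theory.Model (LC L) N S' (TC b T) ↔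
      (∀ θ, AxE T θ → ∀ x y, ∃ z, R3 S' θ x y z) ∧
      ∀ (k n : ℕ) (f : Fin k → Fin n),
        if b = true then ∀ x y z, SS S' f x y → SS S' f x z → y = z
        else ∀ x, ∃ y, ∀ z, SS S' f x z → z = y := by
  let _ := S'
  rw [Theory.model_iff]
  constructor
  · intro h
    refine ⟨fun θ hθ => (r_aae S' θ).mp (h _ (Or.inl ⟨θ, hθ, rfl⟩)), fun k n f => ?_⟩
    cases b with
    | true =>
      have := (r_aaa S' _).mp (h _ (Or.inr (Or.inl ⟨rfl, k, n, f, rfl⟩)))
      simpa [r_imp, r_S, r_E] using this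
    | false =>
      have := (r_aea S' _).mp (h _ (Or.inr (Or.inr ⟨rfl, k, n, f, rfl⟩)))
      simpa [r_imp, r_S, r_E] using this
  · rintro ⟨h1, h2⟩ σ (⟨θ, hθ, rfl⟩ | ⟨rfl, k, n, f, rfl⟩ | ⟨rfl, k, n, f, rfl⟩)
    · exact (r_aae S' θ).mpr (h1 θ hθ)
    · refine (r_aaa S' _).mpr ?_
      simpa [r_imp, r_S, r_E] using h2 k n f
    · refine (r_aea S' _).mpr ?_
      simpa [r_imp, r_S, r_E] using h2 k n f

end CSM

open CSM in
theorem thm_CSM : St_CSM := by
  intro L _ b T N _ S'
  rw [model_iff]
  have key : ∀ (a c d : N), (![a, c, d] : Fin 3 → N) 0 = a ∧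
      (![a, c, d] : Fin 3 → N) 1 = c ∧ (![a, c, d] : Fin 3 → N) 2 = d :=
    fun a c d => ⟨rfl, rfl, rfl⟩
  constructor
  · rintro ⟨h, hf⟩
    have fn : ∀ {k n : ℕ} (f : Fin k → Fin n) x y z, SS S' f x y → SS S' f x z → y = z := by
      intro k n f x y z hy hz
      cases b with
      | true =>
        have h1 := hf k n f
        rw [if_pos rfl] at h1
        exact h1 x y z hy hz
      | false =>
        have h1 := hf k n f
        rw [if_neg Bool.false_ne_true] at h1
        obtain ⟨w, hw⟩ := h1 x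
        rw [hw y hy, hw z hz]
    have sub : ∀ {k n : ℕ} (f : Fin k → Fin n) x y, SS S' f x y → SU S' n x ∧ SU S' k y := by
      intro k n f x y hxy
      obtain ⟨z, hz⟩ := h _ (AxE.sub f) x y
      simp only [r_imp, r_S, r_inf, r_U, key] at hz
      exact hz hxy
    have tot : ∀ {k n : ℕ} (f : Fin k → Fin n) x, SU S' n x → ∃ z, SS S' f x z := by
      intro k n f x hx
      obtain ⟨z, hz⟩ := h _ (AxE.tot f) x x
      simp only [r_imp, r_S, r_U, key] at hz
      exact ⟨z, hz hx⟩
    have hall : ∀ {n : ℕ} (φ : L.BoundedFormula Empty (n + 1)) x, SU S' n x →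
        (SP S' φ.all x ↔ ∀ y, SS S' (Fin.castSucc : Fin n → Fin (n + 1)) y x → SP S' φ y) := by
      intro n φ x hx
      constructor
      · intro hp y hy
        obtain ⟨z, hz⟩ := h _ (AxE.all1 φ) y x
        simp only [r_imp, r_S, r_P, key] at hz
        exact hz hy hp
      · intro hy
        by_contra hn
        obtain ⟨z, hz⟩ := h _ (AxE.all2 φ) x x
        simp only [r_imp, r_S, r_P, r_U, r_inf, r_not, key] at hz
        obtain ⟨h1, h2⟩ := hz ⟨hx, hn⟩
        exact h2 (hy z h1)
    refine
    { disj := ?_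
      sub := sub
      tot := tot
      fn := fn
      comp := ?_
      ident := ?_
      exte := ?_
      uni0 := ?_
      ex0 := ?_
      cons := ?_
      dom := ?_
      fls := ?_
      eq := ?_
      rel := ?_
      imp := ?_
      all := hall
      thy := ?_ }
    · intro m n x hm hn
      by_contra hne
      obtain ⟨z, hz⟩ := h _ (AxE.disj m n hne) x x
      simp only [r_imp, r_not, r_U, key] at hz
      exact hz hm hn
    · intro l k n f g x y z hxy hyz
      obtain ⟨z', hz'⟩ := tot (f ∘ g) x (sub f x y hxy).1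
      obtain ⟨y', hy'⟩ := h _ (AxE.comp f g) x z'
      simp only [r_imp, r_inf, r_S, key] at hy'
      obtain ⟨h1, h2⟩ := hy' hz'
      have h3 := fn f x y y' hxy h1
      subst h3
      rwa [fn g y z z' hyz h2]
    · intro n x hx
      obtain ⟨z, hz⟩ := h _ (AxE.ident n) x x
      simp only [r_imp, r_S, r_U, key] at hz
      exact hz hx
    · intro n x y hx hy h1 h2
      by_contra hne
      obtain ⟨z, hz⟩ := h _ (AxE.exte n) x y
      simp only [r_imp, r_inf, r_sup, r_not, r_S, r_U, r_E, key] at hz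
      rcases hz ⟨hx, hy⟩ hne with hz | hz
      · exact hz (h1 z)
      · exact hz (h2 z)
    · intro x y hx hy
      obtain ⟨z, hz⟩ := h _ AxE.uni0 x y
      simp only [r_imp, r_inf, r_U, r_E, key] at hz
      exact hz ⟨hx, hy⟩
    · obtain ⟨z, hz⟩ := h _ AxE.ex0 (Classical.arbitrary N) (Classical.arbitrary N)
      simp only [r_U, key] at hz
      exact ⟨z, hz⟩
    · intro n x s hx hs
      obtain ⟨z, hz⟩ := h _ (AxE.cons n) x s
      simp only [r_imp, r_inf, r_S, r_U, key] at hz
      exact ⟨z, hz ⟨hx, hs⟩⟩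
    · intro n φ x hx
      obtain ⟨z, hz⟩ := h _ (AxE.dom φ) x x
      simp only [r_imp, r_P, r_U, key] at hz
      exact hz hx
    · intro n x hx
      obtain ⟨z, hz⟩ := h _ (AxE.fls n) x x
      simp only [r_not, r_P, key] at hz
      exact hz hx
    · intro n t₁ t₂ x y hxy
      obtain ⟨z, hz⟩ := h _ (AxE.eq t₁ t₂) x y
      simp only [r_imp, r_iff, r_P, r_S, key] at hz
      exact hz hxy
    · intro n k r ts x y hxy
      obtain ⟨z, hz⟩ := h _ (AxE.rel r ts) x y
      simp only [r_imp, r_iff, r_P, r_S, key] at hz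
      exact hz hxy
    · intro n φ ψ x hx
      obtain ⟨z, hz⟩ := h _ (AxE.imp φ ψ) x x
      simp only [r_imp, r_iff, r_P, r_U, key] at hz
      exact hz hx
    · intro σ hσ x hx
      obtain ⟨z, hz⟩ := h _ (AxE.thy σ hσ) x x
      simp only [r_imp, r_P, r_U, key] at hz
      exact hz hx
  · intro D
    refine ⟨?_, ?_⟩
    · intro θ hθ x y
      cases hθ with
      | disj m n hne =>
        refine ⟨x, ?_⟩
        simp only [r_imp, r_not, r_U, key]
        exact fun h1 h2 => hne (D.disj m n x h1 h2)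
      | sub f =>
        refine ⟨x, ?_⟩
        simp only [r_imp, r_inf, r_S, r_U, key]
        exact D.sub f x y
      | @tot k n f =>
        by_cases hx : SU S' n x
        · obtain ⟨z, hz⟩ := D.tot f x hx
          refine ⟨z, ?_⟩
          simp only [r_imp, r_S, r_U, key]
          exact fun _ => hz
        · refine ⟨x, ?_⟩
          simp only [r_imp, r_S, r_U, key]
          exact fun h => absurd h hx
      | comp f g =>
        by_cases hx : SS S' (f ∘ g) x y
        · obtain ⟨z, hz⟩ := D.tot f x (D.sub _ _ _ hx).1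
          obtain ⟨w, hw⟩ := D.tot g z (D.sub _ _ _ hz).2
          refine ⟨z, ?_⟩
          simp only [r_imp, r_inf, r_S, key]
          refine fun _ => ⟨hz, ?_⟩
          rwa [D.fn (f ∘ g) x y w hx (D.comp f g x z w hz hw)]
        · refine ⟨x, ?_⟩
          simp only [r_imp, r_inf, r_S, key]
          exact fun h => absurd h hx
      | ident n =>
        refine ⟨x, ?_⟩
        simp only [r_imp, r_S, r_U, key]
        exact D.ident n x
      | exte n =>
        by_cases h1 : ∃ z, ¬ (SS S' (Fin.castSucc : Fin n → Fin (n + 1)) x z →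
            SS S' (Fin.castSucc : Fin n → Fin (n + 1)) y z)
        · obtain ⟨z, hz⟩ := h1
          refine ⟨z, ?_⟩
          simp only [r_imp, r_inf, r_sup, r_not, r_S, r_U, r_E, key]
          exact fun _ _ => Or.inl hz
        · by_cases h2 : ∃ z, ¬ (SS S' (ct (Fin.last n)) x z → SS S' (ct (Fin.last n)) y z)
          · obtain ⟨z, hz⟩ := h2
            refine ⟨z, ?_⟩
            simp only [r_imp, r_inf, r_sup, r_not, r_S, r_U, r_E, key]
            exact fun _ _ => Or.inr hz
          · refine ⟨x, ?_⟩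
            push Not at h1 h2
            simp only [r_imp, r_inf, r_sup, r_not, r_S, r_U, r_E, key]
            exact fun hxy hne => absurd (D.exte n x y hxy.1 hxy.2 h1 h2) hne
      | uni0 =>
        refine ⟨x, ?_⟩
        simp only [r_imp, r_inf, r_U, r_E, key]
        exact fun h => D.uni0 x y h.1 h.2
      | ex0 =>
        obtain ⟨z, hz⟩ := D.ex0
        refine ⟨z, ?_⟩
        simp only [r_U, key]
        exact hz
      | cons n =>
        by_cases hx : SU S' n x ∧ SU S' 1 y
        · obtain ⟨z, hz⟩ := D.cons n x y hx.1 hx.2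
          refine ⟨z, ?_⟩
          simp only [r_imp, r_inf, r_S, r_U, key]
          exact fun _ => hz
        · refine ⟨x, ?_⟩
          simp only [r_imp, r_inf, r_S, r_U, key]
          exact fun h => absurd h hx
      | dom φ =>
        refine ⟨x, ?_⟩
        simp only [r_imp, r_P, r_U, key]
        exact D.dom φ x
      | fls n =>
        refine ⟨x, ?_⟩
        simp only [r_not, r_P, key]
        exact D.fls n x
      | eq t₁ t₂ =>
        refine ⟨x, ?_⟩
        simp only [r_imp, r_iff, r_P, r_S, key]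
        exact D.eq t₁ t₂ x y
      | rel r ts =>
        refine ⟨x, ?_⟩
        simp only [r_imp, r_iff, r_P, r_S, key]
        exact D.rel r ts x y
      | imp φ ψ =>
        refine ⟨x, ?_⟩
        simp only [r_imp, r_iff, r_P, r_U, key]
        exact D.imp φ ψ x
      | all1 φ =>
        refine ⟨x, ?_⟩
        simp only [r_imp, r_P, r_S, key]
        exact fun h1 h2 => (D.all φ y (D.sub _ _ _ h1).2).mp h2 x h1
      | @all2 n φ =>
        by_cases hx : SU S' n x ∧ ¬ SP S' φ.all x
        · have h1 := mt (D.all φ x hx.1).mpr hx.2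
          push Not at h1
          obtain ⟨z, hz⟩ := h1
          refine ⟨z, ?_⟩
          simp only [r_imp, r_inf, r_not, r_P, r_S, r_U, key]
          exact fun _ => hz
        · refine ⟨x, ?_⟩
          simp only [r_imp, r_inf, r_not, r_P, r_S, r_U, key]
          exact fun h => absurd h hx
      | thy σ hσ =>
        refine ⟨x, ?_⟩
        simp only [r_imp, r_P, r_U, key]
        exact D.thy σ hσ x
    · intro k n f
      cases b with
      | true =>
        rw [if_pos rfl]
        exact D.fn f
      | false =>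
        rw [if_neg Bool.false_ne_true]
        intro x
        by_cases hx : ∃ y, SS S' f x y
        · obtain ⟨y, hy⟩ := hx
          exact ⟨y, fun z hz => D.fn f x z y hz hy⟩
        · exact ⟨x, fun z hz => absurd ⟨z, hz⟩ hx⟩

end VPF
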