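import Pool.Agent.VPF.Defs

/-!
# Coding of an arbitrary first-order theory in theories of low quantifier class (part 1)

`LC L`: the language of tuples. `Good T S`: the intended conditions. `T1`, `T2`: descriptions of
`Good` with patterns `AAE, AAA` and `AAE, AEA`.
-/

set_option autoImplicit false

namespace VPF.CC

open FirstOrder Set Pool.Agent.Helper6.Str
open FirstOrder.Language

/-- Relation symbols of the language of tuples: unary symbols for the set of `n`-tuples, for the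
symbols of `L` and for the formulas of `L`; binary symbols for the tuples of terms. -/
def RelT (L : FirstOrder.Language.{0, 0}) : ℕ → Type
  | 1 => ℕ ⊕ ((n : ℕ) × L.Relations n) ⊕ ((n : ℕ) × L.BoundedFormula Empty n)
  | 2 => (n : ℕ) × (k : ℕ) × (Fin k → L.Term (Empty ⊕ Fin n))
  | _ => Empty

/-- The language of tuples. -/
def LC (L : FirstOrder.Language.{0, 0}) : FirstOrder.Language.{0, 0} :=
  ⟨fun _ => Empty, RelT L⟩

variable {L : FirstOrder.Language.{0, 0}}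

instance (n : ℕ) : IsEmpty ((LC L).Functions n) := inferInstanceAs (IsEmpty Empty)

theorem isEmpty_rel {n : ℕ} (h1 : n ≠ 1) (h2 : n ≠ 2) : IsEmpty ((LC L).Relations n) := by
  match n, h1, h2 with
  | 0, _, _ => exact inferInstanceAs (IsEmpty Empty)
  | 1, h, _ => exact absurd rfl h
  | 2, _, h => exact absurd rfl h
  | (n + 3), _, _ => exact inferInstanceAs (IsEmpty Empty)

theorem countable_fml (hL : Countable L.Symbols) :
    Countable ((n : ℕ) × L.BoundedFormula Empty n) := by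
  have h := FirstOrder.Language.BoundedFormula.card_le (L := L) (α := Empty)
  rw [← Cardinal.mk_le_aleph0_iff]
  refine h.trans ?_
  have h2 : L.card ≤ Cardinal.aleph0 := by
    rw [FirstOrder.Language.card]
    exact Cardinal.mk_le_aleph0_iff.mpr hL
  simp [h2]

theorem countable_rel (hL : Countable L.Symbols) (n : ℕ) : Countable ((LC L).Relations n) := by
  have : Countable ((n : ℕ) × L.Functions n) :=
    (Function.Injective.countable (f := fun x => (Sum.inl x : L.Symbols)) fun _ _ h => by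
      simpa using h)
  have : Countable ((n : ℕ) × L.Relations n) :=
    (Function.Injective.countable (f := fun x => (Sum.inr x : L.Symbols)) fun _ _ h => by
      simpa using h)
  have := countable_fml hL
  match n with
  | 0 => exact inferInstanceAs (Countable Empty)
  | 1 => exact inferInstanceAs
      (Countable (ℕ ⊕ ((n : ℕ) × L.Relations n) ⊕ ((n : ℕ) × L.BoundedFormula Empty n)))
  | 2 => exact inferInstanceAs
      (Countable ((n : ℕ) × (k : ℕ) × (Fin k → L.Term (Empty ⊕ Fin n))))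
  | (n + 3) => exact inferInstanceAs (Countable Empty)

/-- The symbol for the set of `n`-tuples. -/
def sU (L : FirstOrder.Language.{0, 0}) (n : ℕ) : (LC L).Relations 1 := (Sum.inl n : RelT L 1)
/-- The symbol for a relation of `L`. -/
def sP {n : ℕ} (R : L.Relations n) : (LC L).Relations 1 := (Sum.inr (Sum.inl ⟨n, R⟩) : RelT L 1)
/-- The symbol for a formula of `L`. -/
def sF {n : ℕ} (φ : L.BoundedFormula Empty n) : (LC L).Relations 1 :=
  (Sum.inr (Sum.inr ⟨n, φ⟩) : RelT L 1)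
/-- The symbol for a tuple of terms. -/
def sB {n k : ℕ} (τ : Fin k → L.Term (Empty ⊕ Fin n)) : (LC L).Relations 2 :=
  (⟨n, k, τ⟩ : RelT L 2)

section sem

variable {N : Type} (S : (LC L).Structure N)

/-- `x` is an `n`-tuple. -/
def U (n : ℕ) (x : N) : Prop := S.RelMap (sU L n) ![x]
/-- The relation `R` holds of the tuple `x`. -/
def P {n : ℕ} (R : L.Relations n) (x : N) : Prop := S.RelMap (sP R) ![x]
/-- The formula `φ` holds of the tuple `x`. -/
def F {n : ℕ} (φ : L.BoundedFormula Empty n) (x : N) : Prop := S.RelMap (sF φ) ![x]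
/-- `y` is the value of the tuple of terms `τ` at `x`. -/
def B {n k : ℕ} (τ : Fin k → L.Term (Empty ⊕ Fin n)) (x y : N) : Prop :=
  S.RelMap (sB τ) ![x, y]

end sem

/-- Substitution. -/
def comp {n k l : ℕ} (σ : Fin l → L.Term (Empty ⊕ Fin k)) (τ : Fin k → L.Term (Empty ⊕ Fin n)) :
    Fin l → L.Term (Empty ⊕ Fin n) :=
  fun i => (σ i).subst (Sum.elim (fun e => e.elim) τ)

/-- The projections. -/
def vr (L : FirstOrder.Language.{0, 0}) {n k : ℕ} (f : Fin k → Fin n) :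
    Fin k → L.Term (Empty ⊕ Fin n) :=
  fun i => Term.var (Sum.inr (f i))

/-- The intended properties. -/
structure Good (T : L.Theory) {N : Type} (S : (LC L).Structure N) : Prop where
  disj : ∀ {n m : ℕ} {x : N}, n ≠ m → U S n x → ¬ U S m x
  bU : ∀ {n k : ℕ} (τ : Fin k → L.Term (Empty ⊕ Fin n)) {x y : N}, B S τ x y →
    U S n x ∧ U S k y
  bEx : ∀ {n k : ℕ} (τ : Fin k → L.Term (Empty ⊕ Fin n)) {x : N}, U S n x → ∃ y, B S τ x y
  bFun : ∀ {n k : ℕ} (τ : Fin k → L.Term (Empty ⊕ Fin n)) {x y z : N}, B S τ x y →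
    B S τ x z → y = z
  bComp : ∀ {n k l : ℕ} (τ : Fin k → L.Term (Empty ⊕ Fin n)) (σ : Fin l → L.Term (Empty ⊕ Fin k))
    {x y z : N}, B S τ x y → B S σ y z → B S (comp σ τ) x z
  bId : ∀ {n : ℕ} {x : N}, U S n x → B S (vr L (fun i : Fin n => i)) x x
  tup : ∀ {n : ℕ} {x y : N}, U S n x → U S 1 y →
    ∃ z, B S (vr L (Fin.castSucc : Fin n → Fin (n + 1))) z x ∧
      B S (vr L (fun _ : Fin 1 => Fin.last n)) z y
  uniq : ∀ {n : ℕ} {x y z w : N}, B S (vr L (Fin.castSucc : Fin n → Fin (n + 1))) x z →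
    B S (vr L (Fin.castSucc : Fin n → Fin (n + 1))) y z →
    B S (vr L (fun _ : Fin 1 => Fin.last n)) x w →
    B S (vr L (fun _ : Fin 1 => Fin.last n)) y w → x = y
  zero : ∃ z, U S 0 z
  zeroU : ∀ {x y : N}, U S 0 x → U S 0 y → x = y
  fU : ∀ {n : ℕ} {φ : L.BoundedFormula Empty n} {x : N}, F S φ x → U S n x
  pU : ∀ {n : ℕ} {R : L.Relations n} {x : N}, P S R x → U S n x
  fBot : ∀ {n : ℕ} {x : N}, ¬ F S (BoundedFormula.falsum : L.BoundedFormula Empty n) x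
  fImp : ∀ {n : ℕ} {φ ψ : L.BoundedFormula Empty n} {x : N}, U S n x →
    (F S (φ.imp ψ) x ↔ (F S φ x → F S ψ x))
  fAll1 : ∀ {n : ℕ} {φ : L.BoundedFormula Empty (n + 1)} {x y : N}, F S φ.all x →
    B S (vr L (Fin.castSucc : Fin n → Fin (n + 1))) y x → F S φ y
  fAll2 : ∀ {n : ℕ} {φ : L.BoundedFormula Empty (n + 1)} {x : N}, U S n x → ¬ F S φ.all x →
    ∃ z, B S (vr L (Fin.castSucc : Fin n → Fin (n + 1))) z x ∧ ¬ F S φ z
  fRel : ∀ {n k : ℕ} {R : L.Relations k} {τ : Fin k → L.Term (Empty ⊕ Fin n)} {x y : N},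
    B S τ x y → (F S (BoundedFormula.rel R τ) x ↔ P S R y)
  fEq : ∀ {n : ℕ} {t u : L.Term (Empty ⊕ Fin n)} {x y : N}, B S (fun _ : Fin 1 => t) x y →
    (F S (BoundedFormula.equal t u) x ↔ B S (fun _ : Fin 1 => u) x y)
  th : ∀ {φ : L.BoundedFormula Empty 0} {x : N}, φ ∈ T → U S 0 x → F S φ x

/-! ### The conditions -/

/-- Atomic formulas of the language of tuples in three variables. -/
def u1 (p : (LC L).Relations 1) (i : Fin 3) : (LC L).BoundedFormula Empty 3 :=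
  p.boundedFormula₁ (Term.var (Sum.inr i))
/-- Binary atomic formulas. -/
def b2 (q : (LC L).Relations 2) (i j : Fin 3) : (LC L).BoundedFormula Empty 3 :=
  q.boundedFormula₂ (Term.var (Sum.inr i)) (Term.var (Sum.inr j))
/-- Equalities. -/
def e2 (i j : Fin 3) : (LC L).BoundedFormula Empty 3 :=
  BoundedFormula.equal (Term.var (Sum.inr i)) (Term.var (Sum.inr j))

/-- The matrices of the conditions with pattern `AAE`. -/
inductive AxM (T : L.Theory) : (LC L).BoundedFormula Empty 3 → Prop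
  | disj (n m : ℕ) (h : n ≠ m) : AxM T ((u1 (sU L n) 0).imp (u1 (sU L m) 0).not)
  | bU {n k : ℕ} (τ : Fin k → L.Term (Empty ⊕ Fin n)) :
      AxM T ((b2 (sB τ) 0 1).imp (u1 (sU L n) 0 ⊓ u1 (sU L k) 1))
  | bEx {n k : ℕ} (τ : Fin k → L.Term (Empty ⊕ Fin n)) :
      AxM T ((u1 (sU L n) 0).imp (b2 (sB τ) 0 2))
  | bComp {n k l : ℕ} (τ : Fin k → L.Term (Empty ⊕ Fin n)) (σ : Fin l → L.Term (Empty ⊕ Fin k)) :
      AxM T ((b2 (sB τ) 0 1).imp (b2 (sB σ) 1 2 ⊓ b2 (sB (comp σ τ)) 0 2))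
  | bId (n : ℕ) : AxM T ((u1 (sU L n) 0).imp (b2 (sB (vr L (fun i : Fin n => i))) 0 0))
  | tup (n : ℕ) : AxM T ((u1 (sU L n) 0).imp ((u1 (sU L 1) 1).imp
      (b2 (sB (vr L (Fin.castSucc : Fin n → Fin (n + 1)))) 2 0 ⊓
        b2 (sB (vr L (fun _ : Fin 1 => Fin.last n))) 2 1)))
  | uniq (n : ℕ) : AxM T ((u1 (sU L (n + 1)) 0).imp ((u1 (sU L (n + 1)) 1).imp
      ((e2 0 1).not.imp
      ((b2 (sB (vr L (Fin.castSucc : Fin n → Fin (n + 1)))) 0 2 ⊓
        (b2 (sB (vr L (Fin.castSucc : Fin n → Fin (n + 1)))) 1 2).not) ⊔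
      (b2 (sB (vr L (fun _ : Fin 1 => Fin.last n))) 0 2 ⊓
        (b2 (sB (vr L (fun _ : Fin 1 => Fin.last n))) 1 2).not)))))
  | zero : AxM T (u1 (sU L 0) 2)
  | zeroU : AxM T ((u1 (sU L 0) 0).imp ((u1 (sU L 0) 1).imp (e2 0 1)))
  | fU {n : ℕ} (φ : L.BoundedFormula Empty n) : AxM T ((u1 (sF φ) 0).imp (u1 (sU L n) 0))
  | pU {n : ℕ} (R : L.Relations n) : AxM T ((u1 (sP R) 0).imp (u1 (sU L n) 0))
  | fBot (n : ℕ) : AxM T ((u1 (sF (BoundedFormula.falsum : L.BoundedFormula Empty n)) 0).not)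
  | fImp1 {n : ℕ} (φ ψ : L.BoundedFormula Empty n) :
      AxM T ((u1 (sU L n) 0).imp ((u1 (sF (φ.imp ψ)) 0).imp ((u1 (sF φ) 0).imp (u1 (sF ψ) 0))))
  | fImp2 {n : ℕ} (φ ψ : L.BoundedFormula Empty n) :
      AxM T ((u1 (sU L n) 0).imp (((u1 (sF φ) 0).imp (u1 (sF ψ) 0)).imp (u1 (sF (φ.imp ψ)) 0)))
  | fAll1 {n : ℕ} (φ : L.BoundedFormula Empty (n + 1)) :
      AxM T ((u1 (sF φ.all) 0).imp
        ((b2 (sB (vr L (Fin.castSucc : Fin n → Fin (n + 1)))) 1 0).imp (u1 (sF φ) 1)))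
  | fAll2 {n : ℕ} (φ : L.BoundedFormula Empty (n + 1)) :
      AxM T ((u1 (sU L n) 0).imp ((u1 (sF φ.all) 0).not.imp
        (b2 (sB (vr L (Fin.castSucc : Fin n → Fin (n + 1)))) 2 0 ⊓ (u1 (sF φ) 2).not)))
  | fRel1 {n k : ℕ} (R : L.Relations k) (τ : Fin k → L.Term (Empty ⊕ Fin n)) :
      AxM T ((b2 (sB τ) 0 1).imp ((u1 (sF (BoundedFormula.rel R τ)) 0).imp (u1 (sP R) 1)))
  | fRel2 {n k : ℕ} (R : L.Relations k) (τ : Fin k → L.Term (Empty ⊕ Fin n)) :
      AxM T ((b2 (sB τ) 0 1).imp ((u1 (sP R) 1).imp (u1 (sF (BoundedFormula.rel R τ)) 0)))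
  | fEq1 {n : ℕ} (t u : L.Term (Empty ⊕ Fin n)) :
      AxM T ((b2 (sB (fun _ : Fin 1 => t)) 0 1).imp
        ((u1 (sF (BoundedFormula.equal t u)) 0).imp (b2 (sB (fun _ : Fin 1 => u)) 0 1)))
  | fEq2 {n : ℕ} (t u : L.Term (Empty ⊕ Fin n)) :
      AxM T ((b2 (sB (fun _ : Fin 1 => t)) 0 1).imp
        ((b2 (sB (fun _ : Fin 1 => u)) 0 1).imp (u1 (sF (BoundedFormula.equal t u)) 0)))
  | th (φ : L.BoundedFormula Empty 0) (h : φ ∈ T) :
      AxM T ((u1 (sU L 0) 0).imp (u1 (sF φ) 0))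

theorem qf_u1 (p : (LC L).Relations 1) (i : Fin 3) : (u1 p i).IsQF :=
  (BoundedFormula.IsAtomic.rel _ _).isQF

theorem qf_b2 (q : (LC L).Relations 2) (i j : Fin 3) : (b2 q i j).IsQF :=
  (BoundedFormula.IsAtomic.rel _ _).isQF

theorem qf_e2 (i j : Fin 3) : (e2 (L := L) i j).IsQF :=
  (BoundedFormula.IsAtomic.equal _ _).isQF

theorem qf_inf {L' : FirstOrder.Language.{0, 0}} {φ ψ : L'.BoundedFormula Empty 3}
    (h1 : φ.IsQF) (h2 : ψ.IsQF) : (φ ⊓ ψ).IsQF := h1.inf h2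

theorem qf_sup {L' : FirstOrder.Language.{0, 0}} {φ ψ : L'.BoundedFormula Empty 3}
    (h1 : φ.IsQF) (h2 : ψ.IsQF) : (φ ⊔ ψ).IsQF := h1.sup h2

theorem qf_axM {T : L.Theory} {ψ : (LC L).BoundedFormula Empty 3} (h : AxM T ψ) : ψ.IsQF := by
  cases h <;>
  repeat' first
    | exact qf_u1 _ _
    | exact qf_b2 _ _ _
    | exact qf_e2 _ _
    | apply BoundedFormula.IsQF.not
    | apply qf_inf
    | apply qf_sup
    | apply BoundedFormula.IsQF.imp

/-- Functionality with pattern `AAA`. -/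
def fnA {n k : ℕ} (τ : Fin k → L.Term (Empty ⊕ Fin n)) : (LC L).BoundedFormula Empty 3 :=
  (b2 (sB τ) 0 1).imp ((b2 (sB τ) 0 2).imp (e2 1 2))

/-- Functionality with pattern `AEA`. -/
def fnE {n k : ℕ} (τ : Fin k → L.Term (Empty ⊕ Fin n)) : (LC L).BoundedFormula Empty 3 :=
  (u1 (sU L n) 0).imp ((b2 (sB τ) 0 2).imp (e2 2 1))

theorem qf_fnA {n k : ℕ} (τ : Fin k → L.Term (Empty ⊕ Fin n)) : (fnA τ).IsQF :=
  (qf_b2 _ _ _).imp ((qf_b2 _ _ _).imp (qf_e2 _ _))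

theorem qf_fnE {n k : ℕ} (τ : Fin k → L.Term (Empty ⊕ Fin n)) : (fnE τ).IsQF :=
  (qf_u1 _ _).imp ((qf_b2 _ _ _).imp (qf_e2 _ _))

/-- The conditions with pattern `AAE`. -/
def T0 (T : L.Theory) : (LC L).Theory := {φ | ∃ ψ, AxM T ψ ∧ φ = ψ.ex.all.all}

/-- The conditions with patterns `AAE`, `AAA`. -/
def T1 (T : L.Theory) : (LC L).Theory :=
  T0 T ∪ {φ | ∃ (n k : ℕ) (τ : Fin k → L.Term (Empty ⊕ Fin n)), φ = (fnA τ).all.all.all}

/-- The conditions with patterns `AAE`, `AEA`. -/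
def T2 (T : L.Theory) : (LC L).Theory :=
  T0 T ∪ {φ | ∃ (n k : ℕ) (τ : Fin k → L.Term (Empty ⊕ Fin n)), φ = (fnE τ).all.ex.all}

theorem pre_T0 {T : L.Theory} {φ : (LC L).Sentence} (h : φ ∈ T0 T) :
    Pre [true, true, false] φ := by
  obtain ⟨ψ, hψ, rfl⟩ := h
  exact Pre.all (Pre.all (Pre.ex (Pre.qf (qf_axM hψ))))

theorem pre_T1 {T : L.Theory} {φ : (LC L).Sentence} (h : φ ∈ T1 T) :
    Pre [true, true, false] φ ∨ Pre [true, true, true] φ := by
  rcases h with h | ⟨n, k, τ, rfl⟩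
  · exact Or.inl (pre_T0 h)
  · exact Or.inr (Pre.all (Pre.all (Pre.all (Pre.qf (qf_fnA τ)))))

theorem pre_T2 {T : L.Theory} {φ : (LC L).Sentence} (h : φ ∈ T2 T) :
    Pre [true, true, false] φ ∨ Pre [true, false, true] φ := by
  rcases h with h | ⟨n, k, τ, rfl⟩
  · exact Or.inl (pre_T0 h)
  · exact Or.inr (Pre.all (Pre.ex (Pre.all (Pre.qf (qf_fnE τ)))))

end VPF.CC
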