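import Pool.Agent.VPF.CodC1

/-!
# Coding of an arbitrary first-order theory in theories of low quantifier class (part 2)

The models of `T1 T` and of `T2 T` are the structures which are `Good T`.
-/

set_option autoImplicit false

namespace VPF.CC

open FirstOrder Set Pool.Agent.Helper6.Str
open FirstOrder.Language

variable {L : FirstOrder.Language.{0, 0}} {N : Type}

theorem snoc3 (x y z : N) :
    (Fin.snoc (Fin.snoc (Fin.snoc (default : Fin 0 → N) x : Fin 1 → N) y : Fin 2 → N) z :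
      Fin 3 → N) = ![x, y, z] := by
  funext i
  match i with
  | 0 => rfl
  | 1 => rfl
  | 2 => rfl

/-- Truth of a matrix. -/
def Tr (S : (LC L).Structure N) (ψ : (LC L).BoundedFormula Empty 3) (x y z : N) : Prop :=
  @BoundedFormula.Realize (LC L) N S Empty 3 ψ default ![x, y, z]

theorem sat_AAE (S : (LC L).Structure N) (ψ : (LC L).BoundedFormula Empty 3) :
    @Sentence.Realize (LC L) N S ψ.ex.all.all ↔ ∀ x y, ∃ z, Tr S ψ x y z := by
  let _ := S
  unfold Sentence.Realize Formula.Realize Tr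
  rw [BoundedFormula.realize_all]
  refine forall_congr' fun x => ?_
  rw [BoundedFormula.realize_all]
  refine forall_congr' fun y => ?_
  rw [BoundedFormula.realize_ex]
  refine exists_congr fun z => ?_
  rw [snoc3]

theorem sat_AAA (S : (LC L).Structure N) (ψ : (LC L).BoundedFormula Empty 3) :
    @Sentence.Realize (LC L) N S ψ.all.all.all ↔ ∀ x y z, Tr S ψ x y z := by
  let _ := S
  unfold Sentence.Realize Formula.Realize Tr
  rw [BoundedFormula.realize_all]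
  refine forall_congr' fun x => ?_
  rw [BoundedFormula.realize_all]
  refine forall_congr' fun y => ?_
  rw [BoundedFormula.realize_all]
  refine forall_congr' fun z => ?_
  rw [snoc3]

theorem sat_AEA (S : (LC L).Structure N) (ψ : (LC L).BoundedFormula Empty 3) :
    @Sentence.Realize (LC L) N S ψ.all.ex.all ↔ ∀ x, ∃ y, ∀ z, Tr S ψ x y z := by
  let _ := S
  unfold Sentence.Realize Formula.Realize Tr
  rw [BoundedFormula.realize_all]
  refine forall_congr' fun x => ?_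
  rw [BoundedFormula.realize_ex]
  refine exists_congr fun y => ?_
  rw [BoundedFormula.realize_all]
  refine forall_congr' fun z => ?_
  rw [snoc3]

variable (S : (LC L).Structure N)

theorem tr_u0 (p : (LC L).Relations 1) (x y z : N) : Tr S (u1 p 0) x y z ↔ S.RelMap p ![x] := by
  let _ := S
  unfold Tr u1
  rw [BoundedFormula.realize_rel₁]
  rfl

theorem tr_u1 (p : (LC L).Relations 1) (x y z : N) : Tr S (u1 p 1) x y z ↔ S.RelMap p ![y] := by
  let _ := S
  unfold Tr u1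
  rw [BoundedFormula.realize_rel₁]
  rfl

theorem tr_u2 (p : (LC L).Relations 1) (x y z : N) : Tr S (u1 p 2) x y z ↔ S.RelMap p ![z] := by
  let _ := S
  unfold Tr u1
  rw [BoundedFormula.realize_rel₁]
  rfl

theorem tr_b (q : (LC L).Relations 2) (i j : Fin 3) (x y z : N) :
    Tr S (b2 q i j) x y z ↔ S.RelMap q ![(![x, y, z] : Fin 3 → N) i, (![x, y, z] : Fin 3 → N) j] := by
  let _ := S
  unfold Tr b2
  rw [BoundedFormula.realize_rel₂]
  rfl

theorem tr_e (i j : Fin 3) (x y z : N) :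
    Tr S (e2 i j) x y z ↔ (![x, y, z] : Fin 3 → N) i = (![x, y, z] : Fin 3 → N) j := by
  let _ := S
  unfold Tr e2
  exact Iff.rfl

theorem tr_not (ψ : (LC L).BoundedFormula Empty 3) (x y z : N) :
    Tr S ψ.not x y z ↔ ¬ Tr S ψ x y z := by
  let _ := S
  unfold Tr
  exact BoundedFormula.realize_not

theorem tr_imp (ψ θ : (LC L).BoundedFormula Empty 3) (x y z : N) :
    Tr S (ψ.imp θ) x y z ↔ (Tr S ψ x y z → Tr S θ x y z) := by
  let _ := S
  unfold Tr
  exact BoundedFormula.realize_imp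

theorem tr_inf (ψ θ : (LC L).BoundedFormula Empty 3) (x y z : N) :
    Tr S (ψ ⊓ θ) x y z ↔ (Tr S ψ x y z ∧ Tr S θ x y z) := by
  let _ := S
  unfold Tr
  exact BoundedFormula.realize_inf

theorem tr_sup (ψ θ : (LC L).BoundedFormula Empty 3) (x y z : N) :
    Tr S (ψ ⊔ θ) x y z ↔ (Tr S ψ x y z ∨ Tr S θ x y z) := by
  let _ := S
  unfold Tr
  exact BoundedFormula.realize_sup

theorem axM_of_good {T : L.Theory} (hG : Good T S) {ψ : (LC L).BoundedFormula Empty 3}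
    (h : AxM T ψ) (x y : N) : ∃ z, Tr S ψ x y z := by
  cases h with
  | disj n m h =>
    refine ⟨x, ?_⟩
    simp only [tr_imp, tr_not, tr_u0]
    exact hG.disj h
  | bU τ =>
    refine ⟨x, ?_⟩
    simp only [tr_imp, tr_inf, tr_u0, tr_u1, tr_b]
    exact hG.bU τ
  | @bEx n k τ =>
    by_cases hx : U S n x
    · obtain ⟨z, hz⟩ := hG.bEx τ hx
      refine ⟨z, ?_⟩
      simp only [tr_imp, tr_inf, tr_u0, tr_u1, tr_b]
      exact fun _ => hz
    · refine ⟨x, ?_⟩
      simp only [tr_imp, tr_inf, tr_u0, tr_u1, tr_b]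
      exact fun h => absurd h hx
  | bComp τ σ =>
    by_cases hx : B S τ x y
    · obtain ⟨z, hz⟩ := hG.bEx σ (hG.bU τ hx).2
      refine ⟨z, ?_⟩
      simp only [tr_imp, tr_inf, tr_u0, tr_u1, tr_b]
      exact fun _ => ⟨hz, hG.bComp τ σ hx hz⟩
    · refine ⟨x, ?_⟩
      simp only [tr_imp, tr_inf, tr_u0, tr_u1, tr_b]
      exact fun h => absurd h hx
  | bId n =>
    refine ⟨x, ?_⟩
    simp only [tr_imp, tr_inf, tr_u0, tr_u1, tr_b]
    exact fun h => hG.bId h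
  | tup n =>
    by_cases hx : U S n x ∧ U S 1 y
    · obtain ⟨z, hz⟩ := hG.tup hx.1 hx.2
      refine ⟨z, ?_⟩
      simp only [tr_imp, tr_inf, tr_u0, tr_u1, tr_b]
      exact fun _ _ => hz
    · refine ⟨x, ?_⟩
      simp only [tr_imp, tr_inf, tr_u0, tr_u1, tr_b]
      exact fun h1 h2 => absurd ⟨h1, h2⟩ hx
  | uniq n =>
    by_cases hx : U S (n + 1) x ∧ U S (n + 1) y ∧ x ≠ y
    · obtain ⟨h1, h2, h3⟩ := hx
      obtain ⟨z, hz⟩ := hG.bEx (vr L (Fin.castSucc : Fin n → Fin (n + 1))) h1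
      obtain ⟨w, hw⟩ := hG.bEx (vr L (fun _ : Fin 1 => Fin.last n)) h1
      by_cases h4 : B S (vr L (Fin.castSucc : Fin n → Fin (n + 1))) y z
      · by_cases h5 : B S (vr L (fun _ : Fin 1 => Fin.last n)) y w
        · exact absurd (hG.uniq hz h4 hw h5) h3
        · refine ⟨w, ?_⟩
          simp only [tr_imp, tr_inf, tr_sup, tr_not, tr_u0, tr_u1, tr_b]
          exact fun _ _ _ => Or.inr ⟨hw, h5⟩
      · refine ⟨z, ?_⟩
        simp only [tr_imp, tr_inf, tr_sup, tr_not, tr_u0, tr_u1, tr_b]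
        exact fun _ _ _ => Or.inl ⟨hz, h4⟩
    · refine ⟨x, ?_⟩
      simp only [tr_imp, tr_not, tr_u0, tr_u1, tr_e]
      exact fun h1 h2 h3 => absurd ⟨h1, h2, h3⟩ hx
  | zero =>
    obtain ⟨z, hz⟩ := hG.zero
    refine ⟨z, ?_⟩
    simp only [tr_u2]
    exact hz
  | zeroU =>
    refine ⟨x, ?_⟩
    simp only [tr_imp, tr_u0, tr_u1, tr_e]
    exact fun h1 h2 => hG.zeroU h1 h2
  | fU φ =>
    refine ⟨x, ?_⟩
    simp only [tr_imp, tr_u0]
    exact fun h1 => hG.fU h1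
  | pU R =>
    refine ⟨x, ?_⟩
    simp only [tr_imp, tr_u0]
    exact fun h1 => hG.pU h1
  | fBot n =>
    refine ⟨x, ?_⟩
    simp only [tr_not, tr_u0]
    exact hG.fBot
  | fImp1 φ ψ =>
    refine ⟨x, ?_⟩
    simp only [tr_imp, tr_u0]
    exact fun h1 => (hG.fImp h1).1
  | fImp2 φ ψ =>
    refine ⟨x, ?_⟩
    simp only [tr_imp, tr_u0]
    exact fun h1 => (hG.fImp h1).2
  | fAll1 φ =>
    refine ⟨x, ?_⟩
    simp only [tr_imp, tr_u0, tr_u1, tr_b]
    exact fun h1 h2 => hG.fAll1 h1 h2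
  | @fAll2 n φ =>
    by_cases hx : U S n x ∧ ¬ F S φ.all x
    · obtain ⟨z, hz⟩ := hG.fAll2 hx.1 hx.2
      refine ⟨z, ?_⟩
      simp only [tr_imp, tr_inf, tr_not, tr_u0, tr_u2, tr_b]
      exact fun _ _ => hz
    · refine ⟨x, ?_⟩
      simp only [tr_imp, tr_inf, tr_not, tr_u0, tr_u2, tr_b]
      exact fun h1 h2 => absurd ⟨h1, h2⟩ hx
  | fRel1 R τ =>
    refine ⟨x, ?_⟩
    simp only [tr_imp, tr_u0, tr_u1, tr_b]
    exact fun h1 h2 => (hG.fRel h1).1 h2
  | fRel2 R τ =>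
    refine ⟨x, ?_⟩
    simp only [tr_imp, tr_u0, tr_u1, tr_b]
    exact fun h1 h2 => (hG.fRel h1).2 h2
  | fEq1 t u =>
    refine ⟨x, ?_⟩
    simp only [tr_imp, tr_u0, tr_u1, tr_b]
    exact fun h1 h2 => (hG.fEq h1).1 h2
  | fEq2 t u =>
    refine ⟨x, ?_⟩
    simp only [tr_imp, tr_u0, tr_u1, tr_b]
    exact fun h1 h2 => (hG.fEq h1).2 h2
  | th φ h =>
    refine ⟨x, ?_⟩
    simp only [tr_imp, tr_u0]
    exact fun h1 => hG.th h h1

theorem good_of_axM {T : L.Theory} [hN : Nonempty N]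
    (h : ∀ ψ, AxM T ψ → ∀ x y : N, ∃ z, Tr S ψ x y z)
    (hf : ∀ {n k : ℕ} (τ : Fin k → L.Term (Empty ⊕ Fin n)) {x y z : N}, B S τ x y →
      B S τ x z → y = z) : Good T S where
  disj := by
    intro n m x hnm
    obtain ⟨z, hz⟩ := h _ (AxM.disj n m hnm) x x
    simp only [tr_imp, tr_not, tr_u0] at hz
    exact hz
  bU := by
    intro n k τ x y
    obtain ⟨z, hz⟩ := h _ (AxM.bU τ) x y
    simp only [tr_imp, tr_inf, tr_u0, tr_u1, tr_b] at hz
    exact hz
  bEx := by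
    intro n k τ x hx
    obtain ⟨z, hz⟩ := h _ (AxM.bEx τ) x x
    simp only [tr_imp, tr_inf, tr_u0, tr_u1, tr_b] at hz
    exact ⟨z, hz hx⟩
  bFun := hf
  bComp := by
    intro n k l τ σ x y z h1 h2
    obtain ⟨w, hw⟩ := h _ (AxM.bComp τ σ) x y
    simp only [tr_imp, tr_inf, tr_u0, tr_u1, tr_b] at hw
    obtain ⟨h3, h4⟩ := hw h1
    have h5 : z = w := hf σ h2 h3
    rw [h5]
    exact h4
  bId := by
    intro n x hx
    obtain ⟨z, hz⟩ := h _ (AxM.bId n) x x
    simp only [tr_imp, tr_inf, tr_u0, tr_u1, tr_b] at hz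
    exact hz hx
  tup := by
    intro n x y hx hy
    obtain ⟨z, hz⟩ := h _ (AxM.tup n) x y
    simp only [tr_imp, tr_inf, tr_u0, tr_u1, tr_b] at hz
    exact ⟨z, hz hx hy⟩
  uniq := by
    intro n x y z w h1 h2 h3 h4
    by_contra hxy
    have hU : ∀ {x z : N}, B S (vr L (Fin.castSucc : Fin n → Fin (n + 1))) x z →
        U S (n + 1) x := by
      intro x z hxz
      obtain ⟨a, ha⟩ := h _ (AxM.bU (vr L (Fin.castSucc : Fin n → Fin (n + 1)))) x z
      simp only [tr_imp, tr_inf, tr_u0, tr_u1, tr_b] at ha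
      exact (ha hxz).1
    obtain ⟨a, ha⟩ := h _ (AxM.uniq n) x y
    simp only [tr_imp, tr_inf, tr_sup, tr_not, tr_u0, tr_u1, tr_b, tr_e] at ha
    rcases ha (hU h1) (hU h2) hxy with ⟨h5, h6⟩ | ⟨h5, h6⟩
    · have h7 : a = z := hf _ h5 h1
      rw [h7] at h6
      exact h6 h2
    · have h7 : a = w := hf _ h5 h3
      rw [h7] at h6
      exact h6 h4
  zero := by
    obtain ⟨z, hz⟩ := h _ AxM.zero hN.some hN.some
    simp only [tr_u2] at hz
    exact ⟨z, hz⟩
  zeroU := by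
    intro x y hx hy
    obtain ⟨z, hz⟩ := h _ AxM.zeroU x y
    simp only [tr_imp, tr_u0, tr_u1, tr_e] at hz
    exact hz hx hy
  fU := by
    intro n φ x hx
    obtain ⟨z, hz⟩ := h _ (AxM.fU φ) x x
    simp only [tr_imp, tr_u0] at hz
    exact hz hx
  pU := by
    intro n R x hx
    obtain ⟨z, hz⟩ := h _ (AxM.pU R) x x
    simp only [tr_imp, tr_u0] at hz
    exact hz hx
  fBot := by
    intro n x
    obtain ⟨z, hz⟩ := h _ (AxM.fBot n) x x
    simp only [tr_not, tr_u0] at hz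
    exact hz
  fImp := by
    intro n φ ψ x hx
    obtain ⟨z, hz⟩ := h _ (AxM.fImp1 φ ψ) x x
    obtain ⟨w, hw⟩ := h _ (AxM.fImp2 φ ψ) x x
    simp only [tr_imp, tr_u0] at hz hw
    exact ⟨hz hx, hw hx⟩
  fAll1 := by
    intro n φ x y h1 h2
    obtain ⟨z, hz⟩ := h _ (AxM.fAll1 φ) x y
    simp only [tr_imp, tr_u0, tr_u1, tr_b] at hz
    exact hz h1 h2
  fAll2 := by
    intro n φ x h1 h2
    obtain ⟨z, hz⟩ := h _ (AxM.fAll2 φ) x x
    simp only [tr_imp, tr_inf, tr_not, tr_u0, tr_u2, tr_b] at hz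
    exact ⟨z, hz h1 h2⟩
  fRel := by
    intro n k R τ x y h1
    obtain ⟨z, hz⟩ := h _ (AxM.fRel1 R τ) x y
    obtain ⟨w, hw⟩ := h _ (AxM.fRel2 R τ) x y
    simp only [tr_imp, tr_u0, tr_u1, tr_b] at hz hw
    exact ⟨hz h1, hw h1⟩
  fEq := by
    intro n t u x y h1
    obtain ⟨z, hz⟩ := h _ (AxM.fEq1 t u) x y
    obtain ⟨w, hw⟩ := h _ (AxM.fEq2 t u) x y
    simp only [tr_imp, tr_u0, tr_u1, tr_b] at hz hw
    exact ⟨hz h1, hw h1⟩
  th := by
    intro φ x h1 h2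
    obtain ⟨z, hz⟩ := h _ (AxM.th φ h1) x x
    simp only [tr_imp, tr_u0] at hz
    exact hz h2

/-- The models of `T1 T`. -/
theorem model_T1 {T : L.Theory} [Nonempty N] :
    @Theory.Model (LC L) N S (T1 T) ↔ Good T S := by
  let _ := S
  constructor
  · intro h
    refine good_of_axM S (fun ψ hψ => ?_) fun {n k} τ {x y z} h1 h2 => ?_
    · exact (sat_AAE S ψ).1 (h.realize_of_mem _ (Or.inl ⟨ψ, hψ, rfl⟩))
    · have h3 := (sat_AAA S _).1 (h.realize_of_mem _ (Or.inr ⟨n, k, τ, rfl⟩)) x y z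
      simp only [fnA, tr_imp, tr_b, tr_e] at h3
      exact h3 h1 h2
  · intro h
    refine ⟨fun φ hφ => ?_⟩
    rcases hφ with ⟨ψ, hψ, rfl⟩ | ⟨n, k, τ, rfl⟩
    · exact (sat_AAE S ψ).2 (axM_of_good S h hψ)
    · refine (sat_AAA S _).2 fun x y z => ?_
      simp only [fnA, tr_imp, tr_b, tr_e]
      exact fun h1 h2 => h.bFun τ h1 h2

/-- The models of `T2 T`. -/
theorem model_T2 {T : L.Theory} [Nonempty N] :
    @Theory.Model (LC L) N S (T2 T) ↔ Good T S := by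
  let _ := S
  constructor
  · intro h
    have hA : ∀ ψ, AxM T ψ → ∀ x y : N, ∃ z, Tr S ψ x y z := fun ψ hψ =>
      (sat_AAE S ψ).1 (h.realize_of_mem _ (Or.inl ⟨ψ, hψ, rfl⟩))
    refine good_of_axM S hA fun {n k} τ {x y z} h1 h2 => ?_
    have hx : U S n x := by
      obtain ⟨a, ha⟩ := hA _ (AxM.bU τ) x y
      simp only [tr_imp, tr_inf, tr_u0, tr_u1, tr_b] at ha
      exact (ha h1).1
    obtain ⟨w, hw⟩ := (sat_AEA S _).1 (h.realize_of_mem _ (Or.inr ⟨n, k, τ, rfl⟩)) x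
    have h3 := hw y
    have h4 := hw z
    simp only [fnE, tr_imp, tr_b, tr_e, tr_u0] at h3 h4
    exact (h3 hx h1).trans (h4 hx h2).symm
  · intro h
    refine ⟨fun φ hφ => ?_⟩
    rcases hφ with ⟨ψ, hψ, rfl⟩ | ⟨n, k, τ, rfl⟩
    · exact (sat_AAE S ψ).2 (axM_of_good S h hψ)
    · refine (sat_AEA S _).2 fun x => ?_
      by_cases hx : U S n x
      · obtain ⟨y, hy⟩ := h.bEx τ hx
        refine ⟨y, fun z => ?_⟩
        simp only [fnE, tr_imp, tr_b, tr_e, tr_u0]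
        exact fun _ h2 => h.bFun τ h2 hy
      · refine ⟨x, fun z => ?_⟩
        simp only [fnE, tr_imp, tr_b, tr_e, tr_u0]
        exact fun h1 => absurd h1 hx

end VPF.CC
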