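import Pool.Agent.VPF.CodC1

/-!
# Coding of an arbitrary first-order theory in theories of low quantifier class (part 3)

Decoding: a `Good T` structure is the structure of tuples of a model of `T`, up to junk.
-/

set_option autoImplicit false

namespace VPF.CC

open FirstOrder Set Pool.Agent.Helper6.Str
open FirstOrder.Language

variable {L : FirstOrder.Language.{0, 0}} {N : Type} {T : L.Theory}
variable {S : (LC L).Structure N}

/-- The `n`-tuples. -/
abbrev Tu (S : (LC L).Structure N) (n : ℕ) : Type := {x : N // U S n x}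

/-- The points outside all sorts. -/
abbrev Jk (S : (LC L).Structure N) : Type := {x : N // ∀ n, ¬ U S n x}

/-- Evaluation of a tuple of terms. -/
noncomputable def ev (hG : Good T S) {n k : ℕ} (τ : Fin k → L.Term (Empty ⊕ Fin n))
    (s : Tu S n) : Tu S k :=
  ⟨Classical.choose (hG.bEx τ s.2), (hG.bU τ (Classical.choose_spec (hG.bEx τ s.2))).2⟩

theorem ev_spec (hG : Good T S) {n k : ℕ} (τ : Fin k → L.Term (Empty ⊕ Fin n)) (s : Tu S n) :
    B S τ s.1 (ev hG τ s).1 := Classical.choose_spec (hG.bEx τ s.2)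

theorem ev_eq (hG : Good T S) {n k : ℕ} (τ : Fin k → L.Term (Empty ⊕ Fin n)) (s : Tu S n)
    {y : Tu S k} (h : B S τ s.1 y.1) : ev hG τ s = y :=
  Subtype.ext (hG.bFun τ (ev_spec hG τ s) h)

theorem b_iff (hG : Good T S) {n k : ℕ} (τ : Fin k → L.Term (Empty ⊕ Fin n)) (s : Tu S n)
    (y : Tu S k) : B S τ s.1 y.1 ↔ ev hG τ s = y :=
  ⟨ev_eq hG τ s, fun h => h ▸ ev_spec hG τ s⟩

theorem ev_comp (hG : Good T S) {n k l : ℕ} (τ : Fin k → L.Term (Empty ⊕ Fin n))
    (σ : Fin l → L.Term (Empty ⊕ Fin k)) (s : Tu S n) :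
    ev hG σ (ev hG τ s) = ev hG (comp σ τ) s :=
  (ev_eq hG _ s (hG.bComp τ σ (ev_spec hG τ s) (ev_spec hG σ _))).symm

/-- The coordinates. -/
noncomputable def crd (hG : Good T S) {n : ℕ} (s : Tu S n) (i : Fin n) : Tu S 1 :=
  ev hG (vr L (fun _ : Fin 1 => i)) s

theorem crd_ev (hG : Good T S) {n k : ℕ} (τ : Fin k → L.Term (Empty ⊕ Fin n)) (s : Tu S n)
    (i : Fin k) : crd hG (ev hG τ s) i = ev hG (fun _ => τ i) s :=
  ev_comp hG τ _ s

theorem crd_one (hG : Good T S) (x : Tu S 1) (i : Fin 1) : crd hG x i = x := by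
  have h1 : vr L (fun _ : Fin 1 => i) = vr L (fun j : Fin 1 => j) := by
    funext j
    rw [Subsingleton.elim i j]
    rfl
  refine ev_eq hG _ x ?_
  rw [h1]
  exact hG.bId x.2

theorem crd_inj (hG : Good T S) : ∀ {n : ℕ} {s t : Tu S n}, crd hG s = crd hG t → s = t := by
  intro n
  induction n with
  | zero => exact fun {s t} _ => Subtype.ext (hG.zeroU s.2 t.2)
  | succ n ih =>
    intro s t h
    have h1 : ev hG (vr L (Fin.castSucc : Fin n → Fin (n + 1))) s =
        ev hG (vr L (Fin.castSucc : Fin n → Fin (n + 1))) t := by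
      refine ih ?_
      funext i
      rw [crd_ev, crd_ev]
      exact congrFun h (Fin.castSucc i)
    have h2 : ev hG (vr L (fun _ : Fin 1 => Fin.last n)) s =
        ev hG (vr L (fun _ : Fin 1 => Fin.last n)) t := congrFun h (Fin.last n)
    refine Subtype.ext (hG.uniq (ev_spec hG _ s) ?_ (ev_spec hG _ s) ?_)
    · rw [h1]
      exact ev_spec hG _ t
    · rw [h2]
      exact ev_spec hG _ t

theorem crd_snoc (hG : Good T S) {n : ℕ} {s : Tu S n} {a : Tu S 1} {t : Tu S (n + 1)}
    (h1 : B S (vr L (Fin.castSucc : Fin n → Fin (n + 1))) t.1 s.1)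
    (h2 : B S (vr L (fun _ : Fin 1 => Fin.last n)) t.1 a.1) :
    crd hG t = Fin.snoc (α := fun _ => Tu S 1) (crd hG s) a := by
  funext i
  refine Fin.lastCases ?_ (fun i => ?_) i
  · rw [Fin.snoc_last]
    exact ev_eq hG _ t h2
  · rw [Fin.snoc_castSucc, ← ev_eq hG _ t h1, crd_ev]
    rfl

theorem crd_surj (hG : Good T S) : ∀ {n : ℕ} (v : Fin n → Tu S 1), ∃ s : Tu S n,
    crd hG s = v := by
  intro n
  induction n with
  | zero =>
    intro v
    obtain ⟨z, hz⟩ := hG.zero
    exact ⟨⟨z, hz⟩, Subsingleton.elim _ _⟩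
  | succ n ih =>
    intro v
    obtain ⟨s, hs⟩ := ih (fun i => v (Fin.castSucc i))
    obtain ⟨z, h1, h2⟩ := hG.tup s.2 (v (Fin.last n)).2
    refine ⟨⟨z, (hG.bU _ h1).1⟩, ?_⟩
    rw [crd_snoc (t := ⟨z, (hG.bU _ h1).1⟩) (a := v (Fin.last n)) hG h1 h2, hs]
    funext i
    refine Fin.lastCases ?_ (fun i => ?_) i
    · rw [Fin.snoc_last]
    · rw [Fin.snoc_castSucc]

/-- The tuple with given coordinates. -/
noncomputable def tp (hG : Good T S) {n : ℕ} (v : Fin n → Tu S 1) : Tu S n :=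
  Classical.choose (crd_surj hG v)

theorem crd_tp (hG : Good T S) {n : ℕ} (v : Fin n → Tu S 1) : crd hG (tp hG v) = v :=
  Classical.choose_spec (crd_surj hG v)

theorem tp_crd (hG : Good T S) {n : ℕ} (s : Tu S n) : tp hG (crd hG s) = s :=
  crd_inj hG (crd_tp hG _)

/-- The decoded structure. -/
@[instance_reducible]
noncomputable def PS (hG : Good T S) : L.Structure (Tu S 1) where
  funMap {n} f v := ev hG (fun _ : Fin 1 => Term.func f fun i : Fin n => Term.var (Sum.inr i))
    (tp hG v)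
  RelMap {_} R v := P S R (tp hG v).1

theorem ev_term (hG : Good T S) {n : ℕ} (s : Tu S n) (t : L.Term (Empty ⊕ Fin n)) :
    ev hG (fun _ : Fin 1 => t) s =
      @Term.realize L (Tu S 1) (PS hG) _ (Sum.elim default (crd hG s)) t := by
  induction t with
  | var a =>
    rcases a with e | i
    · exact e.elim
    · rfl
  | @func k f ts ih =>
    let _ := PS hG
    have h1 : ev hG ts s = tp hG (fun i => (ts i).realize (Sum.elim default (crd hG s))) := by
      refine crd_inj hG ?_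
      rw [crd_tp]
      funext i
      rw [crd_ev]
      exact ih i
    rw [Term.realize_func]
    show _ = ev hG (fun _ : Fin 1 => Term.func f fun i : Fin k => Term.var (Sum.inr i))
      (tp hG (fun i => (ts i).realize (Sum.elim default (crd hG s))))
    rw [← h1, ev_comp]
    rfl

theorem tp_real (hG : Good T S) {n k : ℕ} (s : Tu S n) (τ : Fin k → L.Term (Empty ⊕ Fin n)) :
    ev hG τ s = tp hG (fun i =>
      @Term.realize L (Tu S 1) (PS hG) _ (Sum.elim default (crd hG s)) (τ i)) := by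
  refine crd_inj hG ?_
  rw [crd_tp]
  funext i
  rw [crd_ev]
  exact ev_term hG s (τ i)

theorem f_iff (hG : Good T S) {n : ℕ} (φ : L.BoundedFormula Empty n) (s : Tu S n) :
    F S φ s.1 ↔ @BoundedFormula.Realize L (Tu S 1) (PS hG) Empty n φ default (crd hG s) := by
  let _ := PS hG
  induction φ with
  | falsum => exact ⟨fun h => hG.fBot h, fun h => h.elim⟩
  | equal t u =>
    have h1 := hG.fEq (t := t) (u := u) (ev_spec hG (fun _ : Fin 1 => t) s)
    rw [h1, b_iff hG, ev_term, ev_term]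
    exact eq_comm
  | rel R τ =>
    have h1 := hG.fRel (R := R) (τ := τ) (ev_spec hG τ s)
    rw [h1, tp_real hG s τ]
    exact Iff.rfl
  | imp φ ψ ih1 ih2 =>
    rw [hG.fImp s.2, BoundedFormula.realize_imp]
    exact imp_congr (ih1 s) (ih2 s)
  | @all n φ ih =>
    rw [BoundedFormula.realize_all]
    constructor
    · intro h a
      obtain ⟨z, h1, h2⟩ := hG.tup s.2 a.2
      have h3 := (ih ⟨z, (hG.bU _ h1).1⟩).1 (hG.fAll1 h h1)
      rw [crd_snoc (t := ⟨z, (hG.bU _ h1).1⟩) (a := a) hG h1 h2] at h3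
      exact h3
    · intro h
      by_contra hcon
      obtain ⟨z, h1, h2⟩ := hG.fAll2 s.2 hcon
      refine h2 ((ih ⟨z, (hG.bU _ h1).1⟩).2 ?_)
      have h3 := h (crd hG ⟨z, (hG.bU _ h1).1⟩ (Fin.last n))
      have h4 := crd_snoc (t := ⟨z, (hG.bU _ h1).1⟩) (s := s)
        (a := crd hG ⟨z, (hG.bU _ h1).1⟩ (Fin.last n)) hG h1 (ev_spec hG _ _)
      rw [h4]
      exact h3

/-- The decoded structure is a model of `T`. -/
theorem model_PS (hG : Good T S) : @Theory.Model L (Tu S 1) (PS hG) T := by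
  let _ := PS hG
  refine ⟨fun φ hφ => ?_⟩
  obtain ⟨z, hz⟩ := hG.zero
  have h1 := (f_iff hG φ ⟨z, hz⟩).1 (hG.th hφ hz)
  have h2 : crd hG ⟨z, hz⟩ = default := Subsingleton.elim _ _
  rw [h2] at h1
  exact h1

end VPF.CC
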