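import Pool.Agent.VPF.CodC3

/-!
# Coding of an arbitrary first-order theory in theories of low quantifier class (part 4)

The standard structures of tuples and their isomorphisms.
-/

set_option autoImplicit false

namespace VPF.CC

open FirstOrder Set Pool.Agent.Helper6.Str
open FirstOrder.Language

variable {L : FirstOrder.Language.{0, 0}}

/-- The universe of the standard structure. -/
abbrev SU (A J : Type) : Type := ((n : ℕ) × (Fin n → A)) ⊕ J

/-- A tuple as an element. -/
abbrev mkT {A J : Type} (n : ℕ) (w : Fin n → A) : SU A J := Sum.inl ⟨n, w⟩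

theorem mkT_inj {A J : Type} {n : ℕ} {w w' : Fin n → A} (h : (mkT n w : SU A J) = mkT n w') :
    w = w' := by
  have h1 := Sum.inl.inj h
  exact eq_of_heq (Sigma.mk.inj h1).2

theorem mkT_fst {A J : Type} {n m : ℕ} {w : Fin n → A} {w' : Fin m → A}
    (h : (mkT n w : SU A J) = mkT m w') : n = m := by
  have h1 := Sum.inl.inj h
  exact (Sigma.mk.inj h1).1

/-- The relations of the standard structure. -/
def stdRel (A J : Type) [L.Structure A] : (m : ℕ) → RelT L m → (Fin m → SU A J) → Prop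
  | 1, Sum.inl n, v => ∃ w : Fin n → A, v 0 = mkT n w
  | 1, Sum.inr (Sum.inl ⟨n, R⟩), v => ∃ w : Fin n → A, v 0 = mkT n w ∧ Structure.RelMap R w
  | 1, Sum.inr (Sum.inr ⟨n, φ⟩), v => ∃ w : Fin n → A, v 0 = mkT n w ∧ φ.Realize default w
  | 2, ⟨n, k, τ⟩, v => ∃ w : Fin n → A, v 0 = mkT n w ∧
      v 1 = mkT k (fun i => (τ i).realize (Sum.elim default w))

/-- The standard structure of tuples of `A`, with junk `J`. -/
@[instance_reducible]
def Std (A J : Type) [L.Structure A] : (LC L).Structure (SU A J) where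
  funMap {n} f _ := (inferInstance : IsEmpty ((LC L).Functions n)).elim f
  RelMap {m} R v := stdRel A J m R v

section

variable (A J : Type) [L.Structure A]

theorem U_std {n : ℕ} {x : SU A J} : U (Std (L := L) A J) n x ↔ ∃ w : Fin n → A, x = mkT n w :=
  Iff.rfl

theorem P_std {n : ℕ} {R : L.Relations n} {x : SU A J} :
    P (Std (L := L) A J) R x ↔ ∃ w : Fin n → A, x = mkT n w ∧ Structure.RelMap R w :=
  Iff.rfl

theorem F_std {n : ℕ} {φ : L.BoundedFormula Empty n} {x : SU A J} :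
    F (Std (L := L) A J) φ x ↔ ∃ w : Fin n → A, x = mkT n w ∧ φ.Realize default w :=
  Iff.rfl

theorem B_std {n k : ℕ} {τ : Fin k → L.Term (Empty ⊕ Fin n)} {x y : SU A J} :
    B (Std (L := L) A J) τ x y ↔ ∃ w : Fin n → A, x = mkT n w ∧
      y = mkT k (fun i => (τ i).realize (Sum.elim default w)) :=
  Iff.rfl

theorem B_mk {n k : ℕ} {τ : Fin k → L.Term (Empty ⊕ Fin n)} {w : Fin n → A} {w' : Fin k → A} :
    B (Std (L := L) A J) τ (mkT n w) (mkT k w') ↔
      w' = fun i => (τ i).realize (Sum.elim default w) := by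
  rw [B_std]
  constructor
  · rintro ⟨v, h1, h2⟩
    rw [mkT_inj h1]
    exact mkT_inj h2
  · intro h
    exact ⟨w, rfl, by rw [h]⟩

theorem F_mk {n : ℕ} {φ : L.BoundedFormula Empty n} {w : Fin n → A} :
    F (Std (L := L) A J) φ (mkT n w) ↔ φ.Realize default w := by
  rw [F_std]
  constructor
  · rintro ⟨v, h1, h2⟩
    rw [mkT_inj h1]
    exact h2
  · intro h
    exact ⟨w, rfl, h⟩

theorem P_mk {n : ℕ} {R : L.Relations n} {w : Fin n → A} :
    P (Std (L := L) A J) R (mkT n w) ↔ Structure.RelMap R w := by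
  rw [P_std]
  constructor
  · rintro ⟨v, h1, h2⟩
    rw [mkT_inj h1]
    exact h2
  · intro h
    exact ⟨w, rfl, h⟩

theorem snoc_eq {n : ℕ} (v : Fin (n + 1) → A) :
    Fin.snoc (α := fun _ => A) (fun i => v (Fin.castSucc i)) (v (Fin.last n)) = v := by
  funext i
  refine Fin.lastCases ?_ (fun i => ?_) i
  · rw [Fin.snoc_last]
  · rw [Fin.snoc_castSucc]

/-- The standard structure is good. -/
theorem good_std {T : L.Theory} (hT : A ⊨ T) : Good T (Std (L := L) A J) where
  disj := by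
    rintro n m x hnm ⟨w, hw⟩ ⟨w', hw'⟩
    exact hnm (mkT_fst (hw.symm.trans hw'))
  bU := by
    rintro n k τ x y ⟨w, h1, h2⟩
    exact ⟨⟨w, h1⟩, ⟨_, h2⟩⟩
  bEx := by
    rintro n k τ x ⟨w, h1⟩
    exact ⟨mkT k (fun i => (τ i).realize (Sum.elim default w)), w, h1, rfl⟩
  bFun := by
    rintro n k τ x y z ⟨w, h1, h2⟩ ⟨w', h3, h4⟩
    have h5 : w = w' := mkT_inj (h1.symm.trans h3)
    subst h5
    exact h2.trans h4.symm
  bComp := by
    rintro n k l τ σ x y z ⟨w, h1, h2⟩ ⟨w', h3, h4⟩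
    have h5 : w' = _ := mkT_inj (h3.symm.trans h2)
    subst h5
    refine ⟨w, h1, h4.trans ?_⟩
    congr 2
    funext i
    rw [comp, Term.realize_subst]
    congr 1
    funext a
    rcases a with e | j
    · exact e.elim
    · rfl
  bId := by
    rintro n x ⟨w, h1⟩
    exact ⟨w, h1, h1⟩
  tup := by
    rintro n x y ⟨w, h1⟩ ⟨w', h2⟩
    refine ⟨mkT (n + 1) (Fin.snoc (α := fun _ => A) w (w' 0)), ⟨_, rfl, h1.trans ?_⟩,
      ⟨_, rfl, h2.trans ?_⟩⟩
    · congr 2
      funext i
      exact (Fin.snoc_castSucc (α := fun _ => A) (w' 0) w i).symm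
    · congr 2
      funext i
      rw [Subsingleton.elim i 0]
      exact (Fin.snoc_last (α := fun _ => A) (w' 0) w).symm
  uniq := by
    rintro n x y z u ⟨w1, h1, h1'⟩ ⟨w2, h2, h2'⟩ ⟨w3, h3, h3'⟩ ⟨w4, h4, h4'⟩
    have h5 : w1 = w3 := mkT_inj (h1.symm.trans h3)
    have h6 : w2 = w4 := mkT_inj (h2.symm.trans h4)
    subst h5
    subst h6
    have h7 := mkT_inj (h1'.symm.trans h2')
    have h8 := mkT_inj (h3'.symm.trans h4')
    have h9 : w1 (Fin.last n) = w2 (Fin.last n) := congrFun h8 0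
    have h10 : (fun i : Fin n => w1 (Fin.castSucc i)) = fun i => w2 (Fin.castSucc i) := h7
    have h11 : w1 = w2 := by
      rw [← snoc_eq A w1, ← snoc_eq A w2, h9, h10]
    have h12 : x = mkT (n + 1) w1 := h1
    have h13 : y = mkT (n + 1) w2 := h2
    rw [h12, h13, h11]
  zero := ⟨mkT 0 default, default, rfl⟩
  zeroU := by
    rintro x y ⟨w, h1⟩ ⟨w', h2⟩
    have h12 : x = mkT 0 w := h1
    have h13 : y = mkT 0 w' := h2
    rw [h12, h13, Subsingleton.elim w w']
  fU := by
    rintro n φ x ⟨w, h1, h2⟩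
    exact ⟨w, h1⟩
  pU := by
    rintro n R x ⟨w, h1, h2⟩
    exact ⟨w, h1⟩
  fBot := by
    rintro n x ⟨w, h1, h2⟩
    exact h2
  fImp := by
    rintro n φ ψ x ⟨w, rfl⟩
    rw [F_mk, F_mk, F_mk]
    exact BoundedFormula.realize_imp
  fAll1 := by
    rintro n φ x y ⟨w, rfl, h2⟩ ⟨w', rfl, h3⟩
    have h4 : w = _ := mkT_inj h3
    rw [F_mk, ← snoc_eq A w']
    rw [BoundedFormula.realize_all] at h2
    rw [h4] at h2
    exact h2 (w' (Fin.last n))
  fAll2 := by
    rintro n φ x ⟨w, rfl⟩ h2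
    rw [F_mk, BoundedFormula.realize_all] at h2
    push Not at h2
    obtain ⟨a, ha⟩ := h2
    refine ⟨mkT (n + 1) (Fin.snoc (α := fun _ => A) w a), ⟨_, rfl, ?_⟩, ?_⟩
    · have h3 : w = fun i : Fin n => Fin.snoc (α := fun _ => A) w a (Fin.castSucc i) := by
        funext i
        exact (Fin.snoc_castSucc (α := fun _ => A) a w i).symm
      exact congrArg (fun w' => (mkT n w' : SU A J)) h3
    · rw [F_mk]
      exact ha
  fRel := by
    rintro n k R τ x y ⟨w, rfl, rfl⟩
    rw [F_mk, P_mk]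
    exact Iff.rfl
  fEq := by
    rintro n t u x y ⟨w, rfl, rfl⟩
    rw [F_mk, B_mk]
    constructor
    · intro h
      funext i
      exact h
    · intro h
      exact congrFun h 0
  th := by
    rintro φ x h1 ⟨w, rfl⟩
    rw [F_mk]
    have h2 := hT.realize_of_mem φ h1
    have h3 : w = default := Subsingleton.elim _ _
    rw [h3]
    exact h2

end

/-- Every good structure is standard. -/
theorem iso_std {N : Type} {T : L.Theory} {S : (LC L).Structure N} (hG : Good T S) :
    Iso (@Std L (Tu S 1) (Jk S) (PS hG)) S := by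
  let _ := PS hG
  let d : SU (Tu S 1) (Jk S) → N := fun x => match x with
    | Sum.inl ⟨n, w⟩ => (tp hG w).1
    | Sum.inr j => j.1
  have hd1 : ∀ (n : ℕ) (w : Fin n → Tu S 1), d (mkT n w) = (tp hG w).1 := fun n w => rfl
  have hU : ∀ (n : ℕ) (x : SU (Tu S 1) (Jk S)), U S n (d x) ↔ ∃ w : Fin n → Tu S 1,
      x = mkT n w := by
    intro n x
    constructor
    · intro h
      rcases x with ⟨m, w⟩ | j
      · have h1 : m = n := by
          by_contra hmn
          exact hG.disj hmn (tp hG w).2 h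
        subst h1
        exact ⟨w, rfl⟩
      · exact absurd h (j.2 n)
    · rintro ⟨w, rfl⟩
      exact (tp hG w).2
  have hbij : Function.Bijective d := by
    constructor
    · intro x y hxy
      rcases x with ⟨n, w⟩ | j
      · have h1 : U S n (d y) := by
          rw [← hxy]
          exact (tp hG w).2
        obtain ⟨w', rfl⟩ := (hU n y).1 h1
        have h2 : tp hG w = tp hG w' := Subtype.ext hxy
        have h3 : w = w' := by
          rw [← crd_tp hG w, ← crd_tp hG w', h2]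
        rw [h3]
      · rcases y with ⟨n, w⟩ | j'
        · exfalso
          refine j.2 n ?_
          have h4 : j.1 = (tp hG w).1 := hxy
          rw [h4]
          exact (tp hG w).2
        · have h4 : j.1 = j'.1 := hxy
          rw [Subtype.ext h4]
    · intro x
      by_cases hx : ∃ n, U S n x
      · obtain ⟨n, hn⟩ := hx
        refine ⟨mkT n (crd hG ⟨x, hn⟩), ?_⟩
        rw [hd1, tp_crd]
      · push Not at hx
        exact ⟨Sum.inr ⟨x, hx⟩, rfl⟩
  refine ⟨Equiv.ofBijective d hbij, ?_⟩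
  intro m R v
  show stdRel (Tu S 1) (Jk S) m R v ↔ S.RelMap R (d ∘ v)
  match m, R, v with
  | 0, R, v => exact Empty.elim R
  | 1, Sum.inl n, v =>
    have h1 : d ∘ v = ![d (v 0)] := by
      funext i
      rw [Subsingleton.elim i 0]
      rfl
    rw [h1]
    exact (hU n (v 0)).symm
  | 1, Sum.inr (Sum.inl ⟨n, R⟩), v =>
    have h1 : d ∘ v = ![d (v 0)] := by
      funext i
      rw [Subsingleton.elim i 0]
      rfl
    rw [h1]
    show (∃ w : Fin n → Tu S 1, v 0 = mkT n w ∧ Structure.RelMap R w) ↔ P S R (d (v 0))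
    constructor
    · rintro ⟨w, h2, h3⟩
      rw [h2]
      exact h3
    · intro h
      obtain ⟨w, hw⟩ := (hU n (v 0)).1 (hG.pU h)
      refine ⟨w, hw, ?_⟩
      rw [hw] at h
      exact h
  | 1, Sum.inr (Sum.inr ⟨n, φ⟩), v =>
    have h1 : d ∘ v = ![d (v 0)] := by
      funext i
      rw [Subsingleton.elim i 0]
      rfl
    rw [h1]
    show (∃ w : Fin n → Tu S 1, v 0 = mkT n w ∧ φ.Realize default w) ↔ F S φ (d (v 0))
    constructor
    · rintro ⟨w, h2, h3⟩
      rw [h2, hd1, f_iff hG, crd_tp]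
      exact h3
    · intro h
      obtain ⟨w, hw⟩ := (hU n (v 0)).1 (hG.fU h)
      refine ⟨w, hw, ?_⟩
      rw [hw, hd1, f_iff hG, crd_tp] at h
      exact h
  | 2, ⟨n, k, τ⟩, v =>
    have h1 : d ∘ v = ![d (v 0), d (v 1)] := by
      funext i
      match i with
      | 0 => rfl
      | 1 => rfl
    rw [h1]
    show (∃ w : Fin n → Tu S 1, v 0 = mkT n w ∧
      v 1 = mkT k (fun i => (τ i).realize (Sum.elim default w))) ↔ B S τ (d (v 0)) (d (v 1))
    constructor
    · rintro ⟨w, h2, h3⟩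
      rw [h2, h3, hd1, hd1, b_iff hG, tp_real, crd_tp]
    · intro h
      obtain ⟨w, hw⟩ := (hU n (v 0)).1 (hG.bU τ h).1
      obtain ⟨w', hw'⟩ := (hU k (v 1)).1 (hG.bU τ h).2
      refine ⟨w, hw, ?_⟩
      rw [hw, hw', hd1, hd1, b_iff hG, tp_real, crd_tp] at h
      rw [hw', ← crd_tp hG w', ← h, crd_tp]
  | (m + 3), R, v => exact Empty.elim R

end VPF.CC
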