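import Pool.Agent.VPF.CodC4

/-!
# Coding of an arbitrary first-order theory in theories of low quantifier class (part 5)

Isomorphisms between standard structures.
-/

set_option autoImplicit false

namespace VPF.CC

open FirstOrder Set Pool.Agent.Helper6.Str
open FirstOrder.Language

variable {L : FirstOrder.Language.{0, 0}}

/-- The induced bijection of universes. -/
def suE {A A' J J' : Type} (g : A ≃ A') (j : J ≃ J') : SU A J ≃ SU A' J' :=
  Equiv.sumCongr (Equiv.sigmaCongrRight fun n => Equiv.arrowCongr (Equiv.refl (Fin n)) g) j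

theorem suE_mk {A A' J J' : Type} (g : A ≃ A') (j : J ≃ J') {n : ℕ} (w : Fin n → A) :
    suE g j (mkT n w) = mkT n (fun i => g (w i)) := rfl

theorem suE_eq {A A' J J' : Type} (g : A ≃ A') (j : J ≃ J') {n : ℕ} (w : Fin n → A)
    (x : SU A J) : x = mkT n w ↔ suE g j x = mkT n (fun i => g (w i)) := by
  rw [← suE_mk g j w]
  exact (suE g j).injective.eq_iff.symm

theorem suE_ex {A A' J J' : Type} (g : A ≃ A') (j : J ≃ J') {n : ℕ} (x : SU A J)
    (Q : (Fin n → A) → Prop) (Q' : (Fin n → A') → Prop)
    (hQ : ∀ w, Q w ↔ Q' (fun i => g (w i))) :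
    (∃ w, x = mkT n w ∧ Q w) ↔ ∃ w', suE g j x = mkT n w' ∧ Q' w' := by
  constructor
  · rintro ⟨w, h1, h2⟩
    exact ⟨_, (suE_eq g j w x).1 h1, (hQ w).1 h2⟩
  · rintro ⟨w', h1, h2⟩
    have h3 : (fun i => g (g.symm (w' i))) = w' := by
      funext i
      exact g.apply_symm_apply _
    refine ⟨fun i => g.symm (w' i), (suE_eq g j _ x).2 ?_, (hQ _).2 ?_⟩
    · rw [h3]
      exact h1
    · rw [h3]
      exact h2

theorem std_iso {A A' J J' : Type} [L.Structure A] [L.Structure A'] (g : A ≃[L] A')
    (j : J ≃ J') : Iso (Std (L := L) A J) (Std (L := L) A' J') := by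
  have hterm : ∀ {n : ℕ} (t : L.Term (Empty ⊕ Fin n)) (w : Fin n → A),
      g (t.realize (Sum.elim default w)) = t.realize (Sum.elim default fun i => g (w i)) := by
    intro n t w
    rw [← HomClass.realize_term g]
    congr 1
    funext a
    rcases a with e | i
    · exact e.elim
    · rfl
  refine ⟨suE g.toEquiv j, ?_⟩
  intro m R v
  show stdRel A J m R v ↔ stdRel A' J' m R (suE g.toEquiv j ∘ v)
  match m, R, v with
  | 0, R, v => exact Empty.elim R
  | 1, Sum.inl n, v =>
    have h1 := suE_ex g.toEquiv j (n := n) (v 0) (fun _ => True) (fun _ => True)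
      (fun _ => Iff.rfl)
    simp only [and_true] at h1
    exact h1
  | 1, Sum.inr (Sum.inl ⟨n, R⟩), v =>
    exact suE_ex g.toEquiv j (n := n) (v 0) (fun w => Structure.RelMap R w)
      (fun w => Structure.RelMap R w) fun w => (StrongHomClass.map_rel g R w).symm
  | 1, Sum.inr (Sum.inr ⟨n, φ⟩), v =>
    refine suE_ex g.toEquiv j (n := n) (v 0) (fun w => φ.Realize default w)
      (fun w => φ.Realize default w) fun w => ?_
    have h1 := StrongHomClass.realize_boundedFormula g φ (v := default) (xs := w)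
    have h2 : g ∘ (default : Empty → A) = default := by
      funext e
      exact e.elim
    rw [h2] at h1
    exact h1.symm
  | 2, ⟨n, k, τ⟩, v =>
    refine suE_ex g.toEquiv j (n := n) (v 0)
      (fun w => v 1 = mkT k fun i => (τ i).realize (Sum.elim default w))
      (fun w => suE g.toEquiv j (v 1) = mkT k fun i => (τ i).realize (Sum.elim default w))
      fun w => ?_
    rw [suE_eq g.toEquiv j]
    have h3 : (fun i => g.toEquiv ((τ i).realize (Sum.elim default w))) =
        fun i => (τ i).realize (Sum.elim default fun i => g.toEquiv (w i)) := by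
      funext i
      exact hterm (τ i) w
    rw [h3]
  | (m + 3), R, v => exact Empty.elim R

theorem comp1 {M N : Type} (e : M → N) (x : M) : e ∘ ![x] = ![e x] := by
  funext i
  rw [Subsingleton.elim i 0]
  rfl

theorem comp2 {M N : Type} (e : M → N) (x y : M) : e ∘ ![x, y] = ![e x, e y] := by
  funext i
  match i with
  | 0 => rfl
  | 1 => rfl

section

variable {M N : Type} {S : (LC L).Structure M} {S' : (LC L).Structure N} {e : M ≃ N}

theorem relIso_U (h : RelIso S S' e) {n : ℕ} (x : M) : U S n x ↔ U S' n (e x) := by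
  have h1 := h 1 (sU L n) ![x]
  rw [comp1] at h1
  exact h1

theorem relIso_P (h : RelIso S S' e) {n : ℕ} (R : L.Relations n) (x : M) :
    P S R x ↔ P S' R (e x) := by
  have h1 := h 1 (sP R) ![x]
  rw [comp1] at h1
  exact h1

theorem relIso_B (h : RelIso S S' e) {n k : ℕ} (τ : Fin k → L.Term (Empty ⊕ Fin n)) (x y : M) :
    B S τ x y ↔ B S' τ (e x) (e y) := by
  have h1 := h 2 (sB τ) ![x, y]
  rw [comp2] at h1
  exact h1

end

theorem std_inj {A A' J J' : Type} [L.Structure A] [L.Structure A']
    (h : Iso (Std (L := L) A J) (Std (L := L) A' J')) : Nonempty (A ≃[L] A') := by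
  obtain ⟨e, he⟩ := h
  have h0 : ∀ (n : ℕ) (w : Fin n → A), ∃ w' : Fin n → A', e (mkT n w) = mkT n w' :=
    fun n w => (relIso_U he (mkT n w)).1 ⟨w, rfl⟩
  have h0' : ∀ (n : ℕ) (w' : Fin n → A'), ∃ w : Fin n → A, e (mkT n w) = mkT n w' := by
    intro n w'
    have h1 : U (Std (L := L) A J) n (e.symm (mkT n w')) := by
      rw [relIso_U he, e.apply_symm_apply]
      exact ⟨w', rfl⟩
    obtain ⟨w, hw⟩ := h1
    have h2 : e.symm (mkT n w') = mkT n w := hw
    refine ⟨w, ?_⟩
    rw [← h2, e.apply_symm_apply]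
  have h1 : ∀ a : A, ∃ b : A', e (mkT 1 fun _ => a) = mkT 1 fun _ => b := by
    intro a
    obtain ⟨w', hw'⟩ := h0 1 fun _ => a
    refine ⟨w' 0, ?_⟩
    rw [hw']
    congr 2
    funext i
    rw [Subsingleton.elim i 0]
  choose g hg using h1
  have hinj : Function.Injective g := by
    intro a b hab
    have h2 : e (mkT 1 fun _ => a) = e (mkT 1 fun _ => b) := by
      rw [hg, hg, hab]
    exact congrFun (mkT_inj (e.injective h2)) 0
  have hsur : Function.Surjective g := by
    intro b
    obtain ⟨w, hw⟩ := h0' 1 fun _ => b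
    have h2 : w = fun _ => w 0 := by
      funext i
      rw [Subsingleton.elim i 0]
    refine ⟨w 0, ?_⟩
    have h3 := hg (w 0)
    rw [← h2, hw] at h3
    exact (congrFun (mkT_inj h3) 0).symm
  have hT : ∀ (n : ℕ) (w : Fin n → A), e (mkT n w) = mkT n fun i => g (w i) := by
    intro n w
    obtain ⟨w', hw'⟩ := h0 n w
    rw [hw']
    have h2 : w' = fun i => g (w i) := by
      funext i
      have h3 : B (Std (L := L) A J) (vr L (fun _ : Fin 1 => i)) (mkT n w)
          (mkT 1 fun _ => w i) := (B_mk A J).2 rfl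
      rw [relIso_B he, hw', hg, B_mk] at h3
      exact (congrFun h3 0).symm
    rw [h2]
  refine ⟨{ toEquiv := Equiv.ofBijective g ⟨hinj, hsur⟩, map_fun' := ?_, map_rel' := ?_ }⟩
  · intro n f w
    have h3 : B (Std (L := L) A J)
        (fun _ : Fin 1 => Term.func f fun i : Fin n => Term.var (Sum.inr i)) (mkT n w)
          (mkT 1 fun _ => Structure.funMap f w) := (B_mk A J).2 rfl
    rw [relIso_B he, hT, hg, B_mk] at h3
    exact congrFun h3 0
  · intro n R w
    have h3 := relIso_P he R (mkT n w)
    rw [hT, P_mk, P_mk] at h3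
    exact h3.symm

end VPF.CC
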