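import Pool.Agent.VPF.CodC2
import Pool.Agent.VPF.CodC5

/-!
# Coding of an arbitrary first-order theory in theories of low quantifier class (part 6)

Transfer of countability and of perfect sets.
-/

set_option autoImplicit false

namespace VPF.CC

open FirstOrder Set Pool.Agent.Helper6.Str
open FirstOrder.Language

variable {L : FirstOrder.Language.{0, 0}}

/-- The conclusion of the frozen statement `S14759`. -/
def VCd (L : FirstOrder.Language.{0, 0}) (T : L.Theory) : Prop :=
  (∃ g : ℕ → L.Structure ℕ, ∀ S : L.Structure ℕ,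
      @FirstOrder.Language.Theory.Model L ℕ S T →
        ∃ n : ℕ, Nonempty (@FirstOrder.Language.Equiv L ℕ ℕ S (g n))) ∨
  (∃ f : (ℕ → Bool) → L.Structure ℕ,
      (∀ x : ℕ → Bool, @FirstOrder.Language.Theory.Model L ℕ (f x) T) ∧
      (∀ x y : ℕ → Bool,
          Nonempty (@FirstOrder.Language.Equiv L ℕ ℕ (f x) (f y)) → x = y) ∧
      (∀ (n : ℕ) (R : L.Relations n) (a : Fin n → ℕ),
          IsClopen {x : ℕ → Bool | @FirstOrder.Language.Structure.RelMap L ℕ (f x) n R a}) ∧
      (∀ (n : ℕ) (F : L.Functions n) (a : Fin n → ℕ) (b : ℕ),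
          IsOpen {x : ℕ → Bool | @FirstOrder.Language.Structure.funMap L ℕ (f x) n F a = b}))

/-- The theory with the conditions of infinity. -/
def Tp (T : L.Theory) : L.Theory := T ∪ L.infiniteTheory

theorem model_Tp {T : L.Theory} {A : Type} [L.Structure A] :
    A ⊨ Tp T ↔ A ⊨ T ∧ Infinite A := by
  rw [Tp, Theory.model_union_iff, model_infiniteTheory_iff]

/-! ### Countably many -/

theorem ctbl_transfer {T : L.Theory}
    (h : CtblK {S : (LC L).Structure ℕ | Good (Tp T) S}) : ∃ g : ℕ → L.Structure ℕ,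
      ∀ S : L.Structure ℕ, @Theory.Model L ℕ S T →
        ∃ n : ℕ, Nonempty (@FirstOrder.Language.Equiv L ℕ ℕ S (g n)) := by
  obtain ⟨G, hG⟩ := h
  let dflt : L.Structure ℕ := { funMap := fun _ _ => 0, RelMap := fun _ _ => False }
  have hinf : Infinite (SU ℕ Empty) :=
    Infinite.of_injective (fun n : ℕ => (mkT 1 fun _ => n : SU ℕ Empty)) fun a b hab =>
      congrFun (mkT_inj hab) 0
  obtain ⟨u⟩ := nonempty_equiv_of_countable (α := SU ℕ Empty) (β := ℕ)
  -- the copy on `ℕ`
  let Q : L.Structure ℕ → (LC L).Structure ℕ := fun S =>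
    { funMap := fun {n} f _ => (inferInstance : IsEmpty ((LC L).Functions n)).elim f
      RelMap := fun {m} R v => (@Std L ℕ Empty S).RelMap R (u.symm ∘ v) }
  have hQ : ∀ S : L.Structure ℕ, Iso (@Std L ℕ Empty S) (Q S) := by
    intro S
    refine ⟨u, fun n R v => ?_⟩
    show _ ↔ (@Std L ℕ Empty S).RelMap R (u.symm ∘ (u ∘ v))
    have h1 : u.symm ∘ (u ∘ v) = v := by
      funext k
      simp
    rw [h1]
  have hgood : ∀ {M M' : Type} (S : (LC L).Structure M) (S' : (LC L).Structure M'),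
      Iso S S' → Good (Tp T) S → Good (Tp T) S' := by
    intro M M' S S' hI hS
    have hne : Nonempty M := ⟨hS.zero.choose⟩
    obtain ⟨e, he⟩ := hI
    have hne' : Nonempty M' := hne.map e
    rw [← model_T1] at hS ⊢
    let _ := S
    let _ := S'
    let E : M ≃[LC L] M' :=
      { toEquiv := e
        map_fun' := fun {n} f _ => (inferInstance : IsEmpty ((LC L).Functions n)).elim f
        map_rel' := fun {n} R v => (he n R v).symm }
    exact (StrongHomClass.elementarilyEquivalent E).theory_model_iff.1 hS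
  classical
  let gg : ℕ → L.Structure ℕ := fun n =>
    if h : ∃ S : L.Structure ℕ, Iso (Q S) (G n) then h.choose else dflt
  refine ⟨gg, fun S hS => ?_⟩
  have h1 : Good (Tp T) (Q S) := by
    refine hgood _ _ (hQ S) ?_
    let _ := S
    exact good_std ℕ Empty (model_Tp.2 ⟨hS, inferInstance⟩)
  obtain ⟨n, hn⟩ := hG (Q S) h1
  have h2 : ∃ S : L.Structure ℕ, Iso (Q S) (G n) := ⟨S, hn⟩
  refine ⟨n, ?_⟩
  have hgg : gg n = h2.choose := dif_pos h2
  rw [hgg]
  have h3 := h2.choose_spec
  have h4 : Iso (@Std L ℕ Empty S) (@Std L ℕ Empty h2.choose) :=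
    ((hQ S).trans (hn.trans h3.symm)).trans (hQ _).symm
  exact @std_inj L ℕ ℕ Empty Empty S h2.choose h4

/-! ### Perfectly many -/

theorem good_infinite {T : L.Theory} {N : Type} {S : (LC L).Structure N} (hG : Good (Tp T) S) :
    Infinite (Tu S 1) := by
  let _ := PS hG
  exact (model_Tp.1 (model_PS hG)).2

/-- The increasing enumeration of the points. -/
noncomputable def en {T : L.Theory} {S : (LC L).Structure ℕ} (hG : Good (Tp T) S) :
    ℕ ≃ Tu S 1 := by
  have hinf : ({a | U S 1 a} : Set ℕ).Infinite := Set.infinite_coe_iff.mp (good_infinite hG)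
  refine Equiv.ofBijective (fun n => ⟨Nat.nth (U S 1) n, Nat.nth_mem_of_infinite hinf n⟩) ⟨?_, ?_⟩
  · intro a b hab
    exact Nat.nth_injective hinf (Subtype.ext_iff.mp hab)
  · rintro ⟨a, ha⟩
    classical
    exact ⟨Nat.count (U S 1) a, Subtype.ext (Nat.nth_count ha)⟩

theorem en_val {T : L.Theory} {S : (LC L).Structure ℕ} (hG : Good (Tp T) S) (n : ℕ) :
    (en hG n).1 = Nat.nth (U S 1) n := rfl

/-- The decoded structure on `ℕ`. -/
@[instance_reducible]
noncomputable def hh {T : L.Theory} {S : (LC L).Structure ℕ} (hG : Good (Tp T) S) :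
    L.Structure ℕ :=
  let _ := PS hG
  (en hG).symm.inducedStructure

theorem hh_equiv {T : L.Theory} {S : (LC L).Structure ℕ} (hG : Good (Tp T) S) :
    Nonempty (@FirstOrder.Language.Equiv L (Tu S 1) ℕ (PS hG) (hh hG)) := by
  let _ := PS hG
  exact ⟨(en hG).symm.inducedStructureEquiv⟩

theorem hh_model {T : L.Theory} {S : (LC L).Structure ℕ} (hG : Good (Tp T) S) :
    @Theory.Model L ℕ (hh hG) T := by
  obtain ⟨E⟩ := hh_equiv hG
  let _ := PS hG
  let _ := hh hG
  exact (StrongHomClass.elementarilyEquivalent E).theory_model_iff.1 (model_Tp.1 (model_PS hG)).1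

theorem hh_rel {T : L.Theory} {S : (LC L).Structure ℕ} (hG : Good (Tp T) S) {n : ℕ}
    (R : L.Relations n) (a : Fin n → ℕ) :
    (hh hG).RelMap R a ↔ P S R (tp hG (fun i => en hG (a i))).1 := Iff.rfl

theorem hh_fun {T : L.Theory} {S : (LC L).Structure ℕ} (hG : Good (Tp T) S) {n : ℕ}
    (f : L.Functions n) (a : Fin n → ℕ) (b : ℕ) :
    (hh hG).funMap f a = b ↔
      ev hG (fun _ : Fin 1 => Term.func f fun i : Fin n => Term.var (Sum.inr i))
        (tp hG (fun i => en hG (a i))) = en hG b := by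
  show (en hG).symm _ = b ↔ _
  rw [Equiv.symm_apply_eq]
  exact Iff.rfl

theorem tp_iff {T : L.Theory} {S : (LC L).Structure ℕ} (hG : Good (Tp T) S) {n : ℕ}
    (v : Fin n → Tu S 1) (t : ℕ) : (tp hG v).1 = t ↔
      U S n t ∧ ∀ i, B S (vr L (fun _ : Fin 1 => i)) t (v i).1 := by
  constructor
  · rintro rfl
    refine ⟨(tp hG v).2, fun i => ?_⟩
    rw [b_iff hG (vr L (fun _ : Fin 1 => i)) (tp hG v) (v i)]
    exact congrFun (crd_tp hG v) i
  · rintro ⟨h1, h2⟩
    have h3 : tp hG v = ⟨t, h1⟩ := by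
      refine crd_inj hG ?_
      rw [crd_tp]
      funext i
      exact (ev_eq hG _ ⟨t, h1⟩ (h2 i)).symm
    rw [h3]

section top

variable {T : L.Theory} {f : (ℕ → Bool) → (LC L).Structure ℕ} (hG : ∀ x, Good (Tp T) (f x))
  (hcl : ∀ (n : ℕ) (R : (LC L).Relations n) (a : Fin n → ℕ), IsClopen {x | (f x).RelMap R a})

include hcl

open Classical in
theorem clopen_count (c : ℕ) : ∀ b : ℕ, IsClopen {x | Nat.count (U (f x) 1) c = b} := by
  induction c with
  | zero =>
    intro b
    by_cases hb : 0 = b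
    · have h1 : {x | Nat.count (U (f x) 1) 0 = b} = univ := by
        subst hb
        ext x
        simp
      rw [h1]
      exact isClopen_univ
    · have h1 : {x | Nat.count (U (f x) 1) 0 = b} = ∅ := by
        ext x
        simp [hb]
      rw [h1]
      exact isClopen_empty
  | succ c ih =>
    intro b
    have h0 : IsClopen {x | U (f x) 1 c} := hcl 1 _ _
    have h1 : {x | Nat.count (U (f x) 1) (c + 1) = b} =
        ({x | U (f x) 1 c} ∩ ⋃ b' : {b' : Fin (b + 1) // b'.1 + 1 = b},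
          {x | Nat.count (U (f x) 1) c = b'.1.1}) ∪
        ({x | U (f x) 1 c}ᶜ ∩ {x | Nat.count (U (f x) 1) c = b}) := by
      ext x
      simp only [mem_setOf_eq, mem_union, mem_inter_iff, mem_compl_iff, mem_iUnion]
      rw [Nat.count_succ]
      by_cases hx : U (f x) 1 c
      · simp only [hx, if_true, true_and, not_true_eq_false, false_and, or_false]
        constructor
        · intro h
          exact ⟨⟨⟨Nat.count (U (f x) 1) c, by omega⟩, h⟩, rfl⟩
        · rintro ⟨⟨b', hb'⟩, h⟩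
          rw [h]
          exact hb'
      · simp [hx]
    rw [h1]
    exact (h0.inter (isClopen_iUnion_of_finite fun b' => ih _)).union (h0.compl.inter (ih b))

include hG

theorem open_nth (b c : ℕ) : IsOpen {x | Nat.nth (U (f x) 1) b = c ∧ U (f x) 1 c} := by
  classical
  have h1 : {x | Nat.nth (U (f x) 1) b = c ∧ U (f x) 1 c} =
      {x | U (f x) 1 c} ∩ {x | Nat.count (U (f x) 1) c = b} := by
    ext x
    have hinf : ({a | U (f x) 1 a} : Set ℕ).Infinite := Set.infinite_coe_iff.mp (good_infinite (hG x))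
    simp only [mem_setOf_eq, mem_inter_iff]
    constructor
    · rintro ⟨h1, h2⟩
      refine ⟨h2, ?_⟩
      rw [← h1]
      exact Nat.count_nth_of_infinite hinf b
    · rintro ⟨h1, h2⟩
      refine ⟨?_, h1⟩
      rw [← h2]
      exact Nat.nth_count h1
  rw [h1]
  exact ((hcl 1 _ _).inter (clopen_count hcl c b)).isOpen

theorem open_en (b c : ℕ) : IsOpen {x | (en (hG x) b).1 = c} := by
  have h1 : {x | (en (hG x) b).1 = c} = {x | Nat.nth (U (f x) 1) b = c ∧ U (f x) 1 c} := by
    ext x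
    simp only [mem_setOf_eq, en_val]
    constructor
    · intro h
      refine ⟨h, ?_⟩
      rw [← h]
      exact (en (hG x) b).2
    · exact fun h => h.1
  rw [h1]
  exact open_nth hG hcl b c

theorem open_B {n k : ℕ} (τ : Fin k → L.Term (Empty ⊕ Fin n)) (t b : ℕ) :
    IsOpen {x | B (f x) τ t (en (hG x) b).1} := by
  have h1 : {x | B (f x) τ t (en (hG x) b).1} =
      ⋃ c : ℕ, {x | (en (hG x) b).1 = c} ∩ {x | B (f x) τ t c} := by
    ext x
    simp only [mem_setOf_eq, mem_iUnion, mem_inter_iff]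
    constructor
    · intro h
      exact ⟨_, rfl, h⟩
    · rintro ⟨c, h1, h2⟩
      rw [h1]
      exact h2
  rw [h1]
  exact isOpen_iUnion fun c => (open_en hG hcl b c).inter (hcl 2 _ _).isOpen

theorem open_tp {n : ℕ} (a : Fin n → ℕ) (t : ℕ) :
    IsOpen {x | (tp (hG x) (fun i => en (hG x) (a i))).1 = t} := by
  have h1 : {x | (tp (hG x) (fun i => en (hG x) (a i))).1 = t} =
      {x | U (f x) n t} ∩ ⋂ i : Fin n, {x | B (f x) (vr L (fun _ : Fin 1 => i)) t
        (en (hG x) (a i)).1} := by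
    ext x
    simp only [mem_setOf_eq, mem_iInter, mem_inter_iff]
    exact tp_iff (hG x) _ t
  rw [h1]
  exact (hcl 1 _ _).isOpen.inter (isOpen_iInter_of_finite fun i => open_B hG hcl _ t (a i))

theorem clopen_hh {n : ℕ} (R : L.Relations n) (a : Fin n → ℕ) :
    IsClopen {x | (hh (hG x)).RelMap R a} := by
  have h1 : {x | (hh (hG x)).RelMap R a} =
      ⋃ t : ℕ, {x | (tp (hG x) (fun i => en (hG x) (a i))).1 = t} ∩ {x | P (f x) R t} := by
    ext x
    simp only [mem_setOf_eq, mem_iUnion, mem_inter_iff, hh_rel]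
    constructor
    · intro h
      exact ⟨_, rfl, h⟩
    · rintro ⟨c, h1, h2⟩
      rw [h1]
      exact h2
  have h2 : {x | (hh (hG x)).RelMap R a}ᶜ =
      ⋃ t : ℕ, {x | (tp (hG x) (fun i => en (hG x) (a i))).1 = t} ∩ {x | P (f x) R t}ᶜ := by
    ext x
    simp only [mem_setOf_eq, mem_iUnion, mem_inter_iff, mem_compl_iff, hh_rel]
    constructor
    · intro h
      exact ⟨_, rfl, h⟩
    · rintro ⟨c, h1, h2⟩
      rw [h1]
      exact h2
  constructor
  · rw [← isOpen_compl_iff, h2]
    exact isOpen_iUnion fun t => (open_tp hG hcl a t).inter (hcl 1 _ _).compl.isOpen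
  · rw [h1]
    exact isOpen_iUnion fun t => (open_tp hG hcl a t).inter (hcl 1 _ _).isOpen

theorem open_hh {n : ℕ} (F : L.Functions n) (a : Fin n → ℕ) (b : ℕ) :
    IsOpen {x | (hh (hG x)).funMap F a = b} := by
  have h1 : {x | (hh (hG x)).funMap F a = b} =
      ⋃ t : ℕ, {x | (tp (hG x) (fun i => en (hG x) (a i))).1 = t} ∩
        {x | B (f x) (fun _ : Fin 1 => Term.func F fun i : Fin n => Term.var (Sum.inr i)) t
          (en (hG x) b).1} := by
    ext x
    simp only [mem_setOf_eq, mem_iUnion, mem_inter_iff, hh_fun]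
    rw [← b_iff (hG x)]
    constructor
    · intro h
      exact ⟨_, rfl, h⟩
    · rintro ⟨c, h1, h2⟩
      rw [h1]
      exact h2
  rw [h1]
  exact isOpen_iUnion fun t => (open_tp hG hcl a t).inter (open_B hG hcl _ t b)

omit hG in
/-- The number of junk points. -/
theorem meas_junk (c : ℕ∞) :
    MeasurableSet {x | ({a : ℕ | ∀ n, ¬ U (f x) n a}).encard = c} := by
  have h0 : ∀ a : ℕ, MeasurableSet {x | ∀ n, ¬ U (f x) n a} := by
    intro a
    have h1 : {x | ∀ n, ¬ U (f x) n a} = ⋂ n, {x | U (f x) n a}ᶜ := by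
      ext x
      simp
    rw [h1]
    exact MeasurableSet.iInter fun n => (hcl 1 _ _).compl.isOpen.measurableSet
  have h1 : ∀ k : ℕ, MeasurableSet {x | (k : ℕ∞) ≤ ({a : ℕ | ∀ n, ¬ U (f x) n a}).encard} := by
    intro k
    have h2 : {x | (k : ℕ∞) ≤ ({a : ℕ | ∀ n, ¬ U (f x) n a}).encard} =
        ⋃ F : {F : Finset ℕ // F.card = k}, ⋂ a : {a // a ∈ F.1}, {x | ∀ n, ¬ U (f x) n a.1} := by
      ext x
      simp only [mem_setOf_eq, mem_iUnion, mem_iInter]
      constructor
      · intro h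
        obtain ⟨t, h3, h4⟩ := Set.exists_subset_encard_eq h
        have h5 : t.Finite := Set.finite_of_encard_eq_coe h4
        refine ⟨⟨h5.toFinset, ?_⟩, fun a => ?_⟩
        · rw [h5.encard_eq_coe_toFinset_card] at h4
          exact_mod_cast h4
        · exact h3 (h5.mem_toFinset.1 a.2)
      · rintro ⟨⟨F, hF⟩, h⟩
        have h3 : (F : Set ℕ) ⊆ {a : ℕ | ∀ n, ¬ U (f x) n a} := fun a ha => h ⟨a, ha⟩
        have h4 := Set.encard_le_encard h3
        rw [Set.encard_coe_eq_coe_finsetCard, hF] at h4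
        exact h4
    rw [h2]
    exact MeasurableSet.iUnion fun F => MeasurableSet.iInter fun a => h0 a.1
  induction c using ENat.recTopCoe with
  | top =>
    have h2 : {x | ({a : ℕ | ∀ n, ¬ U (f x) n a}).encard = ⊤} =
        ⋂ k : ℕ, {x | (k : ℕ∞) ≤ ({a : ℕ | ∀ n, ¬ U (f x) n a}).encard} := by
      ext x
      simp only [mem_setOf_eq, mem_iInter]
      rw [ENat.eq_top_iff_forall_ge]
    rw [h2]
    exact MeasurableSet.iInter h1
  | coe k =>
    have h2 : {x | ({a : ℕ | ∀ n, ¬ U (f x) n a}).encard = k} =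
        {x | (k : ℕ∞) ≤ ({a : ℕ | ∀ n, ¬ U (f x) n a}).encard} \
          {x | ((k + 1 : ℕ) : ℕ∞) ≤ ({a : ℕ | ∀ n, ¬ U (f x) n a}).encard} := by
      ext x
      simp only [mem_setOf_eq, mem_diff, not_le]
      constructor
      · intro h
        rw [h]
        exact ⟨le_refl _, by exact_mod_cast Nat.lt_succ_self k⟩
      · rintro ⟨h3, h4⟩
        refine le_antisymm ?_ h3
        have h5 : ({a : ℕ | ∀ n, ¬ U (f x) n a}).encard < ((k : ℕ∞) + 1) := by
          exact_mod_cast h4
        exact Order.le_of_lt_add_one h5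
    rw [h2]
    exact (h1 k).diff (h1 (k + 1))

end top

theorem equiv_of_encard {s t : Set ℕ} (h : s.encard = t.encard) : Nonempty (s ≃ t) := by
  by_cases hs : s.Finite
  · have ht : t.Finite := by
      rw [← Set.encard_lt_top_iff, ← h]
      exact Set.encard_lt_top_iff.2 hs
    have := hs.to_subtype
    have := ht.to_subtype
    have h1 : Nat.card s = Nat.card t := by
      rw [Nat.card_coe_set_eq, Nat.card_coe_set_eq, Set.ncard, Set.ncard, h]
    exact ⟨(Finite.equivFin s).trans ((finCongr h1).trans (Finite.equivFin t).symm)⟩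
  · have ht : ¬ t.Finite := by
      rw [← Set.encard_lt_top_iff, ← h]
      exact fun h1 => hs (Set.encard_lt_top_iff.1 h1)
    have := Set.infinite_coe_iff.2 hs
    have := Set.infinite_coe_iff.2 ht
    exact nonempty_equiv_of_countable

theorem perf_transfer {T : L.Theory}
    (h : PerfK {S : (LC L).Structure ℕ | Good (Tp T) S}) :
    ∃ f : (ℕ → Bool) → L.Structure ℕ,
      (∀ x : ℕ → Bool, @FirstOrder.Language.Theory.Model L ℕ (f x) T) ∧
      (∀ x y : ℕ → Bool,
          Nonempty (@FirstOrder.Language.Equiv L ℕ ℕ (f x) (f y)) → x = y) ∧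
      (∀ (n : ℕ) (R : L.Relations n) (a : Fin n → ℕ),
          IsClopen {x : ℕ → Bool | @FirstOrder.Language.Structure.RelMap L ℕ (f x) n R a}) ∧
      (∀ (n : ℕ) (F : L.Functions n) (a : Fin n → ℕ) (b : ℕ),
          IsOpen {x : ℕ → Bool | @FirstOrder.Language.Structure.funMap L ℕ (f x) n F a = b}) := by
  obtain ⟨f, hG, hinj, hcl⟩ := h
  have hG' : ∀ x, Good (Tp T) (f x) := hG
  have key : ∀ x y, ({a : ℕ | ∀ n, ¬ U (f x) n a}).encard =
      ({a : ℕ | ∀ n, ¬ U (f y) n a}).encard →
      Nonempty (@FirstOrder.Language.Equiv L ℕ ℕ (hh (hG' x)) (hh (hG' y))) → x = y := by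
    rintro x y h1 ⟨E⟩
    obtain ⟨E1⟩ := hh_equiv (hG' x)
    obtain ⟨E2⟩ := hh_equiv (hG' y)
    obtain ⟨j⟩ := equiv_of_encard h1
    refine hinj x y (Iso.trans (Iso.symm (iso_std (hG' x))) (Iso.trans ?_ (iso_std (hG' y))))
    let _ := PS (hG' x)
    refine @std_iso L (Tu (f x) 1) (Tu (f y) 1) (Jk (f x)) (Jk (f y)) (PS (hG' x)) (PS (hG' y))
      ?_ j
    exact @FirstOrder.Language.Equiv.comp L (Tu (f x) 1) ℕ (PS (hG' x)) (hh (hG' y))
      (Tu (f y) 1) (PS (hG' y))
      (@FirstOrder.Language.Equiv.symm L _ _ (PS (hG' y)) (hh (hG' y)) E2)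
      (@FirstOrder.Language.Equiv.comp L (Tu (f x) 1) ℕ (PS (hG' x)) (hh (hG' x)) ℕ
        (hh (hG' y)) E E1)
  obtain ⟨c, hc⟩ : ∃ c : ℕ∞, ¬ ({x | ({a : ℕ | ∀ n, ¬ U (f x) n a}).encard = c}).Countable := by
    by_contra hcon
    push Not at hcon
    have h1 : (univ : Set (ℕ → Bool)).Countable := by
      have h2 : (univ : Set (ℕ → Bool)) =
          ⋃ c : ℕ∞, {x | ({a : ℕ | ∀ n, ¬ U (f x) n a}).encard = c} := by
        ext x
        simp
      rw [h2]
      exact countable_iUnion hcon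
    obtain ⟨s, hs⟩ := h1.exists_eq_range ⟨fun _ => true, mem_univ _⟩
    have h3 : (fun n => !(s n n)) ∈ range s := by
      rw [← hs]
      exact mem_univ _
    obtain ⟨n, hn⟩ := h3
    have h4 := congrFun hn n
    simp at h4
  obtain ⟨j, g, hg, hgB, hgE⟩ := Pool.Agent.Helper6.exists_cantor_of_reals (X := ℕ → Bool) (Y := ℕ → Bool)
    (J := Unit) (Z := fun _ => id) (fun _ => measurable_id)
    (B := fun _ => {x | ({a : ℕ | ∀ n, ¬ U (f x) n a}).encard = c})
    (fun _ => meas_junk hcl c)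
    (fun x y => Nonempty (@FirstOrder.Language.Equiv L ℕ ℕ (hh (hG' x)) (hh (hG' y))))
    (fun j k x hx y hy hxy => ⟨k, key x y (by
      rw [show ({a : ℕ | ∀ n, ¬ U (f x) n a}).encard = c from hx,
        show ({a : ℕ | ∀ n, ¬ U (f y) n a}).encard = c from hy]) hxy⟩)
    (by
      intro h1
      refine hc (h1.mono ?_)
      intro x hx
      exact mem_iUnion.2 ⟨(), x, hx, rfl⟩)
  refine ⟨fun x => hh (hG' (g x)), fun x => hh_model (hG' (g x)), fun x y hxy => ?_,
    fun n R a => ?_, fun n F a b => ?_⟩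
  · by_contra hne
    exact hgE x y hne hxy
  · exact (clopen_hh hG' hcl R a).preimage hg
  · exact (open_hh hG' hcl F a b).preimage hg

end VPF.CC
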