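import Pool.Agent.VPF.CodC6
import Pool.Agent.Helper6.VC.FBDefs

/-!
# Infinitary logic with three variables: the coded class

`D3 Q`: the class `Q` of structures on `ℕ` is the class of models of a formula of infinitary logic
with three variables. `Kc T φ`: the structures of tuples (without junk) of the models of `T`, `φ`.
-/

set_option autoImplicit false

namespace VPF.CC

open FirstOrder Set Pool.Agent.Helper6.Str Pool.Agent.Helper5.DU
open FirstOrder.Language

/-! ### Definability with three variables -/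

section D3

variable {L' : FirstOrder.Language.{0, 0}}

/-- conjunction of two formulas -/
def fand {k : ℕ} (a b : FV L' k) : FV L' k := .conj fun n => if n = 0 then a else b

theorem sat_fand {k : ℕ} {M : Type} (S : L'.Structure M) (a b : FV L' k) (v : Fin k → M) :
    (fand a b).Sat S v ↔ a.Sat S v ∧ b.Sat S v := by
  constructor
  · intro h
    exact ⟨by simpa using h 0, by simpa using h 1⟩
  · rintro ⟨h1, h2⟩ n
    by_cases hn : n = 0
    · simpa [hn] using h1
    · simpa [hn] using h2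

/-- implication -/
def fimp {k : ℕ} (a b : FV L' k) : FV L' k := .neg (fand a (.neg b))

theorem sat_fimp {k : ℕ} {M : Type} (S : L'.Structure M) (a b : FV L' k) (v : Fin k → M) :
    (fimp a b).Sat S v ↔ (a.Sat S v → b.Sat S v) := by
  show ¬ (fand a (.neg b)).Sat S v ↔ _
  rw [sat_fand]
  show ¬ (a.Sat S v ∧ ¬ b.Sat S v) ↔ _
  tauto

theorem qf_fv [∀ n, IsEmpty (L'.Functions n)] {ψ : L'.BoundedFormula Empty 3} (h : ψ.IsQF) :
    ∃ Φ : FV L' 3, ∀ (M : Type) (S : L'.Structure M) (v : Fin 3 → M), Φ.Sat S v ↔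
      @BoundedFormula.Realize L' M S Empty 3 ψ default v := by
  induction h with
  | falsum =>
    refine ⟨.neg (.eq 0 0), fun M S v => ?_⟩
    exact ⟨fun h => h rfl, fun h => h.elim⟩
  | of_isAtomic h =>
    cases h with
    | equal t u =>
      refine ⟨.eq (tv t) (tv u), fun M S v => ?_⟩
      show v (tv t) = v (tv u) ↔ _
      rw [← realize_tv S t v, ← realize_tv S u v]
      exact Iff.rfl
    | rel R ts =>
      refine ⟨.rel R fun i => tv (ts i), fun M S v => ?_⟩
      show S.RelMap R (fun i => v (tv (ts i))) ↔ _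
      simp only [← realize_tv S]
      exact Iff.rfl
  | imp _ _ ih1 ih2 =>
    obtain ⟨Φ1, h1⟩ := ih1
    obtain ⟨Φ2, h2⟩ := ih2
    refine ⟨fimp Φ1 Φ2, fun M S v => ?_⟩
    rw [sat_fimp, h1, h2]
    exact BoundedFormula.realize_imp.symm

/-- The class `Q` is defined by a formula with three variables. -/
def D3 (Q : L'.Structure ℕ → Prop) : Prop :=
  ∃ Φ : FV L' 3, ∀ S : L'.Structure ℕ, (∀ v, Φ.Sat S v) ↔ Q S

theorem D3.all {ι : Type} [Countable ι] {Q : ι → L'.Structure ℕ → Prop} (h : ∀ i, D3 (Q i)) :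
    D3 fun S => ∀ i, Q i S := by
  rcases isEmpty_or_nonempty ι with h0 | h0
  · exact ⟨.eq 0 0, fun S => ⟨fun _ i => isEmptyElim i, fun _ v => rfl⟩⟩
  · obtain ⟨e, he⟩ := exists_surjective_nat ι
    choose Φ hΦ using h
    refine ⟨.conj fun n => Φ (e n), fun S => ⟨fun h i => ?_, fun h v n => ?_⟩⟩
    · obtain ⟨n, rfl⟩ := he i
      exact (hΦ (e n) S).1 fun v => h v n
    · exact (hΦ (e n) S).2 (h (e n)) v

theorem D3.and {Q R : L'.Structure ℕ → Prop} (h1 : D3 Q) (h2 : D3 R) :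
    D3 fun S => Q S ∧ R S := by
  have h3 := D3.all (ι := Bool) (Q := fun b S => if b then Q S else R S) (by
    rintro (b | b)
    · simpa using h2
    · simpa using h1)
  obtain ⟨Φ, hΦ⟩ := h3
  refine ⟨Φ, fun S => (hΦ S).trans ⟨fun h => ⟨by simpa using h true, by simpa using h false⟩, ?_⟩⟩
  rintro ⟨h4, h5⟩ (b | b)
  · simpa using h5
  · simpa using h4

theorem D3.congr {Q R : L'.Structure ℕ → Prop} (h1 : D3 Q) (h2 : ∀ S, Q S ↔ R S) : D3 R := by
  obtain ⟨Φ, hΦ⟩ := h1
  exact ⟨Φ, fun S => (hΦ S).trans (h2 S)⟩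

end D3

variable {L : FirstOrder.Language.{0, 0}}

theorem upd2 {N : Type} (v : Fin 3 → N) (a : N) : Function.update v 2 a = ![v 0, v 1, a] := by
  funext i
  match i with
  | 0 => rfl
  | 1 => rfl
  | 2 => rfl

theorem eta3 {N : Type} (v : Fin 3 → N) : v = ![v 0, v 1, v 2] := by
  funext i
  match i with
  | 0 => rfl
  | 1 => rfl
  | 2 => rfl

theorem d3_AAE {ψ : (LC L).BoundedFormula Empty 3} (h : ψ.IsQF) :
    D3 fun S => ∀ x y, ∃ z, Tr S ψ x y z := by
  obtain ⟨Φ, hΦ⟩ := qf_fv h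
  refine ⟨.ex 2 Φ, fun S => ⟨fun h x y => ?_, fun h v => ?_⟩⟩
  · obtain ⟨a, ha⟩ := h ![x, y, x]
    refine ⟨a, ?_⟩
    have h1 := (hΦ ℕ S _).1 ha
    rw [upd2] at h1
    exact h1
  · obtain ⟨z, hz⟩ := h (v 0) (v 1)
    refine ⟨z, (hΦ ℕ S _).2 ?_⟩
    rw [upd2]
    exact hz

theorem d3_AAA {ψ : (LC L).BoundedFormula Empty 3} (h : ψ.IsQF) :
    D3 fun S => ∀ x y z, Tr S ψ x y z := by
  obtain ⟨Φ, hΦ⟩ := qf_fv h
  refine ⟨Φ, fun S => ⟨fun h x y z => (hΦ ℕ S _).1 (h _), fun h v => (hΦ ℕ S _).2 ?_⟩⟩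
  rw [eta3 v]
  exact h _ _ _

theorem d3_good (hL : Countable L.Symbols) (T : L.Theory) :
    D3 fun S : (LC L).Structure ℕ => Good T S := by
  have hR : ∀ n, Countable ((LC L).Relations n) := countable_rel hL
  have hR' : Countable ((n : ℕ) × (LC L).Relations n) := inferInstance
  have hF' : Countable ((n : ℕ) × (LC L).Functions n) := by
    have : IsEmpty ((n : ℕ) × (LC L).Functions n) := ⟨fun x => isEmptyElim x.2⟩
    infer_instance
  have hS : Countable (LC L).Symbols :=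
    inferInstanceAs (Countable (((n : ℕ) × (LC L).Functions n) ⊕ ((n : ℕ) × (LC L).Relations n)))
  have hB : Countable ((n : ℕ) × (LC L).BoundedFormula Empty n) := countable_fml hS
  have hB3 : Countable ((LC L).BoundedFormula Empty 3) :=
    Function.Injective.countable (f := fun ψ => (⟨3, ψ⟩ : (n : ℕ) × (LC L).BoundedFormula Empty n))
      fun a b hab => by simpa using hab
  have hC : Countable (RelT L 2) := hR 2
  have h1 : D3 fun S : (LC L).Structure ℕ =>
      ∀ ψ : {ψ : (LC L).BoundedFormula Empty 3 // AxM T ψ}, ∀ x y, ∃ z, Tr S ψ.1 x y z :=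
    D3.all fun ψ => d3_AAE (qf_axM ψ.2)
  have h2 : D3 fun S : (LC L).Structure ℕ =>
      ∀ q : RelT L 2, ∀ x y z, Tr S (fnA q.2.2) x y z :=
    D3.all fun q => d3_AAA (qf_fnA q.2.2)
  refine (h1.and h2).congr fun S => ⟨fun h => ?_, fun h => ⟨fun ψ => ?_, fun q x y z => ?_⟩⟩
  · refine good_of_axM S (fun ψ hψ => h.1 ⟨ψ, hψ⟩) fun {n k} τ {x y z} h3 h4 => ?_
    have h5 := h.2 ⟨n, k, τ⟩ x y z
    simp only [fnA, tr_imp, tr_b, tr_e] at h5
    exact h5 h3 h4
  · exact axM_of_good S h ψ.2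
  · simp only [fnA, tr_imp, tr_b, tr_e]
    exact fun h3 h4 => h.bFun _ h3 h4

/-! ### Translation of infinitary formulas -/

/-- the atomic formula `U n (x i)` -/
def aU (L : FirstOrder.Language.{0, 0}) (n : ℕ) (i : Fin 3) : FV (LC L) 3 :=
  .rel (sU L n) ![i]

/-- Truth of `φ` at the tuple `x i`. -/
def trI : {n : ℕ} → FmI L n → Fin 3 → FV (LC L) 3
  | _, .eq a b, i => .ex (i + 1) (fand (.rel (sB (vr L fun _ : Fin 1 => a)) ![i, i + 1])
      (.rel (sB (vr L fun _ : Fin 1 => b)) ![i, i + 1]))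
  | _, .rel R w, i => .ex (i + 1) (fand (.rel (sB (vr L w)) ![i, i + 1])
      (.rel (sP R) ![i + 1]))
  | _, .neg φ, i => .neg (trI φ i)
  | _, .conj φ, i => .conj fun k => trI (φ k) i
  | n, .ex φ, i => .ex (i + 1) (fand
      (.rel (sB (vr L (Fin.castSucc : Fin n → Fin (n + 1)))) ![i + 1, i]) (trI φ (i + 1)))

theorem ne_add_one (i : Fin 3) : i ≠ i + 1 := by
  fin_cases i <;> decide

section

variable {N : Type} {T : L.Theory} {S : (LC L).Structure N}

theorem sat_B1 {n k : ℕ} (τ : Fin k → L.Term (Empty ⊕ Fin n)) (i : Fin 3) (v : Fin 3 → N)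
    (a : N) : (FV.rel (sB τ) ![i, i + 1] : FV (LC L) 3).Sat S (Function.update v (i + 1) a) ↔
      B S τ (v i) a := by
  show S.RelMap (sB τ) _ ↔ S.RelMap (sB τ) _
  have h1 : (fun j : Fin 2 => Function.update v (i + 1) a ((![i, i + 1] : Fin 2 → Fin 3) j)) =
      ![v i, a] := by
    funext j
    match j with
    | 0 => exact Function.update_of_ne (ne_add_one i) _ _
    | 1 => exact Function.update_self _ _ _
  rw [h1]

theorem sat_B2 {n k : ℕ} (τ : Fin k → L.Term (Empty ⊕ Fin n)) (i : Fin 3) (v : Fin 3 → N)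
    (a : N) : (FV.rel (sB τ) ![i + 1, i] : FV (LC L) 3).Sat S (Function.update v (i + 1) a) ↔
      B S τ a (v i) := by
  show S.RelMap (sB τ) _ ↔ S.RelMap (sB τ) _
  have h1 : (fun j : Fin 2 => Function.update v (i + 1) a ((![i + 1, i] : Fin 2 → Fin 3) j)) =
      ![a, v i] := by
    funext j
    match j with
    | 0 => exact Function.update_self _ _ _
    | 1 => exact Function.update_of_ne (ne_add_one i) _ _
  rw [h1]

theorem sat_P1 {n : ℕ} (R : L.Relations n) (i : Fin 3) (v : Fin 3 → N) :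
    (FV.rel (sP R) ![i] : FV (LC L) 3).Sat S v ↔ P S R (v i) := by
  show S.RelMap (sP R) _ ↔ S.RelMap (sP R) _
  have h1 : (fun j : Fin 1 => v ((![i] : Fin 1 → Fin 3) j)) = ![v i] := by
    funext j
    rw [Subsingleton.elim j 0]
    rfl
  rw [h1]

theorem sat_U1 (n : ℕ) (i : Fin 3) (v : Fin 3 → N) :
    (aU L n i).Sat S v ↔ U S n (v i) := by
  show S.RelMap (sU L n) _ ↔ S.RelMap (sU L n) _
  have h1 : (fun j : Fin 1 => v ((![i] : Fin 1 → Fin 3) j)) = ![v i] := by
    funext j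
    rw [Subsingleton.elim j 0]
    rfl
  rw [h1]

theorem sat_trI (hG : Good T S) {n : ℕ} (φ : FmI L n) : ∀ (s : Tu S n) (i : Fin 3)
    (v : Fin 3 → N), v i = s.1 → ((trI φ i).Sat S v ↔ Sat (PS hG) φ (crd hG s)) := by
  induction φ with
  | @eq n a b =>
    intro s i v hv
    show (∃ c, (fand _ _).Sat S (Function.update v (i + 1) c)) ↔ crd hG s a = crd hG s b
    constructor
    · rintro ⟨c, hc⟩
      rw [sat_fand, sat_B1, sat_B1, hv] at hc
      exact Subtype.ext ((hG.bFun _ (ev_spec hG _ s) hc.1).trans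
        (hG.bFun _ hc.2 (ev_spec hG _ s)))
    · intro h
      refine ⟨(crd hG s a).1, ?_⟩
      rw [sat_fand, sat_B1, sat_B1, hv]
      refine ⟨ev_spec hG _ s, ?_⟩
      rw [h]
      exact ev_spec hG _ s
  | @rel n k R w =>
    intro s i v hv
    show (∃ c, (fand _ _).Sat S (Function.update v (i + 1) c)) ↔
      P S R (tp hG fun j => crd hG s (w j)).1
    have h1 : ev hG (vr L w) s = tp hG fun j => crd hG s (w j) := by
      refine crd_inj hG ?_
      rw [crd_tp]
      funext j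
      rw [crd_ev]
      rfl
    rw [← h1]
    constructor
    · rintro ⟨c, hc⟩
      rw [sat_fand, sat_B1, sat_P1, Function.update_self, hv] at hc
      rw [hG.bFun _ (ev_spec hG _ s) hc.1]
      exact hc.2
    · intro h
      refine ⟨(ev hG (vr L w) s).1, ?_⟩
      rw [sat_fand, sat_B1, sat_P1, Function.update_self, hv]
      exact ⟨ev_spec hG _ s, h⟩
  | neg φ ih =>
    intro s i v hv
    exact not_congr (ih s i v hv)
  | conj φ ih =>
    intro s i v hv
    exact forall_congr' fun k => ih k s i v hv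
  | @ex n φ ih =>
    intro s i v hv
    show (∃ c, (fand _ _).Sat S (Function.update v (i + 1) c)) ↔
      ∃ a, Sat (PS hG) φ (Fin.snoc (crd hG s) a)
    constructor
    · rintro ⟨c, hc⟩
      rw [sat_fand, sat_B2, hv] at hc
      have hU : U S (n + 1) c := (hG.bU _ hc.1).1
      have h1 := (ih ⟨c, hU⟩ (i + 1) _ (Function.update_self _ _ _)).1 hc.2
      rw [crd_snoc (t := ⟨c, hU⟩) (s := s) (a := crd hG ⟨c, hU⟩ (Fin.last n)) hG hc.1
        (ev_spec hG _ _)] at h1
      exact ⟨_, h1⟩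
    · rintro ⟨a, ha⟩
      obtain ⟨z, h1, h2⟩ := hG.tup s.2 a.2
      have hU : U S (n + 1) z := (hG.bU _ h1).1
      refine ⟨z, ?_⟩
      rw [sat_fand, sat_B2, hv]
      refine ⟨h1, (ih ⟨z, hU⟩ (i + 1) _ (Function.update_self _ _ _)).2 ?_⟩
      rw [crd_snoc (t := ⟨z, hU⟩) (a := a) hG h1 h2]
      exact ha

/-- The coded class. -/
def Kc (T : L.Theory) (φ : FmI L 0) {N : Type} (S : (LC L).Structure N) : Prop :=
  ∃ hG : Good (Tp T) S, (∀ x, ∃ n, U S n x) ∧ Sat (PS hG) φ Fin.elim0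

theorem d3_Kc (hL : Countable L.Symbols) (T : L.Theory) (φ : FmI L 0) :
    D3 fun S : (LC L).Structure ℕ => Kc T φ S := by
  have h1 : D3 fun S : (LC L).Structure ℕ => ∀ x, ∃ n, U S n x := by
    refine ⟨.neg (.conj fun n => .neg (aU L n 0)), fun S => ⟨fun h x => ?_, fun h v => ?_⟩⟩
    · by_contra hcon
      push Not at hcon
      refine h (fun _ => x) fun n => ?_
      show ¬ (aU L n 0).Sat S _
      rw [sat_U1]
      exact hcon n
    · intro h1
      obtain ⟨n, hn⟩ := h (v 0)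
      refine h1 n ?_
      rw [sat_U1]
      exact hn
  have h2 : D3 fun S : (LC L).Structure ℕ => ∀ v, U S 0 (v 0) → (trI φ 0).Sat S v := by
    refine ⟨fimp (aU L 0 0) (trI φ 0), fun S => forall_congr' fun v => ?_⟩
    rw [sat_fimp, sat_U1]
  refine ((d3_good hL (Tp T)).and (h1.and h2)).congr fun S => ⟨?_, ?_⟩
  · rintro ⟨hG, h3, h4⟩
    refine ⟨hG, h3, ?_⟩
    obtain ⟨z, hz⟩ := hG.zero
    have h5 := (sat_trI hG φ ⟨z, hz⟩ 0 (fun _ => z) rfl).1 (h4 _ hz)
    have h6 : crd hG ⟨z, hz⟩ = Fin.elim0 := Subsingleton.elim _ _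
    rw [h6] at h5
    exact h5
  · rintro ⟨hG, h3, h4⟩
    refine ⟨hG, h3, fun v hv => ?_⟩
    refine (sat_trI hG φ ⟨v 0, hv⟩ 0 v rfl).2 ?_
    have h6 : crd hG ⟨v 0, hv⟩ = Fin.elim0 := Subsingleton.elim _ _
    rw [h6]
    exact h4

end

end VPF.CC
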