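import Pool.Agent.VPF.Defs

/-!
# Two-variable infinitary logic: definitions for part A
-/

set_option autoImplicit false

namespace VPF

open FirstOrder Set Pool.Agent.Helper6.Str Pool.Agent.Helper5.Multi Pool.Agent.Helper79.VC

variable {L : FirstOrder.Language.{0, 0}} {M N : Type}

/-- Atomic formulas in two variables. -/
abbrev Atm (L : FirstOrder.Language.{0, 0}) : Type :=
  (n : ℕ) × (L.Relations n × (Fin n → Fin 2))

/-- Truth of the atomic formula `a` at the pair `(x, y)`. -/
def atm (S : L.Structure M) (x y : M) (a : Atm L) : Prop :=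
  S.RelMap a.2.1 (fun i => if a.2.2 i = 0 then x else y)

/-- `ψ` is an immediate subformula of `φ`. -/
inductive Sub1 {k : ℕ} : FV L k → FV L k → Prop
  | neg (φ : FV L k) : Sub1 φ (.neg φ)
  | conj (φ : ℕ → FV L k) (m : ℕ) : Sub1 (φ m) (.conj φ)
  | ex (i : Fin k) (φ : FV L k) : Sub1 φ (.ex i φ)

/-- The formulas `F 0, F 1, ...` are closed under immediate subformulas. -/
def Cls {k : ℕ} (F : ℕ → FV L k) : Prop := ∀ m ψ, Sub1 ψ (F m) → ∃ m', F m' = ψ

/-- The `F`-type of a point: the truth values of `∃ x_i, F m` (`i = 0, 1`) at this point and its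
atomic type. -/
def ty (S : L.Structure M) (F : ℕ → FV L 2) (x : M) : (ℕ × Fin 2) ⊕ Atm L → Prop
  | .inl p => (FV.ex p.2 (F p.1)).Sat S (fun _ => x)
  | .inr a => atm S x x a

/-- `x` is a king: no other point has its type. -/
def Kg (S : L.Structure M) (F : ℕ → FV L 2) (x : M) : Prop := ∀ y, ty S F y = ty S F x → y = x

/-- `x` and `y` are not kings and have the same type over the kings. -/
def EE (S : L.Structure M) (F : ℕ → FV L 2) (x y : M) : Prop :=
  ¬ Kg S F x ∧ ¬ Kg S F y ∧ ty S F x = ty S F y ∧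
    ∀ z, Kg S F z → ∀ a, atm S x z a ↔ atm S y z a

/-- Pairs of different non-kings with the same types have the same atomic type. -/
def Uni (S : L.Structure M) (F : ℕ → FV L 2) : Prop :=
  ∀ x y x' y', x ≠ y → x' ≠ y' → ¬ Kg S F x → ¬ Kg S F y → ty S F x = ty S F x' →
    ty S F y = ty S F y' → ∀ a, atm S x y a ↔ atm S x' y' a

/-- The tuple takes exactly two values. -/
def Two {n : ℕ} (v : Fin n → N) : Prop := ∃ i j, v i ≠ v j ∧ ∀ k, v k = v i ∨ v k = v j

open Classical in
/-- The tuple in `M` which stands for the tuple `v` in `N`: if `v` has exactly two values `x ≠ y`,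
then `x` is replaced by `ρ x y` and `y` by `ρ y x`; otherwise every value `x` is replaced by
`π x`. -/
noncomputable def gv (π : N → M) (ρ : N → N → M) {n : ℕ} (v : Fin n → N) (i : Fin n) : M :=
  if Two v then (if h : ∃ j, v j ≠ v i then ρ (v i) (v h.choose) else π (v i)) else π (v i)

/-- The structure on `N` in which the pair `x ≠ y` has the atomic type of `(ρ x y, ρ y x)` in `S`
and the point `x` that of `π x`. -/
@[instance_reducible]
noncomputable def pst [∀ n, IsEmpty (L.Functions n)] (S : L.Structure M) (π : N → M)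
    (ρ : N → N → M) : L.Structure N where
  funMap := fun {n} f => (isEmptyElim f : (Fin n → N) → N)
  RelMap := fun {n} R v => S.RelMap R (gv π ρ v)

/-- The hypotheses under which `pst S π ρ` has the same two-variable theory as `S`. -/
structure PSt (S : L.Structure M) (F : ℕ → FV L 2) (π : N → M) (ρ : N → N → M) : Prop where
  ty_eq : ∀ x y, x ≠ y → ty S F (ρ x y) = ty S F (π x)
  ne : ∀ x y, x ≠ y → ρ x y ≠ ρ y x
  ext : ∀ (x : N) (y : M), y ≠ π x → ∃ y', y' ≠ x ∧ ty S F (π y') = ty S F y ∧
    ∀ a, atm S (π x) y a ↔ atm S (ρ x y') (ρ y' x) a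

/-- Matching of the two-variable types of `N` (given by `π`) with those of `M`. -/
structure Mat (S : L.Structure M) (S' : L.Structure N) (F : ℕ → FV L 2) (π : N → M) : Prop where
  sub : ∀ x' y' : N, ∃ x y : M, ty S F x = ty S F (π x') ∧ ty S F y = ty S F (π y') ∧
    (x = y ↔ x' = y') ∧ ∀ a, atm S x y a ↔ atm S' x' y' a
  ext : ∀ (x' : N) (y : M), ∃ y' : N, ty S F (π y') = ty S F y ∧ (π x' = y ↔ x' = y') ∧
    ∀ a, atm S (π x') y a ↔ atm S' x' y' a

end VPF
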