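import Pool.Agent.VPF.Defs
import Pool.Agent.VB.C

/-!
# Free extensions and swap classes: definitions for parts B and G
-/

set_option autoImplicit false

namespace VPF

open FirstOrder Set Pool.Agent.Helper6.Str Pool.Agent.Helper5.Multi Pool.Agent.Helper79.VC

variable {L : FirstOrder.Language.{0, 0}} {M N P B : Type}

/-- The tuples `x` and `x'` satisfy the same relations with parameters in `D`. -/
def Pt (N : L.Structure P) (D : Set P) {k : ℕ} (x x' : Fin k → P) : Prop :=
  ∀ (n : ℕ) (R : L.Relations n) (w : Fin n → D ⊕ Fin k),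
    N.RelMap R (fun i => Sum.elim Subtype.val x (w i)) ↔
      N.RelMap R (fun i => Sum.elim Subtype.val x' (w i))

/-- Every point outside `D` has another point outside `D` with the same atomic type over `D`. -/
def Twn (N : L.Structure P) (D : Set P) : Prop :=
  ∀ u, u ∉ D → ∃ v, v ∉ D ∧ v ≠ u ∧ Pt N D ![u] ![v]

/-- Any two points of `A` lie in a copy of `N` over `D`. -/
def Cop (N : L.Structure P) (D : Set P) (A : L.Structure B) : Prop :=
  ∃ ι : P → B, ∀ a b : B, ∃ h : P → B, Function.Injective h ∧ (∀ d ∈ D, h d = ι d) ∧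
    (∃ u, h u = a) ∧ (∃ v, h v = b) ∧
    ∀ (n : ℕ) (R : L.Relations n) (w : Fin n → P), A.RelMap R (fun i => h (w i)) ↔ N.RelMap R w

/-- The class `K` contains all countable structures in which any two points lie in a copy of `N`
over `D`. -/
def CopC (K : Set (L.Structure ℕ)) (N : L.Structure P) (D : Set P) : Prop :=
  ∀ A : L.Structure ℕ, Cop N D A → A ∈ K

open Classical in
/-- The transposition of `x` and `y` is an automorphism. -/
def Swp (S : L.Structure M) (x y : M) : Prop :=
  ∀ (n : ℕ) (R : L.Relations n) (v : Fin n → M),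
    S.RelMap R (fun i => Equiv.swap x y (v i)) ↔ S.RelMap R v

open Classical in
/-- The transposition of `x` and `y` respects the relation `R`. -/
def SwpR (S : L.Structure M) {n : ℕ} (R : L.Relations n) (x y : M) : Prop :=
  ∀ v : Fin n → M, S.RelMap R (fun i => Equiv.swap x y (v i)) ↔ S.RelMap R v

/-- Data for a free extension: base points `i : J` with types `τ i`, pairs `(σ i j, σ j i)`. -/
structure FD (N : L.Structure P) (D : Set P) {J : Type} (τ : J → P) (σ : J → J → P) : Prop where
  tau : ∀ i, τ i ∉ D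
  mem : ∀ i j, i ≠ j → σ i j ∉ D
  ty : ∀ i j, i ≠ j → Pt N D ![σ i j] ![τ i]
  ne : ∀ i j, i ≠ j → σ i j ≠ σ j i

/-- The value of a tuple of `D ∪ E` under `N`, when the points of `E` are replaced by `f`. -/
def vl {D : Set P} {E : Type} (f : E → P) {n : ℕ} (x : Fin n → D ⊕ E) (i : Fin n) : P :=
  Sum.elim Subtype.val f (x i)

/-- `A` is a free extension with base `b : J → E` and pair assignment `ρ`: see the fields. `G` gives
the relations between three or more base points. -/
structure FX (N : L.Structure P) (D : Set P) {J : Type} (τ : J → P) (σ : J → J → P)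
    (G : ∀ n : ℕ, L.Relations n → (Fin n → J) → Prop) {E : Type} (A : L.Structure (D ⊕ E))
    (b : J → E) (ρ : E → E → P) : Prop where
  /-- any two points lie in a copy of `N` over `D` -/
  cop : Cop N D A
  inj : Function.Injective b
  /-- the pair `(e, e')` has the type of `(ρ e e', ρ e' e)` over `D` -/
  pair : ∀ e e', e ≠ e' → ∀ (n : ℕ) (R : L.Relations n) (w : Fin n → D ⊕ Fin 2),
    A.RelMap R (fun i => Sum.map id ![e, e'] (w i)) ↔
      N.RelMap R (fun i => Sum.elim Subtype.val ![ρ e e', ρ e' e] (w i))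
  base : ∀ i j, i ≠ j → ρ (b i) (b j) = σ i j
  /-- a new point is in default relation to all but two of the base points -/
  dflt : ∀ e, e ∉ range b → ∃ i₁ i₂ : J, ∀ i j, i ≠ i₁ → i ≠ i₂ → j ≠ i₁ → j ≠ i₂ →
    τ i = τ j → ρ e (b i) = ρ e (b j) ∧ ρ (b i) e = ρ (b j) e
  /-- relations between at least three base points are given by `G` -/
  free : ∀ (n : ℕ) (R : L.Relations n) (w : Fin n → J),
    (∃ s t u, w s ≠ w t ∧ w s ≠ w u ∧ w t ≠ w u) →
    (A.RelMap R (fun i => Sum.inr (b (w i))) ↔ G n R w)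
  /-- for a new point `e` and all but one pair of base points there are no relations between the
  three points -/
  free' : ∀ e, e ∉ range b → ∃ i₁ i₂ : J, ∀ i j, i ≠ j →
    ¬ (i = i₁ ∧ j = i₂) → ¬ (i = i₂ ∧ j = i₁) → ∀ (n : ℕ) (R : L.Relations n)
    (x : Fin n → D ⊕ E), (∀ t, (∃ d, x t = Sum.inl d) ∨ x t = Sum.inr e ∨ x t = Sum.inr (b i) ∨
      x t = Sum.inr (b j)) → (∃ t, x t = Sum.inr e) → (∃ t, x t = Sum.inr (b i)) →
    (∃ t, x t = Sum.inr (b j)) → ¬ A.RelMap R x

/-- A relation of `A σ G` at `x` depends on finitely many values of `σ` and `G`. -/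
def FDep {D : Set P} {J E : Type}
    (A : (J → J → P) → (∀ n : ℕ, L.Relations n → (Fin n → J) → Prop) → L.Structure (D ⊕ E)) :
    Prop :=
  ∀ (n : ℕ) (R : L.Relations n) (x : Fin n → D ⊕ E), ∃ (Fs : Finset (J × J))
    (Fg : Finset ((m : ℕ) × (L.Relations m × (Fin m → J)))), ∀ σ σ' G G',
    (∀ p ∈ Fs, σ p.1 p.2 = σ' p.1 p.2) →
    (∀ q ∈ Fg, (G q.1 q.2.1 q.2.2 ↔ G' q.1 q.2.1 q.2.2)) →
    ((A σ G).RelMap R x ↔ (A σ' G').RelMap R x)

end VPF
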