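import Pool.Agent.VPF.StA

/-!
# VPF, module MNA: Vaught's conjecture for two-variable infinitary logic (assembly)
-/

set_option autoImplicit false

namespace VPF

open FirstOrder Set Pool.Agent.Helper6.Str Pool.Agent.Helper5.Multi Pool.Agent.Helper79.VC

theorem thm_MNA (hSUB : St_SUB) (hBIP : St_BIP) (hMUL : St_MUL) (hTAM : St_TAM)
    (hAR3 : St_AR3) : St_MNA := by
  intro L _ _ φ
  by_cases hne : (ModV φ).Nonempty
  · by_cases h3 : ∀ n, 3 ≤ n → IsEmpty (L.Relations n)
    · obtain ⟨F, hF, rfl⟩ := hSUB L 2 φ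
      by_cases hU : ∀ S ∈ ModV (F 0), Uni S F
      · by_cases hM : ∀ S ∈ ModV (F 0), ¬ ∃ f : ℕ → ℕ, (∀ k, ¬ Kg S F (f k)) ∧
            ∀ k l, k ≠ l → ¬ EE S F (f k) (f l)
        · exact hTAM L F h3 hU hM
        · push Not at hM
          obtain ⟨S, hS, f, hf1, hf2⟩ := hM
          exact Or.inr (hMUL L F hF S hS (hU S hS) ⟨f, hf1, hf2⟩)
      · push Not at hU
        obtain ⟨S, hS, hnU⟩ := hU
        exact Or.inr (hBIP L F hF S hS hnU)
    · push Not at h3
      obtain ⟨n, hn, hR⟩ := h3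
      obtain ⟨R0⟩ := hR
      exact Or.inr (hAR3 L φ n R0 hn hne)
  · left
    refine ⟨fun _ => { funMap := fun {n} f => (isEmptyElim f : (Fin n → ℕ) → ℕ)
                       RelMap := fun {_} _ _ => False }, ?_⟩
    intro S hS
    exact absurd ⟨S, hS⟩ hne

end VPF
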