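import Pool.Agent.VPF.StG

/-!
# A large structure has uncountably many swap classes
-/

set_option autoImplicit false

namespace VPF

open FirstOrder Set Pool.Agent.Helper6.Str Pool.Agent.Helper5.Multi Pool.Agent.Helper79.VC

section

open scoped Classical

variable {L : FirstOrder.Language.{0, 0}} {M : Type} {S : L.Structure M}

private theorem NCT_iff {x y : M} : Swp S x y ↔ RelIso S S (Equiv.swap x y) := by
  constructor
  · intro h n R v
    exact (h n R v).symm
  · intro h n R v
    exact (h n R v).symm

private theorem NCT_refl (x : M) : Swp S x x := by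
  rw [NCT_iff, Equiv.swap_self]
  exact Pool.Agent.Helper6.Str.RelIso.refl S

private theorem NCT_symm {x y : M} (h : Swp S x y) : Swp S y x := by
  rw [NCT_iff, Equiv.swap_comm]
  exact NCT_iff.1 h

private theorem NCT_mul {e f : Equiv.Perm M} (he : RelIso S S e) (hf : RelIso S S f) :
    RelIso S S (e * f) := by
  intro n R v
  rw [hf n R v, he n R (f ∘ v)]
  rfl

private theorem NCT_trans {x y z : M} (h1 : Swp S x y) (h2 : Swp S y z) : Swp S x z := by
  by_cases hxy : x = y
  · subst hxy
    exact h2
  by_cases hyz : y = z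
  · subst hyz
    exact h1
  by_cases hxz : x = z
  · subst hxz
    exact NCT_refl x
  rw [NCT_iff] at h1 h2 ⊢
  have h3 : Equiv.swap x y * Equiv.swap z x * Equiv.swap x y = Equiv.swap y z :=
    Equiv.swap_mul_swap_mul_swap (fun h => hxz h.symm) (fun h => hyz h.symm)
  have h4 : Equiv.swap x z = Equiv.swap x y * Equiv.swap y z * Equiv.swap x y := by
    rw [← h3, Equiv.swap_comm z x]
    have h5 : Equiv.swap x y * Equiv.swap x y = (1 : Equiv.Perm M) := Equiv.swap_mul_self x y
    calc Equiv.swap x z = 1 * Equiv.swap x z * 1 := by rw [one_mul, mul_one]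
      _ = (Equiv.swap x y * Equiv.swap x y) * Equiv.swap x z *
          (Equiv.swap x y * Equiv.swap x y) := by rw [h5]
      _ = _ := by simp only [mul_assoc]
  rw [h4]
  exact NCT_mul (NCT_mul h1 h2) h1

private theorem NCT_sub (C : Set M) : ∃ B ⊆ C, B.Countable ∧ (C ⊆ B ∨ B.Infinite) := by
  by_cases hC : C.Countable
  · exact ⟨C, subset_rfl, hC, Or.inl subset_rfl⟩
  · have hi : C.Infinite := fun h => hC h.countable
    refine ⟨range (fun n : ℕ => ((hi.natEmbedding C n : C) : M)), ?_, countable_range _,
      Or.inr ?_⟩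
    · rintro _ ⟨n, rfl⟩
      exact (hi.natEmbedding C n).2
    · apply infinite_range_of_injective
      intro a b hab
      exact (hi.natEmbedding C).injective (Subtype.ext hab)

end

theorem thm_NCT : St_NCT := by
  classical
  intro L M S hS
  let s : Setoid M := ⟨Swp S, ⟨NCT_refl, NCT_symm, NCT_trans⟩⟩
  refine ⟨range (fun q : Quotient s => q.out), ?_, ?_⟩
  · intro hA
    apply hS
    choose B hB1 hB2 hB3 using fun a : M => NCT_sub {x | Swp S a x}
    refine ⟨⋃ a ∈ range (fun q : Quotient s => q.out), B a, hA.biUnion fun a _ => hB2 a, ?_⟩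
    intro F hF c
    by_cases hc : c ∈ ⋃ a ∈ range (fun q : Quotient s => q.out), B a
    · refine ⟨c, hc, fun γ _ => BFR.of_relIso (Pool.Agent.Helper6.Str.RelIso.refl S) γ ?_⟩
      rintro p (rfl | ⟨a, -, rfl⟩)
      · rfl
      · rfl
    · have h1 : Swp S (Quotient.out (Quotient.mk s c)) c := Quotient.mk_out (s := s) c
      have hmem : Quotient.out (Quotient.mk s c) ∈ range (fun q : Quotient s => q.out) :=
        ⟨_, rfl⟩
      have h2 : c ∉ B (Quotient.out (Quotient.mk s c)) := by
        intro h
        apply hc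
        rw [mem_iUnion₂]
        exact ⟨_, hmem, h⟩
      have h3 : (B (Quotient.out (Quotient.mk s c))).Infinite :=
        (hB3 _).resolve_left fun h => h2 (h h1)
      obtain ⟨d, hd, hdF⟩ := h3.exists_notMem_finset F
      have hcd : Swp S c d := NCT_trans (NCT_symm h1) (hB1 _ hd)
      refine ⟨d, ?_, fun γ _ => BFR.of_relIso (NCT_iff.1 hcd) γ ?_⟩
      · rw [mem_iUnion₂]
        exact ⟨_, hmem, hd⟩
      · rintro p (rfl | ⟨a, ha, rfl⟩)
        · exact (Equiv.swap_apply_left c d).symm
        · refine (Equiv.swap_apply_of_ne_of_ne ?_ ?_).symm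
          · rintro rfl
            exact hc (hF ha)
          · rintro rfl
            exact hdF ha
  · rintro _ ⟨q, rfl⟩ _ ⟨r, rfl⟩ hne hsw
    apply hne
    have h1 : Quotient.mk s q.out = Quotient.mk s r.out := Quotient.sound (s := s) hsw
    rw [Quotient.out_eq, Quotient.out_eq] at h1
    rw [h1]

end VPF
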