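import Pool.Agent.VPF.DefsA

/-!
# VPF, statements A: two-variable infinitary logic

Every module proves `thm_XXX : St_XXX` in `Pool/Agent/VPF/XXX.lean` (imports: this file and Mathlib
files); statements used are taken as hypotheses, e.g. `theorem thm_TRU : St_TRU`. Tools:
`Pool/Agent/VB/A.lean` (`perfK_of_decode`, `perfK_of_family`, `perfK_of_embed`, `toStr`, `ofStr`,
`measurableSet_relMap`, `RelIso`, `Iso`) and `Pool/Agent/VB/B.lean` (`ctbl_of_props`).
-/

set_option autoImplicit false
set_option linter.unusedVariables false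

namespace VPF

open FirstOrder Set Pool.Agent.Helper6.Str Pool.Agent.Helper5.Multi Pool.Agent.Helper79.VC

/-- [SUB] (0.3 h; no other module) Every formula is in a countable set closed under subformulas.

Proof. Induction on `φ`: it is enough to find `F` with `Cls F` and `∃ m, F m = φ`, then move `φ` to
the front (`fun m => Nat.casesOn m φ F`: `Cls` is kept because the immediate subformulas of `φ` are
values of `F`). `eq`, `rel`: constant sequence (no immediate subformulas, `nomatch`/`cases`).
`neg φ`, `ex i φ`: put the formula in front of the sequence for `φ`. `conj φ`: sequences `F_m` for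
`φ m`; take `conj φ` followed by all `F_m l` (`Nat.unpair`). -/
def St_SUB : Prop := ∀ (L : FirstOrder.Language.{0, 0}) (k : ℕ) (φ : FV L k),
  ∃ F : ℕ → FV L k, Cls F ∧ F 0 = φ

/-- [MEA] (0.4 h; no other module) Truth is a Borel property.

Proof. First part: induction on `φ` (generalise `v`): `eq`: `MeasurableSet.const`; `rel`:
`measurableSet_relMap`; `neg`: complement; `conj`: countable intersection (`setOf_forall`); `ex`:
countable union over `a : ℕ` (`setOf_exists`). Second part: by definition of `ty`, cases on the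
index. Third and fourth part: unfold `Kg`, `EE`; `ty S F y = ty S F x` is
`∀ i, (ty S F y i ↔ ty S F x i)` (`funext`, `propext`) with `i` in a countable type (`Atm L` is
countable: `inferInstance`), and `y`, `z` range over `ℕ`. Invariance: for `RelIso S S' e`, induction
on `φ` gives `φ.Sat S v ↔ φ.Sat S' (e ∘ v)` (`ex`: `Function.update (e ∘ v) i (e a) =
e ∘ Function.update v i a`, and `e` is surjective), hence the statements about `ty`, `Kg`, `EE`. -/
def St_MEA : Prop := ∀ (L : FirstOrder.Language.{0, 0}) [∀ n, IsEmpty (L.Functions n)]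
  [∀ n, Countable (L.Relations n)] (F : ℕ → FV L 2),
  (∀ (k : ℕ) (φ : FV L k) (v : Fin k → ℕ), MeasurableSet {c : Code L | φ.Sat (toStr c) v}) ∧
  (∀ (x : ℕ) i, MeasurableSet {c : Code L | ty (toStr c) F x i}) ∧
  (∀ x y : ℕ, MeasurableSet {c : Code L | ty (toStr c) F x = ty (toStr c) F y}) ∧
  (∀ x : ℕ, MeasurableSet {c : Code L | Kg (toStr c) F x}) ∧
  (∀ x y : ℕ, MeasurableSet {c : Code L | EE (toStr c) F x y}) ∧
  (∀ (x y : ℕ) a, MeasurableSet {c : Code L | atm (toStr c) x y a})

/-- [INV] (0.4 h; no other module) Isomorphisms preserve truth and types.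

Proof. First part: induction on `φ` (generalise `v`); `ex`:
`Function.update (e ∘ v) i (e a) = e ∘ Function.update v i a` and `e` is surjective. The other
parts follow: `ty`: cases on the index, for `inr` use the definition of `RelIso` with
`e ∘ (fun i => if a.2.2 i = 0 then x else y)`; `Kg`, `EE`: replace the quantified points `y` by
`e y` (`e.surjective`). -/
def St_INV : Prop := ∀ (L : FirstOrder.Language.{0, 0}) (F : ℕ → FV L 2) (M N : Type)
  (S : L.Structure M) (S' : L.Structure N) (e : M ≃ N), RelIso S S' e →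
  (∀ (k : ℕ) (φ : FV L k) (v : Fin k → M), φ.Sat S' (e ∘ v) ↔ φ.Sat S v) ∧
  (∀ x, ty S' F (e x) = ty S F x) ∧ (∀ x, Kg S' F (e x) ↔ Kg S F x) ∧
  (∀ x y, EE S' F (e x) (e y) ↔ EE S F x y) ∧
  (∀ x y a, atm S' (e x) (e y) a ↔ atm S x y a)

/-- [TRU] (1 h; no other module) The truth lemma for matching structures.

Proof. Claim: for every `m`, all `v : Fin 2 → M`, `v' : Fin 2 → N` with
`ty S F (v i) = ty S F (π (v' i))` (`i = 0, 1`), `v 0 = v 1 ↔ v' 0 = v' 1` and
`∀ a, atm S (v 0) (v 1) a ↔ atm S' (v' 0) (v' 1) a`: `(F m).Sat S v ↔ (F m).Sat S' v'`. Prove by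
induction on the formula `ψ`: for all `m` with `F m = ψ` the claim. `eq i j`: four cases `Fin 2`.
`rel R w`: this is `atm` at `⟨n, R, w⟩` (`v (w i) = if w i = 0 then v 0 else v 1`). `neg`, `conj`: by
induction, the subformulas are values of `F` by `Cls`. `ex 1 ψ` (`F m' = ψ`): if
`ψ.Sat S (v 0, a)`, then `ty S F (v 0) (inl (m', 1))` holds (the value of the assignment at `1` is
overwritten), hence `ty S F (π (v' 0)) (inl (m', 1))`, so there is `b` with
`ψ.Sat S (π (v' 0), b)`; `Mat.ext (v' 0) b` gives `b'` and the induction hypothesis for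
`(π (v' 0), b)`, `(v' 0, b')` gives `ψ.Sat S' (v' 0, b')`. Conversely if `ψ.Sat S' (v' 0, b')`, then
`Mat.sub (v' 0) b'` gives `x`, `y`, the induction hypothesis `ψ.Sat S (x, y)`, hence
`ty S F x (inl (m', 1))`, and `ty S F x = ty S F (π (v' 0)) = ty S F (v 0)`, which gives `a` with
`ψ.Sat S (v 0, a)`. `ex 0 ψ`: the same with the coordinates exchanged; to apply `Mat` one needs that
`atm S x y a ↔ atm S' x' y' a` for all `a` implies `atm S y x a ↔ atm S' y' x' a` for all `a` (take
the atomic formula with `w` replaced by `Fin.rev ∘ w`, or `1 - w`).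
The equality of types for `(inl (m, i))`: use the argument of the `ex`-case with `v = (π x', π x')`,
`v' = (x', x')` (for `ex` only the claim for `F m` is used, `ex i (F m)` need not be a value of `F`);
for `inr a`: `Mat.sub x' x'` gives `x = y` with `ty S F x = ty S F (π x')` and `atm` the same.
The last part: given `v' : Fin 2 → N`, take `x`, `y` from `Mat.sub (v' 0) (v' 1)` and apply the claim
to `F m`. -/
def St_TRU : Prop := ∀ (L : FirstOrder.Language.{0, 0}) (F : ℕ → FV L 2) (M N : Type)
  (S : L.Structure M) (S' : L.Structure N) (π : N → M), Cls F → Mat S S' F π →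
  (∀ x', ty S' F x' = ty S F (π x')) ∧
  (∀ m, (∀ v : Fin 2 → M, (F m).Sat S v) → ∀ v' : Fin 2 → N, (F m).Sat S' v')

/-- [PST] (1 h; no other module) Structures from prescribed pairs.

Proof. First `gv`: if `v` is constant with value `x`, then `¬ Two v` and `gv π ρ v i = π x`; if the
values of `v` are exactly `x ≠ y` (both occur), then `Two v` and `gv π ρ v i = ρ x y` if `v i = x`
and `= ρ y x` if `v i = y` (the chosen `j` has `v j` the other value). Hence for `x ≠ y` and an atomic
formula `a = ⟨n, R, w⟩`: `atm (pst S π ρ) x y a ↔ atm S (ρ x y) (ρ y x) a`: if both values of `w`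
occur this is the previous remark; if `w` is constant (or `n = 0`), say all `w i = 0`, then the left
side is `S.RelMap R (fun _ => π x)` and the right side `S.RelMap R (fun _ => ρ x y)`, and these are
equivalent by `ty_eq` (component `inr ⟨n, R, fun _ => 0⟩` of the types; for `n = 0` both tuples are
equal by `Subsingleton.elim`). This is the first claim; the second (`x = y`) is similar:
`atm (pst S π ρ) x x a ↔ atm S (π x) (π x) a`.
`Mat`: `sub`: if `x' = y'` take `x = y = π x'`; else take `ρ x' y'`, `ρ y' x'` (`ne`). `ext`: if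
`y = π x'` take `y' = x'`; else `PSt.ext`. -/
def St_PST : Prop := ∀ (L : FirstOrder.Language.{0, 0}) [∀ n, IsEmpty (L.Functions n)]
  (F : ℕ → FV L 2) (M N : Type) (S : L.Structure M) (π : N → M) (ρ : N → N → M),
  PSt S F π ρ → (∀ x y, x ≠ y → ∀ a, atm (pst S π ρ) x y a ↔ atm S (ρ x y) (ρ y x) a) ∧
    (∀ x a, atm (pst S π ρ) x x a ↔ atm S (π x) (π x) a) ∧ Mat S (pst S π ρ) F π

/-- [BIP] (1.5 h; uses `St_TRU`, `St_PST`, `St_INV`) Two different atomic types on a pair of types of
non-kings.

Proof. Let `¬ Uni S F`: `x ≠ y`, `x' ≠ y'`, `¬ Kg x`, `¬ Kg y`, `ty x = ty x'`, `ty y = ty y'` and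
an atomic formula `α` which is true at exactly one of `(x, y)`, `(x', y')`; call `(a, b)` the pair
where `α` is true and `(c, d)` the other one; `a`, `b` are not kings, take `a' ≠ a`, `b' ≠ b` with
`ty a' = ty a`, `ty b' = ty b`. Let `β := ℕ ⊕ ℕ ⊕ ℕ` with elements `m` (old), `A i`, `B j`, and
`π m = m`, `π (A i) = a`, `π (B j) = b`. For `z : ℕ → Bool` let `G i j` be the truth value: `G i 0`
true, `G i 1` false for all `i`; for `j ≥ 2`: `G 0 j` true, `G 1 j` false, and
`G (n + 2) (j + 2)` false iff `z n = true ∧ j ≤ n`. Pairs (`ρ x y` first, `ρ y x` second component):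
`(m, m')`: `m, m'`. `(m, A i)`: `m, a` if `m ≠ a`, and `a, a'` if `m = a`. `(m, B j)`: `m, b` if
`m ≠ b`, and `b, b'` if `m = b`. `(A i, A j)`, `i < j`: `a, a'`. `(B i, B j)`, `i < j`: `b, b'`.
`(A i, B j)`: `a, b` if `G i j`, else `c, d`. These are the hypotheses `PSt` (`ext` for `x` and
`y ≠ π x`: take `y' = y` old; if `x = A i`, the pair `(A i, y)` is `(a, y)`, because `y ≠ a`). Let
`N z := pst S π ρ`. By `St_PST`, `St_TRU` the formula `F 0` is true in `N z`, and by `St_INV` in every
structure isomorphic to it (`hmod`); the atomic facts of `N z` are clopen in `z` (each depends on at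
most one value of `z`, since `gv π ρ v` depends on finitely many values `ρ x y`, and each of these
is a clopen function of `z`).
Decoding (`perfK_of_decode` with `ι = β × β × β × β`). In a structure `T` on `β` and for parameters
`p = (p0, p1, q0, q1)` let `X = {x | x ∉ {p0, p1} ∧ ¬ (atm T x p0 α ↔ atm T x p1 α)}`,
`Y = {y | y ∉ {q0, q1} ∧ ¬ (atm T q0 y α ↔ atm T q1 y α)}`, and `D p n = {z | ∃ x ∈ X, exactly n + 1
elements y ∈ Y have ¬ atm T x y α}` for `T = N z`. For `p = (B 0, B 1, A 0, A 1)` and `T = N z`:
`X = {A i}` (old `m ≠ b`: both pairs are `(m, b)`; `m = b`: both `(b, b')`; `B j`, `j ≥ 2`: both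
`(b', b)`; `A i`: the first pair is `(a, b)`, the second `(c, d)`), `Y = {B j : j ≥ 2}` (old `m`:
the same pair twice; `A j`, `j ≥ 2`: both `(a, a')`; `B 0`: both `(a, b)`; `B 1`: both `(c, d)`), so
`z n = true ↔ z ∈ D p n` (`A 0` has no `y` with `¬ atm`, `A 1` infinitely many, `A (m + 2)` exactly
`m + 1` if `z m = true` and none otherwise). If `e : Iso (N z) (N z')`, then with the images under
`e`: `z n = true ↔ z' ∈ D (e ∘ p) n`. `D p n` is measurable: the number of elements is `n + 1` iff
there is a finite set `s` of `n + 1` elements (`Finset β` is countable) with `y ∈ s ↔ ...`. -/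
def St_BIP : Prop := ∀ (L : FirstOrder.Language.{0, 0}) [∀ n, IsEmpty (L.Functions n)]
  [∀ n, Countable (L.Relations n)] (F : ℕ → FV L 2), Cls F → ∀ S ∈ ModV (F 0), ¬ Uni S F →
  PerfK (ModV (F 0))

/-- [MUL] (1.2 h; uses `St_TRU`, `St_PST`, `St_INV`) Infinitely many types over the kings.

Proof. Let `d : ℕ → ℕ` be injective with values non-kings and pairwise not in relation `EE`
(hypothesis), chosen such that every non-king is `EE`-related to some `d k`: the hypothesis says that
the set of classes is infinite; enumerate the classes (`EE` is an equivalence relation on the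
non-kings) by `ℕ` without repetitions (an infinite subset of a countable quotient:
`nonempty_denumerable`/`Denumerable.eqv`) and take representatives. For each `k` take `d' k ≠ d k`
with `ty (d' k) = ty (d k)`. For `x : ℕ → Bool` let `m x k := 2 * k + 2 + (if x k then 1 else 0)` and
`β x := {m : ℕ // Kg S F m} ⊕ {p : ℕ × ℕ // p.2 < m x p.1}`, `π` the inclusion resp. `π (k, i) = d k`,
and pairs: `(m, m')`: `m, m'`; `(m, (k, i))`: `m, d k`; `((k, i), (l, j))`, `k ≠ l`: `d k, d l`;
`((k, i), (k, j))`, `i < j`: `d k, d' k`. The hypotheses `PSt` hold; `ext` for `x` and `y ≠ π x`: if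
`y` is a king take `y' = y`; otherwise let `y` be in the class of `d l` and take `y' = (l, j) ≠ x`
(there are at least two `j`); if `x` is a king then the pair is `(x, d l)` and `atm S x (d l) a ↔
atm S x y a`, because `EE (d l) y` (exchange the variables in the atomic formula); if `x = (k, i)`,
then `π x = d k`, the pair consists of two different non-kings with types `ty (d k)`,
`ty (d l) = ty y`, and `Uni` gives the claim. So `N x := pst S π ρ` is a model of `F 0` and
`ty (N x) F x' = ty S F (π x')`. Hence the kings of `N x` are the old kings (`(k, i)` is not a king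
because of `(k, j)`, `j ≠ i`), and `EE (N x) (k, i) (l, j) ↔ k = l` (over a king `z` the point
`(k, i)` has the atomic type of `(d k, z)`). So the sizes of the `EE`-classes of non-kings in `N x`
are exactly the numbers `m x k`; an isomorphism `N x ≅ N y` preserves `EE` (`St_INV`), so
`{m x k} = {m y k}` and `x = y`. Apply `perfK_of_embed` with
`γ := {m : ℕ // Kg S F m} ⊕ (ℕ × ℕ)`, `U := pst S π ρ` for the same formulas on `γ`, `J x` the
inclusion (`gv` commutes with injections: `RelMap` of `N x` is the restriction of that of `U`), or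
with `perfK_of_family` after choosing bijections with `ℕ`. -/
def St_MUL : Prop := ∀ (L : FirstOrder.Language.{0, 0}) [∀ n, IsEmpty (L.Functions n)]
  [∀ n, Countable (L.Relations n)] (F : ℕ → FV L 2), Cls F → ∀ S ∈ ModV (F 0), Uni S F →
  (∃ f : ℕ → ℕ, (∀ k, ¬ Kg S F (f k)) ∧ ∀ k l, k ≠ l → ¬ EE S F (f k) (f l)) →
  PerfK (ModV (F 0))

/-- [TAI] (1.5 h; no other module) The isomorphism of tame structures.

`ρ m` enumerates types; the hypothesis `hI` says that `(S, v)` and `(S', v')` have the same
invariants.

Proof. `EE S F` is symmetric and transitive. Define `h : ℕ → ℕ`: Every point of `S` is a king or in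
the class of exactly one `v i` (`hcov`, `hne`). Kings: for a king `x` of `S` there is `m` with
`ty S F x = p m` (`hp`), by (1) a king `x'` of `S'` with `ty S' F x' = p m`, and it is the only point
of `S'` with this type; this gives a bijection of the kings of `S` with the kings of `S'` (symmetric
argument), by (2) it preserves all atomic formulas on pairs of kings. (For (2): `x`, `y` kings of
`S`, `atm S x y a`; with `m`, `m'` the indices of their types there are kings of `S'` with these
types and `atm`; they are `x'`, `y'`.) Classes: the `EE`-class of `v i` in `S` and that of `v' i` in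
`S'` have the same `encard` by (5) (`ENat` : `∀ n : ℕ, n ≤ a ↔ n ≤ b` implies `a = b`), so there is a
bijection (`Set.encard` equal and countable: `nonempty_equiv_of_encard` in `VB/A.lean`). Together a
bijection `e : ℕ ≃ ℕ` (see `exists_equiv_of_fibres` in `VB/A.lean`, or build it by
`Equiv.ofBijective`). Atomic formulas on a pair `(x, y)`: two kings: above. `x` in the class of
`v i`, `y` a king with type `p m`: `atm S x y a ↔ atm S (v i) y a`, by (3) and uniqueness of kings
the same in `S'`. `x`, `y` different non-kings in the classes of `v i`, `v j`: by `Uni` and (6). The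
case `x = y`: `ty` is preserved by `e` (kings: clear; class of `v i`: `ty x = ty (v i) = p m` and (4)),
and its components `inr a` are the atomic formulas at `(x, x)`. Finally `har`: every relation symbol
has arity at most two, so `RelMap R u` is `atm` at the pair `(u 0, u 1)` (arity 2), `(u 0, u 0)`
(arity 1), any pair (arity 0) for a suitable atomic formula. -/
def St_TAI : Prop := ∀ (L : FirstOrder.Language.{0, 0}) [∀ n, IsEmpty (L.Functions n)]
  (F : ℕ → FV L 2) (p : ℕ → ((ℕ × Fin 2) ⊕ Atm L → Prop)) (S S' : L.Structure ℕ) (r : ℕ)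
  (v v' : Fin r → ℕ), (∀ n, 3 ≤ n → IsEmpty (L.Relations n)) → Uni S F → Uni S' F →
  (∀ x, ∃ m, ty S F x = p m) → (∀ x, ∃ m, ty S' F x = p m) →
  (∀ i, ¬ Kg S F (v i)) → (∀ i j, i ≠ j → ¬ EE S F (v i) (v j)) →
  (∀ x, Kg S F x ∨ ∃ i, EE S F x (v i)) →
  (∀ i, ¬ Kg S' F (v' i)) → (∀ i j, i ≠ j → ¬ EE S' F (v' i) (v' j)) →
  (∀ x, Kg S' F x ∨ ∃ i, EE S' F x (v' i)) →
  (∀ m, (∃ x, Kg S F x ∧ ty S F x = p m) ↔ ∃ x, Kg S' F x ∧ ty S' F x = p m) →
  (∀ m m' a, (∃ x y, Kg S F x ∧ Kg S F y ∧ ty S F x = p m ∧ ty S F y = p m' ∧ atm S x y a) ↔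
    ∃ x y, Kg S' F x ∧ Kg S' F y ∧ ty S' F x = p m ∧ ty S' F y = p m' ∧ atm S' x y a) →
  (∀ m i a, (∃ x, Kg S F x ∧ ty S F x = p m ∧ atm S x (v i) a) ↔
    ∃ x, Kg S' F x ∧ ty S' F x = p m ∧ atm S' x (v' i) a) →
  (∀ m i, ty S F (v i) = p m ↔ ty S' F (v' i) = p m) →
  (∀ i (n : ℕ), (n : ℕ∞) ≤ {x | EE S F x (v i)}.encard ↔
    (n : ℕ∞) ≤ {x | EE S' F x (v' i)}.encard) →
  (∀ i j a, (∃ x y, x ≠ y ∧ EE S F x (v i) ∧ EE S F y (v j) ∧ atm S x y a) ↔
    ∃ x y, x ≠ y ∧ EE S' F x (v' i) ∧ EE S' F y (v' j) ∧ atm S' x y a) → Iso S S'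

/-- [TAM] (1 h; uses `St_MEA`, `St_INV`, `St_TAI`) Tame classes.

Proof. By contradiction assume `¬ PerfK K`, `K := ModV (F 0)` (measurable: `St_MEA`, a countable
intersection over `v`). `ctbl_of_props` with `n = 1` and the properties `A k S v := ty S F (v 0) k`
(`k` in a countable type) gives a sequence `ρ`; put `p m := ty (ρ m).1 F ((ρ m).2 0)`; then for all
`S ∈ K` and `x` there is `m` with `ty S F x = p m`. For every `r` apply `ctbl_of_props` with `n = r`
and the countably many properties of `(S, v)` in `St_TAI`: non-king of `v i`; `EE (v i) (v j)`;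
`∀ x, Kg x ∨ ∃ i, EE x (v i)`; (1) to (6) (`(n : ℕ∞) ≤ encard {x | EE x (v i)}` iff there is a
`Finset` with `n` elements in the set: measurable). All are measurable and invariant by `St_MEA`,
`St_INV`. This gives `ρ_r m`. Let `S ∈ K`. By `h2` there is `r` and `v : Fin r → ℕ` with non-kings,
pairwise not `EE`, covering all non-kings (take a maximal finite family of pairwise non-equivalent
non-kings: if none is covering, one gets by recursion (or by `Set.Infinite` of the quotient) a
sequence `f` as in `h2`). Then `St_TAI` (and `Uni` for both structures from `h1`) shows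
`Iso S (ρ_r m).1` for some `m`, so the sequence `(ρ_r m).1` over all `(r, m)` (`Nat.unpair`) shows
`CtblK K`. -/
def St_TAM : Prop := ∀ (L : FirstOrder.Language.{0, 0}) [∀ n, IsEmpty (L.Functions n)]
  [∀ n, Countable (L.Relations n)] (F : ℕ → FV L 2), (∀ n, 3 ≤ n → IsEmpty (L.Relations n)) →
  (∀ S ∈ ModV (F 0), Uni S F) →
  (∀ S ∈ ModV (F 0), ¬ ∃ f : ℕ → ℕ, (∀ k, ¬ Kg S F (f k)) ∧
    ∀ k l, k ≠ l → ¬ EE S F (f k) (f l)) →
  CtblK (ModV (F 0)) ∨ PerfK (ModV (F 0))

/-- [AR3] (0.8 h; no other module) A symbol of arity at least three.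

Proof. Let `R0 : L.Relations n`, `3 ≤ n`, `S ∈ ModV φ`. (a) If `S`, `S'` agree on all tuples with at
most two different values (i.e. `∃ x y, ∀ i, v i = x ∨ v i = y`), then every formula of `FV L 2` has
the same truth value under every assignment (induction; `rel`: the tuple `v ∘ w` has values in
`{v 0, v 1}`). (b) Let `β := {p : ℕ × ℕ // p.2 < 2 * p.1 + 3}`, `e : β ≃ ℕ` a bijection, for
`z : ℕ → Bool` let `E z p q` for `p, q : β` say: `p ≠ q`, `p.1 = q.1 =: k` and both second components
are `< 2 * k + 2 + (if z k then 1 else 0)`. Let `f z` be the structure on `ℕ` with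
`RelMap R v := S.RelMap R v` if `v` has at most two different values or `R ≠ R0`, and
`RelMap R0 v := E z (e.symm (v 0)) (e.symm (v 1))` otherwise. (For the condition `R = R0` for
`R : L.Relations m` use `(⟨m, R⟩ : Sigma L.Relations) = ⟨n, R0⟩`.) By (a) `f z ∈ ModV φ`; the values
are clopen in `z`. (c) From `f z` the relation `E z` is defined by: `x ≠ y` and there is
`v : Fin n → ℕ` with `v 0 = x`, `v 1 = y`, at least three different values and `RelMap R0 v` (as
`3 ≤ n`, such tuples exist for all `x ≠ y`). An isomorphism `f z ≅ f z'` preserves this relation, and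
the finite sets `{p} ∪ {q | E z p q}` with more than one element have exactly the sizes
`2 * k + 2 + z k` (`k : ℕ`), so `z = z'`. -/
def St_AR3 : Prop := ∀ (L : FirstOrder.Language.{0, 0}) [∀ n, IsEmpty (L.Functions n)]
  [∀ n, Countable (L.Relations n)] (φ : FV L 2) (n : ℕ) (R0 : L.Relations n), 3 ≤ n →
  (ModV φ).Nonempty → PerfK (ModV φ)

/-- [MNA] (0.3 h; uses all modules of this file) Vaught's conjecture for two-variable infinitary
logic.

Proof. If `K := ModV φ` is empty: `CtblK` trivially. If some `L.Relations n`, `3 ≤ n`, is not empty: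
`St_AR3`. Otherwise take `F` from `St_SUB`, `F 0 = φ`. If some `S ∈ K` has `¬ Uni S F`: `St_BIP`. If
some `S ∈ K` has a sequence as in `St_MUL`: `St_MUL`. Otherwise `St_TAM`. -/
def St_MNA : Prop := ∀ (L : FirstOrder.Language.{0, 0}) [∀ n, IsEmpty (L.Functions n)]
  [∀ n, Countable (L.Relations n)] (φ : FV L 2), CtblK (ModV φ) ∨ PerfK (ModV φ)

end VPF
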