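import Pool.Agent.VPF.StF

/-!
# VPF, statements B: first-order theories with the prefixes `∃* ∀ ∀ ∃*`

Every module proves `thm_XXX : St_XXX` in `Pool/Agent/VPF/XXX.lean` (imports: this file and Mathlib
files); statements used are taken as hypotheses, e.g. `theorem thm_BMU (h : St_SWE) : St_BMU`.
Tools: `Pool/Agent/VB/A.lean`, `Pool/Agent/VB/B.lean`, `Pool/Agent/VB/C.lean` (`exists_closed`,
`VSt`, `exists_level`), `Mathlib/ModelTheory/Ultraproducts.lean`.
-/

set_option autoImplicit false
set_option linter.unusedVariables false

namespace VPF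

open FirstOrder Set Pool.Agent.Helper6.Str Pool.Agent.Helper5.Multi Pool.Agent.Helper79.VC
  Pool.Agent.Helper5.DU Pool.Agent.Helper97.VC Pool.Agent.Helper97.LO

/-- Every relation has finitely many swap classes. -/
def FinSw {L : FirstOrder.Language.{0, 0}} {M : Type} (S : L.Structure M) : Prop :=
  ∀ (n : ℕ) (R : L.Relations n), ∃ F : Set M, F.Finite ∧ ∀ x, ∃ y ∈ F, SwpR S R x y

/-- The transposition respects the first `n` symbols of the enumeration `s`. -/
def SwN {L : FirstOrder.Language.{0, 0}} {M : Type} (S : L.Structure M)
    (s : ℕ → (k : ℕ) × L.Relations k) (n : ℕ) (x y : M) : Prop := ∀ i < n, SwpR S (s i).2 x y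

/-- `x` is special: its classes for the first `n` symbols never stabilise. -/
def Spc {L : FirstOrder.Language.{0, 0}} {M : Type} (S : L.Structure M)
    (s : ℕ → (k : ℕ) × L.Relations k) (x : M) : Prop :=
  ∀ n, ∃ m, ∃ y, SwN S s n x y ∧ ¬ SwN S s m x y

/-- [SWE] (0.7 h; no other module) Swap classes of one relation.

Proof. Equivalence relation: `refl`: `Equiv.swap x x = 1`; `symm`: `Equiv.swap_comm`; `trans`: for
three different points `(x z) = (x y)(y z)(x y)` as permutations, apply the three hypotheses.
Last claim (same `R`-value): induction on the number of `i` with `v i ≠ w i`. If it is not `0` choose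
such an `i`, let `t := Equiv.swap (v i) (w i)` and `v' := t ∘ v`; `S.RelMap R v' ↔ S.RelMap R v`. The
hypotheses hold for `v'`, `w`: equality pattern: `t` is injective; `SwpR (v' j) (w j)`: if
`v j ∉ {v i, w i}` clear; `v j = v i`: `v' j = w i = w j`; `v j = w i`: `v' j = v i`, and
`v i ~ w i = v j ~ w j`. The number decreases: `v' i = w i`; if `v j = w j`, then
`v j ≠ v i` (otherwise `w j = w i`, so `v i = v j = w j = w i`) and `v j ≠ w i` (otherwise
`w j = w i`, so `v j = v i`, so `v i = w i`), so `v' j = v j = w j`. -/
def St_SWE : Prop := ∀ (L : FirstOrder.Language.{0, 0}) (M : Type) (S : L.Structure M) (k : ℕ)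
  (R : L.Relations k), (∀ x, SwpR S R x x) ∧ (∀ x y, SwpR S R x y → SwpR S R y x) ∧
  (∀ x y z, SwpR S R x y → SwpR S R y z → SwpR S R x z) ∧
  ∀ v w : Fin k → M, (∀ i, SwpR S R (v i) (w i)) → (∀ i j, v i = v j ↔ w i = w j) →
    (S.RelMap R v ↔ S.RelMap R w)

/-- [BMU] (2.5 h; uses `St_SWE`) Infinitely many special points.

Proof. `SwN S s n` is an equivalence relation with finitely many classes; `Swp S` is the intersection
(as `s` is surjective). Write `[x]_n` for the class. If `x` is special, then all `[x]_n` are infinite
(if `[x]_n` is finite, the decreasing sets `[x]_m`, `m ≥ n`, are eventually constant, and `x` is not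
special). Let `c_0, c_1, ...` be all `Swp`-classes of special points, without repetitions (there are
infinitely many by `hf`; a countable infinite set: `nonempty_denumerable`), `d_k ∈ c_k`. For
`z : ℕ → Bool` let `m_z k = 2 * k + 1 + (if z k then 1 else 0) ≥ 1` and
`β_z := {x // x not special} ⊕ {p : ℕ × ℕ // p.2 < m_z p.1}`, `r : β_z → ℕ` the inclusion resp.
`r (k, i) = d_k`. Structure `N_z`: for a symbol `R` choose `n` such that `R` is one of the first `n`
symbols of `s`; for a tuple `v` in `β_z` let `RelMap R v` be `S.RelMap R (g ∘ v)` for some (any) map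
`g : β_z → ℕ` which is injective on the values of `v` and has `SwN S s n (g b) (r b)` for all values
`b` of `v` (it exists, because the classes of special points are infinite: take `g = r` on
non-special points and different new points in the class for the others; any two choices give the
same truth value by `St_SWE`).
Truth lemma: for tuples `v : Fin j → ℕ`, `w : Fin j → β_z` with `SwN S s n (v i) (r (w i))` and the
same equality pattern, and for a formula `φ : L.BoundedFormula Empty j` all of whose symbols are
among the first `n`: `φ.Realize v` in `S` iff `φ.Realize w` in `N_z` (induction on `φ`; relations: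
definition and `St_SWE`; `all`: for a new `a : ℕ` there is `b : β_z` with `SwN S s n a (r b)`, new iff
`a` is new, and conversely: if `[a]_n` is finite, then all its points are not special and the points
`b` with `r b ∈ [a]_n` correspond to them, so the numbers of used points and of all points are the
same; if it is infinite, then so is the set of `b` with `r b ∈ [a]_n`: clear if it contains infinitely
many non-special points; otherwise it contains a special point `x`, and because `x` is special
`[x]_m` decreases infinitely often for `m ≥ n`, which gives infinitely many `Swp`-classes in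
`[x]_n = [a]_n`, each of them contains a point `r b`). Every formula has finitely many symbols, so
`N_z` is a model of `T` (and so is every structure on `ℕ` isomorphic to it).
Invariant: for `b, b' : β_z`: `Swp N_z b b' ↔ Swp S (r b) (r b')`: if `Swp S (r b) (r b')`, use that
for a tuple `v` the tuples `v` and `swap ∘ v` have `SwN`-equivalent images and the same equality
pattern; if not, some `R` and tuple `u` in `S` with `r b`, `r b'` show this; take `w` in `β_z`
corresponding to `u` with `b`, `b'` corresponding to `r b`, `r b'` (extension property as above).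
In the same way `SwN N_z s n b b' ↔ SwN S s n (r b) (r b')`, and `b` is special in `N_z` iff `r b` is
special in `S`. So the sizes of the `Swp`-classes of special points of `N_z` are exactly the numbers
`m_z k`; an isomorphism preserves them, so `N_z ≅ N_{z'}` implies `z = z'`. Apply
`perfK_of_embed` with `U` the same structure for `β := {x // x not special} ⊕ (ℕ × ℕ)`
(all multiplicities infinite; the relations of `N_z` are the restrictions). -/
def St_BMU : Prop := ∀ (L : FirstOrder.Language.{0, 0}) [∀ n, IsEmpty (L.Functions n)]
  [∀ n, Countable (L.Relations n)] (T : L.Theory) (s : ℕ → (k : ℕ) × L.Relations k)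
  (S : L.Structure ℕ), Function.Surjective s → S ∈ ModF T → FinSw S → ∀ f : ℕ → ℕ,
  (∀ k, Spc S s (f k)) → (∀ k l, k ≠ l → ¬ Swp S (f k) (f l)) → PerfK (ModF T)

/-- [BSL] (1.5 h; uses `St_NCT` of file `StG`, `St_SWE`) From the large structure to a member with
infinitely many special points.

Proof. In `S` every relation has finitely many swap classes: otherwise there are infinitely many
points of `S` which are pairwise not `SwpR S R`; take `S' ∈ K` with
`BFR S S' univ univ (ω + k + 1) ∅` (`Lev`), let `m` be the number of points of a finite set for `S'`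
and `R` as in `FinSw`, take `m + 1` such points `x i` of `S`, `BFR.forth_many` (level `ω + (m+1)`: use
level `ω + ω` of `Lev`) gives points `y i` of `S'`; two of them are `SwpR S' R`, and then so are the
two `x i` (`¬ SwpR` is witnessed by a tuple of length `k`, which is transferred by
`BFR.forth_many`; see the end of the proof of `St_SWA`). For non-special `x` there is `n` with
`SwN S s n x y → Swp S x y` for all `y`; so the `Swp`-class of `x` is one of the finitely many
classes of `SwN S s n` for some `n`, and there are countably many `Swp`-classes of non-special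
points. `St_NCT` gives uncountably many pairwise non-`Swp` points, so there are infinitely many
pairwise non-`Swp` special points `x 0, x 1, ...`. `exists_closed` (with
`F ↦ {x k : k ∈ ℕ} ∪` countably many representatives of the classes of level `δ` (and lower) over
`F`, `St_CTY`-like, see `HEC/VQC.lean` or `HER/HF.lean` for this construction) gives a countable
infinite set `B = range f` which contains all `x k` such that
`BFR S (pl S f) univ univ δ {(f i, i) : i ∈ F}` for all finite `F`; so `T' := pl S f ∈ K`. The
preimages `f' k` of the `x k` are as wanted: for `n` there are `m`, `y` as in `Spc` in `S`; `y` may be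
replaced by a point of `B` (`BFR.forth`), and `SwN`, `¬ SwN` at the pair are transferred at level
`ω` (`δ ≥ ω + ω`); in the same way `¬ Swp`. -/
def St_BSL : Prop := ∀ (L : FirstOrder.Language.{0, 0}) [∀ n, IsEmpty (L.Functions n)]
  [∀ n, Countable (L.Relations n)] (s : ℕ → (k : ℕ) × L.Relations k) (K : Set (L.Structure ℕ))
  (δ : Ordinal.{0}) (M : Type) (S : L.Structure M), Function.Surjective s → VSt K δ S →
  NoCtblType S → (∀ S' ∈ K, FinSw S') →
  ∃ T' ∈ K, ∃ f : ℕ → ℕ, (∀ k, Spc T' s (f k)) ∧ ∀ k l, k ≠ l → ¬ Swp T' (f k) (f l)

/-- [BTM] (0.5 h; uses `St_BMU`, `St_BSL`) Theories whose relations have finitely many swap classes.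

Proof. If there is no relation symbol all structures on `ℕ` are isomorphic and `CtblK` holds.
Otherwise `L` has a surjective enumeration `s` of its symbols. Let `K := ModF T`, not perfect and not
countable. `K` is measurable and closed at a countable level (`exists_level` with the formula
`.neg (.ex ..)`/a valid sentence, or directly: first-order sentences have Borel sets of models and
are decided at level `ω`). As in `HEC/MNC.lean`: `scat_of_not_perf`, `exists_model` give `S` with
`VSt K δ S` (`δ ≥ ω + ω`) and `NoCtblType S`; `St_BSL` gives `T' ∈ K` and `f`, `St_BMU` gives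
`PerfK K`. -/
def St_BTM : Prop := ∀ (L : FirstOrder.Language.{0, 0}) [∀ n, IsEmpty (L.Functions n)]
  [∀ n, Countable (L.Relations n)] (T : L.Theory), (∀ S ∈ ModF T, FinSw S) →
  CtblK (ModF T) ∨ PerfK (ModF T)

/-- [BPX] (0.7 h; no other module) Sentences with prefix `∃^m ∀ ∀ ∃^n`.

Proof. `Pre` is inverted along the list: `φ = (ψ.all.all).ex...ex` etc. Prove first: for
`Pre (replicate n false) ψ`, `ψ : L.BoundedFormula Empty j`, there is a quantifier-free
`θ : L.BoundedFormula Empty (j + n)` such that in every structure and for all `v`: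
`ψ.Realize default v ↔ ∃ z : Fin n → M, θ.Realize default (Fin.append v z)` (induction on `n`,
`Fin.append`/`Fin.snoc` with casts of `j + (n + 1)`), then two `all`, then `m` times `ex`. -/
def St_BPX : Prop := ∀ (L : FirstOrder.Language.{0, 0}) (m n : ℕ) (φ : L.Sentence),
  Pre (List.replicate m false ++ [true, true] ++ List.replicate n false) φ →
  ∃ θ : L.BoundedFormula Empty (m + 2 + n), θ.IsQF ∧ ∀ (M : Type) (S : L.Structure M),
    @FirstOrder.Language.Sentence.Realize L M S φ ↔ ∃ c : Fin m → M, ∀ x y : M,
      ∃ z : Fin n → M, @FirstOrder.Language.BoundedFormula.Realize L M S Empty (m + 2 + n) θ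
        default (Fin.append (Fin.append c ![x, y]) z)

/-- [BQD] (0.7 h; no other module) Infinitely many swap classes of a binary relation.

Proof. Suppose there is no such quadruple for the finite sets `F`, `Θ`. For `x ∉ F` let `t x` be the
set of the following facts: `θ(x)` for `θ ∈ Θ`; `R(x, a)`, `R(a, x)` for `a ∈ F`; `R(x, x)`. There are
finitely many possible `t x`. If `x, y ∉ F`, `t x = t y`, then `SwpR S R x y`: let `z ∉ F ∪ {x, y}`; then
`R(x, z) → R(y, z)` (otherwise `(x, z)`, `(y, z)` is a bad quadruple) and conversely, `R(z, x) ↔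
R(z, y)` in the same way, `R(x, y) ↔ R(y, x)` (the quadruple `(x, y)`, `(y, x)`), and the rest is in
`t x = t y`. So `F` together with one point for every value of `t` is a finite set of
representatives for `SwpR S R`, against the hypothesis. -/
def St_BQD : Prop := ∀ (L : FirstOrder.Language.{0, 0}) (M : Type) (S : L.Structure M)
  (R : L.Relations 2), (¬ ∃ F : Set M, F.Finite ∧ ∀ x, ∃ y ∈ F, SwpR S R x y) →
  ∀ (F : Set M) (Θ : Set ((n : ℕ) × (L.Relations n × (Fin n → Option M)))), F.Finite →
  Θ.Finite → ∃ x y x' y' : M, x ∉ F ∧ y ∉ F ∧ x' ∉ F ∧ y' ∉ F ∧ x ≠ y ∧ x' ≠ y' ∧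
    (∀ q ∈ Θ, (S.RelMap q.2.1 (fun i => (q.2.2 i).getD x) ↔
      S.RelMap q.2.1 (fun i => (q.2.2 i).getD x'))) ∧
    (∀ q ∈ Θ, (S.RelMap q.2.1 (fun i => (q.2.2 i).getD y) ↔
      S.RelMap q.2.1 (fun i => (q.2.2 i).getD y'))) ∧
    S.RelMap R ![x, y] ∧ ¬ S.RelMap R ![x', y']

/-- [BUL] (2.5 h; uses `St_BPX`) A countable piece of the ultrapower.

Proof. `U := Filter.hyperfilter ℕ`, `N* := (U : Filter ℕ).Product (fun _ => ℕ)` with the ultraproduct
structure of `S`, `D*` the set of classes of constant functions, `p i` the class of
`n ↦ Q n i` (not in `D*` by `hQ`). By `St_BPX` and Łoś's theorem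
(`Ultraproduct.boundedFormula_realize_cast`): for `φ ∈ T` with `θ` as in `St_BPX` choose
`c : Fin m → ℕ` for `S`; then in `N*` for all `x`, `y` there is `z` with `θ` for the constants `c`.
Twins: let `u = [u_n] ∉ D*`. Enumerate the countably many one-variable atomic facts over `ℕ`
(`q = (k, R, w : Fin k → Option ℕ)`) and their negations which hold for `u` (in `N*`):
`θ_0, θ_1, ...`. Every finite conjunction is true for infinitely many points of `ℕ` (it is true for
`u_n` for `U`-many `n`, and `u` is not constant on a set of `U`; a finite set of solutions would give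
a constant). For `n` let `k n ≤ n` be maximal such that `u_n` satisfies `θ_i` for all `i < k n`, and let
`v_n ≠ u_n` satisfy `θ_i` for `i < k n`, and `v_n ≥ n` (infinitely many solutions). Then
`v := [v_n] ≠ u`, `v ∉ D*`, and `v` satisfies all `θ_i` (`k n > i` for `U`-many `n`), so
`Pt ![u] ![v]`.
Now `exists_closed` gives a countable set `P ⊆ N*` which contains `D*`, the points `p i`, with a point
its twin and with `x`, `y` the values of one `z` for every `φ ∈ T` (`T` is countable, as `L` is). `N`
:= the induced structure on `P` (for quantifier-free formulas truth in `N` and `N*` is the same: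
induction), `D := ` the constants. `Twn N D` holds. `CopC`: let `Cop N D A` with `ι`; for `φ ∈ T` the
constants `ι (c i)` show `φ` in `A`: given `x'`, `y'` take `h` with `h u = x'`, `h v = y'`, then `z` for
`u`, `v`, and `h ∘ z` (quantifier-free formulas are preserved by embeddings). The last claims: Łoś
for atomic formulas (`Ultraproduct.relMap_cast`-like; `U` contains all cofinite sets). -/
def St_BUL : Prop := ∀ (L : FirstOrder.Language.{0, 0}) [∀ n, IsEmpty (L.Functions n)]
  [∀ n, Countable (L.Relations n)] (T : L.Theory) (S : L.Structure ℕ),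
  (∀ φ ∈ T, ∃ m n, Pre (List.replicate m false ++ [true, true] ++ List.replicate n false) φ) →
  S ∈ ModF T → ∀ Q : ℕ → Fin 4 → ℕ, (∀ i m, ∃ n₀, ∀ n ≥ n₀, Q n i ≠ m) →
  ∃ (P : Type) (_ : Countable P) (N : L.Structure P) (D : Set P) (p : Fin 4 → P), Twn N D ∧
    CopC (ModF T) N D ∧ (∀ i, p i ∉ D) ∧ (∀ i j, (∀ n, Q n i ≠ Q n j) → p i ≠ p j) ∧
    (∀ i j, (∀ (k : ℕ) (R : L.Relations k) (w : Fin k → Option ℕ), ∃ n₀, ∀ n ≥ n₀,
      (S.RelMap R (fun t => (w t).getD (Q n i)) ↔ S.RelMap R (fun t => (w t).getD (Q n j)))) →
      Pt N D ![p i] ![p j]) ∧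
    (∀ (R : L.Relations 2) i j, (∀ n, S.RelMap R ![Q n i, Q n j]) → N.RelMap R ![p i, p j]) ∧
    (∀ (R : L.Relations 2) i j, (∀ n, ¬ S.RelMap R ![Q n i, Q n j]) → ¬ N.RelMap R ![p i, p j])

/-- [BFS] (0.7 h; uses `St_BQD`, `St_BUL`, `St_FXB`, `St_FXT` of file `StF`) The class is perfect or
all relations have finitely many swap classes.

Proof. Let `S ∈ ModF T`, `R : L.Relations k`. `k = 0`: every transposition respects `R`
(`Subsingleton`). `k = 1`: two points with the same truth value of `R` are `SwpR`. `k ≥ 3`: `St_BUL`
with `Q n i = n` gives `P, N, D, p` and `St_FXT` (`p 0 ∉ D`) gives `PerfK`. `k = 2` and infinitely many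
classes: enumerate the one-variable atomic formulas over `ℕ` (a countable type), and let
`Q n = ![x, y, x', y']` for the quadruple of `St_BQD` with `F = {0, ..., n}` and `Θ` = the first `n`
of them. `St_BUL` gives `P, N, D, p` with `Pt ![p 0] ![p 2]`, `Pt ![p 1] ![p 3]`, `p 0 ≠ p 1`,
`p 2 ≠ p 3`, `N.RelMap R ![p 0, p 1]`, `¬ N.RelMap R ![p 2, p 3]`, so `¬ Pt ![p 0, p 1] ![p 2, p 3]`
and `St_FXB` gives `PerfK`. -/
def St_BFS : Prop := ∀ (L : FirstOrder.Language.{0, 0}) [∀ n, IsEmpty (L.Functions n)]
  [∀ n, Countable (L.Relations n)] (T : L.Theory),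
  (∀ φ ∈ T, ∃ m n, Pre (List.replicate m false ++ [true, true] ++ List.replicate n false) φ) →
  PerfK (ModF T) ∨ ∀ S ∈ ModF T, FinSw S

end VPF
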