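import Pool.Agent.VPF.Defs

/-!
# VPF, part C: coding arbitrary theories by theories with the prefixes `∀∀∃` and `∀∀∀` (or `∀∃∀`)

For a relational language `L` the language `LC L` has unary and binary relation symbols only:
`U n` (the point codes an `n`-tuple), `P φ` (the point codes a tuple satisfying `φ`) and
`Sub f` (the second point codes the tuple `x ∘ f`, where `x` is the tuple coded by the first
point). The axioms of `TC b T` have the form `∀∀∃`, except the axioms saying that `Sub f` is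
the graph of a function, which have the form `∀∀∀` (`b = true`) or `∀∃∀` (`b = false`).
-/

set_option autoImplicit false
set_option linter.unusedVariables false

namespace VPF

open FirstOrder FirstOrder.Language Set Pool.Agent.Helper6.Str

/-- The relation symbols of the coding language. -/
inductive RelC (L : FirstOrder.Language.{0, 0}) : ℕ → Type
  | U (n : ℕ) : RelC L 1
  | P {n : ℕ} (φ : L.BoundedFormula Empty n) : RelC L 1
  | Sub {k n : ℕ} (f : Fin k → Fin n) : RelC L 2

/-- The coding language: unary and binary relation symbols only. -/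
def LC (L : FirstOrder.Language.{0, 0}) : FirstOrder.Language.{0, 0} := ⟨fun _ => Empty, RelC L⟩

instance (L : FirstOrder.Language.{0, 0}) (n : ℕ) : IsEmpty ((LC L).Functions n) :=
  inferInstanceAs (IsEmpty Empty)

section Sym

variable {L : FirstOrder.Language.{0, 0}} {N : Type} (S' : (LC L).Structure N)

/-- The point `x` codes an `n`-tuple. -/
def SU (n : ℕ) (x : N) : Prop := S'.RelMap (n := 1) (RelC.U n : RelC L 1) ![x]

/-- The point `x` codes a tuple satisfying `φ`. -/
def SP {n : ℕ} (φ : L.BoundedFormula Empty n) (x : N) : Prop :=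
  S'.RelMap (n := 1) (RelC.P φ : RelC L 1) ![x]

/-- The point `y` codes the subtuple given by `f` of the tuple coded by `x`. -/
def SS {k n : ℕ} (f : Fin k → Fin n) (x y : N) : Prop :=
  S'.RelMap (n := 2) (RelC.Sub f : RelC L 2) ![x, y]

end Sym

/-- The index of the variable of a term of a relational language. -/
def vr {L : FirstOrder.Language.{0, 0}} [∀ n, IsEmpty (L.Functions n)] {n : ℕ} :
    L.Term (Empty ⊕ Fin n) → Fin n
  | .var (Sum.inl e) => e.elim
  | .var (Sum.inr i) => i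
  | .func f _ => isEmptyElim f

/-- The atomic formula `r(x_0, ..., x_{n-1})`. -/
def atom {L : FirstOrder.Language.{0, 0}} {n : ℕ} (r : L.Relations n) :
    L.BoundedFormula Empty n :=
  BoundedFormula.rel r fun i => Term.var (Sum.inr i)

/-- The function `Fin 1 → Fin n` with value `i`. -/
def ct {n : ℕ} (i : Fin n) : Fin 1 → Fin n := fun _ => i

section Atoms

variable {L : FirstOrder.Language.{0, 0}}

/-- The variable number `i`. -/
def vx (i : Fin 3) : (LC L).Term (Empty ⊕ Fin 3) := Term.var (Sum.inr i)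

/-- The formula `U n x_i`. -/
def aU (n : ℕ) (i : Fin 3) : (LC L).BoundedFormula Empty 3 :=
  Relations.boundedFormula₁ (L := LC L) (RelC.U n : RelC L 1) (vx i)

/-- The formula `P φ x_i`. -/
def aP {n : ℕ} (φ : L.BoundedFormula Empty n) (i : Fin 3) : (LC L).BoundedFormula Empty 3 :=
  Relations.boundedFormula₁ (L := LC L) (RelC.P φ : RelC L 1) (vx i)

/-- The formula `Sub f x_i x_j`. -/
def aS {k n : ℕ} (f : Fin k → Fin n) (i j : Fin 3) : (LC L).BoundedFormula Empty 3 :=
  Relations.boundedFormula₂ (L := LC L) (RelC.Sub f : RelC L 2) (vx i) (vx j)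

/-- The formula `x_i = x_j`. -/
def aE (i j : Fin 3) : (LC L).BoundedFormula Empty 3 := (vx i).bdEqual (vx j)

end Atoms

/-- The matrices of the axioms of the form `∀∀∃`. -/
inductive AxE {L : FirstOrder.Language.{0, 0}} [∀ n, IsEmpty (L.Functions n)] (T : L.Theory) :
    (LC L).BoundedFormula Empty 3 → Prop
  | disj (m n : ℕ) : m ≠ n → AxE T ((aU m 0).imp (aU n 0).not)
  | sub {k n : ℕ} (f : Fin k → Fin n) : AxE T ((aS f 0 1).imp (aU n 0 ⊓ aU k 1))
  | tot {k n : ℕ} (f : Fin k → Fin n) : AxE T ((aU n 0).imp (aS f 0 2))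
  | comp {l k n : ℕ} (f : Fin k → Fin n) (g : Fin l → Fin k) :
      AxE T ((aS (f ∘ g) 0 1).imp (aS f 0 2 ⊓ aS g 2 1))
  | ident (n : ℕ) : AxE T ((aU n 0).imp (aS (id : Fin n → Fin n) 0 0))
  | exte (n : ℕ) : AxE T ((aU (n + 1) 0 ⊓ aU (n + 1) 1).imp ((aE 0 1).not.imp
      (((aS (Fin.castSucc : Fin n → Fin (n + 1)) 0 2).imp
        (aS (Fin.castSucc : Fin n → Fin (n + 1)) 1 2)).not ⊔
      ((aS (ct (Fin.last n)) 0 2).imp (aS (ct (Fin.last n)) 1 2)).not)))
  | uni0 : AxE T ((aU 0 0 ⊓ aU 0 1).imp (aE 0 1))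
  | ex0 : AxE T (aU 0 2)
  | cons (n : ℕ) : AxE T ((aU n 0 ⊓ aU 1 1).imp
      (aS (Fin.castSucc : Fin n → Fin (n + 1)) 2 0 ⊓ aS (ct (Fin.last n)) 2 1))
  | dom {n : ℕ} (φ : L.BoundedFormula Empty n) : AxE T ((aP φ 0).imp (aU n 0))
  | fls (n : ℕ) : AxE T (aP (BoundedFormula.falsum : L.BoundedFormula Empty n) 0).not
  | eq {n : ℕ} (t₁ t₂ : L.Term (Empty ⊕ Fin n)) : AxE T ((aS (ct (vr t₁)) 0 1).imp
      ((aP (BoundedFormula.equal t₁ t₂) 0).iff (aS (ct (vr t₂)) 0 1)))
  | rel {n k : ℕ} (r : L.Relations k) (ts : Fin k → L.Term (Empty ⊕ Fin n)) :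
      AxE T ((aS (fun i => vr (ts i)) 0 1).imp
        ((aP (BoundedFormula.rel r ts) 0).iff (aP (atom r) 1)))
  | imp {n : ℕ} (φ ψ : L.BoundedFormula Empty n) : AxE T ((aU n 0).imp
      ((aP (φ.imp ψ) 0).iff ((aP φ 0).imp (aP ψ 0))))
  | all1 {n : ℕ} (φ : L.BoundedFormula Empty (n + 1)) :
      AxE T ((aS (Fin.castSucc : Fin n → Fin (n + 1)) 0 1).imp ((aP φ.all 1).imp (aP φ 0)))
  | all2 {n : ℕ} (φ : L.BoundedFormula Empty (n + 1)) :
      AxE T ((aU n 0 ⊓ (aP φ.all 0).not).imp
        (aS (Fin.castSucc : Fin n → Fin (n + 1)) 2 0 ⊓ (aP φ 2).not))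
  | thy (σ : L.Sentence) : σ ∈ T ∪ L.infiniteTheory → AxE T ((aU 0 0).imp (aP σ 0))

/-- The coding theory: axioms `∀∀∃`, and functionality of `Sub f` in the form `∀∀∀` (`b = true`)
or `∀∃∀` (`b = false`). -/
def TC {L : FirstOrder.Language.{0, 0}} [∀ n, IsEmpty (L.Functions n)] (b : Bool)
    (T : L.Theory) : (LC L).Theory :=
  {σ | (∃ θ, AxE T θ ∧ σ = θ.ex.all.all) ∨
    (b = true ∧ ∃ (k n : ℕ) (f : Fin k → Fin n),
      σ = ((aS f 0 1).imp ((aS f 0 2).imp (aE 1 2))).all.all.all) ∨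
    (b = false ∧ ∃ (k n : ℕ) (f : Fin k → Fin n),
      σ = ((aS f 0 2).imp (aE 2 1)).all.ex.all)}

/-- The semantic form of the axioms. -/
structure Dec {L : FirstOrder.Language.{0, 0}} [∀ n, IsEmpty (L.Functions n)] (T : L.Theory)
    {N : Type} (S' : (LC L).Structure N) : Prop where
  disj : ∀ m n x, SU S' m x → SU S' n x → m = n
  sub : ∀ {k n : ℕ} (f : Fin k → Fin n) x y, SS S' f x y → SU S' n x ∧ SU S' k y
  tot : ∀ {k n : ℕ} (f : Fin k → Fin n) x, SU S' n x → ∃ z, SS S' f x z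
  fn : ∀ {k n : ℕ} (f : Fin k → Fin n) x y z, SS S' f x y → SS S' f x z → y = z
  comp : ∀ {l k n : ℕ} (f : Fin k → Fin n) (g : Fin l → Fin k) x y z,
    SS S' f x y → SS S' g y z → SS S' (f ∘ g) x z
  ident : ∀ n x, SU S' n x → SS S' (id : Fin n → Fin n) x x
  exte : ∀ n x y, SU S' (n + 1) x → SU S' (n + 1) y →
    (∀ z, SS S' (Fin.castSucc : Fin n → Fin (n + 1)) x z →
      SS S' (Fin.castSucc : Fin n → Fin (n + 1)) y z) →
    (∀ z, SS S' (ct (Fin.last n)) x z → SS S' (ct (Fin.last n)) y z) → x = y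
  uni0 : ∀ x y, SU S' 0 x → SU S' 0 y → x = y
  ex0 : ∃ x, SU S' 0 x
  cons : ∀ n x s, SU S' n x → SU S' 1 s → ∃ y,
    SS S' (Fin.castSucc : Fin n → Fin (n + 1)) y x ∧ SS S' (ct (Fin.last n)) y s
  dom : ∀ {n : ℕ} (φ : L.BoundedFormula Empty n) x, SP S' φ x → SU S' n x
  fls : ∀ n x, ¬ SP S' (BoundedFormula.falsum : L.BoundedFormula Empty n) x
  eq : ∀ {n : ℕ} (t₁ t₂ : L.Term (Empty ⊕ Fin n)) x y, SS S' (ct (vr t₁)) x y →
    (SP S' (BoundedFormula.equal t₁ t₂) x ↔ SS S' (ct (vr t₂)) x y)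
  rel : ∀ {n k : ℕ} (r : L.Relations k) (ts : Fin k → L.Term (Empty ⊕ Fin n)) x y,
    SS S' (fun i => vr (ts i)) x y → (SP S' (BoundedFormula.rel r ts) x ↔ SP S' (atom r) y)
  imp : ∀ {n : ℕ} (φ ψ : L.BoundedFormula Empty n) x, SU S' n x →
    (SP S' (φ.imp ψ) x ↔ (SP S' φ x → SP S' ψ x))
  all : ∀ {n : ℕ} (φ : L.BoundedFormula Empty (n + 1)) x, SU S' n x →
    (SP S' φ.all x ↔ ∀ y, SS S' (Fin.castSucc : Fin n → Fin (n + 1)) y x → SP S' φ y)
  thy : ∀ σ ∈ T ∪ L.infiniteTheory, ∀ x, SU S' 0 x → SP S' σ x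

/-- The structure coding `S`, with the set `J` of points outside the code. -/
def CodJ {L : FirstOrder.Language.{0, 0}} {M : Type} (S : L.Structure M) (J : Type) :
    (LC L).Structure (((n : ℕ) × (Fin n → M)) ⊕ J) where
  funMap := fun f _ => isEmptyElim f
  RelMap := fun {m} R v => match m, R, v with
    | _, RelC.U n, v => ∃ x : Fin n → M, v 0 = Sum.inl ⟨n, x⟩
    | _, RelC.P (n := n) φ, v => ∃ x : Fin n → M, v 0 = Sum.inl ⟨n, x⟩ ∧
        @BoundedFormula.Realize L M S Empty n φ default x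
    | _, RelC.Sub (k := k) (n := n) f, v => ∃ x : Fin n → M, v 0 = Sum.inl ⟨n, x⟩ ∧
        v 1 = Sum.inl ⟨k, x ∘ f⟩

/-- The structure decoded from `S'`, on the points coding 1-tuples. -/
def dec {L : FirstOrder.Language.{0, 0}} [∀ n, IsEmpty (L.Functions n)] {N : Type}
    (S' : (LC L).Structure N) : L.Structure {x : N // SU S' 1 x} where
  funMap := fun f _ => isEmptyElim f
  RelMap := fun {n} r v => ∃ y, SU S' n y ∧ (∀ i, SS S' (ct i) y (v i)) ∧ SP S' (atom r) y

/-- The points of `S'` outside the code. -/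
abbrev Junk {L : FirstOrder.Language.{0, 0}} {N : Type} (S' : (LC L).Structure N) : Type :=
  {x : N // ∀ n, ¬ SU S' n x}

/-- [CSM] (helper47) The semantic form of the coding theory. -/
def St_CSM : Prop := ∀ (L : FirstOrder.Language.{0, 0}) [∀ n, IsEmpty (L.Functions n)]
  (b : Bool) (T : L.Theory) (N : Type) [Nonempty N] (S' : (LC L).Structure N),
  @FirstOrder.Language.Theory.Model (LC L) N S' (TC b T) ↔ Dec T S'

/-- [CPR] (helper47) The prefixes of the axioms, and countability of the language. -/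
def St_CPR : Prop := ∀ (L : FirstOrder.Language.{0, 0}) [∀ n, IsEmpty (L.Functions n)]
  (T : L.Theory),
  (∀ σ ∈ TC true T, Pre [true, true, false] σ ∨ Pre [true, true, true] σ) ∧
  (∀ σ ∈ TC false T, Pre [true, true, false] σ ∨ Pre [true, false, true] σ) ∧
  (∀ n, 3 ≤ n → IsEmpty ((LC L).Relations n)) ∧ IsEmpty ((LC L).Relations 0) ∧
  ((∀ n, Countable (L.Relations n)) → ∀ n, Countable ((LC L).Relations n))

/-- [CMD] (helper47) The coding structure of an infinite model. -/
def St_CMD : Prop := ∀ (L : FirstOrder.Language.{0, 0}) [∀ n, IsEmpty (L.Functions n)]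
  (T : L.Theory) (M : Type) [Infinite M] (S : L.Structure M) (J : Type),
  @FirstOrder.Language.Theory.Model L M S T → Dec T (CodJ S J)

/-- [CIS] (helper47) Isomorphisms of coding structures. -/
def St_CIS : Prop := ∀ (L : FirstOrder.Language.{0, 0}) [∀ n, IsEmpty (L.Functions n)]
  (M M' J J' : Type) (S : L.Structure M) (S' : L.Structure M'),
  (Iso (CodJ S J) (CodJ S' J') → Iso S S') ∧
  (Iso S S' → Nonempty (J ≃ J') → Iso (CodJ S J) (CodJ S' J'))

/-- [CDC] (helper47) Decoding. The last part says that the relations of the decoded structure are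
both existential and universal (so they depend continuously on the structure). -/
def St_CDC : Prop := ∀ (L : FirstOrder.Language.{0, 0}) [∀ n, IsEmpty (L.Functions n)]
  (T : L.Theory) (N : Type) (S' : (LC L).Structure N), Dec T S' →
  Infinite {x : N // SU S' 1 x} ∧
  @FirstOrder.Language.Theory.Model L _ (dec S') T ∧
  Iso S' (CodJ (dec S') (Junk S')) ∧
  ∀ (n : ℕ) (r : L.Relations n) (v : Fin n → {x : N // SU S' 1 x}),
    (dec S').RelMap r v ↔ ∀ y, SU S' n y → (∀ i, SS S' (ct i) y (v i)) → SP S' (atom r) y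

/-- [CTC] (helper22) Transfer of countability. -/
def St_CTC : Prop := ∀ (L : FirstOrder.Language.{0, 0}) [∀ n, IsEmpty (L.Functions n)]
  [∀ n, Countable (L.Relations n)] (b : Bool) (T : L.Theory),
  CtblK (ModF (TC b T)) → CtblK (ModF T)

/-- [CTP] (helper22) Transfer of perfect sets.

Proof. Let `F : (ℕ → Bool) → (LC L).Structure ℕ` be as in `PerfK`. By `St_CSM`, `St_CDC` the
structure `dec (F x)` is a model of `T` on the infinite set `A x = {m | SU (F x) 1 m}`, and
`m ∈ A x` is clopen in `x`, hence so is `Nat.nth (· ∈ A x) n = m` (`isOpen_nth` in `VB/A.lean`); let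
`G x : L.Structure ℕ` be the copy of `dec (F x)` along `Nat.nth`; its relations are clopen in `x`
(existential and universal form). `F x` is isomorphic to `CodJ (G x) (Junk (F x))` (`St_CIS`). Let
`j x : ℕ∞` be the `encard` of the junk; the sets `{x | j x = j}` are Borel and cover the Cantor
space, so for one `j` it is uncountable, and contains a Cantor set (`exists_cantor_of_reals` with
`J = Unit`, `Z = id`, `E = Eq`). For `x ≠ y` in it `G x`, `G y` are not isomorphic (`St_CIS`). -/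
def St_CTP : Prop := ∀ (L : FirstOrder.Language.{0, 0}) [∀ n, IsEmpty (L.Functions n)]
  [∀ n, Countable (L.Relations n)] (b : Bool) (T : L.Theory),
  PerfK (ModF (TC b T)) → PerfK (ModF T)

/-- [CFI] The full conjecture follows from the conjecture for theories with axioms `∀∀∃`, `∀∀∀`, and
from the conjecture for theories with axioms `∀∀∃`, `∀∃∀`, in languages with unary and binary
relation symbols only. -/
def St_CFI : Prop := ∀ q : Bool,
  (∀ (L : FirstOrder.Language.{0, 0}) [∀ n, IsEmpty (L.Functions n)]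
    [∀ n, Countable (L.Relations n)] (T : L.Theory),
    (∀ n, 3 ≤ n → IsEmpty (L.Relations n)) →
    (∀ σ ∈ T, Pre [true, true, false] σ ∨ Pre [true, q, true] σ) →
    CtblK (ModF T) ∨ PerfK (ModF T)) →
  ∀ (L : FirstOrder.Language.{0, 0}) [∀ n, IsEmpty (L.Functions n)]
    [∀ n, Countable (L.Relations n)] (T : L.Theory), CtblK (ModF T) ∨ PerfK (ModF T)

end VPF
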