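import Pool.Agent.VPF.DefsF

/-!
# VPF, statements F: free extensions

Every module proves `thm_XXX : St_XXX` in `Pool/Agent/VPF/XXX.lean` (imports: this file and Mathlib
files); statements used are taken as hypotheses, e.g. `theorem thm_FXB (h : St_FXC) : St_FXB`.
Tools: `Pool/Agent/VB/A.lean` (`perfK_of_decode`). See `Pool/Agent/VPF/BIP.lean` for a similar
decoding.
-/

set_option autoImplicit false
set_option linter.unusedVariables false

namespace VPF

open FirstOrder Set Pool.Agent.Helper6.Str Pool.Agent.Helper5.Multi Pool.Agent.Helper79.VC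

/-- [FXC] (2.5 h; no other module) The free extension.

Proof. For `u ∉ D` let `tw u` be the point of `Twn`. Let
`inductive El | base (j : J) | new (a b : El) (z : P)` (countable: `deriving Countable` or an
injection into `List`), `τ' (base j) = τ j`, `τ' (new a b z) = z`, `valid (new a b z)` iff `a`, `b`
valid, `a ≠ b`, `z ∉ D`; `E` := the valid terms (independent of `σ`, `G`). Fix a code
`El → ℕ` (injective) and the linear order `lo`: base points are before new points, inside each kind
compare codes. Default pair: `dft a b := τ' a` if `τ' a ≠ τ' b`; if `τ' a = τ' b`: `τ' a` if `lo a b`,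
and `tw (τ' a)` otherwise.
`ρ a b` by recursion on `b`: `ρ (base i) (base j) = σ i j`. Call `new c d z` good if
`z ≠ ρ c d` and `z ≠ ρ d c` (these are values at smaller terms; formally define `ρ` by well-founded
recursion on `size a + size b`). Then: `ρ c (new c d z) = ρ c d`, `ρ d (new c d z) = ρ d c`,
`ρ (new c d z) c = ρ (new c d z) d = z` if `new c d z` is good; `ρ (new c d z) (new c d z') = z` if
both are good and `z ≠ z'`; in all other cases `ρ a b = dft a b`.
(F1) For `a ≠ b` valid: `ρ a b ∉ D`, `Pt ![ρ a b] ![τ' a]`, `ρ a b ≠ ρ b a` (induction on the sizes: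
`(ρ c (new c d z), ρ (new c d z) c) = (ρ c d, z)` and `z ≠ ρ c d` for good terms; default pairs: by
`tw`; `FD`). Copies: for `c ≠ d` in `E` the copy `C(c, d)` consists of `c`, `d` and the good
`new c d z`; `h : P → D ⊕ E`, `h z = inl z` for `z ∈ D`, `h (ρ c d) = inr c`, `h (ρ d c) = inr d`,
`h z = inr (new c d z)` otherwise, is injective with range `D ∪ C(c, d)`. (F2) For `p ≠ q` in
`C(c, d)`: `(ρ p q, ρ q p)` is the pair of preimages of `p`, `q` under `h`. (F3) If at least three
points lie in `C(c, d)` and in `C(c', d')`, then `c = c'`, `d = d'`: one of the points is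
`new c d z`; if it is `new c' d' z'` we are done; otherwise it is `c'` or `d'`, in the same way some
`new c' d' z'` is `c` or `d`, which is impossible for the sizes.
`A σ G`, relation `R` at `x : Fin n → D ⊕ E`: if there are `a ≠ b` in `E` such that all values of `x`
in `E` are `a` or `b`, choose them and take `N.RelMap R` of the tuple with `inr a ↦ ρ a b`,
`inr b ↦ ρ b a`, `inl d ↦ d` (independent of the choice: if only `a` occurs, `ρ a b` has the type of
`τ' a` over `D` by (F1)). Otherwise, if all values in `E` lie in some `C(c, d)`: `N.RelMap R` of the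
tuple of preimages under `h` (unique by (F3)). Otherwise, if all values are base points
`inr (base (w i))`: `G n R w`. Otherwise false. With `b = base`: `cop`: any two points lie in
`D ∪ C(c, d)` for suitable `c ≠ d` (there are two points in `E`), and `h` is an embedding by (F2),
(F3); `ι` is any of these maps (they agree on `D`). `pair`: definition. `dflt`: for `e = new c d z`
the exceptions are the base points among `c`, `d`; for the others all pairs are default, and the
base point is before `e`, so `(ρ e (b i), ρ (b i) e)` is `(z, τ i)` if `z ≠ τ i` and `(tw z, τ i)` if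
`z = τ i`. `free`: three base points are never in a copy. `free'`: three points `e, b i, b j` in
`C(c, d)` means `{c, d} = {b i, b j}` and `e = new c d z`, so the exceptional pair is `(c, d)` if
both are base points (otherwise any pair). `FDep`: all values `ρ a b` used depend on finitely many
values of `σ` (induction on size), the copy `C(c, d)` in the second case is determined by the terms
in `x`. -/
def St_FXC : Prop := ∀ (L : FirstOrder.Language.{0, 0}) [∀ n, IsEmpty (L.Functions n)]
  (P J : Type) [Countable P] [Countable J] (N : L.Structure P) (D : Set P) (τ : J → P),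
  Twn N D → (∃ i j : J, i ≠ j) → (∀ i, τ i ∉ D) →
  ∃ (E : Type) (_ : Countable E) (b : J → E)
    (A : (J → J → P) → (∀ n : ℕ, L.Relations n → (Fin n → J) → Prop) → L.Structure (D ⊕ E))
    (ρ : (J → J → P) → E → E → P),
    (∀ σ G, FD N D τ σ → FX N D τ σ G (A σ G) b (ρ σ)) ∧ FDep A

/-- [FXB] (1.5 h; uses `St_FXC`) Two different types of pairs.

Proof. `¬ Pt ![u, v] ![u', v']` gives `R : L.Relations n` and `w : Fin n → D ⊕ Fin 2` such that
`α(u, v)` and `α(u', v')` differ, where `α(x, y) := N.RelMap R (Sum.elim Subtype.val ![x, y] ∘ w)`;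
the two pairs may be exchanged (types of points are the same), so let `α(u, v)` be true and
`α(u', v')` false. `J := ℕ ⊕ ℕ` with points `A i` (`τ = u`), `B j` (`τ = v`). For `z : ℕ → Bool` let
`σ (A i) (A j)`, `σ (A j) (A i)` be `u`, `tw u` for `i < j`, the same for `B` with `v`, `tw v`, and
`(A i, B j)` the pair `(u, v)` if `g i j`, `(u', v')` otherwise, where for `i = 0, ..., 5` and all
`j ≥ 6`: `g i j` iff `i` is even; for `i ≥ 6` and `j ≤ 5`: `g i j` iff `j` is even; `g i j` true for
`i, j ≤ 5`; `g (6 + n) (6 + j)` is false iff `z n = true ∧ j ≤ n`. `A z :=` the structure of `FXC` with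
`G := False`; in it `α(x, y)` for `x, y : D ⊕ E` means `RelMap R` of the tuple `inl d`, `x`, `y`
along `w`. By `FX.cop` and `CopC` (transport along a bijection with `ℕ`; `h ∘` gives the copies)
every structure on `ℕ` isomorphic to `A z` is in `K` (`hmod`). Clopen: `FDep` and every value of `σ`
depends on one value of `z`. Decoding with twelve parameters `p = (A 0, .., A 5, B 0, .., B 5)`
(as points of `D ⊕ E`): `X = {x | x` no parameter, `α(x, B 0) ≠ α(x, B 1)`, `α(x, B 2) ≠ α(x, B 3)`,
`α(x, B 4) ≠ α(x, B 5)}`, `Y = {y | y` no parameter, `α(A 0, y) ≠ α(A 1, y)`, `α(A 2, y) ≠ α(A 3, y)`,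
`α(A 4, y) ≠ α(A 5, y)}`. `X = {A i : i ≥ 6}`: a point `inl d` has the same relation to all `B j` (all
`B j` have type `v` over `D`: `pair`, `FD.ty`), a new point `e` is in default relation to all but two
of the `B j`, so one of the three pairs is not exceptional; `B j`, `j ≥ 6`: the pairs with `B 0` and
`B 1` are both `(tw v, v)`; `A i`: `g`. In the same way `Y = {B j : j ≥ 6}`. So `z n = true` iff there
is `x ∈ X` such that exactly `n + 1` elements `y ∈ Y` have `¬ α(x, y)`. `D p n` is measurable (finite
sets, see `BIP.lean`). Apply `perfK_of_decode` with `ι` the functions `Fin 12 → D ⊕ E`. -/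
def St_FXB : Prop := ∀ (L : FirstOrder.Language.{0, 0}) [∀ n, IsEmpty (L.Functions n)]
  [∀ n, Countable (L.Relations n)] (K : Set (L.Structure ℕ)) (P : Type) [Countable P]
  (N : L.Structure P) (D : Set P), Twn N D → CopC K N D → ∀ u v u' v' : P, u ∉ D → v ∉ D →
  u' ∉ D → v' ∉ D → u ≠ v → u' ≠ v' → Pt N D ![u] ![u'] → Pt N D ![v] ![v'] →
  ¬ Pt N D ![u, v] ![u', v'] → PerfK K

/-- [FXT] (1.5 h; uses `St_FXC`) A symbol of arity at least three.

Proof. `J := ℕ`, `τ i = u`, `(σ i j, σ j i) = (u, tw u)` for `i < j`. For a tuple `w : Fin n → J` of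
the form `(i, j, k, k, ..., k)` (`w 0 = i`, `w 1 = j`, `w t = k` for `t ≥ 2`) with `i`, `j`, `k` all
different let `G` of `R0` be `g i j k`, and `G` false for all other tuples and symbols. `g` for
`z : ℕ → Bool`: `g i 0 1`, `g i 4 5` true and `g i 2 3`, `g i 6 7` false for all `i ≥ 9`; for
`i, j ≥ 9`: `g i j 8` is true, except that `g (9 + n) (9 + j) 8` is false if `z n = true` and
`n < j ≤ 2 * n + 1`; all other `g i j k` false. In a structure on `D ⊕ E` and for the nine parameters
`p k = b k`, `k ≤ 8`: write `r(x, y, y')` for `RelMap R0 (x, y, y', ..., y')`. `X = {x | x` no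
parameter, `r(x, p 0, p 1) ≠ r(x, p 2, p 3)`, `r(x, p 4, p 5) ≠ r(x, p 6, p 7)}`. `X = {b i : i ≥ 9}`:
`inl d`: the pairs `(b 0, b 1)`, `(b 2, b 3)` have the same type over `D` (`pair`, `base`); a new
point `e`: by `free'` all but one pair give `False`, so one of the two inequalities fails; base
points: `free`. Then `z n = true` iff there is `x ∈ X` such that exactly `n + 1` elements
`y ∈ X \ {x}` have `¬ r(x, y, p 8)` (for `x = b (9 + m)` these are the `m + 1` points
`b (9 + j)`, `m < j ≤ 2 * m + 1`, if `z m = true` and none otherwise). As for `St_FXB`: `hmod` by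
`FX.cop`, `CopC`; clopen by `FDep`; `perfK_of_decode`. -/
def St_FXT : Prop := ∀ (L : FirstOrder.Language.{0, 0}) [∀ n, IsEmpty (L.Functions n)]
  [∀ n, Countable (L.Relations n)] (K : Set (L.Structure ℕ)) (P : Type) [Countable P]
  (N : L.Structure P) (D : Set P), Twn N D → CopC K N D → ∀ (n : ℕ) (R0 : L.Relations n),
  3 ≤ n → (∃ u, u ∉ D) → PerfK K

end VPF
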