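import Pool.Agent.VPF.StG

/-!
# VPF, module WGB: the Gödel class is Borel and closed at level `ω`
-/

set_option autoImplicit false

namespace VPF

open FirstOrder Set Pool.Agent.Helper6.Str Pool.Agent.Helper5.Multi Pool.Agent.Helper79.VC
  Pool.Agent.Helper5.DU Pool.Agent.Helper97.VC Pool.Agent.Helper97.LO

/-- Quantifier-free formulas are preserved by partial isomorphisms. -/
private theorem WGB_qf {L : FirstOrder.Language.{0, 0}} {M N : Type} {S : L.Structure M}
    {S' : L.Structure N} {n : ℕ} {φ : FmI L n} (hφ : QFI φ) :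
    ∀ (u : Fin n → M) (u' : Fin n → N), AtEq S S' (range fun j => (u j, u' j)) →
      (Sat S φ u ↔ Sat S' φ u') := by
  induction hφ with
  | eq i j => intro u u' h; exact h.1 _ ⟨i, rfl⟩ _ ⟨j, rfl⟩
  | rel R w =>
    intro u u' h
    exact h.2 _ R (fun i => (u (w i), u' (w i))) fun i => ⟨w i, rfl⟩
  | neg _ ih => intro u u' h; exact not_congr (ih u u' h)
  | conj _ ih => intro u u' h; exact forall_congr' fun k => ih k u u' h

private theorem WGB_meas {L : FirstOrder.Language.{0, 0}} [∀ n, IsEmpty (L.Functions n)]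
    [∀ n, Countable (L.Relations n)] (m : ℕ) (l : ℕ → ℕ) (θ : (i : ℕ) → FmI L (m + 2 + l i)) :
    MeasurableSet {c : Code L | ∃ v, WG θ (toStr c) v} := by
  have h : {c : Code L | ∃ v, WG θ (toStr c) v} =
      ⋃ v : Fin m → ℕ, ⋂ i : ℕ, ⋂ x : ℕ, ⋂ y : ℕ, ⋃ z : Fin (l i) → ℕ,
        {c : Code L | Sat (toStr c) (θ i) (Fin.append (Fin.append v ![x, y]) z)} := by
    ext c
    simp only [WG, mem_ofPred_eq, mem_iUnion, mem_iInter]
  rw [h]
  exact MeasurableSet.iUnion fun v => MeasurableSet.iInter fun i => MeasurableSet.iInter fun x =>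
    MeasurableSet.iInter fun y => MeasurableSet.iUnion fun z => measurableSet_sat _ _

theorem thm_WGB : St_WGB := by
  intro L _ _ m l θ hθ
  refine ⟨WGB_meas m l θ, ?_⟩
  intro S S' v v' hW h i x' y'
  have h2 : BFR S S' univ univ ((((0 : Ordinal.{0}) + (l i : ℕ)) + 1) + 1)
      (range fun i => (v i, v' i)) := by
    refine h.mono (le_of_lt ?_)
    have e : (((0 : Ordinal.{0}) + (l i : ℕ)) + 1) + 1 = ((l i + 2 : ℕ) : Ordinal.{0}) := by
      rw [zero_add]
      push_cast
      rw [add_assoc, one_add_one_eq_two]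
    rw [e]
    exact Ordinal.natCast_lt_omega0 _
  obtain ⟨x, -, hx⟩ := h2.back (lt_add_of_pos_right _ one_pos) (mem_univ x')
  obtain ⟨y, -, hy⟩ := hx.back (lt_add_of_pos_right _ one_pos) (mem_univ y')
  obtain ⟨z, hz⟩ := hW i x y
  obtain ⟨z', -, hz'⟩ := hy.forth_many (l i) z fun _ => mem_univ _
  refine ⟨z', (WGB_qf (hθ i) _ _ (AtEq.anti ?_ hz'.atEq)).mp hz⟩
  rintro _ ⟨j, rfl⟩
  refine Fin.addCases (fun j => ?_) (fun j => ?_) j
  · left
    simp only [Fin.append_left]
    refine Fin.addCases (fun j => ?_) (fun j => ?_) j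
    · simp only [Fin.append_left]
      exact mem_insert_of_mem _ (mem_insert_of_mem _ ⟨j, rfl⟩)
    · simp only [Fin.append_right]
      refine Fin.cases ?_ (fun j => ?_) j
      · exact mem_insert_of_mem _ (mem_insert _ _)
      · refine Fin.cases ?_ (fun j => j.elim0) j
        exact mem_insert _ _
  · right
    simp only [Fin.append_right]
    exact ⟨j, rfl⟩

end VPF
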